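import Mathlib

/-!
# Super differential modules and dg algebras (base file, helper16)

Everything is over a field `k`.  A `SD k` is a `k`-module `V` with a differential `D`
(`D ∘ D = 0`) and the projection `P` on its even part; `D` is odd.
The parity automorphism is `E = 2P - 1`.
-/

open scoped TensorProduct

namespace NC

/-- A differential super module over the field `k`. -/
structure SD (k : Type) [Field k] where
  V : Type
  [ab : AddCommGroup V]
  [md : Module k V]
  /-- the differential -/
  D : V →ₗ[k] V
  /-- the projection on the even part -/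
  P : V →ₗ[k] V
  DD : ∀ v, D (D v) = 0
  PP : ∀ v, P (P v) = P v
  DP : ∀ v, D (P v) = D v - P (D v)

attribute [instance] SD.ab SD.md

namespace SD

variable {k : Type} [Field k]

/-- the parity automorphism -/
def E (X : SD k) : X.V →ₗ[k] X.V := X.P + X.P - LinearMap.id

theorem E_apply (X : SD k) (v : X.V) : X.E v = X.P v + X.P v - v := rfl

theorem EE (X : SD k) (v : X.V) : X.E (X.E v) = v := by
  simp only [E_apply, map_sub, map_add, X.PP]; abel

theorem DE (X : SD k) (v : X.V) : X.D (X.E v) = - X.E (X.D v) := by
  simp only [E_apply, map_sub, map_add, X.DP]; abel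

theorem ED (X : SD k) (v : X.V) : X.E (X.D v) = - X.D (X.E v) := by
  rw [DE, neg_neg]

theorem EP (X : SD k) (v : X.V) : X.E (X.P v) = X.P v := by
  simp only [E_apply, X.PP]; abel

theorem PE (X : SD k) (v : X.V) : X.P (X.E v) = X.P v := by
  simp only [E_apply, map_sub, map_add, X.PP]; abel

/-- even elements -/
def IsEven (X : SD k) (v : X.V) : Prop := X.P v = v
/-- odd elements -/
def IsOdd (X : SD k) (v : X.V) : Prop := X.P v = 0

theorem IsEven.E {X : SD k} {v : X.V} (h : X.IsEven v) : X.E v = v := by
  unfold IsEven at h; simp [E_apply, h]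
theorem IsOdd.E {X : SD k} {v : X.V} (h : X.IsOdd v) : X.E v = - v := by
  unfold IsOdd at h; simp [E_apply, h]

end SD

/-- morphisms of super differential modules (even chain maps) -/
structure SD.Hom {k : Type} [Field k] (X Y : SD k) where
  f : X.V →ₗ[k] Y.V
  D : ∀ v, f (X.D v) = Y.D (f v)
  P : ∀ v, f (X.P v) = Y.P (f v)

theorem SD.Hom.E {k : Type} [Field k] {X Y : SD k} (φ : SD.Hom X Y) (v : X.V) :
    φ.f (X.E v) = Y.E (φ.f v) := by
  simp only [SD.E_apply, map_sub, map_add, φ.P]

/-- dg algebras (unital, associative), super form -/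
structure DGA (k : Type) [Field k] extends SD k where
  mul : V →ₗ[k] V →ₗ[k] V
  one : V
  one_mul' : ∀ a, mul one a = a
  mul_one' : ∀ a, mul a one = a
  mul_assoc' : ∀ a b c, mul (mul a b) c = mul a (mul b c)
  P_one : P one = one
  P_mul : ∀ a b, P (mul a b) = mul (P a) (P b) + mul (a - P a) (b - P b)
  D_mul : ∀ a b, D (mul a b) = mul (D a) b + mul (toSD.E a) (D b)

namespace DGA

variable {k : Type} [Field k]

instance instRing (A : DGA k) : Ring A.V :=
  { A.ab with
    mul := fun a b => A.mul a b
    one := A.one
    mul_assoc := A.mul_assoc'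
    one_mul := A.one_mul'
    mul_one := A.mul_one'
    left_distrib := fun a b c => (A.mul a).map_add b c
    right_distrib := fun a b c => by
      change A.mul (a + b) c = A.mul a c + A.mul b c
      rw [map_add]; rfl
    zero_mul := fun a => by
      change A.mul 0 a = 0
      rw [map_zero]; rfl
    mul_zero := fun a => (A.mul a).map_zero }

theorem mul_def (A : DGA k) (a b : A.V) : a * b = A.mul a b := rfl
theorem one_def (A : DGA k) : (1 : A.V) = A.one := rfl

instance instAlgebra (A : DGA k) : Algebra k A.V :=
  Algebra.ofModule (fun r a b => by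
      simp only [mul_def]; rw [map_smul]; rfl)
    (fun r a b => by simp only [mul_def]; rw [map_smul])

theorem E_mul (A : DGA k) (a b : A.V) : A.E (a * b) = A.E a * A.E b := by
  simp only [SD.E_apply, mul_def, A.P_mul]
  simp only [map_add, map_sub, LinearMap.add_apply, LinearMap.sub_apply]
  abel

theorem E_one (A : DGA k) : A.E 1 = 1 := by
  simp [SD.E_apply, one_def, A.P_one]

theorem D_mul' (A : DGA k) (a b : A.V) : A.D (a * b) = A.D a * b + A.E a * A.D b := A.D_mul a b

theorem D_one (A : DGA k) : A.D 1 = 0 := by
  have h := A.D_mul' 1 1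
  rw [mul_one, E_one, one_mul, mul_one] at h
  exact (left_eq_add.mp h)

example (A : DGA k) (a b c : A.V) : (a + b) * c - b * c = a * c := by noncomm_ring

end DGA

end NC
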