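import Pool.Agent.H16.NC.Act

/-!
# Tensor products over the base field (base file, helper16)

`SD.tens X Y`, the four actions on it (`LA.tensL` no sign, `RA.tensR` no sign, `LA.tensR` and
`RA.tensL` cross the other factor with the Koszul sign), free bimodules.
-/

open scoped TensorProduct

namespace NC

variable {k : Type} [Field k]

/-- induction on pure tensors for identities between linear maps -/
theorem tens_ext {X Y Z : Type} [AddCommGroup X] [Module k X] [AddCommGroup Y] [Module k Y]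
    [AddCommGroup Z] [Module k Z] {f g : X ⊗[k] Y →ₗ[k] Z}
    (h : ∀ x y, f (x ⊗ₜ y) = g (x ⊗ₜ y)) (v : X ⊗[k] Y) : f v = g v := by
  have : f = g := TensorProduct.ext' h
  rw [this]

namespace SD

/-- the differential of a tensor product -/
noncomputable def tD (X Y : SD k) : X.V ⊗[k] Y.V →ₗ[k] X.V ⊗[k] Y.V :=
  TensorProduct.map X.D LinearMap.id + TensorProduct.map X.E Y.D

/-- the even part of a tensor product -/
noncomputable def tP (X Y : SD k) : X.V ⊗[k] Y.V →ₗ[k] X.V ⊗[k] Y.V :=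
  TensorProduct.map X.P Y.P + TensorProduct.map (LinearMap.id - X.P) (LinearMap.id - Y.P)

@[simp] theorem tD_tmul (X Y : SD k) (x : X.V) (y : Y.V) :
    tD X Y (x ⊗ₜ y) = X.D x ⊗ₜ y + X.E x ⊗ₜ Y.D y := rfl

@[simp] theorem tP_tmul (X Y : SD k) (x : X.V) (y : Y.V) :
    tP X Y (x ⊗ₜ y) = X.P x ⊗ₜ Y.P y + (x - X.P x) ⊗ₜ (y - Y.P y) := rfl

/-- tensor product over `k` -/
noncomputable abbrev tens (X Y : SD k) : SD k where
  V := X.V ⊗[k] Y.V
  D := tD X Y
  P := tP X Y
  DD := fun v => by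
    refine tens_ext (f := tD X Y ∘ₗ tD X Y) (g := 0) (fun x y => ?_) v
    simp [X.DD, Y.DD, X.DE, X.EE, TensorProduct.neg_tmul]
  PP := fun v => by
    refine tens_ext (f := tP X Y ∘ₗ tP X Y) (g := tP X Y) (fun x y => ?_) v
    simp [X.PP, Y.PP]
  DP := fun v => by
    refine tens_ext (f := tD X Y ∘ₗ tP X Y) (g := tD X Y - tP X Y ∘ₗ tD X Y) (fun x y => ?_) v
    simp only [LinearMap.comp_apply, LinearMap.sub_apply, tP_tmul, tD_tmul, map_add, map_sub,
      X.PP, X.DP, Y.DP, SD.E_apply, TensorProduct.sub_tmul,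
      TensorProduct.tmul_sub, TensorProduct.add_tmul, TensorProduct.tmul_add]
    abel

@[simp] theorem tens_E (X Y : SD k) (x : X.V) (y : Y.V) :
    (tens X Y).E (x ⊗ₜ y) = X.E x ⊗ₜ Y.E y := by
  change tP X Y (x ⊗ₜ y) + tP X Y (x ⊗ₜ y) - x ⊗ₜ y = _
  simp only [SD.E_apply, tP_tmul, TensorProduct.sub_tmul, TensorProduct.tmul_sub,
    TensorProduct.add_tmul, TensorProduct.tmul_add]
  abel

theorem tens_E_eq (X Y : SD k) : (tens X Y).E = TensorProduct.map X.E Y.E :=
  TensorProduct.ext' (fun x y => tens_E X Y x y)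

/-- functoriality of the tensor product -/
noncomputable def Hom.tens {X X' Y Y' : SD k} (f : SD.Hom X X') (g : SD.Hom Y Y') :
    SD.Hom (X.tens Y) (X'.tens Y') where
  f := TensorProduct.map f.f g.f
  D := fun v => by
    refine tens_ext (f := TensorProduct.map f.f g.f ∘ₗ tD X Y)
      (g := tD X' Y' ∘ₗ TensorProduct.map f.f g.f) (fun x y => ?_) v
    simp [f.D, g.D, f.E]
  P := fun v => by
    refine tens_ext (f := TensorProduct.map f.f g.f ∘ₗ tP X Y)
      (g := tP X' Y' ∘ₗ TensorProduct.map f.f g.f) (fun x y => ?_) v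
    simp [f.P, g.P, map_sub]

@[simp] theorem Hom.tens_tmul {X X' Y Y' : SD k} (f : SD.Hom X X') (g : SD.Hom Y Y')
    (x : X.V) (y : Y.V) : (f.tens g).f (x ⊗ₜ y) = f.f x ⊗ₜ g.f y := rfl

/-- the field as differential module -/
abbrev unit (k : Type) [Field k] : SD k where
  V := k
  D := 0
  P := LinearMap.id
  DD := fun _ => rfl
  PP := fun _ => rfl
  DP := fun _ => by simp

end SD

/-! ### actions on tensor products -/

section

variable {A : DGA k} {X Y : SD k}

/-- left action on the left factor -/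
noncomputable def LA.tensL (a : LA A X) (Y : SD k) : LA A (X.tens Y) where
  act := LinearMap.rTensorHom Y.V ∘ₗ a.act
  mul_act := fun r s v => by
    refine tens_ext (f := LinearMap.rTensorHom Y.V (a.act (r * s)))
      (g := LinearMap.rTensorHom Y.V (a.act r) ∘ₗ LinearMap.rTensorHom Y.V (a.act s))
      (fun x y => ?_) v
    simp [a.mul_act]
  P_act := fun r v => by
    refine tens_ext (f := SD.tP X Y ∘ₗ LinearMap.rTensorHom Y.V (a.act r))
      (g := LinearMap.rTensorHom Y.V (a.act (A.P r)) ∘ₗ SD.tP X Y +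
        LinearMap.rTensorHom Y.V (a.act (r - A.P r)) ∘ₗ (LinearMap.id - SD.tP X Y))
      (fun x y => ?_) v
    simp only [LinearMap.comp_apply, LinearMap.coe_rTensorHom, LinearMap.rTensor_tmul,
      SD.tP_tmul, a.P_act, map_add, map_sub, LinearMap.add_apply, LinearMap.sub_apply,
      LinearMap.id_apply, TensorProduct.sub_tmul,
      TensorProduct.tmul_sub, TensorProduct.add_tmul]
    abel
  D_act := fun r v => by
    refine tens_ext (f := SD.tD X Y ∘ₗ LinearMap.rTensorHom Y.V (a.act r))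
      (g := LinearMap.rTensorHom Y.V (a.act (A.D r)) +
        LinearMap.rTensorHom Y.V (a.act (A.E r)) ∘ₗ SD.tD X Y)
      (fun x y => ?_) v
    simp only [LinearMap.comp_apply, LinearMap.coe_rTensorHom, LinearMap.rTensor_tmul,
      SD.tD_tmul, a.D_act, a.E_act, map_add, LinearMap.add_apply, TensorProduct.add_tmul]
    abel

@[simp] theorem LA.tensL_act (a : LA A X) (Y : SD k) (r : A.V) (x : X.V)
    (y : Y.V) : (a.tensL Y).act r (x ⊗ₜ y) = a.act r x ⊗ₜ y := rfl

/-- right action on the right factor -/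
noncomputable def RA.tensR (a : RA A Y) (X : SD k) : RA A (X.tens Y) where
  act := (LinearMap.lTensorHom X.V ∘ₗ a.act.flip).flip
  act_mul := fun v r s => by
    refine tens_ext (f := LinearMap.lTensorHom X.V (a.act.flip s) ∘ₗ
      LinearMap.lTensorHom X.V (a.act.flip r))
      (g := LinearMap.lTensorHom X.V (a.act.flip (r * s)))
      (fun x y => ?_) v
    simp [a.act_mul]
  P_act := fun v r => by
    refine tens_ext (f := SD.tP X Y ∘ₗ LinearMap.lTensorHom X.V (a.act.flip r))
      (g := LinearMap.lTensorHom X.V (a.act.flip (A.P r)) ∘ₗ SD.tP X Y +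
        LinearMap.lTensorHom X.V (a.act.flip (r - A.P r)) ∘ₗ (LinearMap.id - SD.tP X Y))
      (fun x y => ?_) v
    simp only [LinearMap.comp_apply, LinearMap.coe_lTensorHom, LinearMap.lTensor_tmul,
      SD.tP_tmul, a.P_act, map_add, map_sub, LinearMap.add_apply, LinearMap.sub_apply,
      LinearMap.id_apply, TensorProduct.sub_tmul, LinearMap.flip_apply,
      TensorProduct.tmul_sub, TensorProduct.tmul_add]
    abel
  D_act := fun v r => by
    refine tens_ext (f := SD.tD X Y ∘ₗ LinearMap.lTensorHom X.V (a.act.flip r))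
      (g := LinearMap.lTensorHom X.V (a.act.flip r) ∘ₗ SD.tD X Y +
        LinearMap.lTensorHom X.V (a.act.flip (A.D r)) ∘ₗ (X.tens Y).E)
      (fun x y => ?_) v
    rw [SD.tens_E_eq]
    simp only [LinearMap.comp_apply, LinearMap.coe_lTensorHom, LinearMap.lTensor_tmul,
      SD.tD_tmul, a.D_act, map_add, LinearMap.add_apply, TensorProduct.tmul_add,
      LinearMap.flip_apply, TensorProduct.map_tmul]
    abel

@[simp] theorem RA.tensR_act (a : RA A Y) (X : SD k) (r : A.V) (x : X.V)
    (y : Y.V) : (a.tensR X).act (x ⊗ₜ y) r = x ⊗ₜ a.act y r := rfl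

/-- the operator of the left action on the right factor -/
noncomputable def lcr (a : LA A Y) (X : SD k) : A.V →ₗ[k] (X.V ⊗[k] Y.V) →ₗ[k] (X.V ⊗[k] Y.V) :=
  LinearMap.lTensorHom X.V ∘ₗ a.act ∘ₗ A.P +
    (TensorProduct.mapBilinear (RingHom.id k) X.V Y.V X.V Y.V) X.E ∘ₗ a.act ∘ₗ
      (LinearMap.id - A.P)

@[simp] theorem lcr_tmul (a : LA A Y) (X : SD k) (r : A.V) (x : X.V) (y : Y.V) :
    lcr a X r (x ⊗ₜ y) = x ⊗ₜ a.act (A.P r) y + X.E x ⊗ₜ a.act (r - A.P r) y := rfl

/-- left action on the right factor: `r (x ⊗ y) = (-1)^(|r||x|) x ⊗ r y` -/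
noncomputable def LA.tensR (a : LA A Y) (X : SD k) : LA A (X.tens Y) where
  act := lcr a X
  mul_act := fun r s v => by
    refine tens_ext (f := lcr a X (r * s)) (g := lcr a X r ∘ₗ lcr a X s) (fun x y => ?_) v
    have hP : A.P (r * s) = A.P r * A.P s + (r - A.P r) * (s - A.P s) := A.P_mul r s
    simp only [LinearMap.comp_apply, lcr_tmul, map_add, X.EE, ← a.mul_act, hP, sub_mul, mul_sub,
      map_sub, LinearMap.sub_apply, LinearMap.add_apply, TensorProduct.tmul_sub,
      TensorProduct.tmul_add]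
    abel
  P_act := fun r v => by
    refine tens_ext (f := SD.tP X Y ∘ₗ lcr a X r)
      (g := lcr a X (A.P r) ∘ₗ SD.tP X Y + lcr a X (r - A.P r) ∘ₗ (LinearMap.id - SD.tP X Y))
      (fun x y => ?_) v
    simp only [LinearMap.comp_apply, lcr_tmul, map_add, SD.tP_tmul, X.EP, X.PE, a.P_act, A.PP,
      map_sub, LinearMap.sub_apply, LinearMap.add_apply, TensorProduct.tmul_sub,
      LinearMap.id_apply, TensorProduct.tmul_add, TensorProduct.sub_tmul,
      SD.E_apply, TensorProduct.add_tmul, X.PP]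
    abel
  D_act := fun r v => by
    refine tens_ext (f := SD.tD X Y ∘ₗ lcr a X r)
      (g := lcr a X (A.D r) + lcr a X (A.E r) ∘ₗ SD.tD X Y)
      (fun x y => ?_) v
    simp only [LinearMap.comp_apply, lcr_tmul, map_add, SD.tD_tmul, a.D_act, A.PP, A.DP,
      map_sub, LinearMap.sub_apply, LinearMap.add_apply, TensorProduct.tmul_sub,
      TensorProduct.tmul_add, TensorProduct.sub_tmul,
      SD.E_apply, TensorProduct.add_tmul, X.DP, X.PP]
    abel

@[simp] theorem LA.tensR_act (a : LA A Y) (X : SD k) (r : A.V) (x : X.V) (y : Y.V) :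
    (a.tensR X).act r (x ⊗ₜ y) = x ⊗ₜ a.act (A.P r) y + X.E x ⊗ₜ a.act (r - A.P r) y := rfl

/-- the operator of the right action on the left factor -/
noncomputable def rcl (a : RA A X) (Y : SD k) : (X.V ⊗[k] Y.V) →ₗ[k] A.V →ₗ[k] (X.V ⊗[k] Y.V) :=
  (LinearMap.rTensorHom Y.V ∘ₗ a.act.flip ∘ₗ A.P +
    (TensorProduct.mapBilinear (RingHom.id k) X.V Y.V X.V Y.V).flip Y.E ∘ₗ a.act.flip ∘ₗ
      (LinearMap.id - A.P)).flip

@[simp] theorem rcl_tmul (a : RA A X) (Y : SD k) (r : A.V) (x : X.V) (y : Y.V) :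
    rcl a Y (x ⊗ₜ y) r = a.act x (A.P r) ⊗ₜ y + a.act x (r - A.P r) ⊗ₜ Y.E y := rfl

/-- right action on the left factor: `(x ⊗ y) r = (-1)^(|r||y|) x r ⊗ y` -/
noncomputable def RA.tensL (a : RA A X) (Y : SD k) : RA A (X.tens Y) where
  act := rcl a Y
  act_mul := fun v r s => by
    refine tens_ext (f := (rcl a Y).flip s ∘ₗ (rcl a Y).flip r) (g := (rcl a Y).flip (r * s))
      (fun x y => ?_) v
    have hP : A.P (r * s) = A.P r * A.P s + (r - A.P r) * (s - A.P s) := A.P_mul r s
    simp only [LinearMap.comp_apply, LinearMap.flip_apply, rcl_tmul, map_add, Y.EE, a.act_mul, hP,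
      sub_mul, mul_sub, map_sub, LinearMap.sub_apply, LinearMap.add_apply,
      TensorProduct.sub_tmul, TensorProduct.add_tmul]
    abel
  P_act := fun v r => by
    refine tens_ext (f := SD.tP X Y ∘ₗ (rcl a Y).flip r)
      (g := (rcl a Y).flip (A.P r) ∘ₗ SD.tP X Y +
        (rcl a Y).flip (r - A.P r) ∘ₗ (LinearMap.id - SD.tP X Y))
      (fun x y => ?_) v
    simp only [LinearMap.comp_apply, LinearMap.flip_apply, rcl_tmul, map_add, SD.tP_tmul, Y.EP,
      Y.PE, a.P_act, A.PP, map_sub, LinearMap.sub_apply, LinearMap.add_apply,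
      TensorProduct.tmul_sub, LinearMap.id_apply, TensorProduct.tmul_add, TensorProduct.sub_tmul,
      SD.E_apply, TensorProduct.add_tmul, Y.PP]
    abel
  D_act := fun v r => by
    refine tens_ext (f := SD.tD X Y ∘ₗ (rcl a Y).flip r)
      (g := (rcl a Y).flip r ∘ₗ SD.tD X Y + (rcl a Y).flip (A.D r) ∘ₗ (X.tens Y).E)
      (fun x y => ?_) v
    rw [SD.tens_E_eq]
    simp only [LinearMap.comp_apply, LinearMap.flip_apply, rcl_tmul, map_add, SD.tD_tmul,
      a.D_act, a.E_act, A.PP, A.DP, TensorProduct.map_tmul,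
      map_sub, LinearMap.sub_apply, LinearMap.add_apply, TensorProduct.tmul_sub,
      TensorProduct.tmul_add, TensorProduct.sub_tmul,
      SD.E_apply, TensorProduct.add_tmul, Y.DP, Y.PP]
    abel

@[simp] theorem RA.tensL_act (a : RA A X) (Y : SD k) (r : A.V) (x : X.V) (y : Y.V) :
    (a.tensL Y).act (x ⊗ₜ y) r = a.act x (A.P r) ⊗ₜ y + a.act x (r - A.P r) ⊗ₜ Y.E y := rfl

end

/-- the bimodule `X ⊗ Y` : left action from `X`, right action from `Y` -/
noncomputable def Bi.tensLR {A B : DGA k} {X Y : SD k} (a : LA A X) (b : RA B Y) :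
    Bi A B (X.tens Y) where
  l := a.tensL Y
  r := b.tensR X
  lr := fun s v t => by
    refine tens_ext (f := ((b.tensR X).act.flip t) ∘ₗ (a.tensL Y).act s)
      (g := (a.tensL Y).act s ∘ₗ ((b.tensR X).act.flip t)) (fun x y => ?_) v
    rfl

/-- bimodule structure on `X ⊗ Y` from a bimodule structure of the left factor -/
noncomputable def Bi.tensL {A B : DGA k} {X : SD k} (b : Bi A B X) (Y : SD k) :
    Bi A B (X.tens Y) where
  l := b.l.tensL Y
  r := b.r.tensL Y
  lr := fun s v t => by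
    refine tens_ext (f := ((b.r.tensL Y).act.flip t) ∘ₗ (b.l.tensL Y).act s)
      (g := (b.l.tensL Y).act s ∘ₗ ((b.r.tensL Y).act.flip t)) (fun x y => ?_) v
    change rcl b.r Y (b.l.act s x ⊗ₜ y) t = (b.l.tensL Y).act s (rcl b.r Y (x ⊗ₜ y) t)
    rw [rcl_tmul, rcl_tmul, map_add, b.lr, b.lr]
    rfl

/-- bimodule structure on `X ⊗ Y` from a bimodule structure of the right factor -/
noncomputable def Bi.tensR {A B : DGA k} {Y : SD k} (b : Bi A B Y) (X : SD k) :
    Bi A B (X.tens Y) where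
  l := b.l.tensR X
  r := b.r.tensR X
  lr := fun s v t => by
    refine tens_ext (f := ((b.r.tensR X).act.flip t) ∘ₗ (b.l.tensR X).act s)
      (g := (b.l.tensR X).act s ∘ₗ ((b.r.tensR X).act.flip t)) (fun x y => ?_) v
    change (b.r.tensR X).act (x ⊗ₜ b.l.act (A.P s) y + X.E x ⊗ₜ b.l.act (s - A.P s) y) t =
      x ⊗ₜ b.l.act (A.P s) (b.r.act y t) + X.E x ⊗ₜ b.l.act (s - A.P s) (b.r.act y t)
    rw [map_add, LinearMap.add_apply, ← b.lr, ← b.lr]
    rfl

/-- the free bimodule `A ⊗ B` -/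
noncomputable def BMod.free (A B : DGA k) : BMod A B where
  N := A.toSD.tens B.toSD
  b := Bi.tensLR A.diag.l B.diag.r
  one_l := fun v => by
    refine tens_ext (f := (A.diag.l.tensL B.toSD).act 1) (g := LinearMap.id) (fun x y => ?_) v
    rw [LA.tensL_act]; exact congrArg (· ⊗ₜ y) (one_mul x)
  r_one := fun v => by
    refine tens_ext (f := (B.diag.r.tensR A.toSD).act.flip 1) (g := LinearMap.id)
      (fun x y => ?_) v
    change (B.diag.r.tensR A.toSD).act (x ⊗ₜ y) 1 = _
    rw [RA.tensR_act]; exact congrArg (x ⊗ₜ ·) (mul_one y)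

end NC
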