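import Pool.Agent.H16.NC.Bar

/-!
# The Hochschild complex `HC R N` and the nested complexes (base file, helper16)

`D = Db - om`, `om (snoc w r) = (-1)^(|w|(|r|+1)) r w` (the last letter is multiplied on the head
from the left).  Commuting bimodule structures of `N` act on `HC`: `hd` (left) and `hr` (right).
-/

open scoped TensorProduct

namespace NC

variable {k : Type} [Field k]

/-! ### the right action on the head -/

section hr

variable {R S : DGA k} {N : SD k}

theorem hr_mul (r : RA S N) (w : Wd k N.V R.V) (a b : S.V) :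
    hr R r (hr R r w a) b = hr R r w (a * b) := by
  induction w using Wd.induction generalizing a b with
  | hadd u v hu hv => simp only [map_add, LinearMap.add_apply, hu, hv]
  | hnil n => simp [r.act_mul]
  | hsnoc w hw x =>
    have hP : S.P (a * b) = S.P a * S.P b + (a - S.P a) * (b - S.P b) := S.P_mul a b
    simp only [hr_snoc, map_sub, LinearMap.sub_apply, hw, R.EE, hP]
    simp only [map_sub, map_add, mul_sub, sub_mul, LinearMap.sub_apply, LinearMap.add_apply]
    abel

theorem hr_PW (r : RA S N) (w : Wd k N.V R.V) (a : S.V) :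
    PW N R.toSD (hr R r w a) = hr R r (PW N R.toSD w) (S.P a) +
      hr R r (w - PW N R.toSD w) (a - S.P a) := by
  induction w using Wd.induction generalizing a with
  | hadd u v hu hv =>
    simp only [map_add, LinearMap.add_apply, hu, hv, map_sub, LinearMap.sub_apply]; abel
  | hnil n => simp [r.P_act, ← map_sub]
  | hsnoc w hw x =>
    simp only [hr_snoc, map_sub, map_add, LinearMap.sub_apply, LinearMap.add_apply, PW_snoc, hw,
      S.PP, R.EP, R.PE, R.EE, SD.E_apply, R.PP]
    abel

theorem hr_EW (r : RA S N) (w : Wd k N.V R.V) (a : S.V) :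
    EW N R.toSD (hr R r w a) = hr R r (EW N R.toSD w) (S.E a) := by
  simp only [EW_apply, hr_PW, SD.E_apply, map_sub, map_add, LinearMap.sub_apply,
    LinearMap.add_apply]
  abel

theorem hr_tl (r : RA S N) (ρ : RA R N) (h : RR ρ r) (w : Wd k N.V R.V) (x : R.V) (a : S.V) :
    tl R ρ.act (hr R r w a) x =
      hr R r (tl R ρ.act w (R.P x)) a + hr R r (tl R ρ.act w (x - R.P x)) (S.E a) := by
  induction w using Wd.induction generalizing a x with
  | hadd u v hu hv =>
    simp only [map_add, LinearMap.add_apply, hu, hv]; abel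
  | hnil n =>
    simp only [hr_nil, tl_nil, ← map_add]
    rw [h n x a]
  | hsnoc w hw y =>
    simp only [hr_snoc, tl_snoc, map_sub, map_add, LinearMap.sub_apply, LinearMap.add_apply,
      S.PE, mul_sub, DGA.E_mul, R.EP]
    simp only [SD.E_apply, map_sub, map_add, LinearMap.sub_apply, LinearMap.add_apply,
      mul_sub, sub_mul, mul_add, add_mul, S.PP, R.PP]
    abel

theorem Db_hr (r : RA S N) (ρ : RA R N) (h : RR ρ r) (w : Wd k N.V R.V) (a : S.V) :
    Db ρ (hr R r w a) = hr R r (Db ρ w) a + hr R r (EW N R.toSD w) (S.D a) := by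
  induction w using Wd.induction generalizing a with
  | hadd u v hu hv => simp only [map_add, LinearMap.add_apply, hu, hv]; abel
  | hnil n => simp [r.D_act]
  | hsnoc w hw x =>
    simp only [hr_snoc, map_sub, map_add, LinearMap.sub_apply, LinearMap.add_apply, Db_snoc, hw,
      hr_EW, hr_tl r ρ h, EW_snoc, map_neg, LinearMap.neg_apply, S.DP, SD.E_apply, S.PP, R.DP,
      R.PP]
    abel

theorem hd_hr {T : DGA k} (l : LA T N) (r : RA S N) (h : LR l r) (w : Wd k N.V R.V) (t : T.V)
    (a : S.V) : hr R r (hd R l t w) a = hd R l t (hr R r w a) := by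
  induction w using Wd.induction generalizing a with
  | hadd u v hu hv => simp only [map_add, LinearMap.add_apply, hu, hv]
  | hnil n => simp [h t n a]
  | hsnoc w hw x => simp [hw]

/-- the right action on words through the head -/
noncomputable def RA.words (r : RA S N) (ρ : RA R N) (h : RR ρ r) : RA S (words ρ) where
  act := hr R r
  act_mul := hr_mul r
  P_act := hr_PW r
  D_act := Db_hr r ρ h

end hr

/-! ### the Hochschild complex -/

section HC

variable {R : DGA k} {N : SD k}

/-- auxiliary for `om` -/
noncomputable def omAux (l : LA R N) : Wd k N.V R.V →ₗ[k] R.V →ₗ[k] Wd k N.V R.V :=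
  ((hd R l ∘ₗ R.P).flip ∘ₗ EW N R.toSD) + (hd R l ∘ₗ (LinearMap.id - R.P)).flip

/-- the wrap operator -/
noncomputable def om (l : LA R N) : Wd k N.V R.V →ₗ[k] Wd k N.V R.V :=
  Wd.recW 0 (omAux l) 0

@[simp] theorem om_nil (l : LA R N) (n : N.V) : om l (Wd.nil n) = 0 := by simp [om]
@[simp] theorem om_snoc (l : LA R N) (w : Wd k N.V R.V) (r : R.V) :
    om l (Wd.snoc w r) = hd R l (R.P r) (EW N R.toSD w) + hd R l (r - R.P r) w := by
  simp [om, omAux]

theorem om_PW (l : LA R N) (w : Wd k N.V R.V) :
    om l (PW N R.toSD w) = om l w - PW N R.toSD (om l w) := by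
  induction w using Wd.induction with
  | hadd u v hu hv => simp only [map_add, hu, hv]; abel
  | hnil n => simp
  | hsnoc w _ r =>
    simp only [PW_snoc, map_sub, map_add, om_snoc, R.PP, hd_PW, EW_apply, PW_PW,
      LinearMap.sub_apply, LinearMap.add_apply, SD.E_apply]
    abel

theorem om_EW (l : LA R N) (w : Wd k N.V R.V) :
    om l (EW N R.toSD w) = - EW N R.toSD (om l w) := by
  simp only [EW_apply, map_sub, map_add, om_PW]; abel

theorem om_hd (l : LA R N) {S : DGA k} (l2 : LA S N) (h : LL l l2) (s : S.V)
    (w : Wd k N.V R.V) : om l (hd R l2 s w) = hd R l2 (S.E s) (om l w) := by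
  have hc : ∀ (a : R.V) (b : S.V) (v : Wd k N.V R.V), hd R l a (hd R l2 b v) =
      hd R l2 b (hd R l (R.P a) v) + hd R l2 (S.E b) (hd R l (a - R.P a) v) := by
    intro a b v
    induction v using Wd.induction with
    | hadd u v hu hv => simp only [map_add, hu, hv]; abel
    | hnil n => simp only [hd_nil, ← map_add]; rw [h a b n]
    | hsnoc w hw r => simp only [hd_snoc, hw, map_add, LinearMap.add_apply]
  induction w using Wd.induction with
  | hadd u v hu hv => simp only [map_add, hu, hv]
  | hnil n => simp
  | hsnoc w _ r =>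
    simp only [hd_snoc, om_snoc, hd_EW, map_add]
    rw [hc (R.P r) (S.E s), hc (r - R.P r) s]
    simp only [R.PP, map_sub, sub_self, LinearMap.zero_apply, map_zero, sub_zero, add_zero,
      zero_add, LinearMap.sub_apply]

theorem om_om (l : LA R N) (ρ : RA R N) (w : Wd k N.V R.V) (r : R.V) :
    om l (om l (Wd.snoc w r)) = om l (tl R ρ.act (EW N R.toSD w) r) := by
  induction w using Wd.induction with
  | hadd u v hu hv => simp only [map_add, LinearMap.add_apply, hu, hv]
  | hnil n => simp
  | hsnoc v _ s =>
    have hP : R.P (R.E s * r) = R.P s * R.P r + (R.E s - R.P s) * (r - R.P r) := by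
      have := R.P_mul (R.E s) r
      rw [← R.PE s]; exact this
    simp only [om_snoc, EW_snoc, map_neg, map_add, hd_snoc, tl_snoc, LinearMap.neg_apply, hP,
      hd_EW, EW_EW, ← hd_mul, R.EP, R.PE]
    simp only [SD.E_apply, map_sub, map_add, mul_sub, sub_mul, mul_add, R.PP,
      add_mul, LinearMap.sub_apply, LinearMap.add_apply]
    abel

/-- the Hochschild differential -/
noncomputable def hcD (b : Bi R R N) : Wd k N.V R.V →ₗ[k] Wd k N.V R.V := Db b.r - om b.l

theorem hcD_apply (b : Bi R R N) (w : Wd k N.V R.V) : hcD b w = Db b.r w - om b.l w := rfl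

theorem Db_om (b : Bi R R N) (w : Wd k N.V R.V) :
    Db b.r (om b.l w) + om b.l (Db b.r w) = om b.l (om b.l w) := by
  induction w using Wd.induction with
  | hadd u v hu hv => simp only [map_add] ; rw [← hu, ← hv]; abel
  | hnil n => simp
  | hsnoc w _ r =>
    rw [om_om b.l b.r]
    simp only [om_snoc, map_add, map_sub, Db_snoc, Db_hd b.l b.r b.lr, R.DP, Db_EW, EW_EW,
      LinearMap.sub_apply, R.EP, SD.E_apply, map_neg]
    have h1 : EW N R.toSD (Db b.r w) = - Db b.r (EW N R.toSD w) := by rw [Db_EW, neg_neg]
    rw [h1]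
    simp only [map_neg, map_sub, map_add, LinearMap.sub_apply, LinearMap.add_apply, R.PP]
    abel

/-- the Hochschild complex -/
noncomputable abbrev HC (b : Bi R R N) : SD k where
  V := Wd k N.V R.V
  D := hcD b
  P := PW N R.toSD
  DD := fun w => by
    simp only [hcD_apply, map_sub, Db_Db]
    rw [← Db_om b w]; abel
  PP := PW_PW N R.toSD
  DP := fun w => by
    simp only [hcD_apply, map_sub, Db_PW, om_PW]; abel

theorem HC_E (b : Bi R R N) : (HC b).E = EW N R.toSD := rfl

@[simp] theorem hcD_nil (b : Bi R R N) (n : N.V) : hcD b (Wd.nil n) = Wd.nil (N.D n) := by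
  simp [hcD_apply]

theorem hcD_snoc (b : Bi R R N) (w : Wd k N.V R.V) (r : R.V) :
    hcD b (Wd.snoc w r) = Wd.snoc (Db b.r w) r - Wd.snoc (EW N R.toSD w) (R.D r)
      + tl R b.r.act (EW N R.toSD w) r - hd R b.l (R.P r) (EW N R.toSD w)
      - hd R b.l (r - R.P r) w := by
  simp only [hcD_apply, Db_snoc, om_snoc]; abel

/-- left action of `S` on `HC` through the head -/
noncomputable def hcLA {S : DGA k} (b : Bi R R N) (l2 : LA S N) (h1 : LL b.l l2)
    (h2 : LR l2 b.r) : LA S (HC b) where
  act := hd R l2
  mul_act := hd_mul l2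
  P_act := hd_PW l2
  D_act := fun s w => by
    simp only [hcD_apply, Db_hd l2 b.r h2, om_hd b.l l2 h1, map_sub]; abel

/-- right action of `S` on `HC` through the head -/
noncomputable def hcRA {S : DGA k} (b : Bi R R N) (r2 : RA S N) (h1 : LR b.l r2)
    (h2 : RR b.r r2) : RA S (HC b) where
  act := hr R r2
  act_mul := hr_mul r2
  P_act := hr_PW r2
  D_act := fun w s => by
    have h3 : om b.l (hr R r2 w s) = hr R r2 (om b.l w) s := by
      induction w using Wd.induction generalizing s with
      | hadd u v hu hv => simp only [map_add, LinearMap.add_apply, hu, hv]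
      | hnil n => simp
      | hsnoc w _ x =>
        simp only [hr_snoc, om_snoc, map_sub, map_add, hr_EW, LinearMap.add_apply,
          hd_hr b.l r2 h1, LinearMap.sub_apply, SD.E_apply, S.PP, R.PP]
        abel
    change Db b.r (hr R r2 w s) - om b.l (hr R r2 w s) = hr R r2 (Db b.r w - om b.l w) s +
      hr R r2 (EW N R.toSD w) (S.D s)
    rw [h3, Db_hr r2 b.r h2, map_sub, LinearMap.sub_apply]
    abel

/-- the lift of a commuting bimodule structure to `HC` -/
noncomputable def Bi.hc {S T : DGA k} (b : Bi R R N) (c : Bi S T N) (h : Comm b c) :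
    Bi S T (HC b) where
  l := hcLA b c.l h.ll h.rl
  r := hcRA b c.r h.lr h.rr
  lr := fun s w t => hd_hr c.l c.r c.lr w s t

/-- lifts of commuting structures commute -/
theorem Comm.hc {S T S' T' : DGA k} {b : Bi R R N} {c : Bi S T N} {d : Bi S' T' N}
    (hc : Comm b c) (hd' : Comm b d) (h : Comm c d) : Comm (b.hc c hc) (b.hc d hd') := by
  constructor
  · intro s t w
    change hd R c.l s (hd R d.l t w) = hd R d.l t (hd R c.l (S.P s) w) +
      hd R d.l (S'.E t) (hd R c.l (s - S.P s) w)
    induction w using Wd.induction with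
    | hadd u v hu hv => simp only [map_add, hu, hv]; abel
    | hnil n => simp only [hd_nil, ← map_add]; rw [h.ll s t n]
    | hsnoc w hw r => simp only [hd_snoc, hw, map_add, LinearMap.add_apply]
  · intro s w t
    exact hd_hr c.l d.r h.lr w s t
  · intro s w t
    exact hd_hr d.l c.r h.rl w s t
  · intro w s t
    change hr R c.r (hr R d.r w t) s = hr R d.r (hr R c.r w (T.P s)) t +
      hr R d.r (hr R c.r w (s - T.P s)) (T'.E t)
    induction w using Wd.induction generalizing s t with
    | hadd u v hu hv => simp only [map_add, LinearMap.add_apply, hu, hv]; abel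
    | hnil n => simp only [hr_nil, ← map_add]; rw [h.rr n s t]
    | hsnoc w hw r =>
      simp only [hr_snoc, map_sub, map_add, LinearMap.sub_apply, LinearMap.add_apply, hw,
        T.PP, T'.PP, SD.E_apply, R.PP]
      abel

/-- a map which kills commutators extends to `HC` by zero on positive length -/
noncomputable def tr0 (b : Bi R R N) {Z : SD k} (g : SD.Hom N Z)
    (hg : ∀ n r, g.f (b.r.act n r) =
      g.f (b.l.act (R.P r) n) + g.f (b.l.act (r - R.P r) (N.E n))) : SD.Hom (HC b) Z where
  f := Wd.recW g.f 0 0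
  D := fun w => by
    induction w using Wd.induction with
    | hadd u v hu hv => simp only [map_add, hu, hv]
    | hnil n => simp [g.D]
    | hsnoc w _ r =>
      have h0 : ∀ v : Wd k N.V R.V, (Wd.recW g.f 0 0 : Wd k N.V R.V →ₗ[k] Z.V)
          (tl R b.r.act v r) =
          (Wd.recW g.f 0 0 : Wd k N.V R.V →ₗ[k] Z.V) (hd R b.l (R.P r) v +
            hd R b.l (r - R.P r) (EW N R.toSD v)) := by
        intro v
        induction v using Wd.induction with
        | hadd u v hu hv => simp only [map_add, LinearMap.add_apply, hu, hv]; abel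
        | hnil n => simp [hg n r]
        | hsnoc v _ s => simp
      rw [hcD_snoc, map_sub, map_sub, map_add, map_sub, h0, map_add, EW_EW]
      simp
  P := fun w => by
    induction w using Wd.induction with
    | hadd u v hu hv => simp only [map_add, hu, hv]
    | hnil n => simp [g.P]
    | hsnoc w _ r => simp

@[simp] theorem tr0_nil (b : Bi R R N) {Z : SD k} (g : SD.Hom N Z) (hg) (n : N.V) :
    (tr0 b g hg).f (Wd.nil n) = g.f n := by simp [tr0]
@[simp] theorem tr0_snoc (b : Bi R R N) {Z : SD k} (g : SD.Hom N Z) (hg) (w : Wd k N.V R.V)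
    (r : R.V) : (tr0 b g hg).f (Wd.snoc w r) = 0 := by simp [tr0]

end HC

end NC
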