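import Pool.Agent.H16.NC.SD

/-!
# Actions of dg algebras on super differential modules (base file, helper16)

Unbundled: `LA A N` left action, `RA B N` right action, `Bi A B N` bimodule structure on the
differential module `N`.  One and the same `N` can carry several commuting structures:
`LL`, `LR`, `RR`, `Comm`.  Bundled and unital: `BMod A B`.
Signs: the Koszul rule; `E` is the parity automorphism, `P` the even part.
-/

open scoped TensorProduct

namespace NC

variable {k : Type} [Field k]

/-! ### morphisms of dg algebras (units need not be preserved) -/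

/-- homomorphism of dg algebras, not necessarily unital -/
structure DGA.NHom (A B : DGA k) extends SD.Hom A.toSD B.toSD where
  mul : ∀ a b, f (a * b) = f a * f b

/-- the identity -/
def DGA.NHom.id (A : DGA k) : DGA.NHom A A where
  f := LinearMap.id
  D := fun _ => rfl
  P := fun _ => rfl
  mul := fun _ _ => rfl

/-- the base field as dg algebra -/
abbrev DGA.triv (k : Type) [Field k] : DGA k where
  V := k
  D := 0
  P := LinearMap.id
  DD := fun _ => rfl
  PP := fun _ => rfl
  DP := fun _ => by simp
  mul := LinearMap.mul k k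
  one := 1
  one_mul' := fun a => by simp
  mul_one' := fun a => by simp
  mul_assoc' := fun a b c => by simp [mul_assoc]
  P_one := rfl
  P_mul := fun a b => by simp
  D_mul := fun a b => by simp

/-! ### actions -/

/-- left action of a dg algebra (unitality is a separate hypothesis) -/
structure LA (A : DGA k) (N : SD k) where
  act : A.V →ₗ[k] N.V →ₗ[k] N.V
  mul_act : ∀ a b y, act (a * b) y = act a (act b y)
  P_act : ∀ a y, N.P (act a y) = act (A.P a) (N.P y) + act (a - A.P a) (y - N.P y)
  D_act : ∀ a y, N.D (act a y) = act (A.D a) y + act (A.E a) (N.D y)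

/-- right action of a dg algebra -/
structure RA (A : DGA k) (N : SD k) where
  act : N.V →ₗ[k] A.V →ₗ[k] N.V
  act_mul : ∀ x a b, act (act x a) b = act x (a * b)
  P_act : ∀ x a, N.P (act x a) = act (N.P x) (A.P a) + act (x - N.P x) (a - A.P a)
  D_act : ∀ x a, N.D (act x a) = act (N.D x) a + act (N.E x) (A.D a)

/-- bimodule structure on the differential module `N` -/
structure Bi (A B : DGA k) (N : SD k) where
  l : LA A N
  r : RA B N
  lr : ∀ a x b, r.act (l.act a x) b = l.act a (r.act x b)

theorem LA.E_act {A : DGA k} {N : SD k} (Y : LA A N) (a : A.V) (y : N.V) :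
    N.E (Y.act a y) = Y.act (A.E a) (N.E y) := by
  simp only [SD.E_apply, Y.P_act, map_sub, map_add, LinearMap.sub_apply, LinearMap.add_apply]
  abel

theorem RA.E_act {A : DGA k} {N : SD k} (X : RA A N) (x : N.V) (a : A.V) :
    N.E (X.act x a) = X.act (N.E x) (A.E a) := by
  simp only [SD.E_apply, X.P_act, map_sub, map_add, LinearMap.sub_apply, LinearMap.add_apply]
  abel

/-- the trivial (zero) left action -/
def LA.zero (A : DGA k) (N : SD k) : LA A N where
  act := 0
  mul_act := fun _ _ _ => rfl
  P_act := fun _ _ => by simp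
  D_act := fun _ _ => by simp

/-- restriction along a homomorphism -/
def LA.res {A A' : DGA k} {N : SD k} (Y : LA A N) (f : DGA.NHom A' A) : LA A' N where
  act := Y.act ∘ₗ f.f
  mul_act := fun a b y => by simp [f.mul, Y.mul_act]
  P_act := fun a y => by simp [Y.P_act, f.P]
  D_act := fun a y => by simp [Y.D_act, f.D, f.E]

/-- restriction along a homomorphism -/
def RA.res {A A' : DGA k} {N : SD k} (X : RA A N) (f : DGA.NHom A' A) : RA A' N where
  act := X.act.compl₂ f.f
  act_mul := fun x a b => by simp [f.mul, X.act_mul]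
  P_act := fun x a => by simp [X.P_act, f.P]
  D_act := fun x a => by simp [X.D_act, f.D]

/-- restriction of bimodules -/
def Bi.res {A A' B B' : DGA k} {N : SD k} (b : Bi A B N) (f : DGA.NHom A' A)
    (g : DGA.NHom B' B) : Bi A' B' N where
  l := b.l.res f
  r := b.r.res g
  lr := fun a x c => b.lr (f.f a) x (g.f c)

/-- a dg algebra as bimodule over itself -/
def DGA.diag (A : DGA k) : Bi A A A.toSD where
  l := { act := A.mul, mul_act := A.mul_assoc', P_act := A.P_mul, D_act := A.D_mul }
  r := { act := A.mul, act_mul := A.mul_assoc', P_act := A.P_mul, D_act := A.D_mul }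
  lr := A.mul_assoc'

/-- scalars act on the left -/
def LA.scalar (N : SD k) : LA (DGA.triv k) N where
  act := LinearMap.lsmul k N.V
  mul_act := fun a b y => mul_smul a b y
  P_act := fun a y => by simp
  D_act := fun a y => by
    have h1 : (DGA.triv k).D a = 0 := rfl
    have h2 : (DGA.triv k).E a = a := by
      rw [SD.E_apply]; change a + a - a = a; abel
    rw [h1, h2]; simp

/-- scalars act on the right -/
def RA.scalar (N : SD k) : RA (DGA.triv k) N where
  act := (LinearMap.lsmul k N.V).flip
  act_mul := fun x a b => by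
    change (b : k) • (a : k) • x = ((a : k) * (b : k)) • x
    rw [smul_smul, mul_comm]
  P_act := fun x a => by simp
  D_act := fun x a => by
    have h1 : (DGA.triv k).D a = 0 := rfl
    rw [h1]; simp

/-! ### commuting structures -/

/-- two left actions commute (with the Koszul sign) -/
def LL {A B : DGA k} {N : SD k} (x : LA A N) (y : LA B N) : Prop :=
  ∀ a b n, x.act a (y.act b n) =
    y.act b (x.act (A.P a) n) + y.act (B.E b) (x.act (a - A.P a) n)

/-- two right actions commute (with the Koszul sign) -/
def RR {A B : DGA k} {N : SD k} (x : RA A N) (y : RA B N) : Prop :=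
  ∀ n a b, x.act (y.act n b) a =
    y.act (x.act n (A.P a)) b + y.act (x.act n (a - A.P a)) (B.E b)

/-- a left and a right action commute -/
def LR {A B : DGA k} {N : SD k} (x : LA A N) (y : RA B N) : Prop :=
  ∀ a n b, y.act (x.act a n) b = x.act a (y.act n b)

/-- two bimodule structures commute -/
structure Comm {A A' B B' : DGA k} {N : SD k} (x : Bi A A' N) (y : Bi B B' N) : Prop where
  ll : LL x.l y.l
  lr : LR x.l y.r
  rl : LR y.l x.r
  rr : RR x.r y.r

/-! ### morphisms -/

/-- compatibility of a map with left actions -/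
def LA.IsHom {A : DGA k} {N N' : SD k} (x : LA A N) (x' : LA A N') (φ : SD.Hom N N') : Prop :=
  ∀ a n, φ.f (x.act a n) = x'.act a (φ.f n)

/-- compatibility of a map with right actions -/
def RA.IsHom {A : DGA k} {N N' : SD k} (x : RA A N) (x' : RA A N') (φ : SD.Hom N N') : Prop :=
  ∀ n a, φ.f (x.act n a) = x'.act (φ.f n) a

/-- compatibility of a map with bimodule structures -/
structure Bi.IsHom {A B : DGA k} {N N' : SD k} (x : Bi A B N) (x' : Bi A B N')
    (φ : SD.Hom N N') : Prop where
  l : x.l.IsHom x'.l φ
  r : x.r.IsHom x'.r φ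

namespace SD

/-- identity -/
def Hom.id (N : SD k) : SD.Hom N N where
  f := LinearMap.id
  D := fun _ => rfl
  P := fun _ => rfl

/-- composition -/
def Hom.comp {N N' N'' : SD k} (g : SD.Hom N' N'') (f : SD.Hom N N') : SD.Hom N N'' where
  f := g.f ∘ₗ f.f
  D := fun v => by simp [f.D, g.D]
  P := fun v => by simp [f.P, g.P]

@[simp] theorem Hom.id_f (N : SD k) (v : N.V) : (Hom.id N).f v = v := rfl
@[simp] theorem Hom.comp_f {N N' N'' : SD k} (g : SD.Hom N' N'') (f : SD.Hom N N') (v : N.V) :
    (g.comp f).f v = g.f (f.f v) := rfl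

/-- acyclic -/
def Acyclic (N : SD k) : Prop := ∀ x, N.D x = 0 → ∃ y, N.D y = x

/-- quasi-isomorphism, elementwise -/
structure Hom.QI {N N' : SD k} (f : SD.Hom N N') : Prop where
  inj : ∀ x y, N.D x = 0 → f.f x = N'.D y → ∃ z, N.D z = x
  surj : ∀ y, N'.D y = 0 → ∃ x z, N.D x = 0 ∧ y = f.f x + N'.D z

/-- `x` and `y` are homologous -/
def Hml (N : SD k) (x y : N.V) : Prop := ∃ z, N.D z = x - y

/-- finite dimensional homology: finitely many cycles span all cycles modulo boundaries -/
def FinH (N : SD k) : Prop :=
  ∃ s : Finset N.V, ∀ x, N.D x = 0 → ∃ y ∈ Submodule.span k (s : Set N.V), N.Hml x y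

/-- the zero differential module -/
def IsZero (N : SD k) : Prop := ∀ x : N.V, x = 0

/-- short exact sequence -/
structure SES {N' N N'' : SD k} (f : SD.Hom N' N) (g : SD.Hom N N'') : Prop where
  inj : ∀ x, f.f x = 0 → x = 0
  surj : ∀ z, ∃ y, g.f y = z
  zero : ∀ x, g.f (f.f x) = 0
  exact : ∀ y, g.f y = 0 → ∃ x, f.f x = y

/-! ### parity shift -/

/-- the parity shift: same space, `D` replaced by `- D`, even and odd exchanged -/
abbrev sh (N : SD k) : SD k where
  V := N.V
  D := -N.D
  P := LinearMap.id - N.P
  DD := fun v => by simp [N.DD]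
  PP := fun v => by simp [N.PP]
  DP := fun v => by simp [N.DP]

/-- iterated shift by a parity -/
def shb (N : SD k) : Bool → SD k
  | false => N
  | true => N.sh

/-- shift of a morphism -/
def Hom.sh {N N' : SD k} (f : SD.Hom N N') : SD.Hom N.sh N'.sh where
  f := f.f
  D := fun v => by simp [f.D]
  P := fun v => by simp [f.P]

end SD

theorem SD.E_sh (N : SD k) (v : N.V) : N.sh.E v = - N.E v := by
  change (v - N.P v) + (v - N.P v) - v = -(N.P v + N.P v - v); abel

/-- shift of a left action: twist by the parity automorphism -/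
def LA.sh {A : DGA k} {N : SD k} (x : LA A N) : LA A N.sh where
  act := x.act ∘ₗ A.E
  mul_act := fun a b y => by
    change x.act (A.E (a * b)) y = x.act (A.E a) (x.act (A.E b) y)
    rw [A.E_mul, x.mul_act]
  P_act := fun a y => by
    change x.act (A.E a) y - N.P (x.act (A.E a) y) =
      x.act (A.E (A.P a)) (y - N.P y) + x.act (A.E (a - A.P a)) (y - (y - N.P y))
    simp only [x.P_act, SD.E_apply, A.PP, map_sub, map_add, LinearMap.sub_apply,
      LinearMap.add_apply]
    abel
  D_act := fun a y => by
    change -(N.D (x.act (A.E a) y)) = x.act (A.E (A.D a)) y + x.act (A.E (A.E a)) (-(N.D y))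
    rw [x.D_act, A.ED, map_neg]
    simp only [LinearMap.neg_apply, map_neg]
    abel

/-- shift of a right action -/
def RA.sh {A : DGA k} {N : SD k} (x : RA A N) : RA A N.sh where
  act := x.act
  act_mul := x.act_mul
  P_act := fun y a => by
    change x.act y a - N.P (x.act y a) =
      x.act (y - N.P y) (A.P a) + x.act (y - (y - N.P y)) (a - A.P a)
    rw [x.P_act]
    simp only [map_sub, LinearMap.sub_apply]
    abel
  D_act := fun y a => by
    change -(N.D (x.act y a)) = x.act (-(N.D y)) a + x.act (N.sh.E y) (A.D a)
    rw [x.D_act, SD.E_sh]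
    simp only [LinearMap.neg_apply, map_neg]
    abel

/-- shift of a bimodule structure -/
def Bi.sh {A B : DGA k} {N : SD k} (b : Bi A B N) : Bi A B N.sh where
  l := b.l.sh
  r := b.r.sh
  lr := fun a x c => b.lr (A.E a) x c

/-! ### bundled unital bimodules -/

/-- unital dg bimodules -/
structure BMod (A B : DGA k) where
  N : SD k
  b : Bi A B N
  one_l : ∀ y, b.l.act 1 y = y
  r_one : ∀ y, b.r.act y 1 = y

/-- morphisms of dg bimodules -/
structure BMod.Hom {A B : DGA k} (X Y : BMod A B) extends SD.Hom X.N Y.N where
  isHom : X.b.IsHom Y.b toHom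

/-- the diagonal bimodule -/
def BMod.diag (A : DGA k) : BMod A A where
  N := A.toSD
  b := A.diag
  one_l := fun y => one_mul y
  r_one := fun y => mul_one y

/-- parity shift -/
def BMod.sh {A B : DGA k} (X : BMod A B) : BMod A B where
  N := X.N.sh
  b := X.b.sh
  one_l := fun y => by
    change X.b.l.act (A.E 1) y = y
    rw [A.E_one, X.one_l]
  r_one := X.r_one

end NC
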