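import Mathlib

/-!
# Words `Wd k N R = ⨁ n, N ⊗ R ⊗ ... ⊗ R` (base file, helper16)

`nil n` is the word of length 0, `snoc w r` is the word `w ⊗ r`.
All linear maps out of `Wd k N R` are defined with `Wd.rec` (primitive recursion) and compared
with `Wd.ext` / `Wd.induction`.
-/

open scoped TensorProduct

namespace NC

section

variable (k : Type) [Field k] (N R : Type) [AddCommGroup N] [Module k N]
  [AddCommGroup R] [Module k R]

/-- words of length `n` -/
noncomputable def TT : ℕ → ModuleCat.{0} k
  | 0 => ModuleCat.of k N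
  | n + 1 => ModuleCat.of k (TT n ⊗[k] R)

/-- words with head in `N` and letters in `R` -/
def Wd : Type := DirectSum ℕ (fun n => (TT k N R n : Type))

noncomputable instance : AddCommGroup (Wd k N R) :=
  inferInstanceAs (AddCommGroup (DirectSum ℕ (fun n => (TT k N R n : Type))))
noncomputable instance : Module k (Wd k N R) :=
  inferInstanceAs (Module k (DirectSum ℕ (fun n => (TT k N R n : Type))))

end

namespace Wd

variable {k : Type} [Field k] {N R : Type} [AddCommGroup N] [Module k N]
  [AddCommGroup R] [Module k R] {Z : Type} [AddCommGroup Z] [Module k Z]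

/-- length zero words (internal) -/
noncomputable def zeroE : N ≃ₗ[k] (TT k N R 0 : Type) := LinearEquiv.refl k N

/-- length `n+1` words (internal) -/
noncomputable def succE (n : ℕ) : ((TT k N R n : Type) ⊗[k] R) ≃ₗ[k] (TT k N R (n+1) : Type) :=
  LinearEquiv.refl k ((TT k N R n : Type) ⊗[k] R)

/-- inclusion of words of length `n` (internal) -/
noncomputable def inc (n : ℕ) : (TT k N R n : Type) →ₗ[k] Wd k N R :=
  DirectSum.lof k ℕ (fun n => (TT k N R n : Type)) n

theorem induction_inc {p : Wd k N R → Prop} (h0 : p 0) (hadd : ∀ a b, p a → p b → p (a + b))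
    (hinc : ∀ n x, p (inc n x)) (w : Wd k N R) : p w :=
  DirectSum.induction_on (motive := p) w h0 hinc hadd

/-- maps out of words from maps out of words of fixed length (internal) -/
noncomputable def out (f : (n : ℕ) → ((TT k N R n : Type) →ₗ[k] Z)) : Wd k N R →ₗ[k] Z :=
  DirectSum.toModule k ℕ Z f

theorem out_inc (f : (n : ℕ) → ((TT k N R n : Type) →ₗ[k] Z)) (n : ℕ) (x : (TT k N R n : Type)) :
    out f (inc n x) = f n x := by
  have h := DirectSum.toModule_lof k (M := fun n => (TT k N R n : Type)) (φ := f) n x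
  exact h

/-- the word of length zero -/
noncomputable def nil : N →ₗ[k] Wd k N R := inc 0 ∘ₗ (zeroE (R := R)).toLinearMap

/-- append a letter -/
noncomputable def snoc : Wd k N R →ₗ[k] R →ₗ[k] Wd k N R :=
  out (fun n => (TensorProduct.mk k (TT k N R n) R).compr₂
    (inc (n+1) ∘ₗ (succE n).toLinearMap))

theorem snoc_inc (n : ℕ) (w : (TT k N R n : Type)) (r : R) :
    snoc (inc n w) r = inc (n+1) (succE n (w ⊗ₜ[k] r)) := by
  unfold snoc
  rw [out_inc]; rfl

/-- recursion on words of length `n` (internal) -/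
noncomputable def recN (f₀ : N →ₗ[k] Z) (S₁ : Wd k N R →ₗ[k] R →ₗ[k] Z)
    (S₂ : Z →ₗ[k] R →ₗ[k] Z) : (n : ℕ) → ((TT k N R n : Type) →ₗ[k] Z)
  | 0 => f₀ ∘ₗ (zeroE (R := R)).symm.toLinearMap
  | n + 1 => TensorProduct.lift (S₁ ∘ₗ inc n + S₂ ∘ₗ recN f₀ S₁ S₂ n) ∘ₗ
      (succE n).symm.toLinearMap

/-- primitive recursion: the linear map `F` with `F (nil n) = f₀ n` and
`F (snoc w r) = S₁ w r + S₂ (F w) r`. -/
noncomputable def recW (f₀ : N →ₗ[k] Z) (S₁ : Wd k N R →ₗ[k] R →ₗ[k] Z)
    (S₂ : Z →ₗ[k] R →ₗ[k] Z) : Wd k N R →ₗ[k] Z :=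
  out (recN f₀ S₁ S₂)

@[simp] theorem recW_nil (f₀ : N →ₗ[k] Z) (S₁ : Wd k N R →ₗ[k] R →ₗ[k] Z)
    (S₂ : Z →ₗ[k] R →ₗ[k] Z) (n : N) : recW f₀ S₁ S₂ (nil n) = f₀ n := by
  unfold nil recW
  rw [LinearMap.comp_apply, out_inc]
  simp [recN]

/-- induction on words -/
theorem induction {p : Wd k N R → Prop} (hadd : ∀ a b, p a → p b → p (a + b))
    (hnil : ∀ n, p (nil n)) (hsnoc : ∀ w, p w → ∀ r, p (snoc w r)) (w : Wd k N R) : p w := by
  have h0 : p 0 := by have := hnil 0; rwa [map_zero] at this
  have hn : ∀ n (x : (TT k N R n : Type)), p (inc n x) := by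
    intro n
    induction n with
    | zero =>
      intro x
      have := hnil ((zeroE (R := R)).symm x)
      unfold nil at this
      simpa using this
    | succ n ih =>
      intro x
      obtain ⟨y, rfl⟩ := (succE n).surjective x
      induction y using TensorProduct.induction_on with
      | zero => rw [map_zero, map_zero]; exact h0
      | tmul a b =>
        have := hsnoc _ (ih a) b
        rwa [snoc_inc] at this
      | add a b ha hb => rw [map_add, map_add]; exact hadd _ _ ha hb
  exact induction_inc h0 hadd hn w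

@[simp] theorem recW_snoc (f₀ : N →ₗ[k] Z) (S₁ : Wd k N R →ₗ[k] R →ₗ[k] Z)
    (S₂ : Z →ₗ[k] R →ₗ[k] Z) (w : Wd k N R) (r : R) :
    recW f₀ S₁ S₂ (snoc w r) = S₁ w r + S₂ (recW f₀ S₁ S₂ w) r := by
  induction w using induction_inc with
  | h0 => simp
  | hinc n x =>
    rw [snoc_inc]
    unfold recW
    rw [out_inc, out_inc]
    simp [recN]
  | hadd a b ha hb =>
    simp only [map_add, LinearMap.add_apply, ha, hb]
    abel

/-- extensionality of linear maps on words -/
theorem ext_apply {f g : Wd k N R →ₗ[k] Z} (h₀ : ∀ n, f (nil n) = g (nil n))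
    (h₁ : ∀ w, f w = g w → ∀ r, f (snoc w r) = g (snoc w r)) (w : Wd k N R) : f w = g w := by
  induction w using induction with
  | hadd a b ha hb => rw [map_add, map_add, ha, hb]
  | hnil n => exact h₀ n
  | hsnoc w hw r => exact h₁ w hw r

/-- `Wd` is the fixed point `N ⊕ Wd ⊗ R` -/
noncomputable def split : Wd k N R →ₗ[k] N × (Wd k N R ⊗[k] R) :=
  recW (LinearMap.inl k N (Wd k N R ⊗[k] R))
    ((TensorProduct.mk k (Wd k N R) R).compr₂ (LinearMap.inr k N (Wd k N R ⊗[k] R))) 0

@[simp] theorem split_nil (n : N) : split (k := k) (R := R) (nil n) = (n, 0) := by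
  simp [split]
@[simp] theorem split_snoc (w : Wd k N R) (r : R) : split (snoc w r) = (0, w ⊗ₜ r) := by
  simp [split]

/-- inverse of `split` -/
noncomputable def unsplit : N × (Wd k N R ⊗[k] R) →ₗ[k] Wd k N R :=
  LinearMap.coprod nil (TensorProduct.lift snoc)

theorem unsplit_split (w : Wd k N R) : unsplit (split w) = w := by
  have := ext_apply (f := unsplit ∘ₗ split) (g := (LinearMap.id : Wd k N R →ₗ[k] Wd k N R))
    (by intro n; simp [unsplit]) (by intro w _ r; simp [unsplit]) w
  simpa using this

theorem split_unsplit (z : N × (Wd k N R ⊗[k] R)) : split (unsplit z) = z := by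
  obtain ⟨n, y⟩ := z
  induction y using TensorProduct.induction_on with
  | zero => simp [unsplit]
  | tmul a b => simp [unsplit]
  | add a b ha hb =>
    have h1 : unsplit (n, a) = nil n + TensorProduct.lift snoc a := by simp [unsplit]
    have h2 : unsplit (n, b) = nil n + TensorProduct.lift snoc b := by simp [unsplit]
    rw [h1, map_add, split_nil] at ha
    rw [h2, map_add, split_nil] at hb
    have ha' : split (TensorProduct.lift snoc a) = (0, a) := by
      have := congrArg (fun x => x - ((n, 0) : N × (Wd k N R ⊗[k] R))) ha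
      simpa using this
    have hb' : split (TensorProduct.lift snoc b) = (0, b) := by
      have := congrArg (fun x => x - ((n, 0) : N × (Wd k N R ⊗[k] R))) hb
      simpa using this
    simp [unsplit, ha', hb']

/-- functoriality: apply `f` to the head and `g` to all letters -/
noncomputable def map {N' R' : Type} [AddCommGroup N'] [Module k N'] [AddCommGroup R']
    [Module k R'] (f : N →ₗ[k] N') (g : R →ₗ[k] R') : Wd k N R →ₗ[k] Wd k N' R' :=
  recW (nil ∘ₗ f) 0 ((LinearMap.lcomp k (Wd k N' R') g) ∘ₗ snoc)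

@[simp] theorem map_nil {N' R' : Type} [AddCommGroup N'] [Module k N'] [AddCommGroup R']
    [Module k R'] (f : N →ₗ[k] N') (g : R →ₗ[k] R') (n : N) : map f g (nil n) = nil (f n) := by
  simp [map]
@[simp] theorem map_snoc {N' R' : Type} [AddCommGroup N'] [Module k N'] [AddCommGroup R']
    [Module k R'] (f : N →ₗ[k] N') (g : R →ₗ[k] R') (w : Wd k N R) (r : R) :
    map f g (snoc w r) = snoc (map f g w) (g r) := by
  simp [map]

/-- words of length at most `n` -/
noncomputable def len (k : Type) [Field k] (N R : Type) [AddCommGroup N] [Module k N]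
  [AddCommGroup R] [Module k R] : ℕ → Submodule k (Wd k N R)
  | 0 => LinearMap.range (nil (k := k) (N := N) (R := R))
  | n + 1 => LinearMap.range (nil (k := k) (N := N) (R := R)) ⊔
      Submodule.map₂ snoc (len k N R n) ⊤

theorem nil_mem_len (n : ℕ) (x : N) : nil x ∈ len k N R n := by
  cases n with
  | zero => exact ⟨x, rfl⟩
  | succ n => exact Submodule.mem_sup_left ⟨x, rfl⟩

theorem snoc_mem_len {n : ℕ} {w : Wd k N R} (h : w ∈ len k N R n) (r : R) :
    snoc w r ∈ len k N R (n+1) :=
  Submodule.mem_sup_right (Submodule.apply_mem_map₂ snoc h trivial)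

theorem len_mono (n : ℕ) : len k N R n ≤ len k N R (n+1) := by
  induction n with
  | zero => exact le_sup_left
  | succ n ih =>
    apply sup_le le_sup_left
    exact (Submodule.map₂_le_map₂ ih le_rfl).trans le_sup_right

theorem len_le {m n : ℕ} (h : m ≤ n) : len k N R m ≤ len k N R n := by
  induction h with
  | refl => exact le_rfl
  | step _ ih => exact ih.trans (len_mono _)

theorem exists_mem_len (w : Wd k N R) : ∃ n, w ∈ len k N R n := by
  induction w using induction with
  | hadd a b ha hb =>
    obtain ⟨m, hm⟩ := ha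
    obtain ⟨n, hn⟩ := hb
    exact ⟨max m n, Submodule.add_mem _ (len_le (le_max_left _ _) hm)
      (len_le (le_max_right _ _) hn)⟩
  | hnil n => exact ⟨0, n, rfl⟩
  | hsnoc w hw r => obtain ⟨n, hn⟩ := hw; exact ⟨n+1, snoc_mem_len hn r⟩

end Wd

end NC
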