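import Pool.Agent.H16.NC.EvB

/-!
# The homotopy between contraction and rotation (base file, helper16)

Inside a dg algebra `L`: `hh (w ⊗ y ; v) = (E w, y, v)` satisfies `D hh + hh D = contrL - evL`.
-/

open scoped TensorProduct

namespace NC

variable {k : Type} [Field k]

/-! ### the homotopy between contraction and rotation inside a dg algebra -/

section hlem

variable {L R S : DGA k} {X Y : SD k}

/-- the product map `X ⊗ Y → L` -/
noncomputable def mulHom (φX : SD.Hom X L.toSD) (φY : SD.Hom Y L.toSD) :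
    SD.Hom (X.tens Y) L.toSD where
  f := TensorProduct.lift (L.mul.compl₁₂ φX.f φY.f)
  D := fun v => by
    refine tens_ext (f := TensorProduct.lift (L.mul.compl₁₂ φX.f φY.f) ∘ₗ SD.tD X Y)
      (g := L.D ∘ₗ TensorProduct.lift (L.mul.compl₁₂ φX.f φY.f)) (fun x y => ?_) v
    simp [φX.D, φY.D, φX.E, L.D_mul]
  P := fun v => by
    refine tens_ext (f := TensorProduct.lift (L.mul.compl₁₂ φX.f φY.f) ∘ₗ SD.tP X Y)
      (g := L.P ∘ₗ TensorProduct.lift (L.mul.compl₁₂ φX.f φY.f)) (fun x y => ?_) v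
    simp only [LinearMap.comp_apply, SD.tP_tmul, map_add, TensorProduct.lift.tmul,
      LinearMap.compl₁₂_apply, φX.P, φY.P, map_sub, LinearMap.sub_apply, L.P_mul]

@[simp] theorem mulHom_tmul (φX : SD.Hom X L.toSD) (φY : SD.Hom Y L.toSD) (x : X.V) (y : Y.V) :
    (mulHom φX φY).f (x ⊗ₜ y) = φX.f x * φY.f y := rfl

/-- the homotopy: `w ⊗ y ; v ↦ (E w, y, v)` as a Hochschild chain of `L` -/
noncomputable def hh (fR : DGA.NHom R L) (fS : DGA.NHom S L) (φX : SD.Hom X L.toSD)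
    (φY : SD.Hom Y L.toSD) :
    Wd k (Wd k X.V R.V ⊗[k] Y.V) S.V →ₗ[k] Wd k L.V L.V :=
  Wd.recW (TensorProduct.lift
    ((Wd.snoc ∘ₗ Wd.map φX.f fR.f ∘ₗ EW X R.toSD).compl₂ φY.f)) 0 (Wd.snoc.compl₂ fS.f)

@[simp] theorem hh_nil (fR : DGA.NHom R L) (fS : DGA.NHom S L) (φX : SD.Hom X L.toSD)
    (φY : SD.Hom Y L.toSD) (w : Wd k X.V R.V) (y : Y.V) :
    hh fR fS φX φY (Wd.nil (w ⊗ₜ y)) = Wd.snoc (Wd.map φX.f fR.f (EW X R.toSD w)) (φY.f y) := by
  simp [hh]

@[simp] theorem hh_snoc (fR : DGA.NHom R L) (fS : DGA.NHom S L) (φX : SD.Hom X L.toSD)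
    (φY : SD.Hom Y L.toSD) (z : Wd k (Wd k X.V R.V ⊗[k] Y.V) S.V) (s : S.V) :
    hh fR fS φX φY (Wd.snoc z s) = Wd.snoc (hh fR fS φX φY z) (fS.f s) := by
  simp [hh]

/-- the contraction `x ⊗ y ; v ↦ (x y ; v)`, zero on words `w` of positive length -/
noncomputable def contrL (fS : DGA.NHom S L) (φX : SD.Hom X L.toSD) (φY : SD.Hom Y L.toSD) :
    Wd k (Wd k X.V R.V ⊗[k] Y.V) S.V →ₗ[k] Wd k L.V L.V :=
  Wd.map (TensorProduct.lift (Wd.recW (L.mul.compl₁₂ φX.f φY.f) 0 0)) fS.f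

/-- the rotation `w ⊗ y ↦ ± (y x ; ...)`, zero if there are outer letters -/
noncomputable def evL (fR : DGA.NHom R L) (φX : SD.Hom X L.toSD) (φY : SD.Hom Y L.toSD) :
    Wd k (Wd k X.V R.V ⊗[k] Y.V) S.V →ₗ[k] Wd k L.V L.V :=
  Wd.recW (Wd.map LinearMap.id fR.f ∘ₗ evB0 R (mulHom φY φX)) 0 0

theorem map_EW {N N' : SD k} {R R' : DGA k} (f : SD.Hom N N') (g : DGA.NHom R R')
    (w : Wd k N.V R.V) :
    Wd.map f.f g.f (EW N R.toSD w) = EW N' R'.toSD (Wd.map f.f g.f w) := by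
  induction w using Wd.induction with
  | hadd a b ha hb => simp only [map_add, ha, hb]
  | hnil n => simp [f.E]
  | hsnoc w hw r => simp [hw, g.E]

theorem map_tl {N N' : SD k} {R R' : DGA k} (f : SD.Hom N N') (g : DGA.NHom R R')
    (ρ : RA R N) (ρ' : RA R' N') (h : ∀ n r, f.f (ρ.act n r) = ρ'.act (f.f n) (g.f r))
    (w : Wd k N.V R.V) (r : R.V) :
    Wd.map f.f g.f (tl R ρ.act w r) = tl R' ρ'.act (Wd.map f.f g.f w) (g.f r) := by
  induction w using Wd.induction with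
  | hadd a b ha hb => simp only [map_add, LinearMap.add_apply, ha, hb]
  | hnil n => simp [h]
  | hsnoc w hw s => simp [g.mul]

theorem map_Db {N N' : SD k} {R R' : DGA k} (f : SD.Hom N N') (g : DGA.NHom R R')
    (ρ : RA R N) (ρ' : RA R' N') (h : ∀ n r, f.f (ρ.act n r) = ρ'.act (f.f n) (g.f r))
    (w : Wd k N.V R.V) :
    Wd.map f.f g.f (Db ρ w) = Db ρ' (Wd.map f.f g.f w) := by
  induction w using Wd.induction with
  | hadd a b ha hb => simp only [map_add, ha, hb]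
  | hnil n => simp [f.D]
  | hsnoc w hw r =>
    simp only [Db_snoc, map_sub, map_add, Wd.map_snoc, hw, g.D, map_EW, map_tl f g ρ ρ' h]

theorem map_hd {N N' : SD k} {R R' S S' : DGA k} (f : SD.Hom N N') (g : DGA.NHom R R')
    (fS : DGA.NHom S S') (l : LA S N) (l' : LA S' N')
    (h : ∀ s n, f.f (l.act s n) = l'.act (fS.f s) (f.f n)) (s : S.V) (w : Wd k N.V R.V) :
    Wd.map f.f g.f (hd R l s w) = hd R' l' (fS.f s) (Wd.map f.f g.f w) := by
  induction w using Wd.induction with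
  | hadd a b ha hb => simp only [map_add, ha, hb]
  | hnil n => simp [h]
  | hsnoc w hw r => simp [hw]

theorem map_PW {N N' : SD k} {R R' : DGA k} (f : SD.Hom N N') (g : DGA.NHom R R')
    (w : Wd k N.V R.V) :
    Wd.map f.f g.f (PW N R.toSD w) = PW N' R'.toSD (Wd.map f.f g.f w) := by
  induction w using Wd.induction with
  | hadd a b ha hb => simp only [map_add, ha, hb]
  | hnil n => simp [f.P]
  | hsnoc w hw r => simp [hw, g.P, g.E]

theorem map_om {N N' : SD k} {R R' : DGA k} (f : SD.Hom N N') (g : DGA.NHom R R')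
    (l : LA R N) (l' : LA R' N') (h : ∀ s n, f.f (l.act s n) = l'.act (g.f s) (f.f n))
    (w : Wd k N.V R.V) :
    Wd.map f.f g.f (om l w) = om l' (Wd.map f.f g.f w) := by
  induction w using Wd.induction with
  | hadd a b ha hb => simp only [map_add, ha, hb]
  | hnil n => simp
  | hsnoc w hw r =>
    simp only [om_snoc, map_add, Wd.map_snoc, map_hd f g g l l' h, map_EW, map_sub, g.P,
      LinearMap.sub_apply]

section main

variable (bX : Bi S R X) (bY : Bi R S Y) (fR : DGA.NHom R L) (fS : DGA.NHom S L)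
  (φX : SD.Hom X L.toSD) (φY : SD.Hom Y L.toSD)

/-- the pairing data of the homotopy lemma -/
structure HData : Prop where
  sx : ∀ s x, φX.f (bX.l.act s x) = fS.f s * φX.f x
  xr : ∀ x r, φX.f (bX.r.act x r) = φX.f x * fR.f r
  ry : ∀ r y, φY.f (bY.l.act r y) = fR.f r * φY.f y
  ys : ∀ y s, φY.f (bY.r.act y s) = φY.f y * fS.f s

variable {bX bY fR fS φX φY} (H : HData bX bY fR fS φX φY)

include H in
theorem hh_tl (z : Wd k (Wd k X.V R.V ⊗[k] Y.V) S.V) (s : S.V) :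
    hh fR fS φX φY (tl S (bX.bar bY).r.act z s) =
      tl L L.diag.r.act (hh fR fS φX φY z) (fS.f s) := by
  induction z using Wd.induction with
  | hadd a b ha hb => simp only [map_add, LinearMap.add_apply, ha, hb]
  | hnil v =>
    refine tens_ext (f := hh fR fS φX φY ∘ₗ (tl S (bX.bar bY).r.act).flip s ∘ₗ Wd.nil)
      (g := (tl L L.diag.r.act).flip (fS.f s) ∘ₗ hh fR fS φX φY ∘ₗ Wd.nil) (fun w y => ?_) v
    simp only [LinearMap.comp_apply, LinearMap.flip_apply, tl_nil]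
    change hh fR fS φX φY (Wd.nil (w ⊗ₜ bY.r.act y s)) = _
    rw [hh_nil, hh_nil, tl_snoc, H.ys]
  | hsnoc z hz s => simp [fS.mul]

include H in
theorem hh_hd (s : S.V) (z : Wd k (Wd k X.V R.V ⊗[k] Y.V) S.V) :
    hh fR fS φX φY (hd S (bX.bar bY).l s z) =
      hd L L.diag.l (fS.f (S.E s)) (hh fR fS φX φY z) := by
  induction z using Wd.induction with
  | hadd a b ha hb => simp only [map_add, ha, hb]
  | hnil v =>
    refine tens_ext (f := hh fR fS φX φY ∘ₗ hd S (bX.bar bY).l s ∘ₗ Wd.nil)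
      (g := hd L L.diag.l (fS.f (S.E s)) ∘ₗ hh fR fS φX φY ∘ₗ Wd.nil) (fun w y => ?_) v
    simp only [LinearMap.comp_apply, hd_nil]
    change hh fR fS φX φY (Wd.nil (hd R bX.l s w ⊗ₜ y)) = _
    rw [hh_nil, hh_nil, hd_snoc, hd_EW, map_hd φX fR fS bX.l L.diag.l H.sx]
  | hsnoc z hz t =>
    have h1 : hd S (bX.bar bY).l s (Wd.snoc z t) = Wd.snoc (hd S (bX.bar bY).l s z) t :=
      hd_snoc _ _ _ _
    rw [h1, hh_snoc, hh_snoc, hd_snoc, hz]

theorem hh_EW (z : Wd k (Wd k X.V R.V ⊗[k] Y.V) S.V) :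
    EW L.toSD L.toSD (hh fR fS φX φY z) =
      - hh fR fS φX φY (EW (Bar bX.r bY.l) S.toSD z) := by
  induction z using Wd.induction with
  | hadd a b ha hb => simp only [map_add, ha, hb]; abel
  | hnil v =>
    refine tens_ext (f := EW L.toSD L.toSD ∘ₗ hh fR fS φX φY ∘ₗ Wd.nil)
      (g := -(hh fR fS φX φY ∘ₗ EW (Bar bX.r bY.l) S.toSD ∘ₗ Wd.nil)) (fun w y => ?_) v
    have h1 : EW (Bar bX.r bY.l) S.toSD (Wd.nil (w ⊗ₜ y)) =
        Wd.nil (EW X R.toSD w ⊗ₜ Y.E y) := by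
      refine (EW_nil (Bar bX.r bY.l) S.toSD (w ⊗ₜ y)).trans ?_
      rw [Bar_E]; rfl
    simp only [LinearMap.comp_apply, LinearMap.neg_apply]
    rw [h1, hh_nil, hh_nil, EW_snoc, ← map_EW, EW_EW, φY.E]
  | hsnoc z hz s =>
    have h1 : EW (Bar bX.r bY.l) S.toSD (Wd.snoc z s) =
        - Wd.snoc (EW (Bar bX.r bY.l) S.toSD z) (S.E s) := EW_snoc _ _ _ _
    rw [h1, hh_snoc, EW_snoc, hz, map_neg, map_neg, hh_snoc, fS.E, LinearMap.neg_apply]

include H in
theorem hh_Db (z : Wd k (Wd k X.V R.V ⊗[k] Y.V) S.V) :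
    Db L.diag.r (hh fR fS φX φY z) + hh fR fS φX φY (Db (bX.bar bY).r z) =
      contrL fS φX φY z := by
  induction z using Wd.induction with
  | hadd a b ha hb => simp only [map_add, ← ha, ← hb]; abel
  | hnil v =>
    have h1 : Db (bX.bar bY).r (Wd.nil v) = Wd.nil (barD bX.r bY.l v) := Db_nil _ _
    rw [h1]
    refine tens_ext (f := Db L.diag.r ∘ₗ hh fR fS φX φY ∘ₗ Wd.nil +
      hh fR fS φX φY ∘ₗ Wd.nil ∘ₗ barD bX.r bY.l)
      (g := contrL fS φX φY ∘ₗ Wd.nil) (fun w y => ?_) v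
    simp only [LinearMap.comp_apply, LinearMap.add_apply]
    have hxr : ∀ x r, φX.f (bX.r.act x r) = L.diag.r.act (φX.f x) (fR.f r) := H.xr
    rw [hh_nil, Db_snoc, ← map_Db φX fR bX.r L.diag.r hxr, ← map_EW, EW_EW, Db_EW, barD_tmul]
    simp only [map_sub, map_add, hh_nil, EW_EW, map_neg, LinearMap.neg_apply, φY.D]
    induction w using Wd.induction with
    | hadd a b ha hb =>
      simp only [map_add, TensorProduct.add_tmul, LinearMap.add_apply] at ha hb ⊢
      rw [← ha, ← hb]; abel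
    | hnil x =>
      simp [contrL, DGA.diag, DGA.mul_def]
      abel
    | hsnoc u _ r =>
      have h3 : contrL fS φX φY (Wd.nil (Wd.snoc u r ⊗ₜ y)) = 0 := by simp [contrL]
      rw [h3, lam_snoc, hh_nil, EW_EW, Wd.map_snoc (f := φX.f), tl_snoc, H.ry]
      abel
  | hsnoc z hz s =>
    have h1 : Db (bX.bar bY).r (Wd.snoc z s) = Wd.snoc (Db (bX.bar bY).r z) s -
        Wd.snoc (EW (Bar bX.r bY.l) S.toSD z) (S.D s) +
        tl S (bX.bar bY).r.act (EW (Bar bX.r bY.l) S.toSD z) s := Db_snoc _ _ _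
    have h2 : contrL fS φX φY (Wd.snoc z s) = Wd.snoc (contrL fS φX φY z) (fS.f s) := by
      simp [contrL]
    rw [h1, hh_snoc, Db_snoc, map_add, map_sub, hh_snoc, hh_snoc, hh_tl H, h2, ← hz, hh_EW, fS.D]
    simp only [map_add, map_neg, LinearMap.neg_apply, LinearMap.add_apply]
    abel

theorem map_hn (y : Y.V) (w : Wd k X.V R.V) :
    Wd.map LinearMap.id fR.f (hn R (mulHom φY φX) y w) =
      hd L L.diag.l (φY.f y) (Wd.map φX.f fR.f w) := by
  induction w using Wd.induction with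
  | hadd a b ha hb => simp only [map_add, ha, hb]
  | hnil x =>
    simp only [hn_nil, Wd.map_nil, bl_apply, mulHom_tmul, hd_nil, LinearMap.id_apply]
    rfl
  | hsnoc u hu r => simp [hu]

include H in
theorem hh_om (z : Wd k (Wd k X.V R.V ⊗[k] Y.V) S.V) :
    om L.diag.l (hh fR fS φX φY z) + hh fR fS φX φY (om (bX.bar bY).l z) =
      evL fR φX φY z := by
  induction z using Wd.induction with
  | hadd a b ha hb => simp only [map_add, ← ha, ← hb]; abel
  | hnil v =>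
    have h1 : om (bX.bar bY).l (Wd.nil v) = 0 := om_nil _ _
    rw [h1, map_zero, add_zero]
    refine tens_ext (f := om (N := L.toSD) L.diag.l ∘ₗ hh fR fS φX φY ∘ₗ Wd.nil)
      (g := evL fR φX φY ∘ₗ Wd.nil) (fun w y => ?_) v
    simp only [LinearMap.comp_apply]
    rw [hh_nil, om_snoc, ← map_EW, EW_EW]
    simp only [evL, Wd.recW_nil, LinearMap.comp_apply, evB0_tmul, map_add, map_hn, map_sub,
      LinearMap.sub_apply, φY.P]
  | hsnoc z hz s =>
    have h1 : om (bX.bar bY).l (Wd.snoc z s) = hd S (bX.bar bY).l (S.P s)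
        (EW (Bar bX.r bY.l) S.toSD z) + hd S (bX.bar bY).l (s - S.P s) z := om_snoc _ _ _
    have h2 : evL fR φX φY (Wd.snoc z s) = 0 := by simp [evL]
    have h3 : fS.f (S.E (S.P s)) = L.P (fS.f s) := by rw [S.EP, fS.P]
    have h4 : fS.f (S.E (s - S.P s)) = - (fS.f s - L.P (fS.f s)) := by
      rw [← fS.P, ← map_sub, ← map_neg]; congr 1; simp only [SD.E_apply, map_sub, S.PP]; abel
    rw [h1, hh_snoc, om_snoc, map_add, hh_hd H, hh_hd H, h2, hh_EW (bX := bX) (bY := bY), h3, h4]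
    simp only [map_neg, LinearMap.neg_apply]
    abel

/-- the homotopy lemma -/
theorem hh_D (H : HData bX bY fR fS φX φY) (z : Wd k (Wd k X.V R.V ⊗[k] Y.V) S.V) :
    hcD L.diag (hh fR fS φX φY z) + hh fR fS φX φY (hcD (bX.bar bY) z) =
      contrL fS φX φY z - evL fR φX φY z := by
  rw [← hh_Db H, ← hh_om H, hcD_apply]
  have h1 : hcD (bX.bar bY) z = Db (bX.bar bY).r z - om (bX.bar bY).l z := rfl
  rw [h1, map_sub]; abel

end main

end hlem

end NC
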