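import Pool.Agent.H16.NC.PF
import Pool.Agent.H36.NX.Coker
import Pool.Agent.H94.NC.MorA
import Pool.Agent.H9.NC.Coh

/-!
# Statement of the Lefschetz formula (A5) (helper16)

`EndR` of the right module `A ⊕ M`, the inclusion `iE` of the corner `A` and the left action
`rhoE` on `M`.
-/

open scoped TensorProduct

namespace NC

variable {k : Type} [Field k] {A : DGA k}

/-- the right module `A ⊕ M` -/
noncomputable abbrev AM (M : BMod A A) : BMod A A := (BMod.diag A).prod M

/-- `a ↦ ((x, m) ↦ (a x, 0))` -/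
noncomputable def iE0 (M : BMod A A) : A.V →ₗ[k] ((A.V × M.N.V) →ₗ[k] (A.V × M.N.V)) where
  toFun a := LinearMap.inl k A.V M.N.V ∘ₗ A.mul a ∘ₗ LinearMap.fst k A.V M.N.V
  map_add' a b := by ext m <;> simp
  map_smul' c a := by ext m <;> simp

/-- `a ↦ ((x, m) ↦ (0, a m))` -/
noncomputable def rhoE0 (M : BMod A A) : A.V →ₗ[k] ((A.V × M.N.V) →ₗ[k] (A.V × M.N.V)) where
  toFun a := LinearMap.inr k A.V M.N.V ∘ₗ M.b.l.act a ∘ₗ LinearMap.snd k A.V M.N.V
  map_add' a b := by ext m <;> simp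
  map_smul' c a := by ext m <;> simp

theorem iE0_mem (M : BMod A A) (a : A.V) : iE0 M a ∈ rLin (AM M).b.r (AM M).b.r := by
  rintro ⟨x, m⟩ b
  refine Prod.ext ?_ ?_
  · exact (mul_assoc a x b).symm
  · change (0 : M.N.V) = M.b.r.act 0 b
    rw [map_zero, LinearMap.zero_apply]

theorem rhoE0_mem (M : BMod A A) (a : A.V) : rhoE0 M a ∈ rLin (AM M).b.r (AM M).b.r := by
  rintro ⟨x, m⟩ b
  refine Prod.ext ?_ ?_
  · change (0 : A.V) = (0 : A.V) * b
    rw [zero_mul]
  · exact (M.b.lr a m b).symm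

/-- the corner `A` of the endomorphism algebra of `A ⊕ M` -/
noncomputable def iE (M : BMod A A) : DGA.NHom A (EndR (AM M).b.r) where
  f := (iE0 M).codRestrict _ (iE0_mem M)
  D := fun a => by
    refine Subtype.ext (LinearMap.ext (fun v => ?_))
    refine Eq.trans ?_ (SD.hD_apply (AM M).N (AM M).N (iE0 M a) v).symm
    obtain ⟨(x : A.V), m⟩ := v
    refine Prod.ext ?_ ?_
    · change A.D a * x = A.D (a * x) - A.E (a * (A.E (A.D x)))
      rw [A.D_mul', A.E_mul, A.EE]; abel
    · change (0 : M.N.V) = M.N.D 0 - M.N.E 0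
      simp
  P := fun a => by
    refine Subtype.ext (LinearMap.ext (fun v => ?_))
    refine Eq.trans ?_ (SD.hP_apply (AM M).N (AM M).N (iE0 M a) v).symm
    obtain ⟨(x : A.V), m⟩ := v
    refine Prod.ext ?_ ?_
    · have h1 : A.P (a * A.P x) = A.P a * A.P (A.P x) + (a - A.P a) * (A.P x - A.P (A.P x)) :=
        A.P_mul a (A.P x)
      have h2 : A.P (a * (x - A.P x)) = A.P a * A.P (x - A.P x) +
        (a - A.P a) * ((x - A.P x) - A.P (x - A.P x)) := A.P_mul a (x - A.P x)
      change A.P a * x = A.P (a * A.P x) + (a * (x - A.P x) - A.P (a * (x - A.P x)))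
      rw [h1, h2]
      simp only [map_sub, A.PP, sub_self, mul_zero, add_zero, zero_add, sub_zero, mul_sub,
        sub_mul]
      abel
    · change (0 : M.N.V) = M.N.P 0 + (0 - M.N.P 0)
      simp
  mul := fun a b => by
    refine Subtype.ext (LinearMap.ext (fun v => ?_))
    obtain ⟨(x : A.V), m⟩ := v
    refine Prod.ext ?_ ?_
    · exact mul_assoc a b x
    · rfl

/-- the left action on `M` in the endomorphism algebra of `A ⊕ M` -/
noncomputable def rhoE (M : BMod A A) : DGA.NHom A (EndR (AM M).b.r) where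
  f := (rhoE0 M).codRestrict _ (rhoE0_mem M)
  D := fun a => by
    refine Subtype.ext (LinearMap.ext (fun v => ?_))
    refine Eq.trans ?_ (SD.hD_apply (AM M).N (AM M).N (rhoE0 M a) v).symm
    obtain ⟨(x : A.V), m⟩ := v
    refine Prod.ext ?_ ?_
    · change (0 : A.V) = A.D 0 - A.E 0
      simp
    · change M.b.l.act (A.D a) m = M.N.D (M.b.l.act a m) - M.N.E (M.b.l.act a (M.N.E (M.N.D m)))
      rw [M.b.l.D_act, M.b.l.E_act, M.N.EE]; abel
  P := fun a => by
    refine Subtype.ext (LinearMap.ext (fun v => ?_))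
    refine Eq.trans ?_ (SD.hP_apply (AM M).N (AM M).N (rhoE0 M a) v).symm
    obtain ⟨(x : A.V), m⟩ := v
    refine Prod.ext ?_ ?_
    · change (0 : A.V) = A.P 0 + (0 - A.P 0)
      simp
    · change M.b.l.act (A.P a) m = M.N.P (M.b.l.act a (M.N.P m)) +
        (M.b.l.act a (m - M.N.P m) - M.N.P (M.b.l.act a (m - M.N.P m)))
      simp only [M.b.l.P_act, map_sub, M.N.PP, LinearMap.sub_apply, sub_self, map_zero]
      abel
  mul := fun a b => by
    refine Subtype.ext (LinearMap.ext (fun v => ?_))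
    obtain ⟨(x : A.V), m⟩ := v
    refine Prod.ext ?_ ?_
    · rfl
    · exact M.b.l.mul_act a b m

/-- the statement of the Lefschetz formula for the bimodule `M` -/
def Lefschetz (M : BMod A A) : Prop :=
  ∀ T : (HC A.diag).Coh →ₗ[k] (HC A.diag).Coh,
    (∀ c, SD.Coh.map (hcA (iE M)) (T c) = SD.Coh.map (hcA (rhoE M)) c) →
      LinearMap.trace k _ (SD.cohE (HC A.diag) ∘ₗ T) = SD.chi (HC M.b)

end NC
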