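import Pool.Agent.H16.NC.Word
import Pool.Agent.H16.NC.Tens

/-!
# The two sided bar complex `Bar X R Y = X ⊗ T(R) ⊗ Y` (base file, helper16)

`D (w ⊗ y) = Db w ⊗ y + E w ⊗ D y - lam (w ⊗ y)`, `lam (snoc u r ⊗ y) = E u ⊗ r y`.
-/

open scoped TensorProduct

namespace NC

variable {k : Type} [Field k]

section

variable {R : DGA k} {X Y : SD k} (ρ : RA R X) (l : LA R Y)

/-- auxiliary: `u, r, y ↦ E u ⊗ r y` -/
noncomputable def lamAux : Wd k X.V R.V →ₗ[k] R.V →ₗ[k] Y.V →ₗ[k] (Wd k X.V R.V ⊗[k] Y.V) :=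
  LinearMap.mk₂ k (fun u r => (TensorProduct.mk k (Wd k X.V R.V) Y.V (EW X R.toSD u)) ∘ₗ l.act r)
    (fun u u' r => by ext; simp)
    (fun c u r => by ext; simp)
    (fun u r r' => by ext; simp [TensorProduct.tmul_add])
    (fun c u r => by ext; simp)

/-- the last letter acts on `Y` -/
noncomputable def lam : (Wd k X.V R.V ⊗[k] Y.V) →ₗ[k] (Wd k X.V R.V ⊗[k] Y.V) :=
  TensorProduct.lift (Wd.recW 0 (lamAux (X := X) l) 0)

@[simp] theorem lam_nil (x : X.V) (y : Y.V) : lam (X := X) l (Wd.nil x ⊗ₜ y) = 0 := by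
  simp [lam]
@[simp] theorem lam_snoc (u : Wd k X.V R.V) (r : R.V) (y : Y.V) :
    lam (X := X) l (Wd.snoc u r ⊗ₜ y) = EW X R.toSD u ⊗ₜ l.act r y := by
  simp [lam, lamAux]

/-- the differential of `words ⊗ Y` -/
noncomputable def barD0 : Wd k X.V R.V ⊗[k] Y.V →ₗ[k] Wd k X.V R.V ⊗[k] Y.V :=
  TensorProduct.map (Db ρ) LinearMap.id + TensorProduct.map (EW X R.toSD) Y.D

/-- the even part of `words ⊗ Y` -/
noncomputable def barP (X Y : SD k) (R : DGA k) :
    Wd k X.V R.V ⊗[k] Y.V →ₗ[k] Wd k X.V R.V ⊗[k] Y.V :=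
  TensorProduct.map (PW X R.toSD) Y.P +
    TensorProduct.map (LinearMap.id - PW X R.toSD) (LinearMap.id - Y.P)

@[simp] theorem barD0_tmul (w : Wd k X.V R.V) (y : Y.V) :
    barD0 (Y := Y) ρ (w ⊗ₜ y) = Db ρ w ⊗ₜ y + EW X R.toSD w ⊗ₜ Y.D y := rfl

@[simp] theorem barP_tmul (w : Wd k X.V R.V) (y : Y.V) :
    barP X Y R (w ⊗ₜ y) = PW X R.toSD w ⊗ₜ Y.P y +
      (w - PW X R.toSD w) ⊗ₜ (y - Y.P y) := rfl

theorem barD0_eq : barD0 (Y := Y) ρ = SD.tD (words ρ) Y := rfl
theorem barP_eq : barP X Y R = SD.tP (words ρ) Y := rfl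

theorem barD0_barD0 (v : Wd k X.V R.V ⊗[k] Y.V) : barD0 (Y := Y) ρ (barD0 (Y := Y) ρ v) = 0 :=
  ((words ρ).tens Y).DD v

theorem barP_barP (v : Wd k X.V R.V ⊗[k] Y.V) : barP X Y R (barP X Y R v) = barP X Y R v := by
  refine tens_ext (f := barP X Y R ∘ₗ barP X Y R) (g := barP X Y R) (fun w y => ?_) v
  simp [PW_PW, Y.PP]

theorem barD0_barP (v : Wd k X.V R.V ⊗[k] Y.V) :
    barD0 (Y := Y) ρ (barP X Y R v) = barD0 (Y := Y) ρ v - barP X Y R (barD0 (Y := Y) ρ v) :=
  ((words ρ).tens Y).DP v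

theorem lam_tl (u : Wd k X.V R.V) (r : R.V) (y : Y.V) :
    lam (X := X) l (tl R ρ.act u r ⊗ₜ y) = lam (X := X) l (u ⊗ₜ l.act r y) := by
  induction u using Wd.induction with
  | hadd a b ha hb => simp only [map_add, LinearMap.add_apply, TensorProduct.add_tmul, ha, hb]
  | hnil n => simp
  | hsnoc w _ s => simp [l.mul_act]

theorem lam_P (v : Wd k X.V R.V ⊗[k] Y.V) :
    lam (X := X) l (barP X Y R v) = lam (X := X) l v - barP X Y R (lam (X := X) l v) := by
  refine tens_ext (f := lam (X := X) l ∘ₗ barP X Y R)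
    (g := lam (X := X) l - barP X Y R ∘ₗ lam (X := X) l) (fun w y => ?_) v
  induction w using Wd.induction with
  | hadd a b ha hb =>
    rw [TensorProduct.add_tmul, map_add, map_add, ha, hb]
  | hnil n => simp [← map_sub]
  | hsnoc w _ s =>
    simp only [LinearMap.comp_apply, LinearMap.sub_apply, barP_tmul, PW_snoc, lam_snoc,
      TensorProduct.sub_tmul, TensorProduct.tmul_sub, map_sub, map_add, EW_apply, PW_PW,
      l.P_act, TensorProduct.add_tmul, SD.E_apply, TensorProduct.tmul_add,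
      LinearMap.add_apply]
    abel

theorem lam_D (v : Wd k X.V R.V ⊗[k] Y.V) :
    barD0 (Y := Y) ρ (lam (X := X) l v) + lam (X := X) l (barD0 (Y := Y) ρ v) =
      lam (X := X) l (lam (X := X) l v) := by
  refine tens_ext (f := barD0 (Y := Y) ρ ∘ₗ lam (X := X) l + lam (X := X) l ∘ₗ barD0 (Y := Y) ρ)
    (g := lam (X := X) l ∘ₗ lam (X := X) l) (fun w y => ?_) v
  induction w using Wd.induction with
  | hadd a b ha hb =>
    rw [TensorProduct.add_tmul, map_add, map_add, ha, hb]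
  | hnil n => simp
  | hsnoc w _ s =>
    simp only [LinearMap.comp_apply, LinearMap.add_apply, barD0_tmul, lam_snoc,
      Db_snoc, TensorProduct.add_tmul, TensorProduct.sub_tmul, map_add, map_sub, EW_EW,
      l.D_act, TensorProduct.tmul_add, Db_EW, EW_snoc, TensorProduct.neg_tmul, map_neg,
      lam_tl ρ l]
    abel

/-- the differential of the two sided bar complex -/
noncomputable def barD : Wd k X.V R.V ⊗[k] Y.V →ₗ[k] Wd k X.V R.V ⊗[k] Y.V :=
  barD0 ρ - lam l

theorem barD_tmul (w : Wd k X.V R.V) (y : Y.V) :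
    barD ρ l (w ⊗ₜ y) = Db ρ w ⊗ₜ y + EW X R.toSD w ⊗ₜ Y.D y - lam (X := X) l (w ⊗ₜ y) := rfl

@[simp] theorem barD_nil (x : X.V) (y : Y.V) :
    barD ρ l (Wd.nil x ⊗ₜ y) = Wd.nil (X.D x) ⊗ₜ y + Wd.nil (X.E x) ⊗ₜ Y.D y := by
  simp [barD_tmul]

@[simp] theorem barD_snoc (w : Wd k X.V R.V) (r : R.V) (y : Y.V) :
    barD ρ l (Wd.snoc w r ⊗ₜ y) = Wd.snoc (Db ρ w) r ⊗ₜ y - Wd.snoc (EW X R.toSD w) (R.D r) ⊗ₜ y
      + tl R ρ.act (EW X R.toSD w) r ⊗ₜ y - Wd.snoc (EW X R.toSD w) (R.E r) ⊗ₜ Y.D y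
      - EW X R.toSD w ⊗ₜ l.act r y := by
  simp only [barD_tmul, Db_snoc, EW_snoc, lam_snoc, TensorProduct.add_tmul,
    TensorProduct.sub_tmul, TensorProduct.neg_tmul]
  abel

/-- the two sided bar complex -/
noncomputable abbrev Bar : SD k where
  V := Wd k X.V R.V ⊗[k] Y.V
  D := barD ρ l
  P := barP X Y R
  DD := fun v => by
    have h1 := lam_D ρ l v
    have h2 := barD0_barD0 (Y := Y) ρ v
    simp only [barD, LinearMap.sub_apply, map_sub, h2]
    rw [← h1]; abel
  PP := barP_barP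
  DP := fun v => by
    simp only [barD, LinearMap.sub_apply, map_sub, lam_P l, barD0_barP]
    abel

theorem Bar_E : (Bar ρ l).E = TensorProduct.map (EW X R.toSD) Y.E := SD.tens_E_eq (words ρ) Y

/-- left action of `S` on the bar complex from the left module `X` -/
noncomputable def barLA {S : DGA k} (a : LA S X) (h : LR a ρ) : LA S (Bar ρ l) where
  act := LinearMap.rTensorHom Y.V ∘ₗ hd R a
  mul_act := ((a.words ρ h).tensL Y).mul_act
  P_act := ((a.words ρ h).tensL Y).P_act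
  D_act := fun r v => by
    refine tens_ext (f := barD ρ l ∘ₗ LinearMap.rTensorHom Y.V (hd R a r))
      (g := LinearMap.rTensorHom Y.V (hd R a (S.D r)) +
        LinearMap.rTensorHom Y.V (hd R a (S.E r)) ∘ₗ barD ρ l) (fun w y => ?_) v
    induction w using Wd.induction with
    | hadd a b ha hb => rw [TensorProduct.add_tmul, map_add, map_add, ha, hb]
    | hnil n =>
      simp only [LinearMap.comp_apply, LinearMap.coe_rTensorHom, LinearMap.rTensor_tmul, hd_nil,
        barD_nil, a.D_act, a.E_act, map_add, TensorProduct.add_tmul, LinearMap.add_apply]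
      abel
    | hsnoc w _ s =>
      simp only [LinearMap.comp_apply, LinearMap.coe_rTensorHom, LinearMap.rTensor_tmul, hd_snoc,
        barD_snoc, Db_hd a ρ h, hd_EW, map_add, map_sub, TensorProduct.add_tmul,
        LinearMap.add_apply, hd_tl a ρ h]
      abel

@[simp] theorem barLA_act {S : DGA k} (a : LA S X) (h : LR a ρ) (s : S.V)
    (w : Wd k X.V R.V) (y : Y.V) : (barLA ρ l a h).act s (w ⊗ₜ y) = hd R a s w ⊗ₜ y := rfl

/-- right action of `S` on the bar complex from the right module `Y` -/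
noncomputable def barRA {S : DGA k} (a : RA S Y) (h : LR l a) : RA S (Bar ρ l) where
  act := (LinearMap.lTensorHom (Wd k X.V R.V) ∘ₗ a.act.flip).flip
  act_mul := (a.tensR (words ρ)).act_mul
  P_act := (a.tensR (words ρ)).P_act
  D_act := fun v r => by
    refine tens_ext (f := barD ρ l ∘ₗ LinearMap.lTensorHom (Wd k X.V R.V) (a.act.flip r))
      (g := LinearMap.lTensorHom (Wd k X.V R.V) (a.act.flip r) ∘ₗ barD ρ l +
        LinearMap.lTensorHom (Wd k X.V R.V) (a.act.flip (S.D r)) ∘ₗ (Bar ρ l).E)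
      (fun w y => ?_) v
    rw [Bar_E]
    induction w using Wd.induction with
    | hadd a b ha hb => rw [TensorProduct.add_tmul, map_add, map_add, ha, hb]
    | hnil n =>
      simp only [LinearMap.comp_apply, LinearMap.coe_lTensorHom, LinearMap.lTensor_tmul,
        barD_nil, a.D_act, map_add, TensorProduct.tmul_add, LinearMap.add_apply,
        LinearMap.flip_apply, TensorProduct.map_tmul, EW_nil]
      abel
    | hsnoc w _ s =>
      have hs : a.act (l.act s y) r = l.act s (a.act y r) := h s y r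
      simp only [LinearMap.comp_apply, LinearMap.coe_lTensorHom, LinearMap.lTensor_tmul,
        barD_snoc, a.D_act, map_add, map_sub, TensorProduct.tmul_add, LinearMap.add_apply,
        LinearMap.flip_apply, TensorProduct.map_tmul, EW_snoc, hs,
        TensorProduct.neg_tmul, map_neg]
      abel

@[simp] theorem barRA_act {S : DGA k} (a : RA S Y) (h : LR l a) (s : S.V)
    (w : Wd k X.V R.V) (y : Y.V) : (barRA ρ l a h).act (w ⊗ₜ y) s = w ⊗ₜ a.act y s := rfl

end

/-- the bar complex of bimodules as a bimodule -/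
noncomputable def Bi.bar {R S T : DGA k} {X Y : SD k} (bX : Bi S R X) (bY : Bi R T Y) :
    Bi S T (Bar bX.r bY.l) where
  l := barLA bX.r bY.l bX.l bX.lr
  r := barRA bX.r bY.l bY.r bY.lr
  lr := fun s v t => by
    refine tens_ext (f := ((barRA bX.r bY.l bY.r bY.lr).act.flip t) ∘ₗ
      (barLA bX.r bY.l bX.l bX.lr).act s)
      (g := (barLA bX.r bY.l bX.l bX.lr).act s ∘ₗ ((barRA bX.r bY.l bY.r bY.lr).act.flip t))
      (fun x y => rfl) v

end NC
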