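import Pool.Agent.H16.NC.Tri

/-!
# Central maps and the product `HC(S) ⊗ C → HC(Θ)` (base file, helper16)

`Central d ι`: `s ι(c) = (-1)^(|s||c|) ι(c) s`.  `CW d ι (w ⊗ c)` : multiply the head of `w`
with `ι c`.
-/

open scoped TensorProduct

namespace NC

variable {k : Type} [Field k]

section cen

variable {R R₁ R₂ S : DGA k} {C C' Θ Θ' X : SD k}

/-- the image of `ι` commutes with `S` -/
def Central (d : Bi S S Θ) (ι : SD.Hom C Θ) : Prop :=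
  ∀ s c, d.l.act s (ι.f c) = d.r.act (ι.f (C.P c)) s + d.r.act (ι.f (c - C.P c)) (S.E s)

/-- `s ⊗ c ↦ s ι(c)` -/
noncomputable def actC (d : Bi S S Θ) (ι : SD.Hom C Θ) : SD.Hom (S.toSD.tens C) Θ :=
  (actL d.l).comp ((SD.Hom.id S.toSD).tens ι)

theorem actC_tmul (d : Bi S S Θ) (ι : SD.Hom C Θ) (s : S.V) (c : C.V) :
    (actC d ι).f (s ⊗ₜ c) = d.l.act s (ι.f c) := rfl

theorem actC_isHom {d : Bi S S Θ} {ι : SD.Hom C Θ} (h : Central d ι) :
    (S.diag.tensL C).IsHom d (actC d ι) := by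
  constructor
  · intro s v
    refine tens_ext (f := (actC d ι).f ∘ₗ (S.diag.l.tensL C).act s)
      (g := d.l.act s ∘ₗ (actC d ι).f) (fun t c => ?_) v
    exact d.l.mul_act s t (ι.f c)
  · intro v t
    refine tens_ext (f := (actC d ι).f ∘ₗ (S.diag.r.tensL C).act.flip t)
      (g := d.r.act.flip t ∘ₗ (actC d ι).f) (fun s c => ?_) v
    have e : (S.diag.r.tensL C).act (s ⊗ₜ c) t = (s * S.P t) ⊗ₜ[k] c +
      (s * (t - S.P t)) ⊗ₜ[k] C.E c := rfl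
    change (actC d ι).f ((S.diag.r.tensL C).act (s ⊗ₜ c) t) = d.r.act (d.l.act s (ι.f c)) t
    rw [e, map_add, actC_tmul, actC_tmul, d.l.mul_act, d.l.mul_act, h, h, d.lr]
    have e2 : C.E c - C.P (C.E c) = -(c - C.P c) := C.E_sub_P_E c
    rw [e2, C.PE, S.EP, S.E_odd, ← map_add]
    congr 1
    simp only [map_sub, map_neg, LinearMap.neg_apply, LinearMap.sub_apply]
    abel

/-- the product `HC(S) ⊗ C → HC(Θ)` -/
noncomputable def CW (d : Bi S S Θ) (ι : SD.Hom C Θ) (h : Central d ι) :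
    SD.Hom ((HC S.diag).tens C) (HC d) :=
  (hcN (S.diag.tensL C) d (actC d ι) (actC_isHom h)).comp (crL S.diag C)

theorem CW_tmul (d : Bi S S Θ) (ι : SD.Hom C Θ) (h : Central d ι) (w : (HC S.diag).V)
    (c : C.V) : (CW d ι h).f (w ⊗ₜ c) =
      Wd.mh S.V (actC d ι).f (xl S.toSD S.toSD C w c) := rfl

theorem CW_nil (d : Bi S S Θ) (ι : SD.Hom C Θ) (h : Central d ι) (s : S.V) (c : C.V) :
    (CW d ι h).f (Wd.nil s ⊗ₜ c) = Wd.nil (d.l.act s (ι.f c)) := by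
  rw [CW_tmul, xl_nil, Wd.mh_nil]; rfl

theorem CW_snoc (d : Bi S S Θ) (ι : SD.Hom C Θ) (h : Central d ι) (w : (HC S.diag).V)
    (r : S.V) (c : C.V) : (CW d ι h).f (Wd.snoc w r ⊗ₜ c) =
      Wd.snoc ((CW d ι h).f (w ⊗ₜ C.P c)) r -
        Wd.snoc ((CW d ι h).f (w ⊗ₜ (c - C.P c))) (S.E r) := by
  rw [CW_tmul, CW_tmul, CW_tmul, xl_snoc, map_sub, Wd.mh_snoc, Wd.mh_snoc]

/-- naturality -/
theorem CW_nat {d : Bi S S Θ} {d' : Bi S S Θ'} {ι : SD.Hom C Θ} {ι' : SD.Hom C' Θ'}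
    (h : Central d ι) (h' : Central d' ι') (φ : SD.Hom Θ Θ') (hφ : d.IsHom d' φ)
    (g : SD.Hom C C') (he : ∀ c, φ.f (ι.f c) = ι'.f (g.f c)) (w : (HC S.diag).V) (c : C.V) :
    (hcN d d' φ hφ).f ((CW d ι h).f (w ⊗ₜ c)) = (CW d' ι' h').f (w ⊗ₜ g.f c) := by
  have hl : ∀ a n, φ.f (d.l.act a n) = d'.l.act a (φ.f n) := hφ.l
  change Wd.mh S.V φ.f ((CW d ι h).f (w ⊗ₜ c)) = (CW d' ι' h').f (w ⊗ₜ g.f c)
  induction w using Wd.induction generalizing c with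
  | hadd a b ha hb => simp only [map_add, TensorProduct.add_tmul, ha, hb]
  | hnil s => rw [CW_nil, CW_nil, Wd.mh_nil, hl, he]
  | hsnoc w hw r =>
    rw [CW_snoc, CW_snoc, map_sub, Wd.mh_snoc, Wd.mh_snoc, hw, hw, map_sub g.f, g.P]

/-- the product with an even element -/
theorem CW_even (d : Bi S S Θ) (ι : SD.Hom C Θ) (h : Central d ι) (w : (HC S.diag).V)
    (c : C.V) (hc : C.P c = c) :
    (CW d ι h).f (w ⊗ₜ c) = Wd.mh S.V (d.l.act.flip (ι.f c)) w := by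
  induction w using Wd.induction with
  | hadd a b ha hb => simp only [map_add, TensorProduct.add_tmul, ha, hb]
  | hnil s => rw [CW_nil, Wd.mh_nil]; rfl
  | hsnoc w hw r =>
    rw [CW_snoc, hc, sub_self, TensorProduct.tmul_zero, map_zero, map_zero,
      LinearMap.zero_apply, sub_zero, hw, Wd.mh_snoc]

/-- compatibility with crossing a factor on the left -/
theorem central_tensR {d : Bi S S Θ} {ι : SD.Hom C Θ} (h : Central d ι) (X : SD k) :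
    Central (d.tensR X) ((SD.Hom.id X).tens ι) := by
  intro s v
  refine tens_ext (f := (d.l.tensR X).act s ∘ₗ ((SD.Hom.id X).tens ι).f)
    (g := (d.r.tensR X).act.flip s ∘ₗ ((SD.Hom.id X).tens ι).f ∘ₗ (X.tens C).P +
      (d.r.tensR X).act.flip (S.E s) ∘ₗ ((SD.Hom.id X).tens ι).f ∘ₗ
        (LinearMap.id - (X.tens C).P)) (fun x c => ?_) v
  have e : (X.tens C).P (x ⊗ₜ c) = X.P x ⊗ₜ C.P c + (x - X.P x) ⊗ₜ (c - C.P c) := rfl
  have e1 : ∀ (x : X.V) (c : C.V), ((SD.Hom.id X).tens ι).f (x ⊗ₜ c) = x ⊗ₜ ι.f c :=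
    fun _ _ => rfl
  have e2 : ∀ (s : S.V) (x : X.V) (y : Θ.V), (d.l.tensR X).act s (x ⊗ₜ y) =
    x ⊗ₜ d.l.act (S.P s) y + X.E x ⊗ₜ d.l.act (s - S.P s) y := fun _ _ _ => rfl
  have e3 : ∀ (s : S.V) (x : X.V) (y : Θ.V), (d.r.tensR X).act (x ⊗ₜ y) s =
    x ⊗ₜ d.r.act y s := fun _ _ _ => rfl
  simp only [LinearMap.comp_apply, LinearMap.add_apply, LinearMap.sub_apply,
    LinearMap.flip_apply, LinearMap.id_apply, e, map_add, map_sub, e1, e2, e3, h s c,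
    h (S.P s) c, S.EP, X.E_apply, TensorProduct.add_tmul,
    TensorProduct.sub_tmul, TensorProduct.tmul_add, TensorProduct.tmul_sub, S.E_apply]
  abel

theorem CW_X {d : Bi S S Θ} {ι : SD.Hom C Θ} (h : Central d ι) (X : SD k)
    (w : (HC S.diag).V) (x : X.V) (c : C.V) :
    (CW (d.tensR X) ((SD.Hom.id X).tens ι) (central_tensR h X)).f (w ⊗ₜ (x ⊗ₜ c)) =
      (crR X d).f (x ⊗ₜ (CW d ι h).f (PW S.toSD S.toSD w ⊗ₜ c)) +
      (crR X d).f (X.E x ⊗ₜ (CW d ι h).f ((w - PW S.toSD S.toSD w) ⊗ₜ c)) := by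
  have e0 : ∀ (x : X.V) (u : (HC d).V), (crR X d).f (x ⊗ₜ u) = xh S.toSD X Θ x u :=
    fun _ _ => rfl
  rw [e0, e0]
  induction w using Wd.induction generalizing x c with
  | hadd a b ha hb =>
    simp only [map_add, map_sub, TensorProduct.add_tmul, TensorProduct.sub_tmul] at ha hb ⊢
    rw [ha, hb]; abel
  | hnil s =>
    have e2 : (d.l.tensR X).act s (x ⊗ₜ ι.f c) =
      x ⊗ₜ d.l.act (S.P s) (ι.f c) + X.E x ⊗ₜ d.l.act (s - S.P s) (ι.f c) := rfl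
    rw [CW_nil, PW_nil, ← map_sub, CW_nil, CW_nil, xh_nil, xh_nil, ← map_add]
    exact congrArg Wd.nil e2
  | hsnoc w hw r =>
    have e : (X.tens C).P (x ⊗ₜ c) = X.P x ⊗ₜ C.P c + (x - X.P x) ⊗ₜ (c - C.P c) := rfl
    have e3 : (x ⊗ₜ[k] c : X.V ⊗[k] C.V) - (X.P x ⊗ₜ C.P c + (x - X.P x) ⊗ₜ (c - C.P c)) =
      X.P x ⊗ₜ (c - C.P c) + (x - X.P x) ⊗ₜ C.P c := by
      simp only [TensorProduct.sub_tmul, TensorProduct.tmul_sub]; abel
    have e4 : ∀ (w : Wd k S.V S.V) (r : S.V) (c : C.V), (CW d ι h).f (Wd.snoc w r ⊗ₜ c) =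
      Wd.snoc ((CW d ι h).f (w ⊗ₜ C.P c)) r -
        Wd.snoc ((CW d ι h).f (w ⊗ₜ (c - C.P c))) (S.E r) := fun w r c => CW_snoc d ι h w r c
    have e5 : ∀ (x : X.V) (w : Wd k Θ.V S.V) (r : S.V),
      xh S.toSD X Θ x (Wd.snoc w r) = Wd.snoc (xh S.toSD X Θ x w) r := fun x w r => xh_snoc x w r
    rw [CW_snoc, e, e3, PW_snoc]
    simp only [TensorProduct.tmul_add, map_add, hw, TensorProduct.sub_tmul, map_sub, e4,
      LinearMap.add_apply, LinearMap.sub_apply, e5, TensorProduct.tmul_sub, X.EP,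
      X.E_apply, X.PP, C.PP, S.E_apply, S.PP, TensorProduct.add_tmul]
    abel

/-- central maps on Hochschild complexes -/
theorem central_hc {b' : Bi R R C} {b : Bi R R Θ} {d : Bi S S Θ} (hbd : Comm b d)
    {ι : SD.Hom C Θ} (hι : b'.IsHom b ι) (h : Central d ι) :
    Central (b.hc d hbd) (hcN b' b ι hι) := by
  intro s w
  change hd R d.l s (Wd.mh R.V ι.f w) = hr R d.r (Wd.mh R.V ι.f (PW C R.toSD w)) s +
    hr R d.r (Wd.mh R.V ι.f (w - PW C R.toSD w)) (S.E s)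
  induction w using Wd.induction generalizing s with
  | hadd a b ha hb =>
    simp only [map_add, map_sub, LinearMap.add_apply, LinearMap.sub_apply] at ha hb ⊢
    rw [ha, hb]; abel
  | hnil c =>
    rw [Wd.mh_nil, hd_nil, PW_nil, ← map_sub, Wd.mh_nil, Wd.mh_nil, hr_nil, hr_nil, ← map_add,
      h s c]
  | hsnoc w hw r =>
    rw [Wd.mh_snoc, hd_snoc, hw, PW_snoc]
    simp only [map_sub, map_add, LinearMap.add_apply, LinearMap.sub_apply, Wd.mh_snoc,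
      hr_snoc, S.PE, S.EP, R.E_apply, R.PP, S.E_apply, S.PP]
    abel

/-- central maps on bar complexes -/
theorem central_bar (bX : Bi R₂ R₁ X) {bC : Bi R₁ R₂ C} {bN : Bi R₁ R₂ Θ} {d : Bi S S Θ}
    (hbd : Comm bN d) {ι : SD.Hom C Θ} (hι : bC.IsHom bN ι) (h : Central d ι) :
    Central (dBar bX.r d hbd) (barMap (SD.Hom.id X) ι (Bi.isHom_id bX).r hι.l) := by
  intro s v
  refine tens_ext (f := lcw X d.l s ∘ₗ (barMap (SD.Hom.id X) ι (Bi.isHom_id bX).r hι.l).f)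
    (g := (barRA bX.r bN.l d.r hbd.lr).act.flip s ∘ₗ
        (barMap (SD.Hom.id X) ι (Bi.isHom_id bX).r hι.l).f ∘ₗ barP X C R₁ +
      (barRA bX.r bN.l d.r hbd.lr).act.flip (S.E s) ∘ₗ
        (barMap (SD.Hom.id X) ι (Bi.isHom_id bX).r hι.l).f ∘ₗ
        (LinearMap.id - barP X C R₁)) (fun w c => ?_) v
  have e1 : ∀ (w : Wd k X.V R₁.V) (c : C.V),
      (barMap (SD.Hom.id X) ι (Bi.isHom_id bX).r hι.l).f (w ⊗ₜ c) = w ⊗ₜ ι.f c := fun w c => by
    change Wd.mh R₁.V LinearMap.id w ⊗ₜ[k] ι.f c = w ⊗ₜ[k] ι.f c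
    rw [Wd.mh_id]
  have e2 : ∀ (w : Wd k X.V R₁.V) (y : Θ.V) (s : S.V),
      (barRA bX.r bN.l d.r hbd.lr).act (w ⊗ₜ y) s = w ⊗ₜ d.r.act y s := fun _ _ _ => rfl
  simp only [LinearMap.comp_apply, LinearMap.add_apply, LinearMap.sub_apply,
    LinearMap.flip_apply, LinearMap.id_apply, map_add, map_sub, barP_tmul, e1, e2, lcw_tmul,
    h s c, h (S.P s) c, S.EP, EW_apply, TensorProduct.add_tmul,
    TensorProduct.sub_tmul, TensorProduct.tmul_add, TensorProduct.tmul_sub, S.E_apply]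
  abel

/-- central maps on `G` -/
theorem central_G (bX : Bi R₂ R₁ X) {bC : Bi R₁ R₂ C} {bN : Bi R₁ R₂ Θ} {d : Bi S S Θ}
    (hbd : Comm bN d) {ι : SD.Hom C Θ} (hι : bC.IsHom bN ι) (h : Central d ι) :
    Central (dG bX d hbd) (gMap (SD.Hom.id X) (Bi.isHom_id bX) ι hι) :=
  central_hc (dBar_comm bX d hbd) (barMap_isHom (Bi.isHom_id bX) hι)
    (central_bar bX hbd hι h)

end cen

end NC
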