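import Pool.Agent.H16.NC.HL

/-!
# Commuting structures on tensor products and spaces of linear maps (base file, helper16)
-/

open scoped TensorProduct

namespace NC

variable {k : Type} [Field k]

/-! ### symmetry -/

theorem LL.symm {A B : DGA k} {N : SD k} {x : LA A N} {y : LA B N} (h : LL x y) : LL y x := by
  intro b a n
  have h1 := h (A.P a) (B.P b) n
  have h2 := h (A.P a) b n
  have h3 := h a (B.P b) n
  have h4 := h a b n
  simp only [SD.E_apply, map_sub, map_add, LinearMap.sub_apply, LinearMap.add_apply, A.PP,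
    B.PP, sub_self, map_zero, LinearMap.zero_apply, add_zero, zero_add, sub_zero] at h1 h2 h3 h4 ⊢
  rw [h2, h4, h1, h3]
  abel

theorem RR.symm {A B : DGA k} {N : SD k} {x : RA A N} {y : RA B N} (h : RR x y) : RR y x := by
  intro n b a
  have h1 := h n (A.P a) (B.P b)
  have h2 := h n (A.P a) b
  have h3 := h n a (B.P b)
  have h4 := h n a b
  simp only [SD.E_apply, map_sub, map_add, LinearMap.sub_apply, LinearMap.add_apply, A.PP,
    B.PP, sub_self, map_zero, LinearMap.zero_apply, add_zero, zero_add, sub_zero] at h1 h2 h3 h4 ⊢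
  rw [h3, h4, h1, h2]
  abel

theorem Comm.symm {A A' B B' : DGA k} {N : SD k} {x : Bi A A' N} {y : Bi B B' N}
    (h : Comm x y) : Comm y x :=
  ⟨h.ll.symm, h.rl, h.lr, h.rr.symm⟩

/-! ### tensor products -/

section tens

variable {A B : DGA k} {X Y : SD k}

theorem LL.tensLL {x : LA A X} {y : LA B X} (h : LL x y) (Y : SD k) :
    LL (x.tensL Y) (y.tensL Y) := by
  intro a b n
  refine tens_ext (f := LinearMap.rTensorHom Y.V (x.act a) ∘ₗ LinearMap.rTensorHom Y.V (y.act b))
    (g := LinearMap.rTensorHom Y.V (y.act b) ∘ₗ LinearMap.rTensorHom Y.V (x.act (A.P a)) +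
      LinearMap.rTensorHom Y.V (y.act (B.E b)) ∘ₗ LinearMap.rTensorHom Y.V (x.act (a - A.P a)))
    (fun u v => ?_) n
  simp only [LinearMap.comp_apply, LinearMap.add_apply, LinearMap.coe_rTensorHom,
    LinearMap.rTensor_tmul]
  rw [h a b u, TensorProduct.add_tmul]

theorem LL.tensRR {x : LA A Y} {y : LA B Y} (h : LL x y) (X : SD k) :
    LL (x.tensR X) (y.tensR X) := by
  intro a b n
  refine tens_ext (f := lcr x X a ∘ₗ lcr y X b)
    (g := lcr y X b ∘ₗ lcr x X (A.P a) + lcr y X (B.E b) ∘ₗ lcr x X (a - A.P a))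
    (fun u v => ?_) n
  simp only [LinearMap.comp_apply, LinearMap.add_apply, lcr_tmul, map_add]
  rw [h (A.P a) (B.P b), h (A.P a) (b - B.P b), h (a - A.P a) (B.P b),
    h (a - A.P a) (b - B.P b)]
  simp only [A.PP, B.PP, map_sub, map_add, SD.E_apply, TensorProduct.tmul_add,
    TensorProduct.tmul_sub, LinearMap.sub_apply, LinearMap.add_apply, TensorProduct.add_tmul,
    TensorProduct.sub_tmul, X.PP]
  abel

theorem LL.tensLR (x : LA A X) (y : LA B Y) : LL (x.tensL Y) (y.tensR X) := by
  intro a b n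
  refine tens_ext (f := LinearMap.rTensorHom Y.V (x.act a) ∘ₗ lcr y X b)
    (g := lcr y X b ∘ₗ LinearMap.rTensorHom Y.V (x.act (A.P a)) +
      lcr y X (B.E b) ∘ₗ LinearMap.rTensorHom Y.V (x.act (a - A.P a))) (fun u v => ?_) n
  simp only [LinearMap.comp_apply, LinearMap.add_apply, lcr_tmul, LinearMap.coe_rTensorHom,
    LinearMap.rTensor_tmul, map_add, x.E_act]
  simp only [A.PP, B.PP, map_sub, map_add, SD.E_apply, TensorProduct.tmul_add,
    TensorProduct.tmul_sub, LinearMap.sub_apply, LinearMap.add_apply, TensorProduct.add_tmul,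
    TensorProduct.sub_tmul, X.PP]
  abel

theorem RR.tensLL {x : RA A X} {y : RA B X} (h : RR x y) (Y : SD k) :
    RR (x.tensL Y) (y.tensL Y) := by
  intro n a b
  refine tens_ext (f := (rcl x Y).flip a ∘ₗ (rcl y Y).flip b)
    (g := (rcl y Y).flip b ∘ₗ (rcl x Y).flip (A.P a) +
      (rcl y Y).flip (B.E b) ∘ₗ (rcl x Y).flip (a - A.P a)) (fun u v => ?_) n
  simp only [LinearMap.comp_apply, LinearMap.add_apply, LinearMap.flip_apply, rcl_tmul,
    map_add]
  rw [h _ (A.P a) (B.P b), h _ (A.P a) (b - B.P b), h _ (a - A.P a) (B.P b),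
    h _ (a - A.P a) (b - B.P b)]
  simp only [A.PP, B.PP, map_sub, map_add, SD.E_apply, TensorProduct.tmul_add,
    TensorProduct.tmul_sub, LinearMap.sub_apply, LinearMap.add_apply, TensorProduct.add_tmul,
    TensorProduct.sub_tmul, Y.PP]
  abel

theorem RR.tensRR {x : RA A Y} {y : RA B Y} (h : RR x y) (X : SD k) :
    RR (x.tensR X) (y.tensR X) := by
  intro n a b
  refine tens_ext (f := LinearMap.lTensorHom X.V (x.act.flip a) ∘ₗ
      LinearMap.lTensorHom X.V (y.act.flip b))
    (g := LinearMap.lTensorHom X.V (y.act.flip b) ∘ₗ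
        LinearMap.lTensorHom X.V (x.act.flip (A.P a)) +
      LinearMap.lTensorHom X.V (y.act.flip (B.E b)) ∘ₗ
        LinearMap.lTensorHom X.V (x.act.flip (a - A.P a))) (fun u v => ?_) n
  simp only [LinearMap.comp_apply, LinearMap.add_apply, LinearMap.flip_apply,
    LinearMap.coe_lTensorHom, LinearMap.lTensor_tmul]
  rw [h v a b, TensorProduct.tmul_add]

theorem RR.tensRL (x : RA A X) (y : RA B Y) : RR (y.tensR X) (x.tensL Y) := by
  intro n b a
  refine tens_ext (f := LinearMap.lTensorHom X.V (y.act.flip b) ∘ₗ (rcl x Y).flip a)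
    (g := (rcl x Y).flip a ∘ₗ LinearMap.lTensorHom X.V (y.act.flip (B.P b)) +
      (rcl x Y).flip (A.E a) ∘ₗ LinearMap.lTensorHom X.V (y.act.flip (b - B.P b)))
    (fun u v => ?_) n
  simp only [LinearMap.comp_apply, LinearMap.add_apply, LinearMap.flip_apply, rcl_tmul,
    LinearMap.coe_lTensorHom, LinearMap.lTensor_tmul, map_add, y.E_act]
  simp only [A.PP, B.PP, map_sub, map_add, SD.E_apply, TensorProduct.tmul_add,
    TensorProduct.tmul_sub, LinearMap.sub_apply, LinearMap.add_apply, TensorProduct.add_tmul,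
    TensorProduct.sub_tmul, Y.PP]
  abel

theorem LR.tensLR (x : LA A X) (y : RA B Y) : LR (x.tensL Y) (y.tensR X) := by
  intro a n b
  exact (Bi.tensLR x y).lr a n b

theorem LR.tensLL {x : LA A X} {y : RA B X} (h : LR x y) (Y : SD k) :
    LR (x.tensL Y) (y.tensL Y) := by
  intro a n b
  exact (Bi.tensL (⟨x, y, h⟩ : Bi A B X) Y).lr a n b

theorem LR.tensRR {x : LA A Y} {y : RA B Y} (h : LR x y) (X : SD k) :
    LR (x.tensR X) (y.tensR X) := by
  intro a n b
  exact (Bi.tensR (⟨x, y, h⟩ : Bi A B Y) X).lr a n b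

theorem LR.tensRL (x : LA A Y) (y : RA B X) : LR (x.tensR X) (y.tensL Y) := by
  intro a n b
  refine tens_ext (f := (rcl y Y).flip b ∘ₗ lcr x X a)
    (g := lcr x X a ∘ₗ (rcl y Y).flip b) (fun u v => ?_) n
  simp only [LinearMap.comp_apply, LinearMap.flip_apply, rcl_tmul,
    lcr_tmul, map_add, x.E_act, y.E_act, LinearMap.add_apply]
  simp only [A.PP, B.PP, map_sub, map_add, SD.E_apply, TensorProduct.tmul_add,
    TensorProduct.tmul_sub, LinearMap.sub_apply, LinearMap.add_apply, TensorProduct.add_tmul,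
    TensorProduct.sub_tmul, Y.PP, X.PP]
  abel

end tens

/-! ### linear maps -/

section hom

variable {A B S T : DGA k} {M Z : SD k}

/-- left action on linear maps through a right action on the source:
`(s f)(v) = (-1)^(|s| (|f| + |v|)) f(v s)` -/
def RA.pre (Z : SD k) (r : RA S M) : LA S (SD.hom M Z) where
  act := LinearMap.mk₂ k
    (fun s f => f ∘ₗ r.act.flip (S.P s) - Z.E ∘ₗ f ∘ₗ r.act.flip (s - S.P s))
    (fun s s' f => by ext x; simp; abel)
    (fun c s f => by ext x; simp [smul_sub])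
    (fun s f f' => by ext x; simp; abel)
    (fun c s f => by ext x; simp [smul_sub])
  mul_act := fun a b f => by
    have hP : S.P (a * b) = S.P a * S.P b + (a - S.P a) * (b - S.P b) := S.P_mul a b
    ext x
    simp only [LinearMap.mk₂_apply, LinearMap.sub_apply, LinearMap.comp_apply,
      LinearMap.flip_apply, map_add, map_sub, Z.EE, hP, mul_sub, sub_mul,
      r.act_mul, LinearMap.add_apply]
    abel
  P_act := fun a f => by
    ext x
    simp only [SD.hP_apply, LinearMap.mk₂_apply, LinearMap.sub_apply, LinearMap.comp_apply,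
      LinearMap.flip_apply, LinearMap.add_apply, map_sub, map_add, r.P_act, S.PP, M.PP, Z.PP,
      SD.E_apply]
    abel
  D_act := fun a f => by
    ext x
    simp only [SD.hD_apply, LinearMap.mk₂_apply, LinearMap.add_apply, LinearMap.comp_apply,
      LinearMap.flip_apply, map_sub, r.D_act, r.E_act, Z.EE, Z.DE,
      map_add, LinearMap.sub_apply, S.PP, M.PP, S.DP, M.DP, SD.E_apply, Z.DP, map_neg, Z.PP]
    abel

theorem LL.postpost {x : LA A Z} {y : LA B Z} (h : LL x y) (M : SD k) :
    LL (x.post M) (y.post M) := by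
  intro a b f
  refine LinearMap.ext (fun v => ?_)
  exact h a b (f v)

theorem LL.postpre (x : LA A Z) (y : RA B M) : LL (x.post M) (y.pre Z) := by
  intro a b f
  refine LinearMap.ext (fun v => ?_)
  change x.act a (f (y.act v (B.P b)) - Z.E (f (y.act v (b - B.P b)))) =
    (x.act (A.P a) (f (y.act v (B.P b))) - Z.E (x.act (A.P a) (f (y.act v (b - B.P b))))) +
    (x.act (a - A.P a) (f (y.act v (B.P (B.E b)))) -
      Z.E (x.act (a - A.P a) (f (y.act v (B.E b - B.P (B.E b))))))
  simp only [map_sub, x.E_act, A.EP, B.PE, LinearMap.sub_apply]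
  simp only [SD.E_apply, map_sub, map_add, LinearMap.sub_apply, LinearMap.add_apply, A.PP]
  abel

theorem LL.prepre {x : RA A M} {y : RA B M} (h : RR x y) (Z : SD k) :
    LL (x.pre Z) (y.pre Z) := by
  intro a b f
  refine LinearMap.ext (fun v => ?_)
  change ((f (y.act (x.act v (A.P a)) (B.P b)) - Z.E (f (y.act (x.act v (A.P a)) (b - B.P b)))) -
    Z.E (f (y.act (x.act v (a - A.P a)) (B.P b)) -
      Z.E (f (y.act (x.act v (a - A.P a)) (b - B.P b))))) =
    ((f (x.act (y.act v (B.P b)) (A.P (A.P a))) -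
        Z.E (f (x.act (y.act v (B.P b)) (A.P a - A.P (A.P a))))) -
      Z.E (f (x.act (y.act v (b - B.P b)) (A.P (A.P a))) -
        Z.E (f (x.act (y.act v (b - B.P b)) (A.P a - A.P (A.P a)))))) +
    ((f (x.act (y.act v (B.P (B.E b))) (A.P (a - A.P a))) -
        Z.E (f (x.act (y.act v (B.P (B.E b))) ((a - A.P a) - A.P (a - A.P a))))) -
      Z.E (f (x.act (y.act v (B.E b - B.P (B.E b))) (A.P (a - A.P a))) -
        Z.E (f (x.act (y.act v (B.E b - B.P (B.E b))) ((a - A.P a) - A.P (a - A.P a))))))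
  rw [h v (A.P (A.P a)) (B.P b), h v (A.P a - A.P (A.P a)) (B.P b),
    h v (A.P (A.P a)) (b - B.P b), h v (A.P a - A.P (A.P a)) (b - B.P b),
    h v (A.P (a - A.P a)) (B.P (B.E b)), h v ((a - A.P a) - A.P (a - A.P a)) (B.P (B.E b)),
    h v (A.P (a - A.P a)) (B.E b - B.P (B.E b)),
    h v ((a - A.P a) - A.P (a - A.P a)) (B.E b - B.P (B.E b))]
  simp only [A.PP, B.PP, map_sub, sub_self, map_zero, LinearMap.zero_apply, B.PE, B.EP, B.EE,
    LinearMap.sub_apply, SD.E_apply, map_add, LinearMap.add_apply]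
  abel

theorem LR.postpre (x : LA A Z) (y : LA B M) : LR (x.post M) (LA.pre Z y) := by
  intro a f b
  rfl

theorem LR.postpost {x : LA A Z} {y : RA B Z} (h : LR x y) (M : SD k) :
    LR (x.post M) (y.post M) := by
  intro a f b
  refine LinearMap.ext (fun v => ?_)
  change y.act (x.act a (f v)) (B.P b) + y.act (x.act a (f (M.E v))) (b - B.P b) =
    x.act a (y.act (f v) (B.P b) + y.act (f (M.E v)) (b - B.P b))
  rw [h, h, map_add]

theorem LR.prepre {y : LA B M} {x : RA A M} (h : LR y x) (Z : SD k) :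
    LR (x.pre Z) (LA.pre Z y) := by
  intro a f b
  refine LinearMap.ext (fun v => ?_)
  change f (x.act (y.act b v) (A.P a)) - Z.E (f (x.act (y.act b v) (a - A.P a))) =
    f (y.act b (x.act v (A.P a))) - Z.E (f (y.act b (x.act v (a - A.P a))))
  rw [h, h]

theorem LR.prepost (x : RA A M) (y : RA B Z) : LR (x.pre Z) (y.post M) := by
  intro a f b
  refine LinearMap.ext (fun v => ?_)
  change y.act (f (x.act v (A.P a)) - Z.E (f (x.act v (a - A.P a)))) (B.P b) +
      y.act (f (x.act (M.E v) (A.P a)) - Z.E (f (x.act (M.E v) (a - A.P a)))) (b - B.P b) =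
    (y.act (f (x.act v (A.P a))) (B.P b) + y.act (f (M.E (x.act v (A.P a)))) (b - B.P b)) -
    Z.E (y.act (f (x.act v (a - A.P a))) (B.P b) +
      y.act (f (M.E (x.act v (a - A.P a)))) (b - B.P b))
  simp only [map_sub, map_add, x.E_act, y.E_act, B.EP, A.EP, LinearMap.sub_apply,
    LinearMap.add_apply]
  simp only [map_sub, map_add, SD.E_apply, B.PP, A.PP, LinearMap.sub_apply,
    LinearMap.add_apply]
  abel

theorem RR.prepre {x : LA A M} {y : LA B M} (h : LL x y) (Z : SD k) :
    RR (LA.pre Z y) (LA.pre Z x) := by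
  intro f b a
  refine LinearMap.ext (fun v => ?_)
  change f (x.act a (y.act b v)) = f (y.act (B.P b) (x.act a v)) +
    f (y.act (b - B.P b) (x.act (A.E a) v))
  rw [h a b v]
  simp only [SD.E_apply, map_sub, map_add, LinearMap.sub_apply, LinearMap.add_apply]
  abel

theorem RR.prepost (x : LA A M) (y : RA B Z) : RR (y.post M) (LA.pre Z x) := by
  intro f b a
  refine LinearMap.ext (fun v => ?_)
  change y.act (f (x.act a v)) (B.P b) + y.act (f (x.act a (M.E v))) (b - B.P b) =
    (y.act (f (x.act a v)) (B.P (B.P b)) + y.act (f (M.E (x.act a v))) (B.P b - B.P (B.P b))) +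
    (y.act (f (x.act (A.E a) v)) (B.P (b - B.P b)) +
      y.act (f (M.E (x.act (A.E a) v))) ((b - B.P b) - B.P (b - B.P b)))
  simp only [x.E_act, B.PP, A.EE, map_sub, sub_self, map_zero, sub_zero, add_zero,
    LinearMap.sub_apply]
  abel

theorem RR.postpost {x : RA A Z} {y : RA B Z} (h : RR x y) (M : SD k) :
    RR (x.post M) (y.post M) := by
  intro f a b
  refine LinearMap.ext (fun v => ?_)
  change x.act (y.act (f v) (B.P b) + y.act (f (M.E v)) (b - B.P b)) (A.P a) +
      x.act (y.act (f (M.E v)) (B.P b) + y.act (f (M.E (M.E v))) (b - B.P b)) (a - A.P a) =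
    (y.act (x.act (f v) (A.P (A.P a)) + x.act (f (M.E v)) (A.P a - A.P (A.P a))) (B.P b) +
      y.act (x.act (f (M.E v)) (A.P (A.P a)) +
        x.act (f (M.E (M.E v))) (A.P a - A.P (A.P a))) (b - B.P b)) +
    (y.act (x.act (f v) (A.P (a - A.P a)) +
        x.act (f (M.E v)) ((a - A.P a) - A.P (a - A.P a))) (B.P (B.E b)) +
      y.act (x.act (f (M.E v)) (A.P (a - A.P a)) +
        x.act (f (M.E (M.E v))) ((a - A.P a) - A.P (a - A.P a))) (B.E b - B.P (B.E b)))
  simp only [map_add, LinearMap.add_apply]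
  rw [h _ (A.P a) (B.P b), h _ (A.P a) (b - B.P b), h _ (a - A.P a) (B.P b),
    h _ (a - A.P a) (b - B.P b)]
  simp only [A.PP, B.PP, map_sub, sub_self, map_zero, LinearMap.zero_apply, B.PE, B.EP, M.EE,
    LinearMap.sub_apply, SD.E_apply, map_add, LinearMap.add_apply]
  abel

end hom

end NC
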