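import Pool.Agent.H16.NC.CommS

/-!
# Cross maps (base file, helper16)

`crR : X ⊗ HC(R; N) → HC(R; X ⊗ N)` and `crL : HC(R; N) ⊗ Y → HC(R; N ⊗ Y)`.
-/

open scoped TensorProduct

namespace NC

variable {k : Type} [Field k]

section cross

variable {R : DGA k} {X Y N : SD k}

/-- `x, w ↦` the word `w` with head `n` replaced by `x ⊗ n` -/
noncomputable def xh (R X N : SD k) : X.V →ₗ[k] Wd k N.V R.V →ₗ[k] Wd k (X.V ⊗[k] N.V) R.V where
  toFun x := Wd.map (TensorProduct.mk k X.V N.V x) LinearMap.id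
  map_add' a b := by
    refine LinearMap.ext (Wd.ext_apply (fun n => ?_) (fun w hw r => ?_))
    · simp
    · simp only [LinearMap.add_apply, Wd.map_snoc] at hw ⊢
      rw [hw]; simp
  map_smul' c a := by
    refine LinearMap.ext (Wd.ext_apply (fun n => ?_) (fun w hw r => ?_))
    · simp
    · simp only [LinearMap.smul_apply, RingHom.id_apply, Wd.map_snoc] at hw ⊢
      rw [hw]; simp

@[simp] theorem xh_nil (x : X.V) (n : N.V) :
    xh R.toSD X N x (Wd.nil n) = Wd.nil (x ⊗ₜ n) := by simp [xh]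
@[simp] theorem xh_snoc (x : X.V) (w : Wd k N.V R.V) (r : R.V) :
    xh R.toSD X N x (Wd.snoc w r) = Wd.snoc (xh R.toSD X N x w) r := by simp [xh]

theorem xh_PW (x : X.V) (w : Wd k N.V R.V) :
    PW (X.tens N) R.toSD (xh R.toSD X N x w) = xh R.toSD X N (X.P x) (PW N R.toSD w) +
      xh R.toSD X N (x - X.P x) (w - PW N R.toSD w) := by
  induction w using Wd.induction with
  | hadd a b ha hb => simp only [map_add, ha, hb, map_sub, LinearMap.sub_apply]; abel
  | hnil n =>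
    have h1 : PW (X.tens N) R.toSD (Wd.nil (x ⊗ₜ n)) = Wd.nil (SD.tP X N (x ⊗ₜ n)) :=
      PW_nil _ _ _
    rw [xh_nil, h1, SD.tP_tmul, PW_nil, ← map_sub, xh_nil, xh_nil, map_add]
  | hsnoc w hw r =>
    have h1 : PW (X.tens N) R.toSD (Wd.snoc (xh R.toSD X N x w) r) =
        Wd.snoc (xh R.toSD X N x w) (R.P r) -
          Wd.snoc (PW (X.tens N) R.toSD (xh R.toSD X N x w)) (R.E r) := PW_snoc _ _ _ _
    rw [xh_snoc, h1, hw]
    simp only [PW_snoc, map_sub, map_add, LinearMap.sub_apply, LinearMap.add_apply, xh_snoc,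
      SD.E_apply]
    abel

theorem xh_EW (x : X.V) (w : Wd k N.V R.V) :
    EW (X.tens N) R.toSD (xh R.toSD X N x w) = xh R.toSD X N (X.E x) (EW N R.toSD w) := by
  have h1 : EW (X.tens N) R.toSD (xh R.toSD X N x w) = PW (X.tens N) R.toSD (xh R.toSD X N x w) +
    PW (X.tens N) R.toSD (xh R.toSD X N x w) - xh R.toSD X N x w := rfl
  rw [h1, xh_PW]
  simp only [EW_apply, SD.E_apply, map_sub, map_add, LinearMap.sub_apply,
    LinearMap.add_apply]
  abel

theorem xh_tl (ρ : RA R N) (x : X.V) (w : Wd k N.V R.V) (r : R.V) :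
    tl R (ρ.tensR X).act (xh R.toSD X N x w) r = xh R.toSD X N x (tl R ρ.act w r) := by
  induction w using Wd.induction with
  | hadd a b ha hb => simp only [map_add, LinearMap.add_apply, ha, hb]
  | hnil n =>
    rw [xh_nil, tl_nil, tl_nil, xh_nil]; rfl
  | hsnoc w hw s =>
    rw [xh_snoc, tl_snoc, tl_snoc, xh_snoc]

theorem Db_xh (ρ : RA R N) (x : X.V) (w : Wd k N.V R.V) :
    Db (ρ.tensR X) (xh R.toSD X N x w) = xh R.toSD X N (X.D x) w +
      xh R.toSD X N (X.E x) (Db ρ w) := by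
  induction w using Wd.induction with
  | hadd a b ha hb => simp only [map_add, ha, hb]; abel
  | hnil n =>
    have h1 : Db (ρ.tensR X) (Wd.nil (x ⊗ₜ n)) = Wd.nil (SD.tD X N (x ⊗ₜ n)) := Db_nil _ _
    rw [xh_nil, h1, SD.tD_tmul, Db_nil, xh_nil, xh_nil, map_add]
  | hsnoc w hw r =>
    have h1 : Db (ρ.tensR X) (Wd.snoc (xh R.toSD X N x w) r) =
        Wd.snoc (Db (ρ.tensR X) (xh R.toSD X N x w)) r -
        Wd.snoc (EW (X.tens N) R.toSD (xh R.toSD X N x w)) (R.D r) +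
        tl R (ρ.tensR X).act (EW (X.tens N) R.toSD (xh R.toSD X N x w)) r := Db_snoc _ _ _
    rw [xh_snoc, h1, hw, xh_EW, xh_tl, Db_snoc]
    simp only [map_sub, map_add, LinearMap.add_apply, xh_snoc]
    abel

theorem xh_hd {S : DGA k} (l : LA S N) (x : X.V) (s : S.V) (w : Wd k N.V R.V) :
    hd R (l.tensR X) s (xh R.toSD X N x w) = xh R.toSD X N x (hd R l (S.P s) w) +
      xh R.toSD X N (X.E x) (hd R l (s - S.P s) w) := by
  induction w using Wd.induction with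
  | hadd a b ha hb => simp only [map_add, ha, hb]; abel
  | hnil n =>
    rw [xh_nil]
    have h1 : hd R (l.tensR X) s (Wd.nil (x ⊗ₜ n)) = Wd.nil (lcr l X s (x ⊗ₜ n)) := hd_nil _ _ _
    rw [h1, lcr_tmul, hd_nil, hd_nil, xh_nil, xh_nil, map_add]
  | hsnoc w hw r =>
    have h1 : hd R (l.tensR X) s (Wd.snoc (xh R.toSD X N x w) r) =
      Wd.snoc (hd R (l.tensR X) s (xh R.toSD X N x w)) r := hd_snoc _ _ _ _
    rw [xh_snoc, h1, hw]
    simp only [hd_snoc, xh_snoc, map_add, LinearMap.add_apply]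

theorem xh_om (l : LA R N) (x : X.V) (w : Wd k N.V R.V) :
    om (l.tensR X) (xh R.toSD X N x w) = xh R.toSD X N (X.E x) (om l w) := by
  induction w using Wd.induction with
  | hadd a b ha hb => simp only [map_add, ha, hb]
  | hnil n =>
    have h1 : om (l.tensR X) (Wd.nil (x ⊗ₜ n)) = 0 := om_nil _ _
    rw [xh_nil, h1, om_nil, map_zero]
  | hsnoc w hw r =>
    have h1 : om (l.tensR X) (Wd.snoc (xh R.toSD X N x w) r) =
      hd R (l.tensR X) (R.P r) (EW (X.tens N) R.toSD (xh R.toSD X N x w)) +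
        hd R (l.tensR X) (r - R.P r) (xh R.toSD X N x w) := om_snoc _ _ _
    rw [xh_snoc, h1, xh_EW, xh_hd, xh_hd, om_snoc]
    simp only [map_sub, map_add, LinearMap.sub_apply, LinearMap.add_apply, R.PP, X.EE]
    abel

theorem xh_hr {S : DGA k} (r : RA S N) (x : X.V) (s : S.V) (w : Wd k N.V R.V) :
    hr R (r.tensR X) (xh R.toSD X N x w) s = xh R.toSD X N x (hr R r w s) := by
  induction w using Wd.induction generalizing s with
  | hadd a b ha hb => simp only [map_add, ha, hb, LinearMap.add_apply]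
  | hnil n =>
    rw [xh_nil, hr_nil, hr_nil, xh_nil]; rfl
  | hsnoc w hw r => 
    rw [xh_snoc, hr_snoc, hr_snoc, hw, hw]
    simp only [map_sub, xh_snoc, LinearMap.sub_apply]

/-- the linear map `x ⊗ w ↦ (x ⊗ n ; ...)` -/
noncomputable def crR0 (R X N : SD k) : X.V ⊗[k] Wd k N.V R.V →ₗ[k] Wd k (X.V ⊗[k] N.V) R.V :=
  TensorProduct.lift (xh R X N)

@[simp] theorem crR0_tmul (R X N : SD k) (x : X.V) (w : Wd k N.V R.V) :
    crR0 R X N (x ⊗ₜ w) = xh R X N x w := rfl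

/-- `X ⊗ HC(R; N) → HC(R; X ⊗ N)` -/
noncomputable def crR (X : SD k) (b : Bi R R N) : SD.Hom (X.tens (HC b)) (HC (b.tensR X)) where
  f := crR0 R.toSD X N
  D := fun v => by
    refine tens_ext (f := crR0 R.toSD X N ∘ₗ SD.tD X (HC b))
      (g := hcD (b.tensR X) ∘ₗ crR0 R.toSD X N) (fun x w => ?_) v
    have h1 : SD.tD X (HC b) (x ⊗ₜ w) = X.D x ⊗ₜ w + X.E x ⊗ₜ hcD b w := rfl
    simp only [LinearMap.comp_apply]
    rw [h1, map_add, crR0_tmul, crR0_tmul, crR0_tmul, hcD_apply, hcD_apply, map_sub]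
    have h2 := Db_xh b.r x w
    have h3 := xh_om b.l x w
    have h4 : Db (b.tensR X).r (xh R.toSD X N x w) - om (b.tensR X).l (xh R.toSD X N x w) =
      Db (b.r.tensR X) (xh R.toSD X N x w) - om (b.l.tensR X) (xh R.toSD X N x w) := rfl
    rw [h4, h2, h3]
    abel
  P := fun v => by
    refine tens_ext (f := crR0 R.toSD X N ∘ₗ SD.tP X (HC b))
      (g := PW (X.tens N) R.toSD ∘ₗ crR0 R.toSD X N) (fun x w => ?_) v
    have h1 : SD.tP X (HC b) (x ⊗ₜ w) = X.P x ⊗ₜ PW N R.toSD w +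
      (x - X.P x) ⊗ₜ (w - PW N R.toSD w) := rfl
    simp only [LinearMap.comp_apply]
    rw [h1, map_add, crR0_tmul, crR0_tmul, crR0_tmul, xh_PW]

/-- inverse of `crR0` -/
noncomputable def crRinv (R X N : SD k) :
    Wd k (X.V ⊗[k] N.V) R.V →ₗ[k] X.V ⊗[k] Wd k N.V R.V :=
  Wd.recW (TensorProduct.map LinearMap.id Wd.nil) 0
    ((TensorProduct.mapBilinear (RingHom.id k) X.V (Wd k N.V R.V) X.V (Wd k N.V R.V)
      LinearMap.id ∘ₗ Wd.snoc.flip).flip)

theorem crRinv_nil (R X N : SD k) (v : X.V ⊗[k] N.V) :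
    crRinv R X N (Wd.nil v) = TensorProduct.map LinearMap.id Wd.nil v := by simp [crRinv]
theorem crRinv_snoc (R X N : SD k) (w : Wd k (X.V ⊗[k] N.V) R.V) (r : R.V) :
    crRinv R X N (Wd.snoc w r) = TensorProduct.map LinearMap.id (Wd.snoc.flip r)
      (crRinv R X N w) := by simp [crRinv]

theorem crRinv_crR0 (R X N : SD k) (v : X.V ⊗[k] Wd k N.V R.V) :
    crRinv R X N (crR0 R X N v) = v := by
  refine tens_ext (f := crRinv R X N ∘ₗ crR0 R X N) (g := LinearMap.id) (fun x w => ?_) v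
  simp only [LinearMap.comp_apply, LinearMap.id_apply]
  induction w using Wd.induction with
  | hadd a b ha hb => rw [TensorProduct.tmul_add, map_add, map_add, ha, hb]
  | hnil n => simp [crRinv_nil, xh]
  | hsnoc w hw r =>
    rw [crR0_tmul] at hw ⊢
    have h1 : xh R X N x (Wd.snoc w r) = Wd.snoc (xh R X N x w) r := by simp [xh]
    rw [h1, crRinv_snoc, hw]; rfl

theorem crR0_crRinv (R X N : SD k) (v : Wd k (X.V ⊗[k] N.V) R.V) :
    crR0 R X N (crRinv R X N v) = v := by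
  induction v using Wd.induction with
  | hadd a b ha hb => rw [map_add, map_add, ha, hb]
  | hnil n =>
    rw [crRinv_nil]
    refine tens_ext (f := crR0 R X N ∘ₗ TensorProduct.map LinearMap.id Wd.nil)
      (g := Wd.nil) (fun x w => ?_) n
    simp [xh]
  | hsnoc w hw r =>
    rw [crRinv_snoc]
    have h : ∀ u : X.V ⊗[k] Wd k N.V R.V, crR0 R X N (TensorProduct.map LinearMap.id
        (Wd.snoc.flip r) u) = Wd.snoc (crR0 R X N u) r := by
      intro u
      refine tens_ext (f := crR0 R X N ∘ₗ TensorProduct.map LinearMap.id (Wd.snoc.flip r))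
        (g := Wd.snoc.flip r ∘ₗ crR0 R X N) (fun x w => ?_) u
      simp [xh]
    rw [h, hw]

theorem crR_bij (R X N : SD k) : Function.Bijective (crR0 R X N) :=
  Function.bijective_iff_has_inverse.2 ⟨crRinv R X N, crRinv_crR0 R X N, crR0_crRinv R X N⟩

/-! ### the other side -/

/-- `w, y ↦` the head `n` is replaced by `n ⊗ y`; `y` crosses the suspended letters -/
noncomputable def xl (R N Y : SD k) : Wd k N.V R.V →ₗ[k] Y.V →ₗ[k] Wd k (N.V ⊗[k] Y.V) R.V :=
  Wd.recW ((TensorProduct.mk k N.V Y.V).compr₂ Wd.nil) 0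
    (LinearMap.mk₂ k (fun (z : Y.V →ₗ[k] Wd k (N.V ⊗[k] Y.V) R.V) (a : R.V) =>
      Wd.snoc.flip a ∘ₗ z ∘ₗ Y.P - Wd.snoc.flip (R.E a) ∘ₗ z ∘ₗ (LinearMap.id - Y.P))
      (fun z z' a => by ext; simp; abel)
      (fun c z a => by ext; simp [smul_sub])
      (fun z a a' => by ext; simp; abel)
      (fun c z a => by ext; simp [smul_sub]))

@[simp] theorem xl_nil (R N Y : SD k) (n : N.V) (y : Y.V) :
    xl R N Y (Wd.nil n) y = Wd.nil (n ⊗ₜ y) := by simp [xl]
@[simp] theorem xl_snoc (R N Y : SD k) (w : Wd k N.V R.V) (r : R.V) (y : Y.V) :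
    xl R N Y (Wd.snoc w r) y = Wd.snoc (xl R N Y w (Y.P y)) r -
      Wd.snoc (xl R N Y w (y - Y.P y)) (R.E r) := by simp [xl]

theorem xl_PW (y : Y.V) (w : Wd k N.V R.V) :
    PW (N.tens Y) R.toSD (xl R.toSD N Y w y) = xl R.toSD N Y (PW N R.toSD w) (Y.P y) +
      xl R.toSD N Y (w - PW N R.toSD w) (y - Y.P y) := by
  induction w using Wd.induction generalizing y with
  | hadd a b ha hb => simp only [map_add, ha, hb, map_sub, LinearMap.sub_apply,
      LinearMap.add_apply]; abel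
  | hnil n =>
    have h1 : PW (N.tens Y) R.toSD (Wd.nil (n ⊗ₜ y)) = Wd.nil (SD.tP N Y (n ⊗ₜ y)) :=
      PW_nil _ _ _
    rw [xl_nil, h1, SD.tP_tmul, PW_nil, ← map_sub, xl_nil, xl_nil, map_add]
  | hsnoc w hw r =>
    have h1 : ∀ (v : Wd k (N.V ⊗[k] Y.V) R.V) (r : R.V),
        PW (N.tens Y) R.toSD (Wd.snoc v r) =
        Wd.snoc v (R.P r) - Wd.snoc (PW (N.tens Y) R.toSD v) (R.E r) :=
      fun v r => PW_snoc _ _ _ _
    rw [xl_snoc, map_sub, h1, h1, hw, hw]
    simp only [PW_snoc, map_sub, map_add, LinearMap.sub_apply, LinearMap.add_apply, xl_snoc,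
      SD.E_apply, Y.PP, R.PP]
    abel

theorem xl_EW (y : Y.V) (w : Wd k N.V R.V) :
    EW (N.tens Y) R.toSD (xl R.toSD N Y w y) = xl R.toSD N Y (EW N R.toSD w) (Y.E y) := by
  have h1 : EW (N.tens Y) R.toSD (xl R.toSD N Y w y) = PW (N.tens Y) R.toSD (xl R.toSD N Y w y) +
    PW (N.tens Y) R.toSD (xl R.toSD N Y w y) - xl R.toSD N Y w y := rfl
  rw [h1, xl_PW]
  simp only [EW_apply, SD.E_apply, map_sub, map_add, LinearMap.sub_apply,
    LinearMap.add_apply]
  abel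

theorem xl_tl (ρ : RA R N) (y : Y.V) (w : Wd k N.V R.V) (r : R.V) :
    tl R (ρ.tensL Y).act (xl R.toSD N Y w y) r = xl R.toSD N Y (tl R ρ.act w (R.P r)) y +
      xl R.toSD N Y (tl R ρ.act w (r - R.P r)) (Y.E y) := by
  induction w using Wd.induction with
  | hadd a b ha hb => simp only [map_add, LinearMap.add_apply, ha, hb]; abel
  | hnil n =>
    rw [xl_nil, tl_nil, tl_nil, tl_nil, xl_nil, xl_nil]
    have h1 : (ρ.tensL Y).act (n ⊗ₜ y) r = rcl ρ Y (n ⊗ₜ y) r := rfl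
    rw [h1, rcl_tmul, map_add]
  | hsnoc w hw s =>
    rw [xl_snoc, map_sub, LinearMap.sub_apply, tl_snoc, tl_snoc, tl_snoc, tl_snoc, xl_snoc,
      xl_snoc]
    simp only [DGA.E_mul, mul_sub, map_sub, Y.PE, LinearMap.sub_apply]
    simp only [SD.E_apply, map_sub, map_add, LinearMap.sub_apply, LinearMap.add_apply, mul_add,
      mul_sub, Y.PP, R.PP]
    abel

theorem Db_xl (ρ : RA R N) (y : Y.V) (w : Wd k N.V R.V) :
    Db (ρ.tensL Y) (xl R.toSD N Y w y) = xl R.toSD N Y (Db ρ w) y +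
      xl R.toSD N Y (EW N R.toSD w) (Y.D y) := by
  induction w using Wd.induction generalizing y with
  | hadd a b ha hb => simp only [map_add, LinearMap.add_apply, ha, hb]; abel
  | hnil n =>
    have h1 : Db (ρ.tensL Y) (Wd.nil (n ⊗ₜ y)) = Wd.nil (SD.tD N Y (n ⊗ₜ y)) := Db_nil _ _
    rw [xl_nil, h1, SD.tD_tmul, Db_nil, xl_nil, EW_nil, xl_nil, map_add]
  | hsnoc w hw r =>
    have h1 : ∀ (v : Wd k (N.V ⊗[k] Y.V) R.V) (r : R.V), Db (ρ.tensL Y) (Wd.snoc v r) =
        Wd.snoc (Db (ρ.tensL Y) v) r -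
        Wd.snoc (EW (N.tens Y) R.toSD v) (R.D r) +
        tl R (ρ.tensL Y).act (EW (N.tens Y) R.toSD v) r := fun v r => Db_snoc _ _ _
    rw [xl_snoc, map_sub, h1, h1, hw, hw, xl_EW, xl_EW, xl_tl, xl_tl, Db_snoc]
    simp only [map_sub, map_add, LinearMap.add_apply, xl_snoc, EW_snoc, map_neg,
      LinearMap.neg_apply, LinearMap.sub_apply, Y.DP, R.DE, R.PE, R.EE, Y.EE, Y.EP]
    simp only [SD.E_apply, map_sub, map_add, LinearMap.sub_apply, LinearMap.add_apply, Y.PP,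
      R.PP, Y.DP, R.DP]
    abel

theorem xl_hd {S : DGA k} (l : LA S N) (y : Y.V) (s : S.V) (w : Wd k N.V R.V) :
    hd R (l.tensL Y) s (xl R.toSD N Y w y) = xl R.toSD N Y (hd R l s w) y := by
  induction w using Wd.induction generalizing y with
  | hadd a b ha hb => simp only [map_add, ha, hb, LinearMap.add_apply]
  | hnil n => rw [xl_nil, hd_nil, hd_nil, xl_nil]; rfl
  | hsnoc w hw r =>
    have h1 : ∀ (v : Wd k (N.V ⊗[k] Y.V) R.V) (r : R.V), hd R (l.tensL Y) s (Wd.snoc v r) =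
      Wd.snoc (hd R (l.tensL Y) s v) r := fun v r => hd_snoc _ _ _ _
    rw [xl_snoc, map_sub, h1, h1, hw, hw, hd_snoc, xl_snoc]

theorem xl_om (l : LA R N) (y : Y.V) (w : Wd k N.V R.V) :
    om (l.tensL Y) (xl R.toSD N Y w y) = xl R.toSD N Y (om l w) y := by
  induction w using Wd.induction generalizing y with
  | hadd a b ha hb => simp only [map_add, ha, hb, LinearMap.add_apply]
  | hnil n =>
    have h1 : om (l.tensL Y) (Wd.nil (n ⊗ₜ y)) = 0 := om_nil _ _
    rw [xl_nil, h1, om_nil, map_zero, LinearMap.zero_apply]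
  | hsnoc w hw r =>
    have h1 : ∀ (v : Wd k (N.V ⊗[k] Y.V) R.V) (r : R.V), om (l.tensL Y) (Wd.snoc v r) =
      hd R (l.tensL Y) (R.P r) (EW (N.tens Y) R.toSD v) +
        hd R (l.tensL Y) (r - R.P r) v := fun v r => om_snoc _ _ _
    rw [xl_snoc, map_sub, h1, h1, xl_EW, xl_EW, om_snoc, xl_hd, xl_hd, xl_hd, xl_hd]
    simp only [R.PE, map_sub, map_add, LinearMap.sub_apply, LinearMap.add_apply]
    simp only [SD.E_apply, map_sub, map_add, LinearMap.sub_apply, LinearMap.add_apply, Y.PP]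
    abel

/-- left action on `Y` -/
theorem xl_hdR {S : DGA k} (l : LA S Y) (y : Y.V) (s : S.V) (w : Wd k N.V R.V) :
    hd R (l.tensR N) s (xl R.toSD N Y w y) = xl R.toSD N Y w (l.act (S.P s) y) +
      xl R.toSD N Y (EW N R.toSD w) (l.act (s - S.P s) y) := by
  induction w using Wd.induction generalizing y with
  | hadd a b ha hb => simp only [map_add, ha, hb, LinearMap.add_apply]; abel
  | hnil n =>
    have h1 : hd R (l.tensR N) s (Wd.nil (n ⊗ₜ y)) = Wd.nil (lcr l N s (n ⊗ₜ y)) := hd_nil _ _ _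
    rw [xl_nil, h1, lcr_tmul, EW_nil, xl_nil, xl_nil, map_add]
  | hsnoc w hw r =>
    have h1 : ∀ (v : Wd k (N.V ⊗[k] Y.V) R.V) (r : R.V), hd R (l.tensR N) s (Wd.snoc v r) =
      Wd.snoc (hd R (l.tensR N) s v) r := fun v r => hd_snoc _ _ _ _
    rw [xl_snoc, map_sub, h1, h1, hw, hw]
    simp only [xl_snoc, EW_snoc, map_neg, LinearMap.neg_apply, l.P_act, S.PP,
      map_sub, map_add, LinearMap.sub_apply, LinearMap.add_apply, SD.E_apply, R.PP]
    abel

/-- right action on `Y` -/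
theorem xl_hrR {S : DGA k} (r : RA S Y) (y : Y.V) (s : S.V) (w : Wd k N.V R.V) :
    hr R (r.tensR N) (xl R.toSD N Y w y) s = xl R.toSD N Y w (r.act y s) := by
  induction w using Wd.induction generalizing y s with
  | hadd a b ha hb => simp only [map_add, ha, hb, LinearMap.add_apply]
  | hnil n => rw [xl_nil, hr_nil, xl_nil]; rfl
  | hsnoc w hw x =>
    have h1 : ∀ (v : Wd k (N.V ⊗[k] Y.V) R.V) (x : R.V) (s : S.V),
      hr R (r.tensR N) (Wd.snoc v x) s =
      Wd.snoc (hr R (r.tensR N) v (S.P s)) x - Wd.snoc (hr R (r.tensR N) v (s - S.P s)) (R.E x) :=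
      fun v x s => hr_snoc _ _ _ _
    rw [xl_snoc, map_sub, LinearMap.sub_apply, h1, h1, hw, hw, hw, hw, xl_snoc]
    simp only [r.P_act, R.EE, map_sub, map_add, LinearMap.sub_apply, LinearMap.add_apply]
    abel

/-- right action on `N` -/
theorem xl_hrL {S : DGA k} (r : RA S N) (y : Y.V) (s : S.V) (w : Wd k N.V R.V) :
    hr R (r.tensL Y) (xl R.toSD N Y w y) s = xl R.toSD N Y (hr R r w (S.P s)) y +
      xl R.toSD N Y (hr R r w (s - S.P s)) (Y.E y) := by
  induction w using Wd.induction generalizing y s with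
  | hadd a b ha hb => simp only [map_add, ha, hb, LinearMap.add_apply]; abel
  | hnil n =>
    have h1 : hr R (r.tensL Y) (Wd.nil (n ⊗ₜ y)) s = Wd.nil (rcl r Y (n ⊗ₜ y) s) := hr_nil _ _ _
    rw [xl_nil, h1, rcl_tmul, hr_nil, hr_nil, xl_nil, xl_nil, map_add]
  | hsnoc w hw x =>
    have h1 : ∀ (v : Wd k (N.V ⊗[k] Y.V) R.V) (x : R.V) (s : S.V),
      hr R (r.tensL Y) (Wd.snoc v x) s =
      Wd.snoc (hr R (r.tensL Y) v (S.P s)) x - Wd.snoc (hr R (r.tensL Y) v (s - S.P s)) (R.E x) :=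
      fun v x s => hr_snoc _ _ _ _
    rw [xl_snoc, map_sub, LinearMap.sub_apply, h1, h1, hw, hw, hw, hw]
    simp only [hr_snoc, xl_snoc, R.EE, map_sub, map_add, LinearMap.sub_apply,
      LinearMap.add_apply, S.PP, Y.PE, sub_self, map_zero, LinearMap.zero_apply]
    simp only [SD.E_apply, map_sub, map_add, LinearMap.sub_apply, LinearMap.add_apply, Y.PP]
    abel

/-- the linear map `w ⊗ y ↦ ± (n ⊗ y ; ...)` -/
noncomputable def crL0 (R N Y : SD k) : Wd k N.V R.V ⊗[k] Y.V →ₗ[k] Wd k (N.V ⊗[k] Y.V) R.V :=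
  TensorProduct.lift (xl R N Y)

@[simp] theorem crL0_tmul (R N Y : SD k) (w : Wd k N.V R.V) (y : Y.V) :
    crL0 R N Y (w ⊗ₜ y) = xl R N Y w y := rfl

/-- `HC(R; N) ⊗ Y → HC(R; N ⊗ Y)` -/
noncomputable def crL (b : Bi R R N) (Y : SD k) : SD.Hom ((HC b).tens Y) (HC (b.tensL Y)) where
  f := crL0 R.toSD N Y
  D := fun v => by
    refine tens_ext (f := crL0 R.toSD N Y ∘ₗ SD.tD (HC b) Y)
      (g := hcD (b.tensL Y) ∘ₗ crL0 R.toSD N Y) (fun w y => ?_) v
    have h1 : SD.tD (HC b) Y (w ⊗ₜ y) = hcD b w ⊗ₜ y + EW N R.toSD w ⊗ₜ Y.D y := rfl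
    simp only [LinearMap.comp_apply]
    rw [h1, map_add, crL0_tmul, crL0_tmul, crL0_tmul, hcD_apply, hcD_apply, map_sub]
    have h2 := Db_xl b.r y w
    have h3 := xl_om b.l y w
    have h4 : Db (b.tensL Y).r (xl R.toSD N Y w y) - om (b.tensL Y).l (xl R.toSD N Y w y) =
      Db (b.r.tensL Y) (xl R.toSD N Y w y) - om (b.l.tensL Y) (xl R.toSD N Y w y) := rfl
    rw [h4, h2, h3, LinearMap.sub_apply]
    abel
  P := fun v => by
    refine tens_ext (f := crL0 R.toSD N Y ∘ₗ SD.tP (HC b) Y)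
      (g := PW (N.tens Y) R.toSD ∘ₗ crL0 R.toSD N Y) (fun w y => ?_) v
    have h1 : SD.tP (HC b) Y (w ⊗ₜ y) = PW N R.toSD w ⊗ₜ Y.P y +
      (w - PW N R.toSD w) ⊗ₜ (y - Y.P y) := rfl
    simp only [LinearMap.comp_apply]
    rw [h1, map_add, crL0_tmul, crL0_tmul, crL0_tmul, xl_PW]

/-- inverse of `crL0` -/
noncomputable def crLinv (R N Y : SD k) :
    Wd k (N.V ⊗[k] Y.V) R.V →ₗ[k] Wd k N.V R.V ⊗[k] Y.V :=
  Wd.recW (TensorProduct.map Wd.nil LinearMap.id) 0
    (((TensorProduct.mapBilinear (RingHom.id k) (Wd k N.V R.V) Y.V (Wd k N.V R.V) Y.V).flip Y.P ∘ₗ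
      Wd.snoc.flip -
      (TensorProduct.mapBilinear (RingHom.id k) (Wd k N.V R.V) Y.V (Wd k N.V R.V) Y.V).flip
        (LinearMap.id - Y.P) ∘ₗ Wd.snoc.flip ∘ₗ R.E).flip)

theorem crLinv_nil (R N Y : SD k) (v : N.V ⊗[k] Y.V) :
    crLinv R N Y (Wd.nil v) = TensorProduct.map Wd.nil LinearMap.id v := by simp [crLinv]
theorem crLinv_snoc (R N Y : SD k) (w : Wd k (N.V ⊗[k] Y.V) R.V) (r : R.V) :
    crLinv R N Y (Wd.snoc w r) = TensorProduct.map (Wd.snoc.flip r) Y.P (crLinv R N Y w) -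
      TensorProduct.map (Wd.snoc.flip (R.E r)) (LinearMap.id - Y.P) (crLinv R N Y w) := by
  unfold crLinv
  rw [Wd.recW_snoc]
  simp only [LinearMap.zero_apply, zero_add]
  rfl

theorem crL0_snoc (R N Y : SD k) (r : R.V) (u : Wd k N.V R.V ⊗[k] Y.V) :
    crL0 R N Y (TensorProduct.map (Wd.snoc.flip r) Y.P u -
      TensorProduct.map (Wd.snoc.flip (R.E r)) (LinearMap.id - Y.P) u) =
      Wd.snoc (crL0 R N Y u) r := by
  refine tens_ext (f := crL0 R N Y ∘ₗ (TensorProduct.map (Wd.snoc.flip r) Y.P -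
      TensorProduct.map (Wd.snoc.flip (R.E r)) (LinearMap.id - Y.P)))
    (g := Wd.snoc.flip r ∘ₗ crL0 R N Y) (fun w y => ?_) u
  simp only [LinearMap.comp_apply, LinearMap.sub_apply, TensorProduct.map_tmul, map_sub,
    crL0_tmul, LinearMap.flip_apply, xl_snoc, LinearMap.id_apply, Y.PP, R.EE, sub_self, map_zero,
    LinearMap.zero_apply]
  abel

theorem crL0_crLinv (R N Y : SD k) (v : Wd k (N.V ⊗[k] Y.V) R.V) :
    crL0 R N Y (crLinv R N Y v) = v := by
  induction v using Wd.induction with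
  | hadd a b ha hb => rw [map_add, map_add, ha, hb]
  | hnil n =>
    rw [crLinv_nil]
    refine tens_ext (f := crL0 R N Y ∘ₗ TensorProduct.map Wd.nil LinearMap.id)
      (g := Wd.nil) (fun x w => ?_) n
    simp
  | hsnoc w hw r => rw [crLinv_snoc, crL0_snoc, hw]

theorem crLinv_crL0 (R N Y : SD k) (v : Wd k N.V R.V ⊗[k] Y.V) :
    crLinv R N Y (crL0 R N Y v) = v := by
  refine tens_ext (f := crLinv R N Y ∘ₗ crL0 R N Y) (g := LinearMap.id) (fun w y => ?_) v
  simp only [LinearMap.comp_apply, LinearMap.id_apply]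
  induction w using Wd.induction generalizing y with
  | hadd a b ha hb => rw [TensorProduct.add_tmul, map_add, map_add, ha, hb]
  | hnil n => simp [crLinv_nil]
  | hsnoc w hw r =>
    have hw' : ∀ y, crLinv R N Y (xl R N Y w y) = w ⊗ₜ y := hw
    rw [crL0_tmul, xl_snoc, map_sub, crLinv_snoc, crLinv_snoc, hw', hw']
    simp only [TensorProduct.map_tmul, LinearMap.sub_apply, LinearMap.id_apply,
      LinearMap.flip_apply, Y.PP, R.EE, sub_self, TensorProduct.tmul_zero, sub_zero, map_sub,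
      TensorProduct.tmul_sub]
    abel

theorem crL_bij (R N Y : SD k) : Function.Bijective (crL0 R N Y) :=
  Function.bijective_iff_has_inverse.2 ⟨crLinv R N Y, crLinv_crL0 R N Y, crL0_crLinv R N Y⟩

/-! ### naturality -/

theorem xh_map {R X N X' N' : SD k} (f : X.V →ₗ[k] X'.V) (g : N.V →ₗ[k] N'.V) (x : X.V)
    (w : Wd k N.V R.V) :
    Wd.map (TensorProduct.map f g) LinearMap.id (xh R X N x w) =
      xh R X' N' (f x) (Wd.map g LinearMap.id w) := by
  induction w using Wd.induction with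
  | hadd a b ha hb => simp only [map_add, ha, hb]
  | hnil n => simp [xh]
  | hsnoc w hw r =>
    have h1 : ∀ (X N : SD k) (x : X.V) (w : Wd k N.V R.V) (r : R.V),
        xh R X N x (Wd.snoc w r) = Wd.snoc (xh R X N x w) r := by intros; simp [xh]
    rw [h1, Wd.map_snoc, hw, Wd.map_snoc, h1]

theorem xl_map {R N Y N' Y' : SD k} (g : N.V →ₗ[k] N'.V) (f : Y.V →ₗ[k] Y'.V)
    (hf : ∀ y, f (Y.P y) = Y'.P (f y)) (w : Wd k N.V R.V) (y : Y.V) :
    Wd.map (TensorProduct.map g f) LinearMap.id (xl R N Y w y) =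
      xl R N' Y' (Wd.map g LinearMap.id w) (f y) := by
  induction w using Wd.induction generalizing y with
  | hadd a b ha hb => simp only [map_add, ha, hb, LinearMap.add_apply]
  | hnil n => simp
  | hsnoc w hw r =>
    rw [xl_snoc, map_sub, Wd.map_snoc, Wd.map_snoc, hw, hw, Wd.map_snoc, xl_snoc, map_sub f,
      hf]
    rfl

end cross

end NC
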