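import Pool.Agent.H16.NC.Mg
import Pool.Agent.H36.NX.RCf

/-!
# Duals, endomorphism bimodules and the pairing `tau` (base file, helper16)
-/

open scoped TensorProduct

namespace NC

variable {k : Type} [Field k]

section homk

variable {S T A : DGA k} {V Z Z' Y W : SD k}

/-! ### the six compatibilities of `homK` -/

theorem homK_a (V : SD k) (l : LA S Z) (Y : SD k) :
    ((l.post V).tensL Y).IsHom ((l.tensL Y).post V) (homK V Z Y) := by
  intro s v
  refine tens_ext (f := (homK V Z Y).f ∘ₗ ((l.post V).tensL Y).act s)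
    (g := ((l.tensL Y).post V).act s ∘ₗ (homK V Z Y).f) (fun f y => ?_) v
  refine LinearMap.ext (fun x => ?_)
  change (homK V Z Y).f ((l.post V).act s f ⊗ₜ y) x =
    (l.tensL Y).act s ((homK V Z Y).f (f ⊗ₜ y) x)
  rw [homK_tmul, homK_tmul, map_add]; rfl

theorem homK_b (V : SD k) (r : RA S Z) (Y : SD k) :
    ((r.post V).tensL Y).IsHom ((r.tensL Y).post V) (homK V Z Y) := by
  intro v s
  refine tens_ext (f := (homK V Z Y).f ∘ₗ ((r.post V).tensL Y).act.flip s)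
    (g := ((r.tensL Y).post V).act.flip s ∘ₗ (homK V Z Y).f) (fun f y => ?_) v
  refine LinearMap.ext (fun x => ?_)
  have e1 : ((r.post V).tensL Y).act (f ⊗ₜ y) s = (r.post V).act f (S.P s) ⊗ₜ[k] y +
    (r.post V).act f (s - S.P s) ⊗ₜ[k] Y.E y := rfl
  have e2 : ∀ (f : V.V →ₗ[k] Z.V) (s : S.V) (x : V.V), (r.post V).act f s x =
    r.act (f x) (S.P s) + r.act (f (V.E x)) (s - S.P s) := fun _ _ _ => rfl
  have e3 : ∀ (z : Z.V) (y : Y.V) (s : S.V), (r.tensL Y).act (z ⊗ₜ y) s =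
    r.act z (S.P s) ⊗ₜ[k] y + r.act z (s - S.P s) ⊗ₜ[k] Y.E y := fun _ _ _ => rfl
  change (homK V Z Y).f (((r.post V).tensL Y).act (f ⊗ₜ y) s) x =
    (r.tensL Y).act ((homK V Z Y).f (f ⊗ₜ y) x) (S.P s) +
      (r.tensL Y).act ((homK V Z Y).f (f ⊗ₜ y) (V.E x)) (s - S.P s)
  rw [e1, map_add, LinearMap.add_apply, homK_tmul, homK_tmul, homK_tmul, homK_tmul]
  simp only [e2, e3, map_add, map_sub, LinearMap.add_apply, LinearMap.sub_apply, S.PP,
    V.EP, V.PE, Y.EE, sub_self, map_zero, sub_zero, V.E_apply, V.PP,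
    TensorProduct.add_tmul, TensorProduct.sub_tmul, LinearMap.zero_apply,
    TensorProduct.zero_tmul, add_zero, zero_add]
  abel

theorem homK_c (l : LA S V) (Z Y : SD k) :
    ((LA.pre Z l).tensL Y).IsHom (LA.pre (Z.tens Y) l) (homK V Z Y) := by
  intro v s
  refine tens_ext (f := (homK V Z Y).f ∘ₗ ((LA.pre Z l).tensL Y).act.flip s)
    (g := (LA.pre (Z.tens Y) l).act.flip s ∘ₗ (homK V Z Y).f) (fun f y => ?_) v
  refine LinearMap.ext (fun x => ?_)
  have e1 : ((LA.pre Z l).tensL Y).act (f ⊗ₜ y) s = (LA.pre Z l).act f (S.P s) ⊗ₜ[k] y +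
    (LA.pre Z l).act f (s - S.P s) ⊗ₜ[k] Y.E y := rfl
  have e2 : ∀ (f : V.V →ₗ[k] Z.V) (s : S.V) (x : V.V), (LA.pre Z l).act f s x =
    f (l.act s x) := fun _ _ _ => rfl
  change (homK V Z Y).f (((LA.pre Z l).tensL Y).act (f ⊗ₜ y) s) x =
    (homK V Z Y).f (f ⊗ₜ y) (l.act s x)
  rw [e1, map_add, LinearMap.add_apply, homK_tmul, homK_tmul, homK_tmul, l.P_act]
  simp only [e2, map_add, map_sub, LinearMap.sub_apply, Y.EE,
    TensorProduct.add_tmul, TensorProduct.sub_tmul]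
  abel

theorem homK_d (r : RA S V) (Z Y : SD k) :
    ((r.pre Z).tensL Y).IsHom (r.pre (Z.tens Y)) (homK V Z Y) := by
  intro s v
  refine tens_ext (f := (homK V Z Y).f ∘ₗ ((r.pre Z).tensL Y).act s)
    (g := (r.pre (Z.tens Y)).act s ∘ₗ (homK V Z Y).f) (fun f y => ?_) v
  refine LinearMap.ext (fun x => ?_)
  have e2 : ∀ (s : S.V) (f : V.V →ₗ[k] Z.V) (x : V.V), (r.pre Z).act s f x =
    f (r.act x (S.P s)) - Z.E (f (r.act x (s - S.P s))) := fun _ _ _ => rfl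
  have e3 : ∀ (z : Z.V) (y : Y.V), (Z.tens Y).E (z ⊗ₜ y) = Z.E z ⊗ₜ Y.E y :=
    fun z y => SD.tens_E Z Y z y
  change (homK V Z Y).f ((r.pre Z).act s f ⊗ₜ y) x =
    (homK V Z Y).f (f ⊗ₜ y) (r.act x (S.P s)) -
      (Z.tens Y).E ((homK V Z Y).f (f ⊗ₜ y) (r.act x (s - S.P s)))
  rw [homK_tmul, homK_tmul, homK_tmul, r.P_act, r.P_act]
  simp only [e2, e3, map_add, map_sub, LinearMap.sub_apply, Y.EE, S.PP, sub_self, map_zero,
    sub_zero, TensorProduct.add_tmul, TensorProduct.sub_tmul, TensorProduct.zero_tmul]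
  abel

theorem homK_e (V Z : SD k) (l : LA S Y) :
    (l.tensR (SD.hom V Z)).IsHom ((l.tensR Z).post V) (homK V Z Y) := by
  intro s v
  refine tens_ext (f := (homK V Z Y).f ∘ₗ (l.tensR (SD.hom V Z)).act s)
    (g := ((l.tensR Z).post V).act s ∘ₗ (homK V Z Y).f) (fun f y => ?_) v
  refine LinearMap.ext (fun x => ?_)
  have e1 : (l.tensR (SD.hom V Z)).act s (f ⊗ₜ y) = f ⊗ₜ[k] l.act (S.P s) y +
    (SD.hom V Z).E f ⊗ₜ[k] l.act (s - S.P s) y := rfl
  have e2 : ∀ x, (SD.hom V Z).E f x = Z.E (f (V.E x)) := fun x => SD.hom_E V Z f x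
  have e3 : ∀ (z : Z.V) (y : Y.V), (l.tensR Z).act s (z ⊗ₜ y) = z ⊗ₜ[k] l.act (S.P s) y +
    Z.E z ⊗ₜ[k] l.act (s - S.P s) y := fun _ _ => rfl
  change (homK V Z Y).f ((l.tensR (SD.hom V Z)).act s (f ⊗ₜ y)) x =
    (l.tensR Z).act s ((homK V Z Y).f (f ⊗ₜ y) x)
  rw [e1, map_add, LinearMap.add_apply, homK_tmul, homK_tmul, homK_tmul, map_add, e3, e3, e2,
    e2, V.EP, V.E_odd, l.E_act, l.E_act, S.EP, S.E_odd]
  simp only [map_neg, LinearMap.neg_apply, TensorProduct.neg_tmul, TensorProduct.tmul_neg,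
    neg_neg]
  abel

theorem homK_f (V Z : SD k) (r : RA S Y) :
    (r.tensR (SD.hom V Z)).IsHom ((r.tensR Z).post V) (homK V Z Y) := by
  intro v s
  refine tens_ext (f := (homK V Z Y).f ∘ₗ (r.tensR (SD.hom V Z)).act.flip s)
    (g := ((r.tensR Z).post V).act.flip s ∘ₗ (homK V Z Y).f) (fun f y => ?_) v
  refine LinearMap.ext (fun x => ?_)
  have e3 : ∀ (z : Z.V) (y : Y.V) (s : S.V), (r.tensR Z).act (z ⊗ₜ y) s =
    z ⊗ₜ[k] r.act y s := fun _ _ _ => rfl
  change (homK V Z Y).f (f ⊗ₜ r.act y s) x =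
    (r.tensR Z).act ((homK V Z Y).f (f ⊗ₜ y) x) (S.P s) +
      (r.tensR Z).act ((homK V Z Y).f (f ⊗ₜ y) (V.E x)) (s - S.P s)
  rw [homK_tmul, homK_tmul, homK_tmul, r.E_act]
  simp only [e3, map_add, map_sub, LinearMap.add_apply, LinearMap.sub_apply,
    V.PP, V.E_apply, S.E_apply, TensorProduct.add_tmul, TensorProduct.sub_tmul,
    TensorProduct.tmul_add, TensorProduct.tmul_sub]
  abel

/-! ### functoriality in the target -/

/-- composition with a morphism -/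
noncomputable def homPost (V : SD k) (g : SD.Hom Z Z') : SD.Hom (SD.hom V Z) (SD.hom V Z') where
  f := LinearMap.llcomp k V.V Z.V Z'.V g.f
  D := fun f => by
    refine LinearMap.ext (fun x => ?_)
    change g.f (SD.hD V Z f x) = SD.hD V Z' (g.f ∘ₗ f) x
    rw [SD.hD_apply, SD.hD_apply, map_sub, g.D, g.E]; rfl
  P := fun f => by
    refine LinearMap.ext (fun x => ?_)
    change g.f (SD.hP V Z f x) = SD.hP V Z' (g.f ∘ₗ f) x
    rw [SD.hP_apply, SD.hP_apply, map_add, map_sub, g.P, g.P]; rfl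

@[simp] theorem homPost_apply (V : SD k) (g : SD.Hom Z Z') (f : V.V →ₗ[k] Z.V) (x : V.V) :
    (homPost V g).f f x = g.f (f x) := rfl

/-- the unit isomorphism -/
noncomputable def lunit (Y : SD k) : SD.Hom ((SD.unit k).tens Y) Y where
  f := (TensorProduct.lid k Y.V).toLinearMap
  D := fun v => by
    refine tens_ext (f := (TensorProduct.lid k Y.V).toLinearMap ∘ₗ SD.tD (SD.unit k) Y)
      (g := Y.D ∘ₗ (TensorProduct.lid k Y.V).toLinearMap) (fun c y => ?_) v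
    have e : SD.tD (SD.unit k) Y (c ⊗ₜ y) = (0 : k) ⊗ₜ[k] y + (c + c - c) ⊗ₜ[k] Y.D y := rfl
    rw [LinearMap.comp_apply, e]
    simp
  P := fun v => by
    refine tens_ext (f := (TensorProduct.lid k Y.V).toLinearMap ∘ₗ SD.tP (SD.unit k) Y)
      (g := Y.P ∘ₗ (TensorProduct.lid k Y.V).toLinearMap) (fun c y => ?_) v
    have e : SD.tP (SD.unit k) Y (c ⊗ₜ y) = c ⊗ₜ[k] Y.P y + (c - c) ⊗ₜ[k] (y - Y.P y) := rfl
    rw [LinearMap.comp_apply, e]
    simp

theorem lunit_tmul (Y : SD k) (c : k) (y : Y.V) : (lunit Y).f (c ⊗ₜ y) = c • y := rfl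

/-- the dual -/
abbrev SD.dual (W : SD k) : SD k := SD.hom W (SD.unit k)

/-- `λ ⊗ y ↦ (v ↦ (-1)^(|y||v|) λ(v) y)` -/
noncomputable def dualTens (W Y : SD k) : SD.Hom (W.dual.tens Y) (SD.hom W Y) :=
  (homPost W (lunit Y)).comp (homK W (SD.unit k) Y)

theorem dualTens_tmul (W Y : SD k) (f : W.V →ₗ[k] k) (y : Y.V) (v : W.V) :
    (dualTens W Y).f (f ⊗ₜ y) v = f (W.P v) • y + f (v - W.P v) • Y.E y := by
  change (lunit Y).f ((homK W (SD.unit k) Y).f (f ⊗ₜ y) v) = _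
  rw [homK_tmul, map_add]; rfl

theorem dualTens_qi (W Y : SD k) (hW : W.FinH) : (dualTens W Y).QI := by
  refine SD.Hom.QI.comp (SD.Hom.QI.of_bijective ⟨?_, ?_⟩) (homK_qi hW (SD.unit k) Y)
  · intro f g h
    refine LinearMap.ext (fun x => ?_)
    have h1 : (lunit Y).f (f x) = (lunit Y).f (g x) := LinearMap.congr_fun h x
    exact (TensorProduct.lid k Y.V).injective h1
  · intro f
    refine ⟨(TensorProduct.lid k Y.V).symm.toLinearMap ∘ₗ f, LinearMap.ext (fun x => ?_)⟩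
    exact (TensorProduct.lid k Y.V).apply_symm_apply (f x)

theorem dualTens_postL (V : SD k) (l : LA S Y) :
    (l.tensR V.dual).IsHom (l.post V) (dualTens V Y) := by
  have h1 := homK_e V (SD.unit k) l
  intro s v
  have h2 : (homK V (SD.unit k) Y).f ((l.tensR V.dual).act s v) =
    ((l.tensR (SD.unit k)).post V).act s ((homK V (SD.unit k) Y).f v) := h1 s v
  refine LinearMap.ext (fun x => ?_)
  change (lunit Y).f ((homK V (SD.unit k) Y).f ((l.tensR V.dual).act s v) x) =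
    l.act s ((lunit Y).f ((homK V (SD.unit k) Y).f v x))
  rw [h2]
  change (lunit Y).f ((l.tensR (SD.unit k)).act s ((homK V (SD.unit k) Y).f v x)) = _
  refine tens_ext (f := (lunit Y).f ∘ₗ (l.tensR (SD.unit k)).act s)
    (g := l.act s ∘ₗ (lunit Y).f) (fun c y => ?_) ((homK V (SD.unit k) Y).f v x)
  have e : (l.tensR (SD.unit k)).act s (c ⊗ₜ y) = c ⊗ₜ[k] l.act (S.P s) y +
    (c + c - c) ⊗ₜ[k] l.act (s - S.P s) y := rfl
  rw [LinearMap.comp_apply, e, map_add, lunit_tmul, lunit_tmul, LinearMap.comp_apply,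
    lunit_tmul, add_sub_cancel_right, ← smul_add, ← LinearMap.add_apply, ← map_add,
    add_sub_cancel, map_smul]

theorem dualTens_postR (V : SD k) (r : RA S Y) :
    (r.tensR V.dual).IsHom (r.post V) (dualTens V Y) := by
  have h1 := homK_f V (SD.unit k) r
  intro v s
  have h2 : (homK V (SD.unit k) Y).f ((r.tensR V.dual).act v s) =
    ((r.tensR (SD.unit k)).post V).act ((homK V (SD.unit k) Y).f v) s := h1 v s
  have h3 : ∀ (u : ((SD.unit k).tens Y).V) (s : S.V),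
      (lunit Y).f ((r.tensR (SD.unit k)).act u s) = r.act ((lunit Y).f u) s := fun u s => by
    refine tens_ext (f := (lunit Y).f ∘ₗ (r.tensR (SD.unit k)).act.flip s)
      (g := r.act.flip s ∘ₗ (lunit Y).f) (fun c y => ?_) u
    change (lunit Y).f (c ⊗ₜ r.act y s) = r.act ((lunit Y).f (c ⊗ₜ y)) s
    rw [lunit_tmul, lunit_tmul, map_smul, LinearMap.smul_apply]
  refine LinearMap.ext (fun x => ?_)
  change (lunit Y).f ((homK V (SD.unit k) Y).f ((r.tensR V.dual).act v s) x) =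
    r.act ((lunit Y).f ((homK V (SD.unit k) Y).f v x)) (S.P s) +
      r.act ((lunit Y).f ((homK V (SD.unit k) Y).f v (V.E x))) (s - S.P s)
  rw [h2]
  change (lunit Y).f ((r.tensR (SD.unit k)).act ((homK V (SD.unit k) Y).f v x) (S.P s) +
    (r.tensR (SD.unit k)).act ((homK V (SD.unit k) Y).f v (V.E x)) (s - S.P s)) = _
  rw [map_add, h3, h3]

theorem dualTens_preL (l : LA S V) (Y : SD k) :
    ((LA.pre (SD.unit k) l).tensL Y).IsHom (LA.pre Y l) (dualTens V Y) := by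
  intro v s
  have h2 := homK_c l (SD.unit k) Y v s
  refine LinearMap.ext (fun x => ?_)
  change (lunit Y).f ((homK V (SD.unit k) Y).f (((LA.pre (SD.unit k) l).tensL Y).act v s) x) =
    (lunit Y).f ((homK V (SD.unit k) Y).f v (l.act s x))
  rw [h2]; rfl

theorem dualTens_preR (r : RA S V) (Y : SD k) :
    ((r.pre (SD.unit k)).tensL Y).IsHom (r.pre Y) (dualTens V Y) := by
  intro s v
  have h2 := homK_d r (SD.unit k) Y s v
  refine LinearMap.ext (fun x => ?_)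
  change (lunit Y).f ((homK V (SD.unit k) Y).f (((r.pre (SD.unit k)).tensL Y).act s v) x) =
    (lunit Y).f ((homK V (SD.unit k) Y).f v (r.act x (S.P s))) -
      Y.E ((lunit Y).f ((homK V (SD.unit k) Y).f v (r.act x (s - S.P s))))
  rw [h2, ← (lunit Y).E, ← map_sub]; rfl

end homk

/-! ### the structures on `hom W W` and `W* ⊗ W` -/

section ends

variable {A : DGA k} {V W : SD k}

/-- structures on `hom V W` through the target -/
noncomputable def Nb (bW : Bi A A W) (V : SD k) : Bi A A (SD.hom V W) :=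
  ⟨bW.l.post V, bW.r.post V, LR.postpost bW.lr V⟩

/-- first structure on `hom W W` -/
noncomputable def E1 (bW : Bi A A W) : Bi A A (SD.hom W W) :=
  ⟨bW.l.post W, LA.pre W bW.l, LR.postpre bW.l bW.l⟩

/-- second structure on `hom W W` -/
noncomputable def E2 (bW : Bi A A W) : Bi A A (SD.hom W W) :=
  ⟨bW.r.pre W, bW.r.post W, LR.prepost bW.r bW.r⟩

theorem E1_E2 (bW : Bi A A W) : Comm (E1 bW) (E2 bW) :=
  ⟨LL.postpre bW.l bW.r, LR.postpost bW.lr W, LR.prepre bW.lr W,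
    (RR.prepost bW.l bW.r).symm⟩

/-- first structure on `W* ⊗ W` -/
noncomputable def E1d (bW : Bi A A W) : Bi A A (W.dual.tens W) :=
  ⟨bW.l.tensR W.dual, (LA.pre (SD.unit k) bW.l).tensL W,
    LR.tensRL bW.l (LA.pre (SD.unit k) bW.l)⟩

/-- second structure on `W* ⊗ W` -/
noncomputable def E2d (bW : Bi A A W) : Bi A A (W.dual.tens W) :=
  ⟨(bW.r.pre (SD.unit k)).tensL W, bW.r.tensR W.dual,
    LR.tensLR (bW.r.pre (SD.unit k)) bW.r⟩

theorem E1d_E2d (bW : Bi A A W) : Comm (E1d bW) (E2d bW) :=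
  ⟨(LL.tensLR (bW.r.pre (SD.unit k)) bW.l).symm, LR.tensRR bW.lr W.dual,
    LR.tensLL (LR.prepre bW.lr (SD.unit k)) W,
    (RR.tensRL (LA.pre (SD.unit k) bW.l) bW.r).symm⟩

theorem dualTens_E1 (bW : Bi A A W) : (E1d bW).IsHom (E1 bW) (dualTens W W) :=
  ⟨dualTens_postL W bW.l, dualTens_preL bW.l W⟩
theorem dualTens_E2 (bW : Bi A A W) : (E2d bW).IsHom (E2 bW) (dualTens W W) :=
  ⟨dualTens_preR bW.r W, dualTens_postR W bW.r⟩
theorem dualTens_Nb (bW : Bi A A W) (V : SD k) :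
    (bW.tensR V.dual).IsHom (Nb bW V) (dualTens V W) :=
  ⟨dualTens_postL V bW.l, dualTens_postR V bW.r⟩

/-- the trace `λ ⊗ w ↦ λ(w)` -/
noncomputable def trD (W : SD k) : SD.Hom (W.dual.tens W) (SD.unit k) := homEv W (SD.unit k)

theorem trD_tmul (W : SD k) (f : W.V →ₗ[k] k) (w : W.V) : (trD W).f (f ⊗ₜ w) = f w := rfl

theorem trD_cyc1 (bW : Bi A A W) : Cyc (E1d bW) (trD W) := by
  intro v r
  refine tens_ext (f := (trD W).f ∘ₗ (E1d bW).r.act.flip r)
    (g := (trD W).f ∘ₗ (E1d bW).l.act (A.P r) +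
      (trD W).f ∘ₗ (E1d bW).l.act (r - A.P r) ∘ₗ (W.dual.tens W).E) (fun f w => ?_) v
  have e1 : (E1d bW).r.act (f ⊗ₜ w) r = (LA.pre (SD.unit k) bW.l).act f (A.P r) ⊗ₜ[k] w +
    (LA.pre (SD.unit k) bW.l).act f (r - A.P r) ⊗ₜ[k] W.E w := rfl
  have e2 : ∀ (r : A.V) (f : W.V →ₗ[k] k) (w : W.V), (E1d bW).l.act r (f ⊗ₜ w) =
    f ⊗ₜ[k] bW.l.act (A.P r) w + W.dual.E f ⊗ₜ[k] bW.l.act (r - A.P r) w := fun _ _ _ => rfl
  have e3 : (W.dual.tens W).E (f ⊗ₜ w) = W.dual.E f ⊗ₜ[k] W.E w := SD.tens_E W.dual W f w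
  have e4 : ∀ x, W.dual.E f x = f (W.E x) := fun x => by
    refine (SD.hom_E W (SD.unit k) f x).trans ?_
    change f (W.E x) + f (W.E x) - f (W.E x) = _
    abel
  have e5 : W.dual.E (W.dual.E f) = f := W.dual.EE f
  change (trD W).f ((E1d bW).r.act (f ⊗ₜ w) r) = (trD W).f ((E1d bW).l.act (A.P r) (f ⊗ₜ w)) +
    (trD W).f ((E1d bW).l.act (r - A.P r) ((W.dual.tens W).E (f ⊗ₜ w)))
  rw [e3, e1, e2, e2]
  simp only [map_add, trD_tmul, e5]
  change f (bW.l.act (A.P r) w) + f (bW.l.act (r - A.P r) (W.E w)) =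
    (f (bW.l.act (A.P (A.P r)) w) + W.dual.E f (bW.l.act (A.P r - A.P (A.P r)) w)) +
    (W.dual.E f (bW.l.act (A.P (r - A.P r)) (W.E w)) +
      f (bW.l.act ((r - A.P r) - A.P (r - A.P r)) (W.E w)))
  simp only [A.PP, map_sub, sub_self, map_zero, LinearMap.zero_apply, sub_zero, add_zero,
    zero_add]

theorem trD_cyc2 (bW : Bi A A W) : Cyc (E2d bW) (trD W) := by
  intro v r
  refine tens_ext (f := (trD W).f ∘ₗ (E2d bW).r.act.flip r)
    (g := (trD W).f ∘ₗ (E2d bW).l.act (A.P r) +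
      (trD W).f ∘ₗ (E2d bW).l.act (r - A.P r) ∘ₗ (W.dual.tens W).E) (fun f w => ?_) v
  have e3 : (W.dual.tens W).E (f ⊗ₜ w) = W.dual.E f ⊗ₜ[k] W.E w := SD.tens_E W.dual W f w
  have e4 : ∀ x, W.dual.E f x = f (W.E x) := fun x => by
    refine (SD.hom_E W (SD.unit k) f x).trans ?_
    change f (W.E x) + f (W.E x) - f (W.E x) = _
    abel
  change f (bW.r.act w r) = (trD W).f ((E2d bW).l.act (A.P r) (f ⊗ₜ w)) +
    (trD W).f ((E2d bW).l.act (r - A.P r) ((W.dual.tens W).E (f ⊗ₜ w)))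
  have e6 : ∀ (c : k), (SD.unit k).E c = c := fun c => by
    change c + c - c = c
    abel
  rw [e3]
  change f (bW.r.act w r) = (f (bW.r.act w (A.P (A.P r))) -
      (SD.unit k).E (f (bW.r.act w (A.P r - A.P (A.P r))))) +
    (W.dual.E f (bW.r.act (W.E w) (A.P (r - A.P r))) -
      (SD.unit k).E (W.dual.E f (bW.r.act (W.E w) ((r - A.P r) - A.P (r - A.P r)))))
  have e7 : A.P (r - A.P r) = 0 := by rw [map_sub, A.PP, sub_self]
  rw [e4, e4, e6, e6, bW.r.E_act, bW.r.E_act, W.EE, e7, A.PP, sub_self, sub_zero, A.E_odd]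
  simp only [map_zero, map_neg, sub_zero, zero_sub, map_sub]
  abel

/-- trace on `HC(R₂; HC(R₁; W* ⊗ W))` -/
noncomputable def trE (bW : Bi A A W) :
    SD.Hom (HC2 (E1d bW) (E2d bW) (E1d_E2d bW)) (SD.unit k) :=
  tr2 (E1d_E2d bW) (trD W) (trD_cyc1 bW) (trD_cyc2 bW)

/-- trace on `HC(R₁; HC(R₂; W* ⊗ W))` -/
noncomputable def trE' (bW : Bi A A W) :
    SD.Hom (HC2 (E2d bW) (E1d bW) (E1d_E2d bW).symm) (SD.unit k) :=
  tr2 (E1d_E2d bW).symm (trD W) (trD_cyc2 bW) (trD_cyc1 bW)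

/-- the map from tensors to endomorphisms -/
noncomputable def cE (bW : Bi A A W) :
    SD.Hom (HC2 (E1d bW) (E2d bW) (E1d_E2d bW)) (HC2 (E1 bW) (E2 bW) (E1_E2 bW)) :=
  hc2 (E1d_E2d bW) (E1_E2 bW) (dualTens W W) (dualTens_E1 bW) (dualTens_E2 bW)

/-- the map from tensors to endomorphisms, other order -/
noncomputable def cE' (bW : Bi A A W) :
    SD.Hom (HC2 (E2d bW) (E1d bW) (E1d_E2d bW).symm)
      (HC2 (E2 bW) (E1 bW) (E1_E2 bW).symm) :=
  hc2 (E1d_E2d bW).symm (E1_E2 bW).symm (dualTens W W) (dualTens_E2 bW) (dualTens_E1 bW)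

theorem cE_qi (bW : Bi A A W) (hW : W.FinH) : (cE bW).QI :=
  hc2_qi _ _ _ _ _ (dualTens_qi W W hW)
theorem cE'_qi (bW : Bi A A W) (hW : W.FinH) : (cE' bW).QI :=
  hc2_qi _ _ _ _ _ (dualTens_qi W W hW)

/-- the homology of the unit -/
noncomputable def unitC (k : Type) [Field k] : (SD.unit k).Coh →ₗ[k] k :=
  (SD.cohEquiv (N := SD.unit k) (fun _ => rfl)).symm.toLinearMap

theorem unitC_mk (c : k) (hc : (SD.unit k).D c = 0) :
    unitC k (SD.Coh.mk (N := SD.unit k) c hc) = c := by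
  have h : SD.Coh.mk (N := SD.unit k) c hc =
    SD.cohEquiv (N := SD.unit k) (fun _ => rfl) c :=
    (SD.cohEquiv_apply (N := SD.unit k) (fun _ => rfl) c).symm
  rw [h]
  exact LinearEquiv.symm_apply_apply _ _

/-- the linear form induced by a trace `t : X → k` and a quasi-isomorphism `c : X → Y` -/
noncomputable def tauG {X Y : SD k} (c : SD.Hom X Y) (hc : c.QI) (t : SD.Hom X (SD.unit k)) :
    Y.Coh →ₗ[k] k :=
  unitC k ∘ₗ SD.Coh.map t ∘ₗ (LinearEquiv.ofBijective (SD.Coh.map c)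
    ((SD.Coh.map_bijective_iff _).2 hc)).symm.toLinearMap

theorem tauG_mk {X Y : SD k} (c : SD.Hom X Y) (hc : c.QI) (t : SD.Hom X (SD.unit k)) {x : X.V}
    (hx : X.D x = 0) {y : Y.V} (hy : Y.D y = 0) (h : Y.Hml (c.f x) y) :
    tauG c hc t (SD.Coh.mk y hy) = t.f x := by
  have h1 : SD.Coh.mk y hy = LinearEquiv.ofBijective (SD.Coh.map c)
      ((SD.Coh.map_bijective_iff _).2 hc) (SD.Coh.mk x hx) := by
    change _ = SD.Coh.map c (SD.Coh.mk x hx)
    rw [SD.Coh.map_mk]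
    exact (SD.Coh.mk_eq_mk _ _).2 h.symm
  change unitC k (SD.Coh.map t ((LinearEquiv.ofBijective (SD.Coh.map c)
    ((SD.Coh.map_bijective_iff _).2 hc)).symm (SD.Coh.mk y hy))) = t.f x
  rw [h1, LinearEquiv.symm_apply_apply, SD.Coh.map_mk]
  exact unitC_mk _ _

/-- the linear form on the homology of the double complex -/
noncomputable def tau (bW : Bi A A W) (hW : W.FinH) :
    (HC2 (E1 bW) (E2 bW) (E1_E2 bW)).Coh →ₗ[k] k := tauG (cE bW) (cE_qi bW hW) (trE bW)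

/-- the linear form on the homology of the double complex, other order -/
noncomputable def tau' (bW : Bi A A W) (hW : W.FinH) :
    (HC2 (E2 bW) (E1 bW) (E1_E2 bW).symm).Coh →ₗ[k] k :=
  tauG (cE' bW) (cE'_qi bW hW) (trE' bW)

end ends

end NC
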