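import Pool.Agent.H16.NC.GMap

/-!
# The dual bimodule and the data `E` (base file, helper16)

`Mv = Hom_bi(M, Q)` for the outer structure of `Q`, with the inner structure as remaining
structure.  Contraction `muE : Z ⊗ Mv → Hom_bi(M, Z)`, evaluation `nuE : Mv ⊗ M → Q`.
-/

open scoped TensorProduct

namespace NC

variable {k : Type} [Field k] {A : DGA k} {M Z Z' : SD k}

/-- the dual bimodule -/
noncomputable abbrev Mv (bM : Bi A A M) : SD k := HomBi bM (bOut A)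

/-- the bimodule structure of the dual -/
noncomputable def bMv (bM : Bi A A M) : Bi A A (Mv bM) := Bi.postBi (bIn A) bM (out_in A)

/-- contraction -/
noncomputable def muE (bM : Bi A A M) (bZ : Bi A A Z) :
    SD.Hom (Z.tens (Mv bM)) (HomBi bM bZ) :=
  ((compH M (QQ A) Z).comp ((kap bZ).curry.tens (SD.subIncl (SD.hom M (QQ A)) _ _ _))).toSub
    (by
      intro v
      induction v using TensorProduct.induction_on with
      | zero => rw [map_zero]; exact Submodule.zero_mem _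
      | add x y hx hy => rw [map_add]; exact Submodule.add_mem _ hx hy
      | tmul z ξ =>
        have h1 := curry_mem (kap bZ) (kap_isHom bZ) z
        exact ⟨lLin_comp h1.1 ξ.2.1, rLin_comp h1.2 ξ.2.2⟩)

theorem muE_apply (bM : Bi A A M) (bZ : Bi A A Z) (z : Z.V) (ξ : (Mv bM).V) (m : M.V) :
    ((muE bM bZ).f (z ⊗ₜ ξ)).1 m = (kap bZ).f (z ⊗ₜ ξ.1 m) := rfl

/-- evaluation -/
noncomputable def nuE (bM : Bi A A M) : SD.Hom ((Mv bM).tens M) (QQ A) :=
  (homEv M (QQ A)).comp ((SD.subIncl (SD.hom M (QQ A)) _ _ _).tens (SD.Hom.id M))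

theorem nuE_tmul (bM : Bi A A M) (ξ : (Mv bM).V) (m : M.V) :
    (nuE bM).f (ξ ⊗ₜ m) = ξ.1 m := rfl

theorem muD_E (bM : Bi A A M) (bZ : Bi A A Z) : MuD bZ (bMv bM) (muE bM bZ) where
  m1 := fun z r ξ => Subtype.ext (LinearMap.ext (fun m => kap_m1 bZ z r (ξ.1 m)))
  m2 := fun z ξ t => by
    refine Subtype.ext (LinearMap.ext (fun m => ?_))
    change (kap bZ).f (z ⊗ₜ ((iR A).act (ξ.1 m) (A.P t) +
      (iR A).act (ξ.1 (M.E m)) (t - A.P t))) =
      (kap bZ).f (bZ.l.act (A.P t) z ⊗ₜ ξ.1 m) +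
        (kap bZ).f (bZ.l.act (t - A.P t) (Z.E z) ⊗ₜ (SD.hom M (QQ A)).E ξ.1 m)
    rw [TensorProduct.tmul_add, map_add, kap_m2, kap_m2, A.PP, SD.hom_E]
    simp only [map_sub, A.PP, sub_self, map_zero, LinearMap.zero_apply, sub_zero,
      TensorProduct.zero_tmul, add_zero, zero_add]

theorem nuD_E (bM : Bi A A M) : NuD bM (bMv bM) (bQ1 A) (bQ2 A) (nuE bM) where
  h1 := fun r ξ m => rfl
  h2 := fun ξ m r => ξ.2.2 m r
  h3 := fun ξ m s => rfl
  h4 := fun ξ s m => by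
    have hl : ξ.1 (bM.l.act s m) = (oL A).act s (SD.hP M (QQ A) ξ.1 m) +
      (oL A).act (A.E s) (ξ.1 m - SD.hP M (QQ A) ξ.1 m) := ξ.2.1 s m
    change ξ.1 (bM.l.act s m) = (oL A).act (A.P s) (ξ.1 m) +
      (oL A).act (s - A.P s) ((SD.hP M (QQ A) ξ.1 + SD.hP M (QQ A) ξ.1 - ξ.1) m)
    rw [hl]
    simp only [SD.E_apply, map_sub, map_add, LinearMap.sub_apply, LinearMap.add_apply]
    abel

/-- contraction on `G` -/
noncomputable abbrev contrE (bM : Bi A A M) (bZ : Bi A A Z) :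
    SD.Hom (GG bZ (bMv bM)) (HomBi bM bZ) := contrG bZ (bMv bM) (muE bM bZ) (muD_E bM bZ)

/-- rotation on `G` -/
noncomputable abbrev rotE (bM : Bi A A M) :
    SD.Hom (GG bM (bMv bM)) (HC ((bQ1 A).hc (bQ2 A) (Q1_Q2 A))) :=
  bG bM (bMv bM) (bQ1 A) (bQ2 A) (Q1_Q2 A) (nuE bM) (nuD_E bM)

/-- functoriality of bimodule maps in the target -/
noncomputable def homBiMap (bM : Bi A A M) {bZ : Bi A A Z} {bZ' : Bi A A Z'} (f : SD.Hom Z Z')
    (h : bZ.IsHom bZ' f) : SD.Hom (HomBi bM bZ) (HomBi bM bZ') where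
  f := ((LinearMap.llcomp k M.V Z.V Z'.V f.f) ∘ₗ Submodule.subtype _).codRestrict _
    (fun ξ => by
      have hl : ∀ a x, ξ.1 (bM.l.act a x) = bZ.l.act a (SD.hP M Z ξ.1 x) +
        bZ.l.act (A.E a) (ξ.1 x - SD.hP M Z ξ.1 x) := ξ.2.1
      have hr : ∀ x b, ξ.1 (bM.r.act x b) = bZ.r.act (ξ.1 x) b := ξ.2.2
      constructor
      · intro a x
        change f.f (ξ.1 (bM.l.act a x)) = bZ'.l.act a (SD.hP M Z' (f.f ∘ₗ ξ.1) x) +
          bZ'.l.act (A.E a) (f.f (ξ.1 x) - SD.hP M Z' (f.f ∘ₗ ξ.1) x)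
        have hP : SD.hP M Z' (f.f ∘ₗ ξ.1) x = f.f (SD.hP M Z ξ.1 x) := by
          simp only [SD.hP_apply, map_add, map_sub, f.P, LinearMap.comp_apply]
        rw [hP, hl, map_add, h.l, h.l, map_sub]
      · intro x b
        change f.f (ξ.1 (bM.r.act x b)) = bZ'.r.act (f.f (ξ.1 x)) b
        rw [hr, h.r])
  D := fun ξ => by
    refine Subtype.ext (LinearMap.ext (fun x => ?_))
    change f.f (SD.hD M Z ξ.1 x) = SD.hD M Z' (f.f ∘ₗ ξ.1) x
    rw [SD.hD_apply, SD.hD_apply, map_sub, f.D, f.E]; rfl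
  P := fun ξ => by
    refine Subtype.ext (LinearMap.ext (fun x => ?_))
    change f.f (SD.hP M Z ξ.1 x) = SD.hP M Z' (f.f ∘ₗ ξ.1) x
    simp only [SD.hP_apply, map_add, map_sub, f.P, LinearMap.comp_apply]

theorem homBiMap_apply (bM : Bi A A M) {bZ : Bi A A Z} {bZ' : Bi A A Z'} (f : SD.Hom Z Z')
    (h : bZ.IsHom bZ' f) (ξ : (HomBi bM bZ).V) (m : M.V) :
    ((homBiMap bM f h).f ξ).1 m = f.f (ξ.1 m) := rfl

/-- functoriality of `G` in the first variable -/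
noncomputable abbrev gMapL (bM : Bi A A M) {bZ : Bi A A Z} {bZ' : Bi A A Z'} (f : SD.Hom Z Z')
    (h : bZ.IsHom bZ' f) : SD.Hom (GG bZ (bMv bM)) (GG bZ' (bMv bM)) :=
  gMap f h (SD.Hom.id (Mv bM)) (Bi.isHom_id (bMv bM))

/-- naturality of the contraction -/
theorem contrE_nat (bM : Bi A A M) {bZ : Bi A A Z} {bZ' : Bi A A Z'} (f : SD.Hom Z Z')
    (h : bZ.IsHom bZ' f) (v : (GG bZ (bMv bM)).V) :
    (homBiMap bM f h).f ((contrE bM bZ).f v) = (contrE bM bZ').f ((gMapL bM f h).f v) :=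
  contrG_gMap f h (SD.Hom.id (Mv bM)) (Bi.isHom_id (bMv bM)) (muD_E bM bZ) (muD_E bM bZ')
    (homBiMap bM f h) (fun z ξ => Subtype.ext (LinearMap.ext (fun m =>
      kap_hom bZ bZ' f h z (ξ.1 m)))) v

/-- the contraction is a quasi-isomorphism -/
def ZC (bM : Bi A A M) (bZ : Bi A A Z) : Prop := (contrE bM bZ).QI

end NC
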