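import Pool.Agent.H16.NC.Hom

/-!
# Endomorphism dg algebras (base file, helper16)

`EndR rM` right linear endomorphisms, `EndBi bM` bimodule endomorphisms.
-/

open scoped TensorProduct

namespace NC

variable {k : Type} [Field k]

theorem hP_comp {X Y Z : SD k} (f : Y.V →ₗ[k] Z.V) (g : X.V →ₗ[k] Y.V) :
    SD.hP X Z (f ∘ₗ g) = SD.hP Y Z f ∘ₗ SD.hP X Y g +
      (f - SD.hP Y Z f) ∘ₗ (g - SD.hP X Y g) := by
  ext x
  simp only [SD.hP_apply, LinearMap.comp_apply, map_sub, map_add, LinearMap.add_apply,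
    LinearMap.sub_apply, X.PP, Y.PP, Z.PP, sub_self, map_zero, sub_zero, add_zero, zero_add]
  abel

theorem hD_comp {X Y Z : SD k} (f : Y.V →ₗ[k] Z.V) (g : X.V →ₗ[k] Y.V) :
    SD.hD X Z (f ∘ₗ g) = SD.hD Y Z f ∘ₗ g + SD.hE Y Z f ∘ₗ SD.hD X Y g := by
  ext x
  simp only [SD.hD_apply, SD.hE_apply, LinearMap.comp_apply, map_sub, LinearMap.add_apply, Y.EE]
  abel

theorem hD_id (X : SD k) : SD.hD X X LinearMap.id = 0 := by
  ext x
  simp [SD.hD_apply, X.EE]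

theorem hP_id (X : SD k) : SD.hP X X LinearMap.id = LinearMap.id := by
  ext x
  simp [SD.hP_apply, X.PP]

/-- a dg algebra of linear endomorphisms -/
abbrev DGA.ops (M : SD k) (T : Submodule k (M.V →ₗ[k] M.V)) (hD : ∀ f ∈ T, (SD.hom M M).D f ∈ T)
    (hP : ∀ f ∈ T, (SD.hom M M).P f ∈ T) (hm : ∀ f ∈ T, ∀ g ∈ T, f ∘ₗ g ∈ T)
    (h1 : LinearMap.id ∈ T) : DGA k where
  toSD := (SD.hom M M).sub T hD hP
  mul := LinearMap.mk₂ k (fun f g : T => (⟨f.1 ∘ₗ g.1, hm f.1 f.2 g.1 g.2⟩ : T))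
    (fun s s' v => Subtype.ext (LinearMap.add_comp _ _ _))
    (fun c s v => Subtype.ext (LinearMap.smul_comp _ _ _))
    (fun s v v' => Subtype.ext (LinearMap.comp_add _ _ _))
    (fun c s v => Subtype.ext (LinearMap.comp_smul _ _ _))
  one := ⟨LinearMap.id, h1⟩
  one_mul' := fun _ => rfl
  mul_one' := fun _ => rfl
  mul_assoc' := fun _ _ _ => rfl
  P_one := Subtype.ext (hP_id M)
  P_mul := fun f g => Subtype.ext (hP_comp f.1 g.1)
  D_mul := fun f g => Subtype.ext (hD_comp f.1 g.1)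

theorem rLin_comp {B : DGA k} {X Y Z : SD k} {rX : RA B X} {rY : RA B Y} {rZ : RA B Z}
    {f : Y.V →ₗ[k] Z.V} {g : X.V →ₗ[k] Y.V} (hf : f ∈ rLin rY rZ) (hg : g ∈ rLin rX rY) :
    f ∘ₗ g ∈ rLin rX rZ := by
  have hf' : ∀ x b, f (rY.act x b) = rZ.act (f x) b := hf
  have hg' : ∀ x b, g (rX.act x b) = rY.act (g x) b := hg
  intro x b
  simp [hf', hg']

theorem lLin_comp {A : DGA k} {X Y Z : SD k} {lX : LA A X} {lY : LA A Y} {lZ : LA A Z}
    {f : Y.V →ₗ[k] Z.V} {g : X.V →ₗ[k] Y.V} (hf : f ∈ lLin lY lZ) (hg : g ∈ lLin lX lY) :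
    f ∘ₗ g ∈ lLin lX lZ := by
  have hf' : ∀ a x, f (lY.act a x) = lZ.act a (SD.hP Y Z f x) +
    lZ.act (A.E a) (f x - SD.hP Y Z f x) := hf
  have hg' : ∀ a x, g (lX.act a x) = lY.act a (SD.hP X Y g x) +
    lY.act (A.E a) (g x - SD.hP X Y g x) := hg
  intro a x
  rw [hP_comp]
  simp only [LinearMap.comp_apply, hg', map_add, hf', A.EE, LinearMap.add_apply,
    LinearMap.sub_apply, map_sub]
  abel

/-- right linear endomorphisms -/
abbrev EndR {B : DGA k} {M : SD k} (rM : RA B M) : DGA k :=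
  DGA.ops M (rLin rM rM) (rLin_D rM rM) (rLin_P rM rM)
    (fun _ hf _ hg => rLin_comp hf hg) (fun _ _ => rfl)

theorem id_mem_lLin {A : DGA k} {M : SD k} (lM : LA A M) :
    (LinearMap.id : M.V →ₗ[k] M.V) ∈ lLin lM lM := by
  intro a x
  rw [hP_id]; simp

/-- bimodule endomorphisms -/
abbrev EndBi {A B : DGA k} {M : SD k} (bM : Bi A B M) : DGA k :=
  DGA.ops M (lLin bM.l bM.l ⊓ rLin bM.r bM.r)
    (fun x hx => ⟨lLin_D _ _ x hx.1, rLin_D _ _ x hx.2⟩)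
    (fun x hx => ⟨lLin_P _ _ x hx.1, rLin_P _ _ x hx.2⟩)
    (fun _ hf _ hg => ⟨lLin_comp hf.1 hg.1, rLin_comp hf.2 hg.2⟩)
    ⟨id_mem_lLin bM.l, fun _ _ => rfl⟩

/-- endomorphisms act on the module -/
def evalLA {M : SD k} (T : Submodule k (M.V →ₗ[k] M.V)) (hD hP hm h1) :
    LA (DGA.ops M T hD hP hm h1) M where
  act := T.subtype
  mul_act := fun _ _ _ => rfl
  P_act := fun f y => by
    change M.P (f.1 y) = SD.hP M M f.1 (M.P y) + (f.1 (y - M.P y) - SD.hP M M f.1 (y - M.P y))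
    simp only [SD.hP_apply, map_sub, M.PP, sub_self, map_zero]
    abel
  D_act := fun f y => by
    change M.D (f.1 y) = SD.hD M M f.1 y + SD.hE M M f.1 (M.D y)
    simp only [SD.hD_apply, SD.hE_apply]
    abel

/-- `M` as a bimodule over its right linear endomorphisms -/
def EndR.bi {B : DGA k} {M : SD k} (rM : RA B M) : Bi (EndR rM) B M where
  l := evalLA _ _ _ _ _
  r := rM
  lr := fun f x b => (f.2 x b).symm

end NC
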