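import Pool.Agent.H16.NC.PF

/-!
# The rotation map `evB : Bar(X, R, Y) → HC(R; N)` (base file, helper16)

`evB (w ⊗ y) = (-1)^(|y||w|) w` with the head `x` replaced by `ν(y ⊗ x)`.
-/

open scoped TensorProduct

namespace NC

variable {k : Type} [Field k]

/-- a bilinear map from a linear map on the tensor product -/
noncomputable def bl {X Y Z : SD k} (ν : SD.Hom (Y.tens X) Z) : Y.V →ₗ[k] X.V →ₗ[k] Z.V :=
  TensorProduct.curry ν.f

theorem bl_apply {X Y Z : SD k} (ν : SD.Hom (Y.tens X) Z) (y : Y.V) (x : X.V) :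
    bl ν y x = ν.f (y ⊗ₜ x) := rfl

theorem bl_D {X Y Z : SD k} (ν : SD.Hom (Y.tens X) Z) (y : Y.V) (x : X.V) :
    Z.D (bl ν y x) = bl ν (Y.D y) x + bl ν (Y.E y) (X.D x) := by
  rw [bl_apply, ← ν.D]; change ν.f (Y.D y ⊗ₜ x + Y.E y ⊗ₜ X.D x) = _
  rw [map_add]; rfl

theorem bl_P {X Y Z : SD k} (ν : SD.Hom (Y.tens X) Z) (y : Y.V) (x : X.V) :
    Z.P (bl ν y x) = bl ν (Y.P y) (X.P x) + bl ν (y - Y.P y) (x - X.P x) := by
  rw [bl_apply, ← ν.P]
  change ν.f (Y.P y ⊗ₜ X.P x + (y - Y.P y) ⊗ₜ (x - X.P x)) = _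
  rw [map_add]; rfl

theorem bl_E {X Y Z : SD k} (ν : SD.Hom (Y.tens X) Z) (y : Y.V) (x : X.V) :
    Z.E (bl ν y x) = bl ν (Y.E y) (X.E x) := by
  simp only [SD.E_apply, bl_P, map_sub, map_add, LinearMap.sub_apply, LinearMap.add_apply]
  abel

section

variable {R : DGA k} {X Y N : SD k}

/-- `hn ν y w` : the head `x` of `w` is replaced by `ν(y ⊗ x)` (no sign) -/
noncomputable def hn (R : DGA k) (ν : SD.Hom (Y.tens X) N) :
    Y.V →ₗ[k] Wd k X.V R.V →ₗ[k] Wd k N.V R.V where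
  toFun y := Wd.map (bl ν y) LinearMap.id
  map_add' a b := by
    refine LinearMap.ext (Wd.ext_apply (fun n => ?_) (fun w hw r => ?_))
    · simp
    · simp only [LinearMap.add_apply, Wd.map_snoc] at hw ⊢
      rw [hw]; simp
  map_smul' c a := by
    refine LinearMap.ext (Wd.ext_apply (fun n => ?_) (fun w hw r => ?_))
    · simp
    · simp only [LinearMap.smul_apply, RingHom.id_apply, Wd.map_snoc] at hw ⊢
      rw [hw]; simp

@[simp] theorem hn_nil (ν : SD.Hom (Y.tens X) N) (y : Y.V) (x : X.V) :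
    hn R ν y (Wd.nil x) = Wd.nil (bl ν y x) := by simp [hn]
@[simp] theorem hn_snoc (ν : SD.Hom (Y.tens X) N) (y : Y.V) (w : Wd k X.V R.V) (r : R.V) :
    hn R ν y (Wd.snoc w r) = Wd.snoc (hn R ν y w) r := by simp [hn]

theorem hn_PW (ν : SD.Hom (Y.tens X) N) (y : Y.V) (w : Wd k X.V R.V) :
    PW N R.toSD (hn R ν y w) = hn R ν (Y.P y) (PW X R.toSD w) +
      hn R ν (y - Y.P y) (w - PW X R.toSD w) := by
  induction w using Wd.induction with
  | hadd a b ha hb => simp only [map_add, ha, hb, map_sub, LinearMap.sub_apply]; abel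
  | hnil n => simp [bl_P, ← map_sub]
  | hsnoc w hw r =>
    simp only [hn_snoc, PW_snoc, hw, map_sub, map_add, LinearMap.sub_apply,
      LinearMap.add_apply, SD.E_apply]
    abel

theorem hn_EW (ν : SD.Hom (Y.tens X) N) (y : Y.V) (w : Wd k X.V R.V) :
    EW N R.toSD (hn R ν y w) = hn R ν (Y.E y) (EW X R.toSD w) := by
  simp only [EW_apply, hn_PW, SD.E_apply, map_sub, map_add, LinearMap.sub_apply,
    LinearMap.add_apply]
  abel

theorem hn_tl (ν : SD.Hom (Y.tens X) N) (ρ : RA R X) (σ : RA R N)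
    (h : ∀ y x r, ν.f (y ⊗ₜ ρ.act x r) = σ.act (ν.f (y ⊗ₜ x)) r)
    (y : Y.V) (w : Wd k X.V R.V) (r : R.V) :
    hn R ν y (tl R ρ.act w r) = tl R σ.act (hn R ν y w) r := by
  induction w using Wd.induction with
  | hadd a b ha hb => simp only [map_add, LinearMap.add_apply, ha, hb]
  | hnil n => simp only [tl_nil, hn_nil, bl_apply, h]
  | hsnoc w hw s => simp

theorem Db_hn (ν : SD.Hom (Y.tens X) N) (ρ : RA R X) (σ : RA R N)
    (h : ∀ y x r, ν.f (y ⊗ₜ ρ.act x r) = σ.act (ν.f (y ⊗ₜ x)) r)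
    (y : Y.V) (w : Wd k X.V R.V) :
    Db σ (hn R ν y w) = hn R ν (Y.D y) w + hn R ν (Y.E y) (Db ρ w) := by
  induction w using Wd.induction with
  | hadd a b ha hb => simp only [map_add, ha, hb]; abel
  | hnil n => simp [bl_D]
  | hsnoc w hw r =>
    simp only [hn_snoc, Db_snoc, hw, hn_EW, map_add, map_sub, LinearMap.add_apply,
      hn_tl ν ρ σ h]
    abel

theorem hn_hd (ν : SD.Hom (Y.tens X) N) (l : LA R Y) (l' : LA R N)
    (h : ∀ r y x, ν.f (l.act r y ⊗ₜ x) = l'.act r (ν.f (y ⊗ₜ x)))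
    (r : R.V) (y : Y.V) (w : Wd k X.V R.V) :
    hn R ν (l.act r y) w = hd R l' r (hn R ν y w) := by
  induction w using Wd.induction with
  | hadd a b ha hb => simp only [map_add, ha, hb]
  | hnil n => simp only [hn_nil, hd_nil, bl_apply, h]
  | hsnoc w hw s => simp [hw]

/-- the linear map underlying `evB` -/
noncomputable def evB0 (R : DGA k) (ν : SD.Hom (Y.tens X) N) :
    Wd k X.V R.V ⊗[k] Y.V →ₗ[k] Wd k N.V R.V :=
  TensorProduct.lift ((hn R ν ∘ₗ Y.P).flip + (hn R ν ∘ₗ (LinearMap.id - Y.P)).flip ∘ₗ EW X R.toSD)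

@[simp] theorem evB0_tmul (ν : SD.Hom (Y.tens X) N) (w : Wd k X.V R.V) (y : Y.V) :
    evB0 R ν (w ⊗ₜ y) = hn R ν (Y.P y) w + hn R ν (y - Y.P y) (EW X R.toSD w) := rfl

/-- the rotation map `Bar(X, R, Y) → HC(R; N)` -/
noncomputable def evB (ρ : RA R X) (l : LA R Y) (b : Bi R R N) (ν : SD.Hom (Y.tens X) N)
    (h1 : ∀ r y x, ν.f (l.act r y ⊗ₜ x) = b.l.act r (ν.f (y ⊗ₜ x)))
    (h2 : ∀ y x r, ν.f (y ⊗ₜ ρ.act x r) = b.r.act (ν.f (y ⊗ₜ x)) r) :
    SD.Hom (Bar ρ l) (HC b) where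
  f := evB0 R ν
  D := fun v => by
    refine tens_ext (f := evB0 R ν ∘ₗ barD ρ l) (g := hcD b ∘ₗ evB0 R ν) (fun w y => ?_) v
    induction w using Wd.induction with
    | hadd a b ha hb => rw [TensorProduct.add_tmul, map_add, map_add, ha, hb]
    | hnil n =>
      simp only [LinearMap.comp_apply, barD_nil, map_add, evB0_tmul, map_sub, EW_nil, hn_nil,
        hcD_nil, bl_D, LinearMap.sub_apply, Y.DP, X.EE, Y.EP, X.DP, SD.E_apply,
        LinearMap.add_apply, X.PP, Y.PP]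
      abel
    | hsnoc w _ r =>
      simp only [LinearMap.comp_apply, barD_snoc, map_add, map_sub, evB0_tmul, hn_snoc,
        hcD_snoc, EW_snoc, map_neg, EW_EW, EW_tl, Db_hn ν ρ b.r h2, hn_EW, hn_tl ν ρ b.r h2,
        l.P_act, ← hn_hd ν l b.l h1, Y.DP, R.EE, Db_EW, R.PE, LinearMap.neg_apply,
        LinearMap.sub_apply, LinearMap.add_apply]
      simp only [SD.E_apply, map_sub, map_add, LinearMap.sub_apply, LinearMap.add_apply,
        Y.PP, R.PP, R.DP, map_neg, LinearMap.neg_apply, Y.DP]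
      abel
  P := fun v => by
    refine tens_ext (f := evB0 R ν ∘ₗ barP X Y R) (g := PW N R.toSD ∘ₗ evB0 R ν)
      (fun w y => ?_) v
    simp only [LinearMap.comp_apply, barP_tmul, map_add, evB0_tmul, map_sub, hn_PW,
      LinearMap.sub_apply, EW_apply, PW_PW, Y.PP]
    abel

/-- how `hn` interacts with a left action on the head -/
theorem hn_hdX {S : DGA k} (ν : SD.Hom (Y.tens X) N) (a : LA S X) (c : LA S N)
    (h : ∀ y s x, ν.f (y ⊗ₜ a.act s x) = c.act (S.P s) (ν.f (y ⊗ₜ x)) +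
      c.act (s - S.P s) (ν.f (Y.E y ⊗ₜ x)))
    (y : Y.V) (s : S.V) (w : Wd k X.V R.V) :
    hn R ν y (hd R a s w) = hd R c (S.P s) (hn R ν y w) +
      hd R c (s - S.P s) (hn R ν (Y.E y) w) := by
  induction w using Wd.induction with
  | hadd a b ha hb => simp only [map_add, ha, hb]; abel
  | hnil n => simp only [hn_nil, hd_nil, bl_apply, h, map_add]
  | hsnoc w hw s => simp only [hn_snoc, hd_snoc, hw, map_add, LinearMap.add_apply]

/-- how `hn` interacts with a right action on `Y` -/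
theorem hn_rY {S : DGA k} (ν : SD.Hom (Y.tens X) N) (a : RA S Y) (c : RA S N)
    (h : ∀ y x s, ν.f (a.act y s ⊗ₜ x) = c.act (ν.f (y ⊗ₜ x)) (S.P s) +
      c.act (ν.f (y ⊗ₜ X.E x)) (s - S.P s))
    (y : Y.V) (s : S.V) (w : Wd k X.V R.V) :
    hn R ν (a.act y s) w = hr R c (hn R ν y w) (S.P s) +
      hr R c (hn R ν y (EW X R.toSD w)) (s - S.P s) := by
  induction w using Wd.induction generalizing s with
  | hadd a b ha hb => simp only [map_add, ha, hb, LinearMap.add_apply]; abel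
  | hnil n => simp only [hn_nil, EW_nil, hr_nil, bl_apply, h, map_add]
  | hsnoc w hw r =>
    simp only [hn_snoc, hw, map_add, LinearMap.add_apply, EW_snoc, map_neg, LinearMap.neg_apply,
      hr_snoc, S.PP, map_sub, LinearMap.sub_apply, R.EE, sub_self, map_zero, LinearMap.zero_apply]
    abel

/-- `evB` is a bimodule map for commuting structures -/
theorem evB_isHom {S : DGA k} (bX : Bi S R X) (bY : Bi R S Y) (b : Bi R R N)
    (ν : SD.Hom (Y.tens X) N)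
    (h1 : ∀ r y x, ν.f (bY.l.act r y ⊗ₜ x) = b.l.act r (ν.f (y ⊗ₜ x)))
    (h2 : ∀ y x r, ν.f (y ⊗ₜ bX.r.act x r) = b.r.act (ν.f (y ⊗ₜ x)) r)
    (c : Bi S S N) (hc : Comm b c)
    (h3 : ∀ y x s, ν.f (bY.r.act y s ⊗ₜ x) = c.r.act (ν.f (y ⊗ₜ x)) (S.P s) +
      c.r.act (ν.f (y ⊗ₜ X.E x)) (s - S.P s))
    (h4 : ∀ y s x, ν.f (y ⊗ₜ bX.l.act s x) = c.l.act (S.P s) (ν.f (y ⊗ₜ x)) +
      c.l.act (s - S.P s) (ν.f (Y.E y ⊗ₜ x))) :
    Bi.IsHom (bX.bar bY) (b.hc c hc) (evB bX.r bY.l b ν h1 h2) := by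
  constructor
  · intro s v
    refine tens_ext (f := evB0 R ν ∘ₗ (bX.bar bY).l.act s) (g := hd R c.l s ∘ₗ evB0 R ν)
      (fun w y => ?_) v
    change evB0 R ν (hd R bX.l s w ⊗ₜ y) = hd R c.l s (evB0 R ν (w ⊗ₜ y))
    simp only [evB0_tmul, hd_EW, map_add, map_sub, LinearMap.sub_apply, LinearMap.add_apply,
      hn_hdX ν bX.l c.l h4, S.PE, Y.EP]
    simp only [SD.E_apply, map_sub, map_add, LinearMap.sub_apply, LinearMap.add_apply, Y.PP,
      S.PP]
    abel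
  · intro v s
    refine tens_ext (f := evB0 R ν ∘ₗ (bX.bar bY).r.act.flip s)
      (g := (hr R c.r).flip s ∘ₗ evB0 R ν) (fun w y => ?_) v
    change evB0 R ν (w ⊗ₜ bY.r.act y s) = hr R c.r (evB0 R ν (w ⊗ₜ y)) s
    simp only [evB0_tmul, bY.r.P_act, map_sub, map_add, LinearMap.sub_apply,
      LinearMap.add_apply, hn_rY ν bY.r c.r h3, S.PP, EW_EW]
    abel

/-- the rotation map on `HC(S; Bar(X, R, Y))`, for a pairing which is balanced over `S` -/
noncomputable def evH {S : DGA k} (bX : Bi S R X) (bY : Bi R S Y) (b : Bi R R N)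
    (ν : SD.Hom (Y.tens X) N)
    (h1 : ∀ r y x, ν.f (bY.l.act r y ⊗ₜ x) = b.l.act r (ν.f (y ⊗ₜ x)))
    (h2 : ∀ y x r, ν.f (y ⊗ₜ bX.r.act x r) = b.r.act (ν.f (y ⊗ₜ x)) r)
    (h5 : ∀ y s x, ν.f (bY.r.act y s ⊗ₜ x) = ν.f (y ⊗ₜ bX.l.act s x)) :
    SD.Hom (HC (bX.bar bY)) (HC b) :=
  tr0 (bX.bar bY) (evB bX.r bY.l b ν h1 h2) (by
    have hs : ∀ (y : Y.V) (s : S.V) (w : Wd k X.V R.V),
        hn R ν (bY.r.act y s) w = hn R ν y (hd R bX.l s w) := by
      intro y s w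
      induction w using Wd.induction with
      | hadd a b ha hb => simp only [map_add, ha, hb]
      | hnil n => simp only [hn_nil, hd_nil, bl_apply, h5]
      | hsnoc w hw r => simp only [hn_snoc, hd_snoc, hw]
    intro v s
    refine tens_ext (f := evB0 R ν ∘ₗ (bX.bar bY).r.act.flip s)
      (g := evB0 R ν ∘ₗ (bX.bar bY).l.act (S.P s) +
        evB0 R ν ∘ₗ (bX.bar bY).l.act (s - S.P s) ∘ₗ (Bar bX.r bY.l).E) (fun w y => ?_) v
    rw [Bar_E]
    change evB0 R ν (w ⊗ₜ bY.r.act y s) = evB0 R ν (hd R bX.l (S.P s) w ⊗ₜ y) +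
      evB0 R ν (hd R bX.l (s - S.P s) (EW X R.toSD w) ⊗ₜ Y.E y)
    simp only [evB0_tmul, bY.r.P_act, map_sub, map_add, LinearMap.sub_apply,
      LinearMap.add_apply, hs, S.PP, EW_EW, hd_EW, S.EP, Y.PE, SD.E_apply, Y.PP]
    abel)

end

end NC
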