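import Pool.Agent.H16.NC.EndA

/-!
# Perfect bimodules (super version): the thick closure of the free bimodule `A ⊗ A`

`PF A X`: `X` lies in the smallest class of unital dg `A`-bimodules which contains `A ⊗ A` and is
closed under parity shift, quasi-isomorphisms in both directions, two out of three in short exact
sequences, and homotopy retracts.  Use `PF.rec` (induction on the derivation) as induction
principle.
-/

open scoped TensorProduct

namespace NC

variable {k : Type} [Field k]

/-- `X` is a homotopy retract of `F`, for bimodules: `r s = 1 + D h + h D` -/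
structure HRet {A B : DGA k} (X F : BMod A B) where
  s : BMod.Hom X F
  r : BMod.Hom F X
  h : X.N.V →ₗ[k] X.N.V
  hl : ∀ a x, h (X.b.l.act a x) = X.b.l.act (A.E a) (h x)
  hr : ∀ x a, h (X.b.r.act x a) = X.b.r.act (h x) a
  eq : ∀ x, r.f (s.f x) = x + X.N.D (h x) + h (X.N.D x)

/-- perfect bimodules -/
inductive PF (A : DGA k) : BMod A A → Prop
  | free : PF A (BMod.free A A)
  | sh {X : BMod A A} : PF A X → PF A X.sh
  | qi {X Y : BMod A A} (f : BMod.Hom X Y) (hf : f.toHom.QI) : PF A X → PF A Y
  | qi' {X Y : BMod A A} (f : BMod.Hom X Y) (hf : f.toHom.QI) : PF A Y → PF A X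
  | ses1 {X' X X'' : BMod A A} (f : BMod.Hom X' X) (g : BMod.Hom X X'')
      (h : SD.SES f.toHom g.toHom) : PF A X' → PF A X → PF A X''
  | ses2 {X' X X'' : BMod A A} (f : BMod.Hom X' X) (g : BMod.Hom X X'')
      (h : SD.SES f.toHom g.toHom) : PF A X' → PF A X'' → PF A X
  | ses3 {X' X X'' : BMod A A} (f : BMod.Hom X' X) (g : BMod.Hom X X'')
      (h : SD.SES f.toHom g.toHom) : PF A X → PF A X'' → PF A X'
  | retr {X F : BMod A A} (h : HRet X F) : PF A F → PF A X

/-! ### right modules: finite semi-free modules and their homotopy retracts -/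

/-- finite semi-free right modules: finite iterated extensions of shifts of `B` -/
inductive FinSF (B : DGA k) : (N : SD k) → RA B N → Prop
  | zero {N : SD k} {r : RA B N} (h : N.IsZero) : FinSF B N r
  | ext {N' N : SD k} {r' : RA B N'} {r : RA B N} (f : SD.Hom N' N) (hf : r'.IsHom r f)
      (g : SD.Hom N B.toSD) (hg : r.IsHom B.diag.r g) (h : SD.SES f g) :
      FinSF B N' r' → FinSF B N r
  | exts {N' N : SD k} {r' : RA B N'} {r : RA B N} (f : SD.Hom N' N) (hf : r'.IsHom r f)
      (g : SD.Hom N B.toSD.sh) (hg : r.IsHom B.diag.r.sh g) (h : SD.SES f g) :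
      FinSF B N' r' → FinSF B N r

/-- homotopy retracts of finite semi-free right modules -/
structure RPf {B : DGA k} {M : SD k} (rM : RA B M) : Prop where
  out : ∃ (F : SD k) (rF : RA B F) (s : SD.Hom M F) (r : SD.Hom F M) (h : M.V →ₗ[k] M.V),
    FinSF B F rF ∧ rM.IsHom rF s ∧ rF.IsHom rM r ∧ (∀ x a, h (rM.act x a) = rM.act (h x) a) ∧
      ∀ x, r.f (s.f x) = x + M.D (h x) + h (M.D x)

/-- semi-free bimodules: homogeneous basis `x`, rank function, `D x_i` in the span of the
`a x_j b` with `rk j < rk i` -/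
structure SemiFree {A B : DGA k} {M : SD k} (b : Bi A B M) (I : Type) where
  x : I → M.V
  rk : I → ℕ
  par : ∀ i, M.P (x i) = x i ∨ M.P (x i) = 0
  comb_bij : Function.Bijective (Finsupp.lsum k (fun i =>
    (TensorProduct.lift (b.l.act.compl₂ (b.r.act (x i))) : A.V ⊗[k] B.V →ₗ[k] M.V)))
  D_mem : ∀ i, M.D (x i) ∈ Submodule.span k
    {m | ∃ j a c, rk j < rk i ∧ m = b.l.act a (b.r.act (x j) c)}

end NC
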