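import Pool.Agent.H16.NC.TD

/-!
# Structures on `HomR` and `HomBi`, pairings (base file, helper16)
-/

open scoped TensorProduct

namespace NC

variable {k : Type} [Field k]

section sub

variable {S T : DGA k} {N : SD k} {U : Submodule k N.V} {hD : ∀ x ∈ U, N.D x ∈ U}
  {hP : ∀ x ∈ U, N.P x ∈ U}

theorem LL.sub {x : LA S N} {y : LA T N} (h : LL x y) (hx) (hy) :
    LL (x.sub U hD hP hx) (y.sub U hD hP hy) :=
  fun a b n => Subtype.ext (h a b n.1)

theorem RR.sub {x : RA S N} {y : RA T N} (h : RR x y) (hx) (hy) :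
    RR (x.sub U hD hP hx) (y.sub U hD hP hy) :=
  fun n a b => Subtype.ext (h n.1 a b)

theorem LR.sub {x : LA S N} {y : RA T N} (h : LR x y) (hx) (hy) :
    LR (x.sub U hD hP hx) (y.sub U hD hP hy) :=
  fun a n b => Subtype.ext (h a n.1 b)

/-- the inclusion of a sub differential module -/
def SD.subIncl (N : SD k) (U : Submodule k N.V) (hD : ∀ x ∈ U, N.D x ∈ U)
    (hP : ∀ x ∈ U, N.P x ∈ U) : SD.Hom (N.sub U hD hP) N where
  f := U.subtype
  D := fun _ => rfl
  P := fun _ => rfl

end sub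

/-! ### right linear maps -/

section homR

variable {B S T : DGA k} {M Z : SD k} {rZ : RA B Z}

/-- left action through the target -/
def LA.postR (l : LA S Z) (rM : RA B M) (h : LR l rZ) : LA S (HomR rM rZ) :=
  (l.post M).sub _ _ _ (fun s f hf => by
    have hf' : ∀ x b, f (rM.act x b) = rZ.act (f x) b := hf
    intro x b
    change l.act s (f (rM.act x b)) = rZ.act (l.act s (f x)) b
    rw [hf', h])

/-- right action through a left action on the source -/
def LA.preR {rM : RA B M} (rZ : RA B Z) (l : LA S M) (h : LR l rM) : RA S (HomR rM rZ) :=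
  (LA.pre Z l).sub _ _ _ (fun s f hf => by
    have hf' : ∀ x b, f (rM.act x b) = rZ.act (f x) b := hf
    intro x b
    change f (l.act s (rM.act x b)) = rZ.act (f (l.act s x)) b
    rw [← h, hf'])

/-- right action through the target -/
def RA.postR (r : RA S Z) (rM : RA B M) (h : RR rZ r) : RA S (HomR rM rZ) :=
  (r.post M).sub _ _ _ (fun s f hf => by
    have hf' : ∀ x b, f (rM.act x b) = rZ.act (f x) b := hf
    intro x b
    change r.act (f (rM.act x b)) (S.P s) + r.act (f (M.E (rM.act x b))) (s - S.P s) =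
      rZ.act (r.act (f x) (S.P s) + r.act (f (M.E x)) (s - S.P s)) b
    rw [rM.E_act, hf', hf', map_add, LinearMap.add_apply, h (f x), h (f (M.E x)), S.EP, S.E_odd]
    simp only [SD.E_apply, map_sub, map_add, map_neg, LinearMap.sub_apply,
      LinearMap.add_apply]
    abel)

@[simp] theorem LA.postR_act {rM : RA B M} (l : LA S Z) (h : LR l rZ) (s : S.V) (f : (HomR rM rZ).V)
    (x : M.V) : ((l.postR rM h).act s f).1 x = l.act s (f.1 x) := rfl
@[simp] theorem LA.preR_act {rM : RA B M} (l : LA S M) (h : LR l rM) (s : S.V) (f : (HomR rM rZ).V)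
    (x : M.V) : ((LA.preR rZ l h).act f s).1 x = f.1 (l.act s x) := rfl
@[simp] theorem RA.postR_act {rM : RA B M} (r : RA S Z) (h : RR rZ r) (s : S.V) (f : (HomR rM rZ).V)
    (x : M.V) : ((RA.postR r rM h).act f s).1 x =
      r.act (f.1 x) (S.P s) + r.act (f.1 (M.E x)) (s - S.P s) := rfl

end homR

/-! ### bimodule maps -/

section homBi

variable {A B S T : DGA k} {M Z : SD k}

theorem lLin_post {lM : LA A M} {lZ : LA A Z} (l : LA S Z) (h : LL lZ l) (s : S.V)
    {f : M.V →ₗ[k] Z.V} (hf : f ∈ lLin lM lZ) : (l.post M).act s f ∈ lLin lM lZ := by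
  have hf' : ∀ a x, f (lM.act a x) = lZ.act a (SD.hP M Z f x) +
    lZ.act (A.E a) (f x - SD.hP M Z f x) := hf
  have hs := h.symm
  intro a x
  have hP : ∀ x, SD.hP M Z ((l.post M).act s f) x = l.act (S.P s) (SD.hP M Z f x) +
      l.act (s - S.P s) (f x - SD.hP M Z f x) := fun x => by
    have h1 : SD.hP M Z ((l.post M).act s f) = (l.post M).act (S.P s) (SD.hP M Z f) +
      (l.post M).act (s - S.P s) (f - SD.hP M Z f) := (l.post M).P_act s f
    rw [h1]; rfl
  have e1 : (l.post M).act s f x = l.act s (f x) := rfl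
  have e2 : (l.post M).act s f (lM.act a x) = l.act s (f (lM.act a x)) := rfl
  rw [e2, e1, hP, hf', map_add, hs s a, hs s (A.E a), A.EE]
  simp only [map_sub, map_add, LinearMap.sub_apply, LinearMap.add_apply]
  abel

theorem lLin_postR {lM : LA A M} {lZ : LA A Z} (r : RA S Z) (h : LR lZ r) (s : S.V)
    {f : M.V →ₗ[k] Z.V} (hf : f ∈ lLin lM lZ) : (r.post M).act f s ∈ lLin lM lZ := by
  have hf' : ∀ a x, f (lM.act a x) = lZ.act a (SD.hP M Z f x) +
    lZ.act (A.E a) (f x - SD.hP M Z f x) := hf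
  intro a x
  have hP : ∀ x, SD.hP M Z ((r.post M).act f s) x = r.act (SD.hP M Z f x) (S.P s) +
      r.act (f (M.E x) - SD.hP M Z f (M.E x)) (s - S.P s) := fun x => by
    have h1 : SD.hP M Z ((r.post M).act f s) = (r.post M).act (SD.hP M Z f) (S.P s) +
      (r.post M).act (f - SD.hP M Z f) (s - S.P s) := (r.post M).P_act f s
    rw [h1]
    change (r.act (SD.hP M Z f x) (S.P (S.P s)) + r.act (SD.hP M Z f (M.E x))
      (S.P s - S.P (S.P s))) + (r.act (f x - SD.hP M Z f x) (S.P (s - S.P s)) +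
        r.act (f (M.E x) - SD.hP M Z f (M.E x)) ((s - S.P s) - S.P (s - S.P s))) = _
    simp only [map_sub, S.PP, sub_self, map_zero, add_zero, zero_add, sub_zero]
  have e1 : (r.post M).act f s x = r.act (f x) (S.P s) + r.act (f (M.E x)) (s - S.P s) := rfl
  have e2 : (r.post M).act f s (lM.act a x) = r.act (f (lM.act a x)) (S.P s) +
    r.act (f (M.E (lM.act a x))) (s - S.P s) := rfl
  rw [e2, e1, hP, lM.E_act, hf', hf', A.EE]
  simp only [map_sub, map_add, LinearMap.sub_apply, LinearMap.add_apply, h a, h (A.E a)]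
  abel

/-- left action through the target -/
def LA.postBi {bZ : Bi A B Z} (l : LA S Z) (bM : Bi A B M) (h : LL bZ.l l) (h' : LR l bZ.r) :
    LA S (HomBi bM bZ) :=
  (l.post M).sub _ _ _ (fun s f hf => ⟨lLin_post l h s hf.1, by
    have hf' : ∀ x b, f (bM.r.act x b) = bZ.r.act (f x) b := hf.2
    intro x b
    change l.act s (f (bM.r.act x b)) = bZ.r.act (l.act s (f x)) b
    rw [hf', h']⟩)

/-- right action through the target -/
def RA.postBi {bZ : Bi A B Z} (r : RA S Z) (bM : Bi A B M) (h : LR bZ.l r) (h' : RR bZ.r r) :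
    RA S (HomBi bM bZ) :=
  (r.post M).sub _ _ _ (fun s f hf => ⟨lLin_postR r h s hf.1, by
    have hf' : ∀ x b, f (bM.r.act x b) = bZ.r.act (f x) b := hf.2
    intro x b
    change r.act (f (bM.r.act x b)) (S.P s) + r.act (f (M.E (bM.r.act x b))) (s - S.P s) =
      bZ.r.act (r.act (f x) (S.P s) + r.act (f (M.E x)) (s - S.P s)) b
    rw [bM.r.E_act, hf', hf', map_add, LinearMap.add_apply, h' (f x), h' (f (M.E x)), S.EP,
      S.E_odd]
    simp only [SD.E_apply, map_sub, map_add, map_neg, LinearMap.sub_apply,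
      LinearMap.add_apply]
    abel⟩)

/-- the bimodule structure on `HomBi` from a commuting structure of the target -/
def Bi.postBi {bZ : Bi A B Z} (c : Bi S T Z) (bM : Bi A B M) (h : Comm bZ c) :
    Bi S T (HomBi bM bZ) where
  l := LA.postBi c.l bM h.ll h.rl
  r := RA.postBi c.r bM h.lr h.rr
  lr := fun s f t => Subtype.ext ((LR.postpost (x := c.l) (y := c.r) c.lr M) s f.1 t)

/-- the inclusion of `HomBi` in `HomR` -/
def HomBi.incl (bM : Bi A B M) (bZ : Bi A B Z) : SD.Hom (HomBi bM bZ) (HomR bM.r bZ.r) where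
  f := Submodule.inclusion inf_le_right
  D := fun _ => rfl
  P := fun _ => rfl

end homBi

/-! ### pairings -/

section pair

variable {A B : DGA k} {X M Z W : SD k}

/-- evaluation -/
noncomputable def homEv (X Z : SD k) : SD.Hom ((SD.hom X Z).tens X) Z where
  f := TensorProduct.lift LinearMap.id
  D := fun v => by
    refine tens_ext (f := TensorProduct.lift LinearMap.id ∘ₗ SD.tD (SD.hom X Z) X)
      (g := Z.D ∘ₗ TensorProduct.lift LinearMap.id) (fun f x => ?_) v
    have h1 : SD.tD (SD.hom X Z) X (f ⊗ₜ x) = (SD.hD X Z f) ⊗ₜ[k] x +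
      ((SD.hom X Z).E f) ⊗ₜ[k] (X.D x) := rfl
    rw [LinearMap.comp_apply, h1, map_add]
    change SD.hD X Z f x + SD.hE X Z f (X.D x) = Z.D (f x)
    rw [SD.hD_apply, SD.hE_apply]
    abel
  P := fun v => by
    refine tens_ext (f := TensorProduct.lift LinearMap.id ∘ₗ SD.tP (SD.hom X Z) X)
      (g := Z.P ∘ₗ TensorProduct.lift LinearMap.id) (fun f x => ?_) v
    have h1 : SD.tP (SD.hom X Z) X (f ⊗ₜ x) = (SD.hP X Z f) ⊗ₜ[k] (X.P x) +
      (f - SD.hP X Z f) ⊗ₜ[k] (x - X.P x) := rfl
    rw [LinearMap.comp_apply, h1, map_add]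
    change SD.hP X Z f (X.P x) + (f (x - X.P x) - SD.hP X Z f (x - X.P x)) = Z.P (f x)
    rw [SD.hP_apply, SD.hP_apply]
    simp only [map_sub, map_add, X.PP, Z.PP]
    abel

@[simp] theorem homEv_tmul (f : X.V →ₗ[k] Z.V) (x : X.V) : (homEv X Z).f (f ⊗ₜ x) = f x := rfl

/-- `z ↦ (a ↦ (-1)^(|a||z|) a z)` -/
noncomputable def rx (l : LA A Z) : SD.Hom Z (SD.hom A.toSD Z) where
  f := LinearMap.mk₂ k (fun z a => l.act (A.P a) z + l.act (a - A.P a) (Z.E z))
    (fun z z' a => by simp only [map_add]; abel) (fun c z a => by simp only [map_smul, smul_add])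
    (fun z a a' => by simp only [map_add, map_sub, LinearMap.add_apply, LinearMap.sub_apply]; abel)
    (fun c z a => by
      simp only [map_smul, map_sub, LinearMap.smul_apply, LinearMap.sub_apply, smul_add,
        smul_sub])
  D := fun z => by
    refine LinearMap.ext (fun a => ?_)
    refine Eq.trans ?_ (SD.hD_apply A.toSD Z _ a).symm
    simp only [LinearMap.mk₂_apply, l.D_act, l.E_act, map_add, map_sub, LinearMap.add_apply,
      LinearMap.sub_apply, Z.DE, A.DP, A.PE, A.EP]
    simp only [SD.E_apply, map_add, map_sub, LinearMap.add_apply, LinearMap.sub_apply, A.PP,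
      Z.PP, A.DP, Z.DP, map_neg]
    abel
  P := fun z => by
    refine LinearMap.ext (fun a => ?_)
    refine Eq.trans ?_ (SD.hP_apply A.toSD Z _ a).symm
    simp only [LinearMap.mk₂_apply, map_add, map_sub, LinearMap.add_apply,
      LinearMap.sub_apply, A.PP, l.P_act, Z.PE, Z.EP]
    simp only [SD.E_apply, map_add, map_sub, LinearMap.add_apply, LinearMap.sub_apply, A.PP,
      Z.PP]
    abel

@[simp] theorem rx_apply (l : LA A Z) (z : Z.V) (a : A.V) :
    (rx l).f z a = l.act (A.P a) z + l.act (a - A.P a) (Z.E z) := rfl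

end pair

end NC
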