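import Pool.Agent.H16.NC.RxL
import Pool.Agent.H16.NC.EDat
import Pool.Agent.H94.NC.TRf

/-!
# The data `F` (base file, helper16)

`NF = Hom_r(M, Q)`, `LF = Hom_r(M, M)`, `KF = hom(A, Q)`.
-/

open scoped TensorProduct

namespace NC

variable {k : Type} [Field k] {A : DGA k} {M Z : SD k}

theorem SD.hP_E (M Z : SD k) (f : M.V →ₗ[k] Z.V) (x : M.V) :
    SD.hP M Z f (M.E x) = Z.E (SD.hP M Z f x) := by
  simp only [SD.hP_apply, SD.E_apply, map_sub, map_add, M.PP, Z.PP]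
  abel

theorem SD.map_E (M Z : SD k) (f : M.V →ₗ[k] Z.V) (x : M.V) :
    f (M.E x) = Z.E (SD.hP M Z f x) + Z.E (SD.hP M Z f x) - Z.E (f x) := by
  have hE : SD.hP M Z f x + SD.hP M Z f x - f x = Z.E (f (M.E x)) := SD.hE_apply M Z f x
  rw [← map_add, ← map_sub, hE, Z.EE]

/-- the bimodule structure on `Hom_r(M, Z)`: left through the target, right through the source -/
noncomputable def dIn (bM : Bi A A M) (bZ : Bi A A Z) : Bi A A (HomR bM.r bZ.r) :=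
  ⟨bZ.l.postR bM.r bZ.lr, LA.preR bZ.r bM.l bM.lr, fun _ _ _ => Subtype.ext rfl⟩

/-- bimodule maps are central in `Hom_r` -/
theorem incl_central (bM : Bi A A M) (bZ : Bi A A Z) :
    Central (dIn bM bZ) (HomBi.incl bM bZ) := by
  intro s ξ
  refine Subtype.ext (LinearMap.ext (fun x => ?_))
  have hl : ∀ a x, ξ.1 (bM.l.act a x) = bZ.l.act a (SD.hP M Z ξ.1 x) +
    bZ.l.act (A.E a) (ξ.1 x - SD.hP M Z ξ.1 x) := ξ.2.1
  have hp : ∀ a x, SD.hP M Z ξ.1 (bM.l.act a x) = bZ.l.act a (SD.hP M Z ξ.1 x) := by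
    have h1 := ((HomBi bM bZ).P ξ).2.1
    have h2 : ∀ a x, SD.hP M Z ξ.1 (bM.l.act a x) =
      bZ.l.act a (SD.hP M Z (SD.hP M Z ξ.1) x) +
      bZ.l.act (A.E a) (SD.hP M Z ξ.1 x - SD.hP M Z (SD.hP M Z ξ.1) x) := h1
    have h3 : SD.hP M Z (SD.hP M Z ξ.1) = SD.hP M Z ξ.1 := (SD.hom M Z).PP ξ.1
    intro a x
    rw [h2, h3, sub_self, map_zero, add_zero]
  change bZ.l.act s (ξ.1 x) = SD.hP M Z ξ.1 (bM.l.act s x) +
    (ξ.1 (bM.l.act (A.E s) x) - SD.hP M Z ξ.1 (bM.l.act (A.E s) x))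
  rw [hp, hp, hl, A.EE, map_sub]
  abel

/-! ### the space `NF` -/

/-- `Hom_r(M, Q)` -/
noncomputable abbrev NF (bM : Bi A A M) : SD k := HomR bM.r (oR A)

/-- structure for the rotation -/
noncomputable def bNF (bM : Bi A A M) : Bi A A (NF bM) :=
  ⟨(iL A).postR bM.r (iL_oR A), RA.postR (iR A) bM.r (iR_oR A).symm,
    fun s f t => Subtype.ext ((LR.postpost (iL_iR A) M) s f.1 t)⟩

/-- structure of the third algebra -/
noncomputable abbrev dNF (bM : Bi A A M) : Bi A A (NF bM) := dIn bM (bOut A)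

theorem NF_comm (bM : Bi A A M) : Comm (bNF bM) (dNF bM) where
  ll := fun a b n => Subtype.ext ((LL.postpost (iL_oL A) M) a b n.1)
  lr := fun a n b => Subtype.ext ((LR.postpre (iL A) bM.l) a n.1 b)
  rl := fun a n b => Subtype.ext ((LR.postpost (oL_iR A) M) a n.1 b)
  rr := fun n a b => Subtype.ext ((RR.prepost bM.l (iR A)) n.1 a b)

/-! ### the space `KF` -/

/-- the three structures on `hom(A, Q)` -/
noncomputable def tKF (A : DGA k) : Tri A A A (SD.hom A.toSD (QQ A)) where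
  b₁ := ⟨(iL A).post A.toSD, (oR A).post A.toSD, LR.postpost (iL_oR A) A.toSD⟩
  b₂ := ⟨A.diag.r.pre (QQ A), (iR A).post A.toSD, LR.prepost A.diag.r (iR A)⟩
  b₃ := ⟨(oL A).post A.toSD, LA.pre (QQ A) A.diag.l, LR.postpre (oL A) A.diag.l⟩
  h₁₂ := ⟨LL.postpre (iL A) A.diag.r, LR.postpost (iL_iR A) A.toSD,
    LR.prepost A.diag.r (oR A), RR.postpost (iR_oR A).symm A.toSD⟩
  h₁₃ := ⟨LL.postpost (iL_oL A) A.toSD, LR.postpre (iL A) A.diag.l,
    LR.postpost (oL_oR A) A.toSD, RR.prepost A.diag.l (oR A)⟩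
  h₂₃ := ⟨(LL.postpre (oL A) A.diag.r).symm, LR.prepre A.diag.lr (QQ A),
    LR.postpost (oL_iR A) A.toSD, RR.prepost A.diag.l (iR A)⟩

/-! ### the contraction -/

/-- `x ⊗ n ↦ (m ↦ kap (x ⊗ n m))` -/
noncomputable def muF (bM : Bi A A M) : SD.Hom (M.tens (NF bM)) (HomR bM.r bM.r) :=
  ((compH M (QQ A) M).comp ((kap bM).curry.tens (SD.subIncl (SD.hom M (QQ A)) _ _ _))).toSub
    (by
      intro v
      induction v using TensorProduct.induction_on with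
      | zero => rw [map_zero]; exact Submodule.zero_mem _
      | add x y hx hy => rw [map_add]; exact Submodule.add_mem _ hx hy
      | tmul z ξ => exact rLin_comp (curry_mem (kap bM) (kap_isHom bM) z).2 ξ.2)

theorem muF_apply (bM : Bi A A M) (x : M.V) (n : (NF bM).V) (m : M.V) :
    ((muF bM).f (x ⊗ₜ n)).1 m = (kap bM).f (x ⊗ₜ n.1 m) := rfl

theorem muD_F (bM : Bi A A M) : MuD bM (bNF bM) (muF bM) where
  m1 := fun z r ξ => Subtype.ext (LinearMap.ext (fun m => kap_m1 bM z r (ξ.1 m)))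
  m2 := fun z ξ t => by
    refine Subtype.ext (LinearMap.ext (fun m => ?_))
    change (kap bM).f (z ⊗ₜ ((iR A).act (ξ.1 m) (A.P t) +
      (iR A).act (ξ.1 (M.E m)) (t - A.P t))) =
      (kap bM).f (bM.l.act (A.P t) z ⊗ₜ ξ.1 m) +
        (kap bM).f (bM.l.act (t - A.P t) (M.E z) ⊗ₜ (SD.hom M (QQ A)).E ξ.1 m)
    rw [TensorProduct.tmul_add, map_add, kap_m2, kap_m2, A.PP, SD.hom_E]
    simp only [map_sub, A.PP, sub_self, map_zero, LinearMap.zero_apply, sub_zero,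
      TensorProduct.zero_tmul, add_zero, zero_add]

theorem muF_isHom (bM : Bi A A M) : ((dNF bM).tensR M).IsHom (dIn bM bM) (muF bM) := by
  constructor
  · intro s v
    refine tens_ext (f := (muF bM).f ∘ₗ ((dNF bM).l.tensR M).act s)
      (g := (dIn bM bM).l.act s ∘ₗ (muF bM).f) (fun x n => ?_) v
    have e1 : ((dNF bM).l.tensR M).act s (x ⊗ₜ n) = x ⊗ₜ[k] (dNF bM).l.act (A.P s) n +
      M.E x ⊗ₜ[k] (dNF bM).l.act (s - A.P s) n := rfl
    rw [LinearMap.comp_apply, e1, map_add]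
    refine Subtype.ext (LinearMap.ext (fun m => ?_))
    refine Eq.trans ?_ ((kap_isHom bM).l s (x ⊗ₜ n.1 m))
    change (kap bM).f (x ⊗ₜ (oL A).act (A.P s) (n.1 m)) +
      (kap bM).f (M.E x ⊗ₜ (oL A).act (s - A.P s) (n.1 m)) = _
    rw [← map_add]; rfl
  · intro v s
    refine tens_ext (f := (muF bM).f ∘ₗ ((dNF bM).r.tensR M).act.flip s)
      (g := (dIn bM bM).r.act.flip s ∘ₗ (muF bM).f) (fun x n => ?_) v
    refine Subtype.ext (LinearMap.ext (fun m => ?_))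
    rfl

/-! ### the rotation -/

/-- `n ⊗ x ↦ n ∘ rx x` -/
noncomputable def nuF (bM : Bi A A M) :
    SD.Hom ((NF bM).tens M) (SD.hom A.toSD (QQ A)) :=
  (compH A.toSD M (QQ A)).comp ((SD.subIncl (SD.hom M (QQ A)) _ _ _).tens (rx bM.l))

theorem nuF_apply (bM : Bi A A M) (n : (NF bM).V) (x : M.V) (a : A.V) :
    (nuF bM).f (n ⊗ₜ x) a = n.1 ((rx bM.l).f x a) := rfl

theorem nuD_F (bM : Bi A A M) : NuD bM (bNF bM) (tKF A).b₁ (tKF A).b₂ (nuF bM) where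
  h1 := fun r n x => rfl
  h2 := fun n x r => by
    refine LinearMap.ext (fun a => ?_)
    have hr : ∀ x b, n.1 (bM.r.act x b) = (oR A).act (n.1 x) b := n.2
    have h1 : (rx bM.l).f (bM.r.act x r) a = bM.r.act ((rx bM.l).f x a) (A.P r) +
      bM.r.act ((rx bM.l).f x (A.E a)) (r - A.P r) :=
      LinearMap.congr_fun (rx_postR bM.lr x r) a
    change n.1 ((rx bM.l).f (bM.r.act x r) a) = (oR A).act (n.1 ((rx bM.l).f x a)) (A.P r) +
      (oR A).act (n.1 ((rx bM.l).f x (A.E a))) (r - A.P r)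
    rw [h1, map_add, hr, hr]
  h3 := fun n x s => by
    refine LinearMap.ext (fun a => ?_)
    have h1 : M.E ((rx bM.l).f x a) = (rx bM.l).f (M.E x) (A.E a) := by
      rw [(rx bM.l).E]
      have h2 : (SD.hom A.toSD M).E ((rx bM.l).f x) (A.E a) =
        M.E ((rx bM.l).f x (A.E (A.E a))) := SD.hom_E _ _ _ _
      rw [h2, A.EE]
    change (iR A).act (n.1 ((rx bM.l).f x a)) (A.P s) +
      (iR A).act (n.1 (M.E ((rx bM.l).f x a))) (s - A.P s) =
      ((iR A).act (n.1 ((rx bM.l).f x a)) (A.P (A.P s)) +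
        (iR A).act (n.1 ((rx bM.l).f x (A.E a))) (A.P s - A.P (A.P s))) +
      ((iR A).act (n.1 ((rx bM.l).f (M.E x) a)) (A.P (s - A.P s)) +
        (iR A).act (n.1 ((rx bM.l).f (M.E x) (A.E a))) ((s - A.P s) - A.P (s - A.P s)))
    have e7 : A.P (s - A.P s) = 0 := by rw [map_sub, A.PP, sub_self]
    rw [h1, e7, A.PP, sub_self, sub_zero, map_zero, map_zero, add_zero, zero_add]
  h4 := fun n s x => by
    refine LinearMap.ext (fun a => ?_)
    have h1 : (rx bM.l).f (bM.l.act s x) a = (rx bM.l).f x (a * A.P s) -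
      M.E ((rx bM.l).f x (a * (s - A.P s))) := LinearMap.congr_fun (rx_preR bM.l s x) a
    have h2 : ∀ y, (SD.hom M (QQ A)).E n.1 y = (QQ A).E (n.1 (M.E y)) := fun y =>
      SD.hom_E M (QQ A) n.1 y
    change n.1 ((rx bM.l).f (bM.l.act s x) a) =
      (n.1 ((rx bM.l).f x (a * A.P (A.P s))) -
        (QQ A).E (n.1 ((rx bM.l).f x (a * (A.P s - A.P (A.P s)))))) +
      ((SD.hom M (QQ A)).E n.1 ((rx bM.l).f x (a * A.P (s - A.P s))) -
        (QQ A).E ((SD.hom M (QQ A)).E n.1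
          ((rx bM.l).f x (a * ((s - A.P s) - A.P (s - A.P s))))))
    have e7 : A.P (s - A.P s) = 0 := by rw [map_sub, A.PP, sub_self]
    rw [h1, e7, A.PP, sub_self, sub_zero, mul_zero, map_zero, map_zero, map_zero, map_zero,
      sub_zero, zero_sub, h2, (QQ A).EE, map_sub]
    exact sub_eq_add_neg _ _

theorem nuF_isHom (bM : Bi A A M) : ((dNF bM).tensL M).IsHom (tKF A).b₃ (nuF bM) := by
  constructor
  · intro s v
    refine tens_ext (f := (nuF bM).f ∘ₗ ((dNF bM).l.tensL M).act s)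
      (g := (tKF A).b₃.l.act s ∘ₗ (nuF bM).f) (fun n x => ?_) v
    rfl
  · intro v s
    refine tens_ext (f := (nuF bM).f ∘ₗ ((dNF bM).r.tensL M).act.flip s)
      (g := (tKF A).b₃.r.act.flip s ∘ₗ (nuF bM).f) (fun n x => ?_) v
    refine LinearMap.ext (fun a => ?_)
    have hP : ∀ x y : A.V, A.P (x * y) = A.P x * A.P y + (x - A.P x) * (y - A.P y) := A.P_mul
    have e1 : ((dNF bM).r.tensL M).act (n ⊗ₜ x) s = (dNF bM).r.act n (A.P s) ⊗ₜ[k] x +
      (dNF bM).r.act n (s - A.P s) ⊗ₜ[k] M.E x := rfl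
    change (nuF bM).f (((dNF bM).r.tensL M).act (n ⊗ₜ x) s) a =
      n.1 (bM.l.act (A.P (s * a)) x + bM.l.act (s * a - A.P (s * a)) (M.E x))
    rw [e1, map_add]
    change n.1 (bM.l.act (A.P s) (bM.l.act (A.P a) x + bM.l.act (a - A.P a) (M.E x))) +
      n.1 (bM.l.act (s - A.P s) (bM.l.act (A.P a) (M.E x) +
        bM.l.act (a - A.P a) (M.E (M.E x)))) = _
    rw [← map_add]
    congr 1
    simp only [M.EE, hP, map_add, map_sub, ← bM.l.mul_act, mul_sub, sub_mul,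
      LinearMap.add_apply, LinearMap.sub_apply]
    abel

/-! ### comparison with the data `E` -/

/-- `Mv → NF` -/
noncomputable abbrev iN (bM : Bi A A M) : SD.Hom (Mv bM) (NF bM) := HomBi.incl bM (bOut A)

theorem iN_isHom (bM : Bi A A M) : (bMv bM).IsHom (bNF bM) (iN bM) :=
  ⟨fun _ _ => rfl, fun _ _ => rfl⟩

/-- `Q → hom(A, Q)` -/
noncomputable abbrev jF (A : DGA k) : SD.Hom (QQ A) (SD.hom A.toSD (QQ A)) := rx (oL A)

theorem jF_h1 (A : DGA k) : (bQ1 A).IsHom (tKF A).b₁ (jF A) :=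
  ⟨rx_postL (iL_oL A), rx_postR (oL_oR A)⟩
theorem jF_h2 (A : DGA k) : (bQ2 A).IsHom (tKF A).b₂ (jF A) :=
  ⟨rx_preR (oL A), rx_postR (oL_iR A)⟩
theorem jF_central (A : DGA k) : Central (tKF A).b₃ (jF A) := rx_central (oL A)

theorem muF_iN (bM : Bi A A M) (x : M.V) (ξ : (Mv bM).V) :
    (HomBi.incl bM bM).f ((muE bM bM).f (x ⊗ₜ ξ)) = (muF bM).f (x ⊗ₜ (iN bM).f ξ) := rfl

theorem nuF_iN (bM : Bi A A M) (ξ : (Mv bM).V) (x : M.V) :
    (jF A).f ((nuE bM).f (ξ ⊗ₜ x)) = (nuF bM).f ((iN bM).f ξ ⊗ₜ x) := by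
  refine LinearMap.ext (fun a => ?_)
  have hl : ∀ a x, ξ.1 (bM.l.act a x) = (oL A).act a (SD.hP M (QQ A) ξ.1 x) +
    (oL A).act (A.E a) (ξ.1 x - SD.hP M (QQ A) ξ.1 x) := ξ.2.1
  change (oL A).act (A.P a) (ξ.1 x) + (oL A).act (a - A.P a) ((QQ A).E (ξ.1 x)) =
    ξ.1 (bM.l.act (A.P a) x + bM.l.act (a - A.P a) (M.E x))
  rw [map_add, hl, hl, SD.hP_E M (QQ A) ξ.1, SD.map_E M (QQ A) ξ.1, A.EP, A.E_odd]
  simp only [map_sub, map_add, map_neg, LinearMap.sub_apply, LinearMap.neg_apply]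
  abel

end NC
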