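import Pool.Agent.H16.NC.Du

/-!
# Compatibilities of `rx`, `homX` and evaluation (base file, helper16)
-/

open scoped TensorProduct

namespace NC

variable {k : Type} [Field k]

section rx

variable {A S : DGA k} {V X Y Z W : SD k}

theorem rx_postL {l : LA A Z} {l' : LA S Z} (h : LL l' l) :
    l'.IsHom (l'.post A.toSD) (rx l) := by
  intro s z
  refine LinearMap.ext (fun a => ?_)
  change l.act (A.P a) (l'.act s z) + l.act (a - A.P a) (Z.E (l'.act s z)) =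
    l'.act s (l.act (A.P a) z + l.act (a - A.P a) (Z.E z))
  rw [l'.E_act, map_add, h.even, ← h.odd, S.EE]

theorem rx_postR {l : LA A Z} {r : RA S Z} (h : LR l r) :
    r.IsHom (r.post A.toSD) (rx l) := by
  intro z s
  refine LinearMap.ext (fun a => ?_)
  change l.act (A.P a) (r.act z s) + l.act (a - A.P a) (Z.E (r.act z s)) =
    r.act (l.act (A.P a) z + l.act (a - A.P a) (Z.E z)) (S.P s) +
      r.act (l.act (A.P (A.E a)) z + l.act (A.E a - A.P (A.E a)) (Z.E z)) (s - S.P s)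
  have h' : ∀ a z s, r.act (l.act a z) s = l.act a (r.act z s) := h
  rw [r.E_act, A.E_sub_P_E, A.PE, map_neg, LinearMap.neg_apply, S.E_apply]
  simp only [map_add, map_sub, map_neg, LinearMap.add_apply, LinearMap.sub_apply,
    LinearMap.neg_apply, h']
  abel

theorem rx_preR (l : LA A Z) : l.IsHom (A.diag.r.pre Z) (rx l) := by
  intro s z
  refine LinearMap.ext (fun a => ?_)
  have hP : ∀ x y : A.V, A.P (x * y) = A.P x * A.P y + (x - A.P x) * (y - A.P y) := A.P_mul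
  change l.act (A.P a) (l.act s z) + l.act (a - A.P a) (Z.E (l.act s z)) =
    (l.act (A.P (a * A.P s)) z + l.act (a * A.P s - A.P (a * A.P s)) (Z.E z)) -
      Z.E (l.act (A.P (a * (s - A.P s))) z +
        l.act (a * (s - A.P s) - A.P (a * (s - A.P s))) (Z.E z))
  rw [l.E_act, (Z.E).map_add, l.E_act, l.E_act, Z.EE, hP, hP]
  simp only [A.PP, map_sub, sub_self, mul_zero, add_zero, zero_add, sub_zero, ← l.mul_act,
    A.E_apply, map_add, mul_sub, sub_mul, hP, LinearMap.sub_apply, zero_mul, map_zero,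
    LinearMap.add_apply, LinearMap.zero_apply]
  abel

theorem rx_central (l : LA A Z) :
    Central (⟨l.post A.toSD, LA.pre Z A.diag.l, LR.postpre l A.diag.l⟩ : Bi A A _) (rx l) := by
  intro s z
  refine LinearMap.ext (fun a => ?_)
  have hP : ∀ x y : A.V, A.P (x * y) = A.P x * A.P y + (x - A.P x) * (y - A.P y) := A.P_mul
  change l.act s (l.act (A.P a) z + l.act (a - A.P a) (Z.E z)) =
    (l.act (A.P (s * a)) (Z.P z) + l.act (s * a - A.P (s * a)) (Z.E (Z.P z))) +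
    (l.act (A.P (A.E s * a)) (z - Z.P z) +
      l.act (A.E s * a - A.P (A.E s * a)) (Z.E (z - Z.P z)))
  rw [Z.EP, Z.E_odd, Z.E_apply]
  simp only [A.PP, map_sub, ← l.mul_act, A.E_apply, map_add, mul_sub, sub_mul, add_mul, hP,
    LinearMap.sub_apply, LinearMap.add_apply, map_neg]
  abel

/-! ### tensoring a linear map with a vector on the left -/

/-- `x ⊗ φ ↦ (v ↦ x ⊗ φ(v))` -/
noncomputable def homX (V X Y : SD k) : SD.Hom (X.tens (SD.hom V Y)) (SD.hom V (X.tens Y)) :=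
  (((SD.Hom.id X).tens (homEv V Y)).comp (assocS X (SD.hom V Y) V)).curry

theorem homX_tmul (V X Y : SD k) (x : X.V) (φ : V.V →ₗ[k] Y.V) (v : V.V) :
    (homX V X Y).f (x ⊗ₜ φ) v = x ⊗ₜ φ v := rfl

theorem homX_a (V Y : SD k) (l : LA S X) :
    (l.tensL (SD.hom V Y)).IsHom ((l.tensL Y).post V) (homX V X Y) := by
  intro s v
  refine tens_ext (f := (homX V X Y).f ∘ₗ (l.tensL (SD.hom V Y)).act s)
    (g := ((l.tensL Y).post V).act s ∘ₗ (homX V X Y).f) (fun x φ => ?_) v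
  rfl

theorem homX_b (V Y : SD k) (r : RA S X) :
    (r.tensL (SD.hom V Y)).IsHom ((r.tensL Y).post V) (homX V X Y) := by
  intro v s
  refine tens_ext (f := (homX V X Y).f ∘ₗ (r.tensL (SD.hom V Y)).act.flip s)
    (g := ((r.tensL Y).post V).act.flip s ∘ₗ (homX V X Y).f) (fun x φ => ?_) v
  refine LinearMap.ext (fun v => ?_)
  have e1 : ∀ s, (r.tensL (SD.hom V Y)).act (x ⊗ₜ φ) s = r.act x (S.P s) ⊗ₜ[k] φ +
    r.act x (s - S.P s) ⊗ₜ[k] (SD.hom V Y).E φ := fun _ => rfl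
  have e2 : ∀ (x : X.V) (y : Y.V) (s : S.V), (r.tensL Y).act (x ⊗ₜ y) s =
    r.act x (S.P s) ⊗ₜ[k] y + r.act x (s - S.P s) ⊗ₜ[k] Y.E y := fun _ _ _ => rfl
  have e3 : ∀ v, (SD.hom V Y).E φ v = Y.E (φ (V.E v)) := fun v => SD.hom_E V Y φ v
  change (homX V X Y).f ((r.tensL (SD.hom V Y)).act (x ⊗ₜ φ) s) v =
    (r.tensL Y).act (x ⊗ₜ φ v) (S.P s) + (r.tensL Y).act (x ⊗ₜ φ (V.E v)) (s - S.P s)
  rw [e1, map_add, LinearMap.add_apply, homX_tmul, homX_tmul, e2, e2, e3]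
  simp only [S.PP, map_sub, sub_self, map_zero, TensorProduct.zero_tmul, add_zero, zero_add,
    sub_zero]

theorem homX_c (V X : SD k) (l : LA S Y) :
    ((l.post V).tensR X).IsHom ((l.tensR X).post V) (homX V X Y) := by
  intro s v
  refine tens_ext (f := (homX V X Y).f ∘ₗ ((l.post V).tensR X).act s)
    (g := ((l.tensR X).post V).act s ∘ₗ (homX V X Y).f) (fun x φ => ?_) v
  rfl

theorem homX_d (V X : SD k) (r : RA S Y) :
    ((r.post V).tensR X).IsHom ((r.tensR X).post V) (homX V X Y) := by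
  intro v s
  refine tens_ext (f := (homX V X Y).f ∘ₗ ((r.post V).tensR X).act.flip s)
    (g := ((r.tensR X).post V).act.flip s ∘ₗ (homX V X Y).f) (fun x φ => ?_) v
  refine LinearMap.ext (fun v => ?_)
  change x ⊗ₜ[k] (r.act (φ v) (S.P s) + r.act (φ (V.E v)) (s - S.P s)) =
    x ⊗ₜ[k] r.act (φ v) (S.P s) + x ⊗ₜ[k] r.act (φ (V.E v)) (s - S.P s)
  rw [TensorProduct.tmul_add]

theorem homX_e (X Y : SD k) (l : LA S V) :
    ((LA.pre Y l).tensR X).IsHom (LA.pre (X.tens Y) l) (homX V X Y) := by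
  intro v s
  refine tens_ext (f := (homX V X Y).f ∘ₗ ((LA.pre Y l).tensR X).act.flip s)
    (g := (LA.pre (X.tens Y) l).act.flip s ∘ₗ (homX V X Y).f) (fun x φ => ?_) v
  rfl

theorem homX_f (X Y : SD k) (r : RA S V) :
    ((r.pre Y).tensR X).IsHom (r.pre (X.tens Y)) (homX V X Y) := by
  intro s v
  refine tens_ext (f := (homX V X Y).f ∘ₗ ((r.pre Y).tensR X).act s)
    (g := (r.pre (X.tens Y)).act s ∘ₗ (homX V X Y).f) (fun x φ => ?_) v
  refine LinearMap.ext (fun v => ?_)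
  have e1 : ((r.pre Y).tensR X).act s (x ⊗ₜ φ) = x ⊗ₜ[k] (r.pre Y).act (S.P s) φ +
    X.E x ⊗ₜ[k] (r.pre Y).act (s - S.P s) φ := rfl
  have e2 : ∀ s v, (r.pre Y).act s φ v = φ (r.act v (S.P s)) - Y.E (φ (r.act v (s - S.P s))) :=
    fun _ _ => rfl
  have e3 : ∀ (x : X.V) (y : Y.V), (X.tens Y).E (x ⊗ₜ y) = X.E x ⊗ₜ Y.E y :=
    fun x y => SD.tens_E X Y x y
  change (homX V X Y).f (((r.pre Y).tensR X).act s (x ⊗ₜ φ)) v =
    x ⊗ₜ[k] φ (r.act v (S.P s)) - (X.tens Y).E (x ⊗ₜ[k] φ (r.act v (s - S.P s)))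
  rw [e1, map_add, LinearMap.add_apply, homX_tmul, homX_tmul, e2, e2, e3]
  simp only [S.PP, map_sub, sub_self, map_zero, TensorProduct.tmul_zero, add_zero, zero_add,
    sub_zero, zero_sub, TensorProduct.tmul_neg, TensorProduct.tmul_sub]
  abel

/-! ### evaluation is cyclic -/

/-- structure on `hom W Z ⊗ W` from a left action on `W` -/
noncomputable def Ev1 (l : LA S W) (Z : SD k) : Bi S S ((SD.hom W Z).tens W) :=
  ⟨l.tensR (SD.hom W Z), (LA.pre Z l).tensL W, LR.tensRL l (LA.pre Z l)⟩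

/-- structure on `hom W Z ⊗ W` from a right action on `W` -/
noncomputable def Ev2 (r : RA S W) (Z : SD k) : Bi S S ((SD.hom W Z).tens W) :=
  ⟨(r.pre Z).tensL W, r.tensR (SD.hom W Z), LR.tensLR (r.pre Z) r⟩

theorem Ev1_cyc (l : LA S W) (Z : SD k) : Cyc (Ev1 l Z) (homEv W Z) := by
  intro v r
  refine tens_ext (f := (homEv W Z).f ∘ₗ (Ev1 l Z).r.act.flip r)
    (g := (homEv W Z).f ∘ₗ (Ev1 l Z).l.act (S.P r) +
      (homEv W Z).f ∘ₗ (Ev1 l Z).l.act (r - S.P r) ∘ₗ ((SD.hom W Z).tens W).E)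
      (fun f w => ?_) v
  have e1 : (Ev1 l Z).r.act (f ⊗ₜ w) r = (LA.pre Z l).act f (S.P r) ⊗ₜ[k] w +
    (LA.pre Z l).act f (r - S.P r) ⊗ₜ[k] W.E w := rfl
  have e2 : ∀ (r : S.V) (f : W.V →ₗ[k] Z.V) (w : W.V), (Ev1 l Z).l.act r (f ⊗ₜ w) =
    f ⊗ₜ[k] l.act (S.P r) w + (SD.hom W Z).E f ⊗ₜ[k] l.act (r - S.P r) w := fun _ _ _ => rfl
  have e3 : ((SD.hom W Z).tens W).E (f ⊗ₜ w) = (SD.hom W Z).E f ⊗ₜ[k] W.E w :=
    SD.tens_E (SD.hom W Z) W f w
  have e5 : (SD.hom W Z).E ((SD.hom W Z).E f) = f := (SD.hom W Z).EE f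
  change (homEv W Z).f ((Ev1 l Z).r.act (f ⊗ₜ w) r) =
    (homEv W Z).f ((Ev1 l Z).l.act (S.P r) (f ⊗ₜ w)) +
    (homEv W Z).f ((Ev1 l Z).l.act (r - S.P r) (((SD.hom W Z).tens W).E (f ⊗ₜ w)))
  rw [e3, e1, e2, e2]
  simp only [map_add, e5]
  change f (l.act (S.P r) w) + f (l.act (r - S.P r) (W.E w)) =
    (f (l.act (S.P (S.P r)) w) + (SD.hom W Z).E f (l.act (S.P r - S.P (S.P r)) w)) +
    ((SD.hom W Z).E f (l.act (S.P (r - S.P r)) (W.E w)) +
      f (l.act ((r - S.P r) - S.P (r - S.P r)) (W.E w)))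
  simp only [S.PP, map_sub, sub_self, map_zero, LinearMap.zero_apply, sub_zero, add_zero,
    zero_add]

theorem Ev2_cyc (r : RA S W) (Z : SD k) : Cyc (Ev2 r Z) (homEv W Z) := by
  intro v s
  refine tens_ext (f := (homEv W Z).f ∘ₗ (Ev2 r Z).r.act.flip s)
    (g := (homEv W Z).f ∘ₗ (Ev2 r Z).l.act (S.P s) +
      (homEv W Z).f ∘ₗ (Ev2 r Z).l.act (s - S.P s) ∘ₗ ((SD.hom W Z).tens W).E)
      (fun f w => ?_) v
  have e3 : ((SD.hom W Z).tens W).E (f ⊗ₜ w) = (SD.hom W Z).E f ⊗ₜ[k] W.E w :=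
    SD.tens_E (SD.hom W Z) W f w
  have e4 : ∀ x, (SD.hom W Z).E f x = Z.E (f (W.E x)) := fun x => SD.hom_E W Z f x
  change f (r.act w s) = (homEv W Z).f ((Ev2 r Z).l.act (S.P s) (f ⊗ₜ w)) +
    (homEv W Z).f ((Ev2 r Z).l.act (s - S.P s) (((SD.hom W Z).tens W).E (f ⊗ₜ w)))
  rw [e3]
  change f (r.act w s) = (f (r.act w (S.P (S.P s))) -
      Z.E (f (r.act w (S.P s - S.P (S.P s))))) +
    ((SD.hom W Z).E f (r.act (W.E w) (S.P (s - S.P s))) -
      Z.E ((SD.hom W Z).E f (r.act (W.E w) ((s - S.P s) - S.P (s - S.P s)))))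
  have e7 : S.P (s - S.P s) = 0 := by rw [map_sub, S.PP, sub_self]
  rw [e4, e4, Z.EE, r.E_act, r.E_act, W.EE, e7, S.PP, sub_self, sub_zero, S.E_odd]
  simp only [map_zero, map_neg, sub_zero, zero_sub, map_sub]
  abel

end rx

end NC
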