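import Pool.Agent.H16.NC.Mg
import Pool.Agent.H16.NC.RxL
import Pool.Agent.H16.NC.Du

/-!
# General maps for the data `F'` (base file, helper16)

Functoriality of structures on tensor products, the cyclic action map `cyAct`, `assocBar`,
`trc_isHom`, the Koszul swap `swS`, injectivity of `homK`.
-/

open scoped TensorProduct

namespace NC

variable {k : Type} [Field k]

section fn

variable {S T R : DGA k} {X X' Y Y' Z N N' : SD k}

theorem LA.tensL_map {l : LA S X} {l' : LA S X'} {f : SD.Hom X X'} (h : l.IsHom l' f)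
    (g : SD.Hom Y Y') : (l.tensL Y).IsHom (l'.tensL Y') (f.tens g) := fun s v => by
  have h' : ∀ s x, f.f (l.act s x) = l'.act s (f.f x) := h
  refine tens_ext (f := (f.tens g).f ∘ₗ (l.tensL Y).act s)
    (g := (l'.tensL Y').act s ∘ₗ (f.tens g).f) (fun x y => ?_) v
  change f.f (l.act s x) ⊗ₜ g.f y = l'.act s (f.f x) ⊗ₜ g.f y
  rw [h']

theorem LA.tensR_map {l : LA S Y} {l' : LA S Y'} {g : SD.Hom Y Y'} (h : l.IsHom l' g)
    (f : SD.Hom X X') : (l.tensR X).IsHom (l'.tensR X') (f.tens g) := fun s v => by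
  have h' : ∀ s x, g.f (l.act s x) = l'.act s (g.f x) := h
  refine tens_ext (f := (f.tens g).f ∘ₗ (l.tensR X).act s)
    (g := (l'.tensR X').act s ∘ₗ (f.tens g).f) (fun x y => ?_) v
  have e1 : (l.tensR X).act s (x ⊗ₜ y) = x ⊗ₜ[k] l.act (S.P s) y +
    X.E x ⊗ₜ[k] l.act (s - S.P s) y := rfl
  rw [LinearMap.comp_apply, e1, map_add]
  change f.f x ⊗ₜ g.f (l.act (S.P s) y) + f.f (X.E x) ⊗ₜ g.f (l.act (s - S.P s) y) =
    f.f x ⊗ₜ l'.act (S.P s) (g.f y) + X'.E (f.f x) ⊗ₜ l'.act (s - S.P s) (g.f y)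
  rw [h', h', f.E]

theorem RA.tensR_map {r : RA S Y} {r' : RA S Y'} {g : SD.Hom Y Y'} (h : r.IsHom r' g)
    (f : SD.Hom X X') : (r.tensR X).IsHom (r'.tensR X') (f.tens g) := fun v s => by
  have h' : ∀ x s, g.f (r.act x s) = r'.act (g.f x) s := h
  refine tens_ext (f := (f.tens g).f ∘ₗ (r.tensR X).act.flip s)
    (g := (r'.tensR X').act.flip s ∘ₗ (f.tens g).f) (fun x y => ?_) v
  change f.f x ⊗ₜ g.f (r.act y s) = f.f x ⊗ₜ r'.act (g.f y) s
  rw [h']

theorem RA.tensL_map {r : RA S X} {r' : RA S X'} {f : SD.Hom X X'} (h : r.IsHom r' f)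
    (g : SD.Hom Y Y') : (r.tensL Y).IsHom (r'.tensL Y') (f.tens g) := fun v s => by
  have h' : ∀ x s, f.f (r.act x s) = r'.act (f.f x) s := h
  refine tens_ext (f := (f.tens g).f ∘ₗ (r.tensL Y).act.flip s)
    (g := (r'.tensL Y').act.flip s ∘ₗ (f.tens g).f) (fun x y => ?_) v
  have e1 : (r.tensL Y).act (x ⊗ₜ y) s = r.act x (S.P s) ⊗ₜ[k] y +
    r.act x (s - S.P s) ⊗ₜ[k] Y.E y := rfl
  change (f.tens g).f ((r.tensL Y).act (x ⊗ₜ y) s) = _
  rw [e1, map_add]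
  change f.f (r.act x (S.P s)) ⊗ₜ g.f y + f.f (r.act x (s - S.P s)) ⊗ₜ g.f (Y.E y) =
    r'.act (f.f x) (S.P s) ⊗ₜ g.f y + r'.act (f.f x) (s - S.P s) ⊗ₜ Y'.E (g.f y)
  rw [h', h', g.E]

theorem Bi.tensL_map {b : Bi S T X} {b' : Bi S T X'} {f : SD.Hom X X'} (h : b.IsHom b' f)
    (g : SD.Hom Y Y') : (b.tensL Y).IsHom (b'.tensL Y') (f.tens g) :=
  ⟨LA.tensL_map h.l g, RA.tensL_map h.r g⟩

theorem Bi.tensR_map {b : Bi S T Y} {b' : Bi S T Y'} {g : SD.Hom Y Y'} (h : b.IsHom b' g)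
    (f : SD.Hom X X') : (b.tensR X).IsHom (b'.tensR X') (f.tens g) :=
  ⟨LA.tensR_map h.l f, RA.tensR_map h.r f⟩

end fn

/-! ### the cyclic action map -/

section cyc

variable {A S T R : DGA k} {X Y Z N : SD k}

/-- `z ⊗ a ↦ ± a z` -/
noncomputable def cyAct (l : LA A Z) : SD.Hom (Z.tens A.toSD) Z :=
  (homEv A.toSD Z).comp ((rx l).tens (SD.Hom.id A.toSD))

theorem cyAct_tmul (l : LA A Z) (z : Z.V) (a : A.V) :
    (cyAct l).f (z ⊗ₜ a) = l.act (A.P a) z + l.act (a - A.P a) (Z.E z) := rfl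

/-- cyclic maps can be precomposed -/
theorem Cyc.comp {b : Bi R R N} {b' : Bi R R X} {f : SD.Hom N X} (h : b.IsHom b' f)
    {g : SD.Hom X Z} (hg : Cyc b' g) : Cyc b (g.comp f) := by
  intro n r
  have hr : ∀ x s, f.f (b.r.act x s) = b'.r.act (f.f x) s := h.r
  have hl : ∀ s x, f.f (b.l.act s x) = b'.l.act s (f.f x) := h.l
  have hg' := hg (f.f n) r
  change g.f (f.f (b.r.act n r)) = g.f (f.f (b.l.act (R.P r) n)) +
    g.f (f.f (b.l.act (r - R.P r) (N.E n)))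
  rw [hr, hl, hl, f.E]
  exact hg'

theorem cyAct_cyc (l : LA A Z) :
    Cyc (⟨l.tensL A.toSD, A.diag.r.tensR Z, LR.tensLR l A.diag.r⟩ : Bi A A _) (cyAct l) := by
  refine Cyc.comp (b' := Ev2 A.diag.r Z) ⟨?_, ?_⟩ (Ev2_cyc A.diag.r Z)
  · exact LA.tensL_map (rx_preR l) (SD.Hom.id A.toSD)
  · exact RA.tensR_map (r' := A.diag.r) (fun _ _ => rfl) (rx l)

theorem cyAct_isHom (b : Bi A T Z) :
    (⟨A.diag.l.tensR Z, b.r.tensL A.toSD, LR.tensRL A.diag.l b.r⟩ : Bi A T _).IsHom b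
      (cyAct b.l) := by
  constructor
  · intro s v
    refine tens_ext (f := (cyAct b.l).f ∘ₗ (A.diag.l.tensR Z).act s)
      (g := b.l.act s ∘ₗ (cyAct b.l).f) (fun z a => ?_) v
    have hP : ∀ x y : A.V, A.P (x * y) = A.P x * A.P y + (x - A.P x) * (y - A.P y) := A.P_mul
    have e1 : (A.diag.l.tensR Z).act s (z ⊗ₜ a) = z ⊗ₜ[k] (A.P s * a) +
      Z.E z ⊗ₜ[k] ((s - A.P s) * a) := rfl
    rw [LinearMap.comp_apply, e1, map_add, LinearMap.comp_apply, cyAct_tmul, cyAct_tmul,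
      cyAct_tmul, hP, hP, A.PP, map_sub A.P, A.PP, Z.EE]
    simp only [sub_self, sub_zero, zero_mul, add_zero, zero_add, map_add,
      ← b.l.mul_act, mul_sub, sub_mul, map_sub, LinearMap.sub_apply]
    abel
  · intro v s
    refine tens_ext (f := (cyAct b.l).f ∘ₗ (b.r.tensL A.toSD).act.flip s)
      (g := b.r.act.flip s ∘ₗ (cyAct b.l).f) (fun z a => ?_) v
    have e1 : (b.r.tensL A.toSD).act (z ⊗ₜ a) s = b.r.act z (T.P s) ⊗ₜ[k] a +
      b.r.act z (s - T.P s) ⊗ₜ[k] A.E a := rfl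
    change (cyAct b.l).f ((b.r.tensL A.toSD).act (z ⊗ₜ a) s) = b.r.act ((cyAct b.l).f (z ⊗ₜ a)) s
    rw [e1, map_add, cyAct_tmul, cyAct_tmul, cyAct_tmul, A.E_sub_P_E, A.PE, b.r.E_act,
      b.r.E_act, T.EP, T.E_odd]
    simp only [map_neg, LinearMap.neg_apply, neg_neg, map_add, LinearMap.add_apply, ← b.lr]
    simp only [map_sub, LinearMap.sub_apply]
    abel

/-- the augmentation is compatible with further structures -/
theorem trc_isHom {b : Bi R R N} {c : Bi S T N} (h : Comm b c) {g : SD.Hom N Z} (hb : Cyc b g)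
    {cZ : Bi S T Z} (hc : c.IsHom cZ g) : (b.hc c h).IsHom cZ (trc b g hb) := by
  constructor
  · intro s w
    change (trc b g hb).f (hd R c.l s w) = _
    induction w using Wd.induction with
    | hadd a b ha hb => simp only [map_add, ha, hb]
    | hnil v =>
      rw [hd_nil, trc_nil, trc_nil]; exact hc.l s v
    | hsnoc w _ r => rw [hd_snoc, trc_snoc, trc_snoc, map_zero]
  · intro w s
    change (trc b g hb).f (hr R c.r w s) = _
    induction w using Wd.induction generalizing s with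
    | hadd a b ha hb => simp only [map_add, ha, hb, LinearMap.add_apply]
    | hnil v => rw [hr_nil, trc_nil, trc_nil]; exact hc.r v s
    | hsnoc w _ r =>
      rw [hr_snoc, map_sub, trc_snoc, trc_snoc, trc_snoc, map_zero, LinearMap.zero_apply,
        sub_zero]

end cyc

/-! ### associativity of the bar construction -/

section assoc

variable {R S : DGA k} {X Y Z : SD k}

theorem tens_ext3' {X Y Z W : Type} [AddCommGroup X] [Module k X] [AddCommGroup Y] [Module k Y]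
    [AddCommGroup Z] [Module k Z] [AddCommGroup W] [Module k W]
    {f g : X ⊗[k] (Y ⊗[k] Z) →ₗ[k] W} (h : ∀ x y z, f (x ⊗ₜ (y ⊗ₜ z)) = g (x ⊗ₜ (y ⊗ₜ z)))
    (v : X ⊗[k] (Y ⊗[k] Z)) : f v = g v := by
  refine tens_ext (f := f) (g := g) (fun x u => ?_) v
  exact tens_ext (f := f ∘ₗ TensorProduct.mk k X (Y ⊗[k] Z) x)
    (g := g ∘ₗ TensorProduct.mk k X (Y ⊗[k] Z) x) (fun y z => h x y z) u

theorem assocBar_D (ρ : RA R X) (l : LA R Y) (w : Wd k X.V R.V) (y : Y.V) (z : Z.V) :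
    (TensorProduct.assoc k (Wd k X.V R.V) Y.V Z.V).symm (barD ρ (l.tensL Z) (w ⊗ₜ (y ⊗ₜ z))) =
      barD ρ l (w ⊗ₜ y) ⊗ₜ z + (EW X R.toSD w ⊗ₜ Y.E y) ⊗ₜ Z.D z := by
  have hD : (Y.tens Z).D (y ⊗ₜ z) = Y.D y ⊗ₜ[k] z + Y.E y ⊗ₜ[k] Z.D z := rfl
  have ha : ∀ (u : Wd k X.V R.V) (y : Y.V) (z : Z.V),
    (TensorProduct.assoc k (Wd k X.V R.V) Y.V Z.V).symm (u ⊗ₜ (y ⊗ₜ z)) = (u ⊗ₜ y) ⊗ₜ z :=
    fun _ _ _ => rfl
  induction w using Wd.induction with
  | hadd a b ha hb => simp only [map_add, TensorProduct.add_tmul, ha, hb]; abel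
  | hnil n =>
    rw [barD_nil, barD_nil, hD, EW_nil, TensorProduct.tmul_add, map_add, map_add, ha, ha, ha,
      TensorProduct.add_tmul]
    abel
  | hsnoc w _ r =>
    have hl : (l.tensL Z).act r (y ⊗ₜ z) = l.act r y ⊗ₜ[k] z := rfl
    rw [barD_snoc, barD_snoc, hD, hl, EW_snoc, TensorProduct.tmul_add]
    simp only [map_add, map_sub, ha, TensorProduct.add_tmul, TensorProduct.sub_tmul,
      TensorProduct.neg_tmul]
    abel

/-- `Bar(X, R, Y ⊗ Z) = Bar(X, R, Y) ⊗ Z` -/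
noncomputable def assocBar (ρ : RA R X) (l : LA R Y) (Z : SD k) :
    SD.Hom (Bar ρ (l.tensL Z)) ((Bar ρ l).tens Z) where
  f := (TensorProduct.assoc k (Wd k X.V R.V) Y.V Z.V).symm.toLinearMap
  D := fun v => by
    refine tens_ext3' (f := (TensorProduct.assoc k (Wd k X.V R.V) Y.V Z.V).symm.toLinearMap ∘ₗ
        barD ρ (l.tensL Z))
      (g := ((Bar ρ l).tens Z).D ∘ₗ
        (TensorProduct.assoc k (Wd k X.V R.V) Y.V Z.V).symm.toLinearMap) (fun w y z => ?_) v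
    refine (assocBar_D ρ l w y z).trans ?_
    have h1 : (Bar ρ l).E (w ⊗ₜ y) = EW X R.toSD w ⊗ₜ[k] Y.E y := by rw [Bar_E]; rfl
    change _ = barD ρ l (w ⊗ₜ y) ⊗ₜ z + (Bar ρ l).E (w ⊗ₜ y) ⊗ₜ Z.D z
    rw [h1]
  P := fun v => by
    refine tens_ext3' (f := (TensorProduct.assoc k (Wd k X.V R.V) Y.V Z.V).symm.toLinearMap ∘ₗ
        barP X (Y.tens Z) R)
      (g := ((Bar ρ l).tens Z).P ∘ₗ
        (TensorProduct.assoc k (Wd k X.V R.V) Y.V Z.V).symm.toLinearMap) (fun w y z => ?_) v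
    have hb : ∀ (u : Wd k X.V R.V) (v : Y.V ⊗[k] Z.V), barP X (Y.tens Z) R (u ⊗ₜ v) =
      PW X R.toSD u ⊗ₜ (Y.tens Z).P v + (u - PW X R.toSD u) ⊗ₜ (v - (Y.tens Z).P v) :=
      fun u v => barP_tmul _ _
    have hP : (Y.tens Z).P (y ⊗ₜ z) = Y.P y ⊗ₜ[k] Z.P z + (y - Y.P y) ⊗ₜ[k] (z - Z.P z) := rfl
    have ha : ∀ (u : Wd k X.V R.V) (y : Y.V) (z : Z.V),
      (TensorProduct.assoc k (Wd k X.V R.V) Y.V Z.V).symm (u ⊗ₜ (y ⊗ₜ z)) = (u ⊗ₜ y) ⊗ₜ z :=
      fun _ _ _ => rfl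
    have hBP : (Bar ρ l).P (w ⊗ₜ y) = PW X R.toSD w ⊗ₜ[k] Y.P y +
      (w - PW X R.toSD w) ⊗ₜ[k] (y - Y.P y) := barP_tmul _ _
    change (TensorProduct.assoc k (Wd k X.V R.V) Y.V Z.V).symm
      (barP X (Y.tens Z) R (w ⊗ₜ (y ⊗ₜ z))) = (Bar ρ l).P (w ⊗ₜ y) ⊗ₜ Z.P z +
        ((w ⊗ₜ[k] y) - (Bar ρ l).P (w ⊗ₜ y)) ⊗ₜ (z - Z.P z)
    rw [hb, hP, hBP]
    simp only [TensorProduct.tmul_add, TensorProduct.tmul_sub, map_add, map_sub, ha,
      TensorProduct.add_tmul, TensorProduct.sub_tmul]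
    abel

theorem assocBar_tmul (ρ : RA R X) (l : LA R Y) (w : Wd k X.V R.V) (y : Y.V) (z : Z.V) :
    (assocBar ρ l Z).f (w ⊗ₜ (y ⊗ₜ z)) = (w ⊗ₜ y) ⊗ₜ z := rfl

theorem assocBar_lX (ρ : RA R X) (l : LA R Y) (a : LA S X) (h : LR a ρ) :
    (barLA ρ (l.tensL Z) a h).IsHom ((barLA ρ l a h).tensL Z) (assocBar ρ l Z) := fun s v => by
  exact tens_ext3' (f := (assocBar ρ l Z).f ∘ₗ (barLA ρ (l.tensL Z) a h).act s)
    (g := ((barLA ρ l a h).tensL Z).act s ∘ₗ (assocBar ρ l Z).f) (fun w y z => rfl) v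

theorem assocBar_rZ (ρ : RA R X) (l : LA R Y) (r : RA S Z) :
    (barRA ρ (l.tensL Z) (r.tensR Y) (LR.tensLR l r)).IsHom (r.tensR (Bar ρ l))
      (assocBar ρ l Z) := fun v s => by
  exact tens_ext3' (f := (assocBar ρ l Z).f ∘ₗ
      (barRA ρ (l.tensL Z) (r.tensR Y) (LR.tensLR l r)).act.flip s)
    (g := (r.tensR (Bar ρ l)).act.flip s ∘ₗ (assocBar ρ l Z).f) (fun w y z => rfl) v

theorem assocBar_rY (ρ : RA R X) (l : LA R Y) (r : RA S Y) (h : LR l r) :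
    (barRA ρ (l.tensL Z) (r.tensL Z) (h.tensLL Z)).IsHom ((barRA ρ l r h).tensL Z)
      (assocBar ρ l Z) := fun v s => by
  exact tens_ext3' (f := (assocBar ρ l Z).f ∘ₗ
      (barRA ρ (l.tensL Z) (r.tensL Z) (h.tensLL Z)).act.flip s)
    (g := ((barRA ρ l r h).tensL Z).act.flip s ∘ₗ (assocBar ρ l Z).f) (fun w y z => by
      change (assocBar ρ l Z).f (w ⊗ₜ (r.act y (S.P s) ⊗ₜ z + r.act y (s - S.P s) ⊗ₜ Z.E z)) = _
      rw [TensorProduct.tmul_add, map_add]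
      rfl) v

theorem assocBar_lZ (ρ : RA R X) (l : LA R Y) (a : LA S Z) :
    (barLN ρ (l.tensL Z) (a.tensR Y) (LL.tensLR l a)).IsHom (a.tensR (Bar ρ l))
      (assocBar ρ l Z) := fun s v => by
  refine tens_ext3' (f := (assocBar ρ l Z).f ∘ₗ
      (barLN ρ (l.tensL Z) (a.tensR Y) (LL.tensLR l a)).act s)
    (g := (a.tensR (Bar ρ l)).act s ∘ₗ (assocBar ρ l Z).f) (fun w y z => ?_) v
  have h1 : (Bar ρ l).E (w ⊗ₜ y) = EW X R.toSD w ⊗ₜ[k] Y.E y := by rw [Bar_E]; rfl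
  have e1 : ∀ (s : S.V), (a.tensR Y).act s (y ⊗ₜ z) = y ⊗ₜ[k] a.act (S.P s) z +
    Y.E y ⊗ₜ[k] a.act (s - S.P s) z := fun _ => rfl
  change (assocBar ρ l Z).f (w ⊗ₜ (a.tensR Y).act (S.P s) (y ⊗ₜ z) +
    EW X R.toSD w ⊗ₜ (a.tensR Y).act (s - S.P s) (y ⊗ₜ z)) =
    (w ⊗ₜ[k] y) ⊗ₜ[k] a.act (S.P s) z + (Bar ρ l).E (w ⊗ₜ y) ⊗ₜ[k] a.act (s - S.P s) z
  rw [e1, e1, h1, S.PP, map_sub S.P, S.PP]
  simp only [sub_self, sub_zero, map_zero, LinearMap.zero_apply, TensorProduct.tmul_zero,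
    add_zero, zero_add, map_add]
  rfl

end assoc

/-! ### the swap with the Koszul sign -/

section swap

variable {X Y : SD k}

theorem SD.P_odd (X : SD k) (v : X.V) : X.P (v - X.P v) = 0 := by
  rw [map_sub, X.PP, sub_self]
theorem SD.D_odd' (X : SD k) (v : X.V) : X.D (v - X.P v) = X.P (X.D v) := by
  rw [map_sub, X.DP]; abel

/-- `x ⊗ y ↦ ± y ⊗ x` -/
noncomputable def swS (X Y : SD k) : SD.Hom (X.tens Y) (Y.tens X) where
  f := TensorProduct.lift (LinearMap.mk₂ k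
    (fun (x : X.V) (y : Y.V) => Y.P y ⊗ₜ[k] x + (y - Y.P y) ⊗ₜ[k] X.E x)
    (fun x x' y => by simp only [map_add, TensorProduct.tmul_add]; abel)
    (fun c x y => by simp only [map_smul, TensorProduct.tmul_smul, smul_add])
    (fun x y y' => by
      simp only [map_add, TensorProduct.add_tmul, TensorProduct.sub_tmul]; abel)
    (fun c x y => by
      simp only [map_smul, TensorProduct.smul_tmul', smul_add, ← smul_sub]))
  D := fun v => by
    refine tens_ext (f := TensorProduct.lift (LinearMap.mk₂ k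
        (fun (x : X.V) (y : Y.V) => Y.P y ⊗ₜ[k] x + (y - Y.P y) ⊗ₜ[k] X.E x) _ _ _ _) ∘ₗ
          SD.tD X Y)
      (g := SD.tD Y X ∘ₗ TensorProduct.lift (LinearMap.mk₂ k
        (fun (x : X.V) (y : Y.V) => Y.P y ⊗ₜ[k] x + (y - Y.P y) ⊗ₜ[k] X.E x) _ _ _ _))
      (fun x y => ?_) v
    rw [LinearMap.comp_apply, LinearMap.comp_apply, SD.tD_tmul, map_add,
      TensorProduct.lift.tmul, TensorProduct.lift.tmul, TensorProduct.lift.tmul]
    simp only [LinearMap.mk₂_apply]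
    rw [map_add, SD.tD_tmul, SD.tD_tmul, Y.D_odd', Y.DP, Y.EP, Y.E_odd, X.DE, X.EE,
      TensorProduct.neg_tmul, TensorProduct.tmul_neg, neg_neg]
    abel
  P := fun v => by
    refine tens_ext (f := TensorProduct.lift (LinearMap.mk₂ k
        (fun (x : X.V) (y : Y.V) => Y.P y ⊗ₜ[k] x + (y - Y.P y) ⊗ₜ[k] X.E x) _ _ _ _) ∘ₗ
          SD.tP X Y)
      (g := SD.tP Y X ∘ₗ TensorProduct.lift (LinearMap.mk₂ k
        (fun (x : X.V) (y : Y.V) => Y.P y ⊗ₜ[k] x + (y - Y.P y) ⊗ₜ[k] X.E x) _ _ _ _))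
      (fun x y => ?_) v
    rw [LinearMap.comp_apply, LinearMap.comp_apply, SD.tP_tmul, map_add,
      TensorProduct.lift.tmul, TensorProduct.lift.tmul, TensorProduct.lift.tmul]
    simp only [LinearMap.mk₂_apply]
    rw [map_add, SD.tP_tmul, SD.tP_tmul, X.E_sub_P_E, X.PE, Y.PP, Y.P_odd, X.E_odd]
    simp only [sub_self, sub_zero, TensorProduct.zero_tmul, add_zero, zero_add]

theorem swS_tmul (X Y : SD k) (x : X.V) (y : Y.V) :
    (swS X Y).f (x ⊗ₜ y) = Y.P y ⊗ₜ x + (y - Y.P y) ⊗ₜ X.E x := rfl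

end swap

/-! ### `homK` is injective -/

section inj

variable {V Z Y : SD k}

/-- evaluation of a functional on the second factor -/
theorem homK_coord (V Z Y : SD k) (c : Y.V →ₗ[k] k) (t : (V.V →ₗ[k] Z.V) ⊗[k] Y.V) (v : V.V) :
    (TensorProduct.rid k (V.V →ₗ[k] Z.V) (TensorProduct.map LinearMap.id c t)) (V.P v) =
      TensorProduct.rid k Z.V (TensorProduct.map LinearMap.id c ((homK V Z Y).f t (V.P v))) := by
  refine tens_ext (f := (LinearMap.applyₗ (V.P v)) ∘ₗ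
      (TensorProduct.rid k (V.V →ₗ[k] Z.V)).toLinearMap ∘ₗ TensorProduct.map LinearMap.id c)
    (g := (TensorProduct.rid k Z.V).toLinearMap ∘ₗ TensorProduct.map LinearMap.id c ∘ₗ
      (LinearMap.applyₗ (V.P v)) ∘ₗ (homK V Z Y).f) (fun f y => ?_) t
  have e := homK_tmul V Z Y f y (V.P v)
  rw [V.PP, sub_self, map_zero, TensorProduct.zero_tmul, add_zero] at e
  simp only [LinearMap.comp_apply, TensorProduct.map_tmul, LinearMap.applyₗ_apply_apply,
    LinearEquiv.coe_coe, TensorProduct.rid_tmul, LinearMap.id_apply, LinearMap.smul_apply]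
  rw [e, TensorProduct.map_tmul, TensorProduct.rid_tmul]; rfl

theorem homK_coord' (V Z Y : SD k) (c : Y.V →ₗ[k] k) (t : (V.V →ₗ[k] Z.V) ⊗[k] Y.V) (v : V.V) :
    (TensorProduct.rid k (V.V →ₗ[k] Z.V) (TensorProduct.map LinearMap.id c t)) (v - V.P v) =
      TensorProduct.rid k Z.V (TensorProduct.map LinearMap.id (c ∘ₗ Y.E)
        ((homK V Z Y).f t (v - V.P v))) := by
  refine tens_ext (f := (LinearMap.applyₗ (v - V.P v)) ∘ₗ
      (TensorProduct.rid k (V.V →ₗ[k] Z.V)).toLinearMap ∘ₗ TensorProduct.map LinearMap.id c)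
    (g := (TensorProduct.rid k Z.V).toLinearMap ∘ₗ
      TensorProduct.map LinearMap.id (c ∘ₗ Y.E) ∘ₗ
      (LinearMap.applyₗ (v - V.P v)) ∘ₗ (homK V Z Y).f) (fun f y => ?_) t
  have e := homK_tmul V Z Y f y (v - V.P v)
  rw [V.P_odd, sub_zero, map_zero, TensorProduct.zero_tmul, zero_add] at e
  simp only [LinearMap.comp_apply, TensorProduct.map_tmul, LinearMap.applyₗ_apply_apply,
    LinearEquiv.coe_coe, TensorProduct.rid_tmul, LinearMap.id_apply, LinearMap.smul_apply]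
  rw [e, TensorProduct.map_tmul, TensorProduct.rid_tmul, LinearMap.comp_apply, Y.EE]; rfl

theorem tens_coord_zero {M Y : Type} [AddCommGroup M] [Module k M] [AddCommGroup Y] [Module k Y]
    (t : M ⊗[k] Y) (h : ∀ c : Y →ₗ[k] k, TensorProduct.map LinearMap.id c t = 0) : t = 0 := by
  classical
  let b := Module.Basis.ofVectorSpace k Y
  have h1 : TensorProduct.equivFinsuppOfBasisRight b t = 0 := by
    ext i
    have h2 := h (b.coord i)
    have h3 : ∀ t : M ⊗[k] Y, TensorProduct.equivFinsuppOfBasisRight b t i =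
        TensorProduct.rid k M (TensorProduct.map LinearMap.id (b.coord i) t) := by
      intro t
      induction t using TensorProduct.induction_on with
      | zero => simp
      | add x y hx hy => simp only [map_add, Finsupp.add_apply, hx, hy]
      | tmul x y => simp
    rw [h3, h2, map_zero]; rfl
  exact (LinearEquiv.map_eq_zero_iff _).1 h1

theorem homK_inj (V Z Y : SD k) : Function.Injective (homK V Z Y).f := by
  rw [← LinearMap.ker_eq_bot, LinearMap.ker_eq_bot']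
  intro t ht
  refine tens_coord_zero t (fun c => ?_)
  have h0 : ∀ v, (homK V Z Y).f t v = 0 := fun v => by rw [ht]; rfl
  have h1 : TensorProduct.rid k (V.V →ₗ[k] Z.V) (TensorProduct.map LinearMap.id c t) = 0 := by
    refine LinearMap.ext (fun v => ?_)
    have h2 := homK_coord V Z Y c t v
    have h3 := homK_coord' V Z Y c t v
    rw [h0, map_zero, map_zero] at h2
    rw [h0, map_zero, map_zero] at h3
    have h4 : v = V.P v + (v - V.P v) := by abel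
    rw [h4, map_add, h2, h3, add_zero]; rfl
  exact (LinearEquiv.map_eq_zero_iff _).1 h1

end inj

end NC
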