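import Pool.Agent.H16.NC.Pai

/-!
# The cap product with a product (base file, helper16)
-/

open scoped TensorProduct

namespace NC

variable {k : Type} [Field k] {A : DGA k}

/-! ### the cap product -/

/-- `x ⊗ φ ↦ (a ↦ x ⊗ φ a)` -/
noncomputable abbrev hX (A : DGA k) :
    SD.Hom (A.toSD.tens (SD.hom A.toSD A.toSD)) (SD.hom A.toSD (QQ A)) :=
  homX A.toSD A.toSD A.toSD

theorem hX_isHom (A : DGA k) : (triT A.diag (E1_E2 A.diag).symm).IsHom (tKF A) (hX A) :=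
  ⟨⟨homX_a A.toSD A.toSD A.diag.l, homX_b A.toSD A.toSD A.diag.r⟩,
    ⟨homX_f A.toSD A.toSD A.diag.r, homX_d A.toSD A.toSD A.diag.r⟩,
    ⟨homX_c A.toSD A.toSD A.diag.l, homX_e A.toSD A.toSD A.diag.l⟩⟩

section PaBaux

variable {R S T : DGA k} {N Y Y' : SD k}

private theorem PaB_tL (b : Bi R S N) (g : SD.Hom Y Y') :
    (b.tensL Y).IsHom (b.tensL Y') ((SD.Hom.id N).tens g) := by
  constructor
  · intro s v
    refine tens_ext (f := ((SD.Hom.id N).tens g).f ∘ₗ (b.l.tensL Y).act s)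
      (g := (b.l.tensL Y').act s ∘ₗ ((SD.Hom.id N).tens g).f) (fun x y => ?_) v
    rfl
  · intro v s
    refine tens_ext (f := ((SD.Hom.id N).tens g).f ∘ₗ (b.r.tensL Y).act.flip s)
      (g := (b.r.tensL Y').act.flip s ∘ₗ ((SD.Hom.id N).tens g).f) (fun x y => ?_) v
    have e1 : ∀ (Y : SD k) (y : Y.V), (b.r.tensL Y).act (x ⊗ₜ y) s =
      b.r.act x (S.P s) ⊗ₜ[k] y + b.r.act x (s - S.P s) ⊗ₜ[k] Y.E y := fun _ _ => rfl
    have e2 : ∀ (x : N.V) (y : Y.V), ((SD.Hom.id N).tens g).f (x ⊗ₜ y) = x ⊗ₜ g.f y :=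
      fun _ _ => rfl
    change ((SD.Hom.id N).tens g).f ((b.r.tensL Y).act (x ⊗ₜ y) s) =
      (b.r.tensL Y').act (((SD.Hom.id N).tens g).f (x ⊗ₜ y)) s
    rw [e1, map_add, e2, e2, e2, e1, g.E]

private theorem PaB_tR {c : Bi R S Y} {c' : Bi R S Y'} (g : SD.Hom Y Y') (hg : c.IsHom c' g) :
    (c.tensR N).IsHom (c'.tensR N) ((SD.Hom.id N).tens g) := by
  have hl : ∀ a n, g.f (c.l.act a n) = c'.l.act a (g.f n) := hg.l
  have hr : ∀ n a, g.f (c.r.act n a) = c'.r.act (g.f n) a := hg.r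
  have e2 : ∀ (x : N.V) (y : Y.V), ((SD.Hom.id N).tens g).f (x ⊗ₜ y) = x ⊗ₜ g.f y :=
    fun _ _ => rfl
  constructor
  · intro s v
    refine tens_ext (f := ((SD.Hom.id N).tens g).f ∘ₗ (c.l.tensR N).act s)
      (g := (c'.l.tensR N).act s ∘ₗ ((SD.Hom.id N).tens g).f) (fun x y => ?_) v
    have e1 : (c.l.tensR N).act s (x ⊗ₜ y) =
      x ⊗ₜ[k] c.l.act (R.P s) y + N.E x ⊗ₜ[k] c.l.act (s - R.P s) y := rfl
    have e1' : ∀ y, (c'.l.tensR N).act s (x ⊗ₜ y) =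
      x ⊗ₜ[k] c'.l.act (R.P s) y + N.E x ⊗ₜ[k] c'.l.act (s - R.P s) y := fun _ => rfl
    change ((SD.Hom.id N).tens g).f ((c.l.tensR N).act s (x ⊗ₜ y)) =
      (c'.l.tensR N).act s (((SD.Hom.id N).tens g).f (x ⊗ₜ y))
    rw [e1, map_add, e2, e2, e2, e1', hl, hl]
  · intro v s
    refine tens_ext (f := ((SD.Hom.id N).tens g).f ∘ₗ (c.r.tensR N).act.flip s)
      (g := (c'.r.tensR N).act.flip s ∘ₗ ((SD.Hom.id N).tens g).f) (fun x y => ?_) v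
    change x ⊗ₜ[k] g.f (c.r.act y s) = x ⊗ₜ[k] c'.r.act (g.f y) s
    rw [hr]

end PaBaux

private theorem PaB_jF (A : DGA k) (n : (QQ A).V) :
    (hX A).f (((SD.Hom.id A.toSD).tens (rxA A)).f n) = (jF A).f n := by
  refine tens_ext (f := (hX A).f ∘ₗ ((SD.Hom.id A.toSD).tens (rxA A)).f)
    (g := (jF A).f) (fun a c => ?_) n
  refine LinearMap.ext (fun b => ?_)
  have e1 : (jF A).f (a ⊗ₜ c) b = (oL A).act (A.P b) (a ⊗ₜ c) +
    (oL A).act (b - A.P b) (A.E a ⊗ₜ A.E c) := by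
    rw [← SD.tens_E]; rfl
  have e2 : ∀ s (x y : A.V), (oL A).act s (x ⊗ₜ y) = x ⊗ₜ[k] (A.P s * y) +
    A.E x ⊗ₜ[k] ((s - A.P s) * y) := fun _ _ _ => rfl
  change a ⊗ₜ[k] (A.P b * c + (b - A.P b) * A.E c) = (jF A).f (a ⊗ₜ c) b
  rw [e1, e2, e2, map_sub, A.PP, sub_self, sub_zero, A.EE, zero_mul, zero_mul,
    TensorProduct.tmul_zero, add_zero, zero_add, TensorProduct.tmul_add]

theorem jF_cen (A : DGA k) :
    Central (tKF A).d (hc2 (Q1_Q2 A) (tKF A).h₁₂ (jF A) (jF_h1 A) (jF_h2 A)) :=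
  central_hc _ (hcN_isHom (Q1_Q2 A) (tKF A).h₁₂ (jF_h1 A) (jF_h2 A))
    (central_hc (tKF A).h₁₃ (jF_h1 A) (jF_central A))

/-- the cap product -/
noncomputable def CWK (A : DGA k) : SD.Hom ((HC A.diag).tens (HC2 (bQ1 A) (bQ2 A) (Q1_Q2 A)))
    (HC3 (tKF A)) :=
  CW (tKF A).d (hc2 (Q1_Q2 A) (tKF A).h₁₂ (jF A) (jF_h1 A) (jF_h2 A)) (jF_cen A)

/-- the cap product with a product -/
theorem CWK_mg (w x y : (HC A.diag).V) :
    (CWK A).f (w ⊗ₜ (mgG A.diag A.diag).f (x ⊗ₜ y)) =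
      (hc3 (hX_isHom A)).f ((MGG A.diag (E1_E2 A.diag).symm).f
        (x ⊗ₜ (CWp A).f (PW A.toSD A.toSD w ⊗ₜ y))) +
      (hc3 (hX_isHom A)).f ((MGG A.diag (E1_E2 A.diag).symm).f
        ((HC A.diag).E x ⊗ₜ (CWp A).f ((w - PW A.toSD A.toSD w) ⊗ₜ y))) := by
  have hcen : Central ((E2 A.diag).hc (E1 A.diag) (E1_E2 A.diag).symm)
      (hcN A.diag (E2 A.diag) (rxA A) (rxA_E2 A)) :=
    central_hc (E1_E2 A.diag).symm (rxA_E2 A) (rxA_cen A)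
  have hφ : (((E2 A.diag).hc (E1 A.diag) (E1_E2 A.diag).symm).tensR (HC A.diag)).IsHom
      (tKF A).d ((hc2 (triT A.diag (E1_E2 A.diag).symm).h₁₂ (tKF A).h₁₂ (hX A)
        (hX_isHom A).h1 (hX_isHom A).h2).comp (mgG A.diag (E2 A.diag))) :=
    (mgG_isHom A.diag (E1_E2 A.diag).symm).comp (hc2_isHom (hX_isHom A))
  have hn := CW_nat (central_tensR hcen (HC A.diag)) (jF_cen A)
    ((hc2 (triT A.diag (E1_E2 A.diag).symm).h₁₂ (tKF A).h₁₂ (hX A)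
        (hX_isHom A).h1 (hX_isHom A).h2).comp (mgG A.diag (E2 A.diag))) hφ
    (mgG A.diag A.diag) (fun c => ?_) w (x ⊗ₜ y)
  · rw [CW_X hcen, map_add] at hn
    refine hn.symm.trans ?_
    have key : ∀ v : (HC ((E2 A.diag).hc (E1 A.diag) (E1_E2 A.diag).symm)).V,
        ∀ x : (HC A.diag).V,
        (hcN _ (tKF A).d _ hφ).f ((crR (HC A.diag)
          ((E2 A.diag).hc (E1 A.diag) (E1_E2 A.diag).symm)).f (x ⊗ₜ v)) =
        (hc3 (hX_isHom A)).f ((MGG A.diag (E1_E2 A.diag).symm).f (x ⊗ₜ v)) := by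
      intro v x
      change Wd.mh A.V _ _ = Wd.mh A.V _ (Wd.mh A.V _ _)
      rw [Wd.mh_comp]
      rfl
    exact congrArg₂ (· + ·) (key _ _) (key _ _)
  · refine tens_ext (f := ((hc2 (triT A.diag (E1_E2 A.diag).symm).h₁₂ (tKF A).h₁₂ (hX A)
        (hX_isHom A).h1 (hX_isHom A).h2).comp (mgG A.diag (E2 A.diag))).f ∘ₗ
        ((SD.Hom.id (HC A.diag)).tens (hcN A.diag (E2 A.diag) (rxA A) (rxA_E2 A))).f)
      (g := (hc2 (Q1_Q2 A) (tKF A).h₁₂ (jF A) (jF_h1 A) (jF_h2 A)).f ∘ₗ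
        (mgG A.diag A.diag).f) (fun x y => ?_) c
    have h1 := mgG_nat (SD.Hom.id A.toSD) (Bi.isHom_id A.diag) (rxA A) (rxA_E2 A)
      (PaB_tL A.diag (rxA A)) (PaB_tR (rxA A) (rxA_E2 A)) x y
    have e : (hcN A.diag A.diag (SD.Hom.id A.toSD) (Bi.isHom_id A.diag)).f x = x := Wd.mh_id x
    rw [e] at h1
    change (hc2 (triT A.diag (E1_E2 A.diag).symm).h₁₂ (tKF A).h₁₂ (hX A)
        (hX_isHom A).h1 (hX_isHom A).h2).f ((mgG A.diag (E2 A.diag)).f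
          (x ⊗ₜ (hcN A.diag (E2 A.diag) (rxA A) (rxA_E2 A)).f y)) =
      (hc2 (Q1_Q2 A) (tKF A).h₁₂ (jF A) (jF_h1 A) (jF_h2 A)).f ((mgG A.diag A.diag).f (x ⊗ₜ y))
    rw [← h1]
    exact hc2_comp (comm_LR A.diag A.diag) (comm_LR A.diag (E2 A.diag)) (tKF A).h₁₂
      ((SD.Hom.id A.toSD).tens (rxA A)) (hX A) (jF A) (PaB_tL A.diag (rxA A))
      (PaB_tR (rxA A) (rxA_E2 A)) (hX_isHom A).h1 (hX_isHom A).h2 (jF_h1 A) (jF_h2 A)
      (PaB_jF A) _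

end NC
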