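import Pool.Agent.H16.NC.FPa
import Pool.Agent.H16.NC.PaB
import Pool.Agent.H94.NC.TRf
import Pool.Agent.H36.NX.RCe

/-!
# The data `F'` (base file, helper16)

`NP M = Hom_r(M, A) ⊗ A`, `hom(A, A) ⊗ A`, the contraction `contrP` to `Bar(M, A, Hom_r(M, A))`
and the rotation `nuP`, and their comparison with the data `F`.
-/

open scoped TensorProduct

namespace NC

variable {k : Type} [Field k] {A : DGA k}

/-! ### the space `NP` -/

/-- `Hom_r(M, A) ⊗ A` -/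
noncomputable abbrev NP (M : BMod A A) : SD k := (HomR M.b.r A.diag.r).tens A.toSD

/-- structure for the rotation -/
noncomputable def bNP (M : BMod A A) : Bi A A (NP M) :=
  ⟨(bMst M).l.tensL A.toSD, A.diag.r.tensR (HomR M.b.r A.diag.r),
    LR.tensLR (bMst M).l A.diag.r⟩

/-- structure of the third algebra -/
noncomputable def dNP (M : BMod A A) : Bi A A (NP M) :=
  ⟨A.diag.l.tensR (HomR M.b.r A.diag.r), (bMst M).r.tensL A.toSD,
    LR.tensRL A.diag.l (bMst M).r⟩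

theorem NP_comm (M : BMod A A) : Comm (bNP M) (dNP M) :=
  ⟨LL.tensLR (bMst M).l A.diag.l, LR.tensLL (bMst M).lr A.toSD,
    LR.tensRR A.diag.lr (HomR M.b.r A.diag.r), RR.tensRL (bMst M).r A.diag.r⟩

/-- `Hom_r(M, A) ⊗ A → Hom_r(M, A ⊗ A)` -/
noncomputable abbrev cN (M : BMod A A) : SD.Hom (NP M) (NF M.b) :=
  homTens M.b.r A.diag.r A.toSD

theorem cN_apply (M : BMod A A) (φ : (HomR M.b.r A.diag.r).V) (a : A.V) (m : M.N.V) :
    ((cN M).f (φ ⊗ₜ a)).1 m = φ.1 (M.N.P m) ⊗ₜ a + φ.1 (m - M.N.P m) ⊗ₜ A.E a := rfl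

theorem cN_b (M : BMod A A) : (bNP M).IsHom (bNF M.b) (cN M) := by
  constructor
  · intro s v
    refine tens_ext (f := (cN M).f ∘ₗ (bNP M).l.act s)
      (g := (bNF M.b).l.act s ∘ₗ (cN M).f) (fun φ a => ?_) v
    refine Subtype.ext (LinearMap.ext (fun m => ?_))
    change (s * φ.1 (M.N.P m)) ⊗ₜ[k] a + (s * φ.1 (m - M.N.P m)) ⊗ₜ[k] A.E a =
      (iL A).act s (φ.1 (M.N.P m) ⊗ₜ a + φ.1 (m - M.N.P m) ⊗ₜ A.E a)
    rw [map_add]; rfl
  · intro v s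
    refine tens_ext (f := (cN M).f ∘ₗ (bNP M).r.act.flip s)
      (g := (bNF M.b).r.act.flip s ∘ₗ (cN M).f) (fun φ a => ?_) v
    refine Subtype.ext (LinearMap.ext (fun m => ?_))
    have e1 : ∀ b a s, (iR A).act (b ⊗ₜ a) s = b ⊗ₜ[k] (a * s) := fun _ _ _ => rfl
    change φ.1 (M.N.P m) ⊗ₜ[k] (a * s) + φ.1 (m - M.N.P m) ⊗ₜ[k] A.E (a * s) =
      (iR A).act (((cN M).f (φ ⊗ₜ a)).1 m) (A.P s) +
        (iR A).act (((cN M).f (φ ⊗ₜ a)).1 (M.N.E m)) (s - A.P s)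
    rw [cN_apply, cN_apply, M.N.E_sub_P_E, M.N.PE, map_add, map_add, LinearMap.add_apply,
      LinearMap.add_apply, e1, e1, e1, e1, A.E_mul, A.E_apply s, mul_sub, mul_sub, mul_add,
      mul_sub]
    simp only [map_neg, TensorProduct.neg_tmul, TensorProduct.tmul_add, TensorProduct.tmul_sub]
    abel

theorem cN_d (M : BMod A A) : (dNP M).IsHom (dNF M.b) (cN M) := by
  constructor
  · intro s v
    refine tens_ext (f := (cN M).f ∘ₗ (dNP M).l.act s)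
      (g := (dNF M.b).l.act s ∘ₗ (cN M).f) (fun φ a => ?_) v
    refine Subtype.ext (LinearMap.ext (fun m => ?_))
    have e1 : (dNP M).l.act s (φ ⊗ₜ a) = φ ⊗ₜ[k] (A.P s * a) +
      (HomR M.b.r A.diag.r).E φ ⊗ₜ[k] ((s - A.P s) * a) := rfl
    have e2 : ∀ b a : A.V, (oL A).act s (b ⊗ₜ a) = b ⊗ₜ[k] (A.P s * a) +
      A.E b ⊗ₜ[k] ((s - A.P s) * a) := fun _ _ => rfl
    have e3 : ∀ m, ((HomR M.b.r A.diag.r).E φ).1 m = A.E (φ.1 (M.N.E m)) :=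
      fun m => SD.hE_apply M.N A.toSD φ.1 m
    rw [LinearMap.comp_apply, e1, map_add]
    change ((cN M).f (φ ⊗ₜ[k] (A.P s * a))).1 m +
      ((cN M).f ((HomR M.b.r A.diag.r).E φ ⊗ₜ[k] ((s - A.P s) * a))).1 m =
      (oL A).act s (((cN M).f (φ ⊗ₜ a)).1 m)
    rw [cN_apply, cN_apply, cN_apply, map_add, e2, e2, e3, e3, M.N.EP, M.N.E_odd, A.E_mul,
      A.E_mul, A.EP, A.E_odd]
    simp only [map_neg, TensorProduct.neg_tmul, TensorProduct.tmul_neg, neg_mul, neg_neg]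
    abel
  · intro v s
    refine tens_ext (f := (cN M).f ∘ₗ (dNP M).r.act.flip s)
      (g := (dNF M.b).r.act.flip s ∘ₗ (cN M).f) (fun φ a => ?_) v
    refine Subtype.ext (LinearMap.ext (fun m => ?_))
    have e1 : (dNP M).r.act (φ ⊗ₜ a) s = (bMst M).r.act φ (A.P s) ⊗ₜ[k] a +
      (bMst M).r.act φ (s - A.P s) ⊗ₜ[k] A.E a := rfl
    change ((cN M).f ((dNP M).r.act (φ ⊗ₜ a) s)).1 m = ((cN M).f (φ ⊗ₜ a)).1 (M.b.l.act s m)
    rw [e1, map_add]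
    change ((cN M).f ((bMst M).r.act φ (A.P s) ⊗ₜ[k] a)).1 m +
      ((cN M).f ((bMst M).r.act φ (s - A.P s) ⊗ₜ[k] A.E a)).1 m = _
    rw [cN_apply, cN_apply, cN_apply]
    change φ.1 (M.b.l.act (A.P s) (M.N.P m)) ⊗ₜ[k] a +
      φ.1 (M.b.l.act (A.P s) (m - M.N.P m)) ⊗ₜ[k] A.E a +
      (φ.1 (M.b.l.act (s - A.P s) (M.N.P m)) ⊗ₜ[k] A.E a +
      φ.1 (M.b.l.act (s - A.P s) (m - M.N.P m)) ⊗ₜ[k] A.E (A.E a)) = _
    rw [M.b.l.P_act, A.EE]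
    simp only [map_add, map_sub, TensorProduct.add_tmul, TensorProduct.sub_tmul,
      LinearMap.sub_apply]
    abel

theorem cN_qi (M : BMod A A) (hR : RPf M.b.r) : (cN M).QI :=
  homTens_qi hR A.diag.r A.toSD (fun z => mul_one z)

/-! ### the space `hom(A, A) ⊗ A` -/

/-- the three structures on `hom(A, A) ⊗ A` -/
noncomputable def tKP (A : DGA k) : Tri A A A ((SD.hom A.toSD A.toSD).tens A.toSD) where
  b₁ := ⟨(A.diag.l.post A.toSD).tensL A.toSD, (A.diag.r.post A.toSD).tensL A.toSD,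
    LR.tensLL (LR.postpost A.diag.lr A.toSD) A.toSD⟩
  b₂ := ⟨(A.diag.r.pre A.toSD).tensL A.toSD, A.diag.r.tensR (SD.hom A.toSD A.toSD),
    LR.tensLR (A.diag.r.pre A.toSD) A.diag.r⟩
  b₃ := ⟨A.diag.l.tensR (SD.hom A.toSD A.toSD), (LA.pre A.toSD A.diag.l).tensL A.toSD,
    LR.tensRL A.diag.l (LA.pre A.toSD A.diag.l)⟩
  h₁₂ := ⟨LL.tensLL (LL.postpre A.diag.l A.diag.r) A.toSD,
    LR.tensLR (A.diag.l.post A.toSD) A.diag.r,
    LR.tensLL (LR.prepost A.diag.r A.diag.r) A.toSD,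
    (RR.tensRL (A.diag.r.post A.toSD) A.diag.r).symm⟩
  h₁₃ := ⟨LL.tensLR (A.diag.l.post A.toSD) A.diag.l,
    LR.tensLL (LR.postpre A.diag.l A.diag.l) A.toSD,
    LR.tensRL A.diag.l (A.diag.r.post A.toSD),
    RR.tensLL (RR.prepost A.diag.l A.diag.r) A.toSD⟩
  h₂₃ := ⟨LL.tensLR (A.diag.r.pre A.toSD) A.diag.l,
    LR.tensLL (LR.prepre A.diag.lr A.toSD) A.toSD,
    LR.tensRR A.diag.lr (SD.hom A.toSD A.toSD),
    RR.tensRL (LA.pre A.toSD A.diag.l) A.diag.r⟩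

/-- `hom(A, A) ⊗ A → hom(A, A ⊗ A)` -/
noncomputable abbrev cK (A : DGA k) :
    SD.Hom ((SD.hom A.toSD A.toSD).tens A.toSD) (SD.hom A.toSD (QQ A)) :=
  homK A.toSD A.toSD A.toSD

theorem cK_isHom (A : DGA k) : (tKP A).IsHom (tKF A) (cK A) where
  h1 := ⟨homK_a A.toSD A.diag.l A.toSD, homK_b A.toSD A.diag.r A.toSD⟩
  h2 := ⟨homK_d A.diag.r A.toSD A.toSD, homK_f A.toSD A.toSD A.diag.r⟩
  h3 := ⟨homK_e A.toSD A.toSD A.diag.l, homK_c A.diag.l A.toSD A.toSD⟩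

theorem cK_inj (A : DGA k) : Function.Injective (cK A).f := homK_inj A.toSD A.toSD A.toSD

theorem cK_apply (A : DGA k) (f : A.V →ₗ[k] A.V) (a a' : A.V) :
    (cK A).f (f ⊗ₜ a) a' = f (A.P a') ⊗ₜ a + f (a' - A.P a') ⊗ₜ A.E a := rfl

theorem cK_qi (hA : A.toSD.FinH) : (cK A).QI := homK_qi hA A.toSD A.toSD

/-! ### the rotation -/

/-- `φ ⊗ x ↦ φ ∘ rx x` -/
noncomputable def nu0 (M : BMod A A) :
    SD.Hom ((HomR M.b.r A.diag.r).tens M.N) (SD.hom A.toSD A.toSD) :=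
  (compH A.toSD M.N A.toSD).comp
    ((SD.subIncl (SD.hom M.N A.toSD) _ _ _).tens (rx M.b.l))

/-- `(φ ⊗ a) ⊗ x ↦ ± (φ ∘ rx x) ⊗ a` -/
noncomputable def nuP (M : BMod A A) :
    SD.Hom ((NP M).tens M.N) ((SD.hom A.toSD A.toSD).tens A.toSD) :=
  ((nu0 M).tens (SD.Hom.id A.toSD)).comp
    ((assocS' (HomR M.b.r A.diag.r) M.N A.toSD).comp
      (((SD.Hom.id (HomR M.b.r A.diag.r)).tens (swS A.toSD M.N)).comp
        (assocS (HomR M.b.r A.diag.r) A.toSD M.N)))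

theorem nu0_apply (M : BMod A A) (φ : (HomR M.b.r A.diag.r).V) (x : M.N.V) (a : A.V) :
    (nu0 M).f (φ ⊗ₜ x) a = φ.1 ((rx M.b.l).f x a) := rfl

theorem nuP_apply (M : BMod A A) (φ : (HomR M.b.r A.diag.r).V) (a : A.V) (x : M.N.V) :
    (nuP M).f ((φ ⊗ₜ a) ⊗ₜ x) = (nu0 M).f (φ ⊗ₜ M.N.P x) ⊗ₜ a +
      (nu0 M).f (φ ⊗ₜ (x - M.N.P x)) ⊗ₜ A.E a := by
  change ((nu0 M).tens (SD.Hom.id A.toSD)).f ((assocS' (HomR M.b.r A.diag.r) M.N A.toSD).f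
    (φ ⊗ₜ (M.N.P x ⊗ₜ a + (x - M.N.P x) ⊗ₜ A.E a))) = _
  rw [TensorProduct.tmul_add, map_add, map_add]
  rfl

theorem cK_nuP (M : BMod A A) (n : (NP M).V) (x : M.N.V) :
    (cK A).f ((nuP M).f (n ⊗ₜ x)) = (nuF M.b).f ((cN M).f n ⊗ₜ x) := by
  refine tens_ext (f := (cK A).f ∘ₗ (nuP M).f ∘ₗ (TensorProduct.mk k _ _).flip x)
    (g := (nuF M.b).f ∘ₗ (TensorProduct.mk k _ _).flip x ∘ₗ (cN M).f) (fun φ a => ?_) n
  change (cK A).f ((nuP M).f ((φ ⊗ₜ a) ⊗ₜ x)) = (nuF M.b).f ((cN M).f (φ ⊗ₜ a) ⊗ₜ x)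
  refine LinearMap.ext (fun a' => ?_)
  have h1 : ∀ x a, (rx M.b.l).f x a = M.b.l.act (A.P a) x + M.b.l.act (a - A.P a) (M.N.E x) :=
    fun _ _ => rfl
  rw [nuP_apply, map_add, nuF_apply, cN_apply]
  change (cK A).f ((nu0 M).f (φ ⊗ₜ M.N.P x) ⊗ₜ a) a' +
    (cK A).f ((nu0 M).f (φ ⊗ₜ (x - M.N.P x)) ⊗ₜ A.E a) a' = _
  rw [cK_apply, cK_apply, nu0_apply, nu0_apply, nu0_apply, nu0_apply, h1, h1, h1, h1, h1,
    M.N.EP, M.N.E_odd, A.PP, A.P_odd, A.EE, map_add M.N.P, M.b.l.P_act, M.b.l.P_act,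
    M.N.E_sub_P_E, M.N.PE, A.PP, A.P_odd, M.N.E_apply x]
  simp only [sub_self, sub_zero, map_zero, LinearMap.zero_apply, add_zero, zero_add, map_neg,
    map_add, map_sub, LinearMap.sub_apply, TensorProduct.add_tmul, TensorProduct.sub_tmul,
    TensorProduct.neg_tmul, TensorProduct.zero_tmul]
  abel

theorem nuD_P (M : BMod A A) : NuD M.b (bNP M) (tKP A).b₁ (tKP A).b₂ (nuP M) where
  h1 := fun r y x => cK_inj A (by
    have e := (cK_isHom A).h1.l r ((nuP M).f (y ⊗ₜ x))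
    rw [e, cK_nuP, cK_nuP, ← (nuD_F M.b).h1]
    exact congrArg (fun z => (nuF M.b).f (z ⊗ₜ x)) ((cN_b M).l r y))
  h2 := fun y x r => cK_inj A (by
    have e := (cK_isHom A).h1.r ((nuP M).f (y ⊗ₜ x)) r
    rw [e, cK_nuP, cK_nuP, ← (nuD_F M.b).h2])
  h3 := fun y x s => cK_inj A (by
    have e := (cK_isHom A).h2.r ((nuP M).f (y ⊗ₜ x)) (A.P s)
    have e' := (cK_isHom A).h2.r ((nuP M).f (y ⊗ₜ M.N.E x)) (s - A.P s)
    rw [map_add, e, e', cK_nuP, cK_nuP, cK_nuP, ← (nuD_F M.b).h3]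
    exact congrArg (fun z => (nuF M.b).f (z ⊗ₜ x)) ((cN_b M).r y s))
  h4 := fun y s x => cK_inj A (by
    have e := (cK_isHom A).h2.l (A.P s) ((nuP M).f (y ⊗ₜ x))
    have e' := (cK_isHom A).h2.l (s - A.P s) ((nuP M).f ((NP M).E y ⊗ₜ x))
    rw [map_add, e, e', cK_nuP, cK_nuP, cK_nuP, (cN M).E, ← (nuD_F M.b).h4])

theorem cK_nuP' (M : BMod A A) (v : ((NP M).tens M.N).V) :
    (cK A).f ((nuP M).f v) = (nuF M.b).f (((cN M).tens (SD.Hom.id M.N)).f v) :=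
  tens_ext (f := (cK A).f ∘ₗ (nuP M).f) (g := (nuF M.b).f ∘ₗ
    ((cN M).tens (SD.Hom.id M.N)).f) (fun n x => cK_nuP M n x) v

theorem nuP_isHom (M : BMod A A) : ((dNP M).tensL M.N).IsHom (tKP A).b₃ (nuP M) := by
  have h := Bi.tensL_map (cN_d M) (SD.Hom.id M.N)
  constructor
  · intro s v
    refine cK_inj A ?_
    have e := (cK_isHom A).h3.l s ((nuP M).f v)
    have e' := h.l s v
    rw [e, cK_nuP', cK_nuP', e']
    exact (nuF_isHom M.b).l s _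
  · intro v s
    refine cK_inj A ?_
    have e := (cK_isHom A).h3.r ((nuP M).f v) s
    have e' := h.r v s
    rw [e, cK_nuP', cK_nuP', e']
    exact (nuF_isHom M.b).r _ s

/-- the rotation -/
noncomputable abbrev rotP (M : BMod A A) :
    SD.Hom (GG M.b (bNP M)) (HC2 (tKP A).b₁ (tKP A).b₂ (tKP A).h₁₂) :=
  bG M.b (bNP M) (tKP A).b₁ (tKP A).b₂ (tKP A).h₁₂ (nuP M) (nuD_P M)

theorem rotP_isHom (M : BMod A A) :
    (dG M.b (dNP M) (NP_comm M)).IsHom (tKP A).d (rotP M) :=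
  bG_isHom M.b (bNP M) (tKP A).b₁ (tKP A).b₂ (tKP A).h₁₂ (nuP M) (nuD_P M) (dNP M) (NP_comm M)
    (tKP A).b₃ (tKP A).h₁₃ (tKP A).h₂₃ (nuP_isHom M)

/-! ### the contraction -/

/-- `w ⊗ (φ ⊗ a) ↦ ± (a w) ⊗ φ` -/
noncomputable def contrP0 (M : BMod A A) :
    SD.Hom (Bar M.b.r (bNP M).l) (Bar M.b.r (mstL M.b.r)) :=
  (cyAct (barLA M.b.r (mstL M.b.r) M.b.l M.b.lr)).comp
    (assocBar M.b.r (mstL M.b.r) A.toSD)

theorem contrP0_tmul (M : BMod A A) (w : Wd k M.N.V A.V) (φ : (HomR M.b.r A.diag.r).V)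
    (a : A.V) : (contrP0 M).f (w ⊗ₜ (φ ⊗ₜ a)) = hd A M.b.l (A.P a) w ⊗ₜ φ +
      hd A M.b.l (a - A.P a) (EW M.N A.toSD w) ⊗ₜ (HomR M.b.r A.diag.r).E φ := by
  change (cyAct (barLA M.b.r (mstL M.b.r) M.b.l M.b.lr)).f ((w ⊗ₜ φ) ⊗ₜ a) = _
  rw [cyAct_tmul, Bar_E]
  rfl

theorem contrP0_cyc (M : BMod A A) : Cyc (M.b.bar (bNP M)) (contrP0 M) :=
  Cyc.comp (b' := ⟨(barLA M.b.r (mstL M.b.r) M.b.l M.b.lr).tensL A.toSD,
      A.diag.r.tensR (Bar M.b.r (mstL M.b.r)), LR.tensLR _ _⟩)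
    ⟨assocBar_lX M.b.r (mstL M.b.r) M.b.l M.b.lr, assocBar_rZ M.b.r (mstL M.b.r) A.diag.r⟩
    (cyAct_cyc (barLA M.b.r (mstL M.b.r) M.b.l M.b.lr))

theorem contrP0_isHom (M : BMod A A) :
    (dBar M.b.r (dNP M) (NP_comm M)).IsHom (M.b.bar (bMst M)) (contrP0 M) := by
  have h := cyAct_isHom (M.b.bar (bMst M))
  have h' : (dBar M.b.r (dNP M) (NP_comm M)).IsHom
      (⟨A.diag.l.tensR (Bar M.b.r (mstL M.b.r)), (M.b.bar (bMst M)).r.tensL A.toSD,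
        LR.tensRL A.diag.l (M.b.bar (bMst M)).r⟩ : Bi A A _)
      (assocBar M.b.r (mstL M.b.r) A.toSD) :=
    ⟨assocBar_lZ M.b.r (mstL M.b.r) A.diag.l,
      assocBar_rY M.b.r (mstL M.b.r) (bMst M).r (bMst M).lr⟩
  exact h'.comp h

/-- the contraction -/
noncomputable def contrP (M : BMod A A) : SD.Hom (GG M.b (bNP M)) (Bar M.b.r (mstL M.b.r)) :=
  trc (M.b.bar (bNP M)) (contrP0 M) (contrP0_cyc M)

theorem contrP_isHom (M : BMod A A) :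
    (dG M.b (dNP M) (NP_comm M)).IsHom (M.b.bar (bMst M)) (contrP M) :=
  trc_isHom (dBar_comm M.b (dNP M) (NP_comm M)) (contrP0_cyc M) (contrP0_isHom M)

/-- the contraction of the data `F` -/
noncomputable abbrev contrF (M : BMod A A) : SD.Hom (GG M.b (bNF M.b)) (HomR M.b.r M.b.r) :=
  contrG M.b (bNF M.b) (muF M.b) (muD_F M.b)

/-- the comparison map -/
noncomputable abbrev gN (M : BMod A A) : SD.Hom (GG M.b (bNP M)) (GG M.b (bNF M.b)) :=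
  gMap (SD.Hom.id M.N) (Bi.isHom_id M.b) (cN M) (cN_b M)

theorem gN_isHom (M : BMod A A) :
    (dG M.b (dNP M) (NP_comm M)).IsHom (dG M.b (dNF M.b) (NF_comm M.b)) (gN M) :=
  gMap_isHom _ _ _ _ _ _ _ _ (cN_d M)

theorem gN_qi (M : BMod A A) (hR : RPf M.b.r) : (gN M).QI :=
  gMap_qi _ _ _ _ (SD.Hom.QI.id _) (cN_qi M hR)

theorem contrP_nil (M : BMod A A) (v : (Bar M.b.r (bNP M).l).V) :
    (contrP M).f (Wd.nil v) = (contrP0 M).f v := trc_nil _ _ _ _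

theorem contrP_snoc (M : BMod A A) (v : (GG M.b (bNP M)).V) (r : A.V) :
    (contrP M).f (Wd.snoc v r) = 0 := trc_snoc _ _ _ _ _

theorem compat0 (M : BMod A A) (w : Wd k M.N.V A.V) (φ : (HomR M.b.r A.diag.r).V) (a : A.V) :
    (contrR M.b.r M.b.r).f ((contrP0 M).f (w ⊗ₜ (φ ⊗ₜ a))) =
      augF (muF M.b).f (w ⊗ₜ (cN M).f (φ ⊗ₜ a)) := by
  have hs : ∀ (w : Wd k M.N.V A.V) (r : A.V) (φ : (HomR M.b.r A.diag.r).V),
    (contrR M.b.r M.b.r).f (Wd.snoc w r ⊗ₜ φ) = 0 := fun w r φ => augB_snoc _ _ _ _ w r φ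
  induction w using Wd.induction with
  | hadd a b ha hb => simp only [map_add, TensorProduct.add_tmul, ha, hb]
  | hnil x =>
    rw [contrP0_tmul, augF_nil, map_add, hd_nil, EW_nil, hd_nil]
    refine Subtype.ext (LinearMap.ext (fun m => ?_))
    have e3 : ((HomR M.b.r A.diag.r).E φ).1 m = A.E (φ.1 (M.N.E m)) :=
      SD.hE_apply M.N A.toSD φ.1 m
    have e4 : ∀ z b a, (kap M.b).f (z ⊗ₜ (b ⊗ₜ a)) = M.b.l.act (A.P a) (M.b.r.act z b) +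
      M.b.l.act (a - A.P a) (M.N.E (M.b.r.act z b)) := fun z b a => kap_tmul M.b z b a
    rw [muF_apply, cN_apply, TensorProduct.tmul_add, map_add, e4, e4, A.E_sub_P_E, A.PE]
    change ((contrR M.b.r M.b.r).f (Wd.nil (M.b.l.act (A.P a) x) ⊗ₜ[k] φ)).1 m +
      ((contrR M.b.r M.b.r).f (Wd.nil (M.b.l.act (a - A.P a) (M.N.E x)) ⊗ₜ[k]
        (HomR M.b.r A.diag.r).E φ)).1 m = _
    rw [contrR_nil, contrR_nil, e3, M.b.lr, M.b.lr, M.b.r.E_act, M.b.r.E_act, M.N.E_apply m]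
    simp only [map_add, map_sub, map_neg, LinearMap.neg_apply, LinearMap.sub_apply]
    abel
  | hsnoc w _ r =>
    rw [contrP0_tmul, augF_snoc, map_add, hd_snoc, EW_snoc, map_neg, hd_snoc,
      TensorProduct.neg_tmul, map_neg, hs, hs, neg_zero, add_zero]

/-- first comparison -/
theorem compat1 (M : BMod A A) (v : (GG M.b (bNP M)).V) :
    (contrR M.b.r M.b.r).f ((contrP M).f v) = (contrF M).f ((gN M).f v) := by
  refine Wd.ext_apply (f := (contrR M.b.r M.b.r).f ∘ₗ (contrP M).f)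
    (g := (contrF M).f ∘ₗ (gN M).f) (fun u => ?_) (fun z _ r => ?_) v
  · refine tens_ext3' (f := (contrR M.b.r M.b.r).f ∘ₗ (contrP M).f ∘ₗ Wd.nil)
      (g := (contrF M).f ∘ₗ (gN M).f ∘ₗ Wd.nil) (fun w φ a => ?_) u
    change (contrR M.b.r M.b.r).f ((contrP M).f (Wd.nil (w ⊗ₜ (φ ⊗ₜ a)))) =
      (contrF M).f ((gN M).f (Wd.nil (w ⊗ₜ (φ ⊗ₜ a))))
    have h1 : (gN M).f (Wd.nil (w ⊗ₜ (φ ⊗ₜ a))) =
      Wd.nil (Wd.map LinearMap.id LinearMap.id w ⊗ₜ (cN M).f (φ ⊗ₜ a)) := hcN_nil _ _ _ _ _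
    have h2 : Wd.map LinearMap.id LinearMap.id w = w := Wd.mh_id w
    rw [h1, contrP_nil, contrG_nil, h2]
    exact compat0 M w φ a
  · have h1 : (gN M).f (Wd.snoc z r) = Wd.snoc ((gN M).f z) r := hcN_snoc _ _ _ _ _ _
    change (contrR M.b.r M.b.r).f ((contrP M).f (Wd.snoc z r)) =
      (contrF M).f ((gN M).f (Wd.snoc z r))
    rw [h1, contrP_snoc, contrG_snoc, map_zero]

/-! ### the trace -/

theorem ev_b1 (A : DGA k) : (tKP A).b₁.IsHom A.diag (homEv A.toSD A.toSD) := by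
  constructor
  · intro s v
    exact tens_ext (f := (homEv A.toSD A.toSD).f ∘ₗ (tKP A).b₁.l.act s)
      (g := A.diag.l.act s ∘ₗ (homEv A.toSD A.toSD).f) (fun f a => rfl) v
  · intro v s
    refine tens_ext (f := (homEv A.toSD A.toSD).f ∘ₗ (tKP A).b₁.r.act.flip s)
      (g := A.diag.r.act.flip s ∘ₗ (homEv A.toSD A.toSD).f) (fun f a => ?_) v
    have e1 : (tKP A).b₁.r.act (f ⊗ₜ a) s = (A.diag.r.post A.toSD).act f (A.P s) ⊗ₜ[k] a +
      (A.diag.r.post A.toSD).act f (s - A.P s) ⊗ₜ[k] A.E a := rfl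
    have e2 : ∀ s a, (A.diag.r.post A.toSD).act f s a = f a * A.P s + f (A.E a) * (s - A.P s) :=
      fun _ _ => rfl
    change (homEv A.toSD A.toSD).f ((tKP A).b₁.r.act (f ⊗ₜ a) s) = f a * s
    rw [e1, map_add, homEv_tmul, homEv_tmul, e2, e2, A.PP, A.P_odd, A.EE, sub_self, sub_zero,
      mul_zero, add_zero, zero_add, ← mul_add, add_sub_cancel]

theorem ev_cyc2 (A : DGA k) : Cyc (tKP A).b₂ (homEv A.toSD A.toSD) := Ev2_cyc A.diag.r A.toSD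
theorem ev_cyc3 (A : DGA k) : Cyc (tKP A).b₃ (homEv A.toSD A.toSD) := Ev1_cyc A.diag.l A.toSD

/-- the trace -/
noncomputable def TRP (A : DGA k) : SD.Hom (HC3 (tKP A)) (HC A.diag) :=
  TR (tKP A) A.diag (homEv A.toSD A.toSD) (ev_b1 A) (ev_cyc2 A) (ev_cyc3 A)

theorem ev_nuP (M : BMod A A) (φ : (HomR M.b.r A.diag.r).V) (a : A.V) (x : M.N.V) :
    (homEv A.toSD A.toSD).f ((nuP M).f ((φ ⊗ₜ a) ⊗ₜ x)) = φ.1 (M.b.l.act a x) := by
  have h1 : ∀ x a, (rx M.b.l).f x a = M.b.l.act (A.P a) x + M.b.l.act (a - A.P a) (M.N.E x) :=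
    fun _ _ => rfl
  rw [nuP_apply, map_add, homEv_tmul, homEv_tmul, nu0_apply, nu0_apply, h1, h1, A.E_sub_P_E,
    A.PE, M.N.EP, M.N.E_odd, map_neg M.b.l.act, LinearMap.neg_apply, map_neg, neg_neg,
    ← LinearMap.add_apply, ← map_add, ← LinearMap.add_apply, ← map_add, add_sub_cancel,
    ← map_add, add_sub_cancel]

theorem mh_nuP (M : BMod A A) (φ : (HomR M.b.r A.diag.r).V) (a : A.V) (w : Wd k M.N.V A.V) :
    Wd.mh A.V (homEv A.toSD A.toSD).f (hn A (nuP M) (φ ⊗ₜ a) w) =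
      hn A (evR M.b.r) φ (hd A M.b.l a w) := by
  induction w using Wd.induction with
  | hadd a b ha hb => simp only [map_add, ha, hb]
  | hnil x =>
    rw [hn_nil, hd_nil, hn_nil, Wd.mh_nil, bl_apply, bl_apply, evR_tmul, ev_nuP]
  | hsnoc w hw r => rw [hn_snoc, hd_snoc, hn_snoc, Wd.mh_snoc, hw]

theorem compat2a (M : BMod A A) (w : Wd k M.N.V A.V) (φ : (HomR M.b.r A.diag.r).V) (a : A.V) :
    evB0 A (evR M.b.r) ((contrP0 M).f (w ⊗ₜ (φ ⊗ₜ a))) =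
      Wd.mh A.V (homEv A.toSD A.toSD).f (evB0 A (nuP M) (w ⊗ₜ (φ ⊗ₜ a))) := by
  have hP : (NP M).P (φ ⊗ₜ a) = (HomR M.b.r A.diag.r).P φ ⊗ₜ[k] A.P a +
    (φ - (HomR M.b.r A.diag.r).P φ) ⊗ₜ[k] (a - A.P a) := rfl
  have hQ : (φ ⊗ₜ[k] a) - (NP M).P (φ ⊗ₜ a) = (HomR M.b.r A.diag.r).P φ ⊗ₜ[k] (a - A.P a) +
      (φ - (HomR M.b.r A.diag.r).P φ) ⊗ₜ[k] A.P a := by
    rw [hP]
    simp only [TensorProduct.tmul_sub, TensorProduct.sub_tmul]
    abel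
  rw [contrP0_tmul, map_add, evB0_tmul, evB0_tmul, evB0_tmul, hQ, hP, map_add (hn A (nuP M)),
    map_add (hn A (nuP M)), LinearMap.add_apply, LinearMap.add_apply, map_add, map_add, map_add,
    mh_nuP, mh_nuP, mh_nuP, mh_nuP, SD.E_sub_P_E, SD.PE, hd_EW, hd_EW, EW_EW, A.EP, A.E_odd]
  simp only [map_neg, LinearMap.neg_apply, neg_neg]
  abel

/-- second comparison -/
theorem compat2 (M : BMod A A) (v : (HC (dG M.b (dNP M) (NP_comm M))).V) :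
    (evM M).f ((hcN (dG M.b (dNP M) (NP_comm M)) (M.b.bar (bMst M)) (contrP M)
      (contrP_isHom M)).f v) =
    (TRP A).f ((hcN (dG M.b (dNP M) (NP_comm M)) (tKP A).d (rotP M) (rotP_isHom M)).f v) := by
  refine Wd.ext_apply (f := (evM M).f ∘ₗ (hcN (dG M.b (dNP M) (NP_comm M))
      (M.b.bar (bMst M)) (contrP M) (contrP_isHom M)).f)
    (g := (TRP A).f ∘ₗ (hcN (dG M.b (dNP M) (NP_comm M)) (tKP A).d (rotP M)
      (rotP_isHom M)).f) (fun g => ?_) (fun z _ r => ?_) v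
  · have e1 : ∀ g, (hcN (dG M.b (dNP M) (NP_comm M)) (M.b.bar (bMst M)) (contrP M)
      (contrP_isHom M)).f (Wd.nil g) = Wd.nil ((contrP M).f g) := fun g => hcN_nil _ _ _ _ _
    have e2 : ∀ g, (hcN (dG M.b (dNP M) (NP_comm M)) (tKP A).d (rotP M) (rotP_isHom M)).f
      (Wd.nil g) = Wd.nil ((rotP M).f g) := fun g => hcN_nil _ _ _ _ _
    change (evM M).f ((hcN (dG M.b (dNP M) (NP_comm M)) (M.b.bar (bMst M)) (contrP M)
      (contrP_isHom M)).f (Wd.nil g)) = (TRP A).f ((hcN (dG M.b (dNP M) (NP_comm M)) (tKP A).d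
        (rotP M) (rotP_isHom M)).f (Wd.nil g))
    rw [e1, e2]
    refine Wd.ext_apply (f := (evM M).f ∘ₗ Wd.nil ∘ₗ (contrP M).f)
      (g := (TRP A).f ∘ₗ Wd.nil ∘ₗ (rotP M).f) (fun u => ?_) (fun g _ r => ?_) g
    · refine tens_ext3' (f := (evM M).f ∘ₗ Wd.nil ∘ₗ (contrP M).f ∘ₗ Wd.nil)
        (g := (TRP A).f ∘ₗ Wd.nil ∘ₗ (rotP M).f ∘ₗ Wd.nil) (fun w φ a => ?_) u
      change (evM M).f (Wd.nil ((contrP M).f (Wd.nil (w ⊗ₜ (φ ⊗ₜ a))))) =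
        (TRP A).f (Wd.nil ((rotP M).f (Wd.nil (w ⊗ₜ (φ ⊗ₜ a)))))
      have h1 : (rotP M).f (Wd.nil (w ⊗ₜ (φ ⊗ₜ a))) =
        Wd.nil (evB0 A (nuP M) (w ⊗ₜ (φ ⊗ₜ a))) := hcN_nil _ _ _ _ _
      have h2 : ∀ u, (evM M).f (Wd.nil u) = evB0 A (evR M.b.r) u := fun u => by
        unfold evM evH
        exact (tr0_nil _ _ _ _).trans rfl
      have h3 : ∀ u, (TRP A).f (Wd.nil (Wd.nil u)) = Wd.mh A.V (homEv A.toSD A.toSD).f u :=
        fun u => TR_nil_nil _ _ _ _ _ _ _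
      rw [h1, h2, h3, contrP_nil]
      exact compat2a M w φ a
    · have h1 : (rotP M).f (Wd.snoc g r) = Wd.snoc ((rotP M).f g) r := hcN_snoc _ _ _ _ _ _
      have h3 : ∀ u r, (TRP A).f (Wd.nil (Wd.snoc u r)) = 0 :=
        fun u r => TR_nil_snoc _ _ _ _ _ _ _ _
      change (evM M).f (Wd.nil ((contrP M).f (Wd.snoc g r))) =
        (TRP A).f (Wd.nil ((rotP M).f (Wd.snoc g r)))
      rw [h1, h3, contrP_snoc, map_zero, map_zero]
  · have e1 : (hcN (dG M.b (dNP M) (NP_comm M)) (M.b.bar (bMst M)) (contrP M)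
      (contrP_isHom M)).f (Wd.snoc z r) = Wd.snoc ((hcN (dG M.b (dNP M) (NP_comm M))
        (M.b.bar (bMst M)) (contrP M) (contrP_isHom M)).f z) r := hcN_snoc _ _ _ _ _ _
    have e2 : (hcN (dG M.b (dNP M) (NP_comm M)) (tKP A).d (rotP M) (rotP_isHom M)).f
      (Wd.snoc z r) = Wd.snoc ((hcN (dG M.b (dNP M) (NP_comm M)) (tKP A).d (rotP M)
        (rotP_isHom M)).f z) r := hcN_snoc _ _ _ _ _ _
    have h1 : ∀ z r, (evM M).f (Wd.snoc z r) = 0 := fun z r => by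
      unfold evM evH
      exact tr0_snoc _ _ _ _ _
    have h3 : ∀ u r, (TRP A).f (Wd.snoc u r) = 0 := fun u r => TR_snoc _ _ _ _ _ _ _ _
    change (evM M).f ((hcN (dG M.b (dNP M) (NP_comm M)) (M.b.bar (bMst M)) (contrP M)
      (contrP_isHom M)).f (Wd.snoc z r)) = (TRP A).f ((hcN (dG M.b (dNP M) (NP_comm M))
        (tKP A).d (rotP M) (rotP_isHom M)).f (Wd.snoc z r))
    rw [e1, e2, h1, h3]

/-! ### comparison with the products -/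

/-- `b ⊗ λ ↦ (a ↦ λ(a) b)` -/
noncomputable def bLam (A : DGA k) : SD.Hom (A.toSD.tens A.toSD.dual) (SD.hom A.toSD A.toSD) :=
  dualTens A.toSD A.toSD |>.comp (swS A.toSD A.toSD.dual)

theorem bLam_apply (A : DGA k) (b : A.V) (lam : A.V →ₗ[k] k) (a : A.V) :
    (bLam A).f (b ⊗ₜ lam) a = lam a • b := by
  have hP : ∀ a, (A.toSD.dual.P lam) a = lam (A.P a) := fun a => by
    have h1 := SD.hP_apply A.toSD (SD.unit k) lam a
    refine h1.trans ?_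
    change lam (A.P a) + (lam (a - A.P a) - lam (a - A.P a)) = _
    rw [sub_self, add_zero]
  have e1 : (swS A.toSD A.toSD.dual).f (b ⊗ₜ lam) = A.toSD.dual.P lam ⊗ₜ[k] b +
    (lam - A.toSD.dual.P lam) ⊗ₜ[k] A.E b := swS_tmul _ _ _ _
  change (dualTens A.toSD A.toSD).f ((swS A.toSD A.toSD.dual).f (b ⊗ₜ lam)) a = _
  rw [e1, map_add]
  change (dualTens A.toSD A.toSD).f (A.toSD.dual.P lam ⊗ₜ[k] b) a +
    (dualTens A.toSD A.toSD).f ((lam - A.toSD.dual.P lam) ⊗ₜ[k] A.E b) a = _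
  rw [dualTens_tmul, dualTens_tmul, LinearMap.sub_apply, LinearMap.sub_apply, hP, hP, A.PP,
    A.P_odd, map_zero, A.EE, sub_self, zero_smul, sub_zero, add_zero, zero_add,
    ← add_smul, ← map_add, add_sub_cancel]

/-- `b ⊗ (λ ⊗ a) ↦ (a' ↦ λ(a') b) ⊗ a` -/
noncomputable def PPP (A : DGA k) : SD.Hom (A.toSD.tens (A.toSD.dual.tens A.toSD))
    ((SD.hom A.toSD A.toSD).tens A.toSD) :=
  ((bLam A).tens (SD.Hom.id A.toSD)).comp (assocS' A.toSD A.toSD.dual A.toSD)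

theorem cK_PPP (A : DGA k) (v : (A.toSD.tens (A.toSD.dual.tens A.toSD)).V) :
    (cK A).f ((PPP A).f v) =
      (hX A).f (((SD.Hom.id A.toSD).tens (dualTens A.toSD A.toSD)).f v) := by
  refine tens_ext3' (f := (cK A).f ∘ₗ (PPP A).f)
    (g := (hX A).f ∘ₗ ((SD.Hom.id A.toSD).tens (dualTens A.toSD A.toSD)).f)
    (fun b lam a => ?_) v
  refine LinearMap.ext (fun a' => ?_)
  change (cK A).f ((bLam A).f (b ⊗ₜ lam) ⊗ₜ a) a' =
    (hX A).f (b ⊗ₜ (dualTens A.toSD A.toSD).f (lam ⊗ₜ a)) a'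
  have h1 : (hX A).f (b ⊗ₜ (dualTens A.toSD A.toSD).f (lam ⊗ₜ a)) a' =
    b ⊗ₜ[k] ((dualTens A.toSD A.toSD).f (lam ⊗ₜ a) a') := homX_tmul _ _ _ _ _ _
  rw [cK_apply, bLam_apply, bLam_apply, h1, dualTens_tmul, TensorProduct.tmul_add,
    TensorProduct.tmul_smul, TensorProduct.tmul_smul, TensorProduct.smul_tmul',
    TensorProduct.smul_tmul']

theorem PPP_isHom (A : DGA k) :
    (triT A.diag (E1d_E2d A.diag).symm).IsHom (tKP A) (PPP A) := by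
  have e1 := dualTens_E1 A.diag
  have e2 := dualTens_E2 A.diag
  have t1 : (triT A.diag (E1d_E2d A.diag).symm).IsHom (triT A.diag (E1_E2 A.diag).symm)
      ((SD.Hom.id A.toSD).tens (dualTens A.toSD A.toSD)) :=
    ⟨Bi.tensL_map (Bi.isHom_id A.diag) _, Bi.tensR_map e2 _, Bi.tensR_map e1 _⟩
  have t2 := t1.comp (hX_isHom A)
  have hl : ∀ {S : DGA k} {b : Bi S S _} {c : Bi S S _} {d : Bi S S _}, b.IsHom c
      ((hX A).comp ((SD.Hom.id A.toSD).tens (dualTens A.toSD A.toSD))) → d.IsHom c (cK A) →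
      b.IsHom d (PPP A) := by
    intro S b c d h1 h2
    constructor
    · intro s v
      refine cK_inj A ?_
      have e := h2.l s ((PPP A).f v)
      have e' := h1.l s v
      rw [e, cK_PPP, cK_PPP]
      exact e'
    · intro v s
      refine cK_inj A ?_
      have e := h2.r ((PPP A).f v) s
      have e' := h1.r v s
      rw [e, cK_PPP, cK_PPP]
      exact e'
  exact ⟨hl t2.h1 (cK_isHom A).h1, hl t2.h2 (cK_isHom A).h2, hl t2.h3 (cK_isHom A).h3⟩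

theorem ev_PPP (A : DGA k) (b : A.V) (y : (A.toSD.dual.tens A.toSD).V) :
    (homEv A.toSD A.toSD).f ((PPP A).f (b ⊗ₜ y)) = ((trD A.toSD).f y : k) • b := by
  refine tens_ext (f := (homEv A.toSD A.toSD).f ∘ₗ (PPP A).f ∘ₗ TensorProduct.mk k _ _ b)
    (g := (LinearMap.toSpanSingleton k A.V b) ∘ₗ (trD A.toSD).f) (fun lam a => ?_) y
  exact bLam_apply A b lam a

end NC
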