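import Pool.Agent.H16.NC.Kap

/-!
# Functoriality of `G` and naturality of contraction and rotation (base file, helper16)
-/

open scoped TensorProduct

namespace NC

variable {k : Type} [Field k]

section

variable {R₁ R₂ S T : DGA k} {X X' N N' K K' L L' : SD k}

/-- functoriality of `G` -/
noncomputable def gMap {bX : Bi R₂ R₁ X} {bX' : Bi R₂ R₁ X'} {bN : Bi R₁ R₂ N}
    {bN' : Bi R₁ R₂ N'} (f : SD.Hom X X') (hf : bX.IsHom bX' f) (c : SD.Hom N N')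
    (hc : bN.IsHom bN' c) : SD.Hom (GG bX bN) (GG bX' bN') :=
  hcN (bX.bar bN) (bX'.bar bN') (barMap f c hf.r hc.l) (barMap_isHom hf hc)

/-- functoriality of iterated Hochschild complexes -/
noncomputable def hc2 {b₁ : Bi R₁ R₁ K} {b₂ : Bi R₂ R₂ K} {b₁' : Bi R₁ R₁ K'}
    {b₂' : Bi R₂ R₂ K'} (h : Comm b₁ b₂) (h' : Comm b₁' b₂') (φ : SD.Hom K K')
    (h1 : b₁.IsHom b₁' φ) (h2 : b₂.IsHom b₂' φ) :
    SD.Hom (HC (b₁.hc b₂ h)) (HC (b₁'.hc b₂' h')) :=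
  hcN (b₁.hc b₂ h) (b₁'.hc b₂' h') (hcN b₁ b₁' φ h1) (hcN_isHom h h' h1 h2)

theorem augF_map {X X' Y Y' Z Z' R : Type} [AddCommGroup X] [Module k X] [AddCommGroup X']
    [Module k X'] [AddCommGroup Y] [Module k Y] [AddCommGroup Y'] [Module k Y']
    [AddCommGroup Z] [Module k Z] [AddCommGroup Z'] [Module k Z'] [AddCommGroup R] [Module k R]
    (μ : X ⊗[k] Y →ₗ[k] Z) (μ' : X' ⊗[k] Y' →ₗ[k] Z') (f : X →ₗ[k] X') (c : Y →ₗ[k] Y')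
    (g : Z →ₗ[k] Z') (h : ∀ x y, g (μ (x ⊗ₜ y)) = μ' (f x ⊗ₜ c y)) (v : Wd k X R ⊗[k] Y) :
    g (augF μ v) = augF μ' (TensorProduct.map (Wd.map f LinearMap.id) c v) := by
  refine tens_ext (f := g ∘ₗ augF μ)
    (g := augF μ' ∘ₗ TensorProduct.map (Wd.map f LinearMap.id) c) (fun w y => ?_) v
  change g (augF μ (w ⊗ₜ y)) = augF μ' (Wd.map f LinearMap.id w ⊗ₜ c y)
  induction w using Wd.induction with
  | hadd a b ha hb => simp only [map_add, TensorProduct.add_tmul, ha, hb]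
  | hnil x => rw [Wd.map_nil, augF_nil, augF_nil, h]
  | hsnoc w _ r => rw [Wd.map_snoc, augF_snoc, augF_snoc, map_zero]

theorem contrB_map {bX : Bi R₂ R₁ X} {bX' : Bi R₂ R₁ X'} {bN : Bi R₁ R₂ N}
    {bN' : Bi R₁ R₂ N'} (f : SD.Hom X X') (hf : bX.IsHom bX' f) (c : SD.Hom N N')
    (hc : bN.IsHom bN' c) {μ : SD.Hom (X.tens N) L} (hμ : MuD bX bN μ)
    {μ' : SD.Hom (X'.tens N') L'} (hμ' : MuD bX' bN' μ') (g : SD.Hom L L')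
    (h : ∀ x n, g.f (μ.f (x ⊗ₜ n)) = μ'.f (f.f x ⊗ₜ c.f n)) (v : Wd k X.V R₁.V ⊗[k] N.V) :
    g.f ((contrB bX bN μ hμ).f v) =
      (contrB bX' bN' μ' hμ').f ((barMap f c hf.r hc.l).f v) :=
  augF_map μ.f μ'.f f.f c.f g.f h v

/-- naturality of the contraction -/
theorem contrG_gMap {bX : Bi R₂ R₁ X} {bX' : Bi R₂ R₁ X'} {bN : Bi R₁ R₂ N}
    {bN' : Bi R₁ R₂ N'} (f : SD.Hom X X') (hf : bX.IsHom bX' f) (c : SD.Hom N N')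
    (hc : bN.IsHom bN' c) {μ : SD.Hom (X.tens N) L} (hμ : MuD bX bN μ)
    {μ' : SD.Hom (X'.tens N') L'} (hμ' : MuD bX' bN' μ') (g : SD.Hom L L')
    (h : ∀ x n, g.f (μ.f (x ⊗ₜ n)) = μ'.f (f.f x ⊗ₜ c.f n)) (v : (GG bX bN).V) :
    g.f ((contrG bX bN μ hμ).f v) = (contrG bX' bN' μ' hμ').f ((gMap f hf c hc).f v) := by
  change g.f ((contrG bX bN μ hμ).f v) =
    (contrG bX' bN' μ' hμ').f (Wd.mh R₂.V (barMap f c hf.r hc.l).f v)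
  induction v using Wd.induction with
  | hadd a b ha hb => simp only [map_add, ha, hb]
  | hnil v => rw [contrG_nil, Wd.mh_nil, contrG_nil]; exact contrB_map f hf c hc hμ hμ' g h v
  | hsnoc w _ r => rw [contrG_snoc, Wd.mh_snoc, contrG_snoc, map_zero]

theorem hn_map {R : DGA k} {X X' Y Y' N N' : SD k} (ν : SD.Hom (Y.tens X) N)
    (ν' : SD.Hom (Y'.tens X') N') (c : Y.V →ₗ[k] Y'.V) (f : X.V →ₗ[k] X'.V)
    (φ : N.V →ₗ[k] N'.V) (h : ∀ y x, φ (ν.f (y ⊗ₜ x)) = ν'.f (c y ⊗ₜ f x)) (y : Y.V)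
    (w : Wd k X.V R.V) :
    Wd.mh R.V φ (hn R ν y w) = hn R ν' (c y) (Wd.mh R.V f w) := by
  induction w using Wd.induction with
  | hadd a b ha hb => simp only [map_add, ha, hb]
  | hnil x => simp only [hn_nil, Wd.mh_nil, bl_apply, h]
  | hsnoc w hw r => simp only [hn_snoc, Wd.mh_snoc, hw]

theorem evN_map {bX : Bi R₂ R₁ X} {bX' : Bi R₂ R₁ X'} {bN : Bi R₁ R₂ N}
    {bN' : Bi R₁ R₂ N'} (f : SD.Hom X X') (hf : bX.IsHom bX' f) (c : SD.Hom N N')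
    (hc : bN.IsHom bN' c) {K₁ : Bi R₁ R₁ K} {K₂ : Bi R₂ R₂ K} {K₁' : Bi R₁ R₁ K'}
    {K₂' : Bi R₂ R₂ K'} {ν : SD.Hom (N.tens X) K} (hν : NuD bX bN K₁ K₂ ν)
    {ν' : SD.Hom (N'.tens X') K'} (hν' : NuD bX' bN' K₁' K₂' ν') (φ : SD.Hom K K')
    (h1 : K₁.IsHom K₁' φ) (h : ∀ n x, φ.f (ν.f (n ⊗ₜ x)) = ν'.f (c.f n ⊗ₜ f.f x))
    (v : Wd k X.V R₁.V ⊗[k] N.V) :
    (hcN K₁ K₁' φ h1).f ((evN bX bN K₁ K₂ ν hν).f v) =
      (evN bX' bN' K₁' K₂' ν' hν').f ((barMap f c hf.r hc.l).f v) := by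
  refine tens_ext (f := Wd.mh R₁.V φ.f ∘ₗ evB0 R₁ ν)
    (g := evB0 R₁ ν' ∘ₗ TensorProduct.map (Wd.mh R₁.V f.f) c.f) (fun w y => ?_) v
  change Wd.mh R₁.V φ.f (evB0 R₁ ν (w ⊗ₜ y)) = evB0 R₁ ν' (Wd.mh R₁.V f.f w ⊗ₜ c.f y)
  rw [evB0_tmul, evB0_tmul, map_add, hn_map ν ν' c.f f.f φ.f h, hn_map ν ν' c.f f.f φ.f h,
    map_sub, c.P, EW_mh]

/-- naturality of the rotation -/
theorem bG_gMap {bX : Bi R₂ R₁ X} {bX' : Bi R₂ R₁ X'} {bN : Bi R₁ R₂ N}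
    {bN' : Bi R₁ R₂ N'} (f : SD.Hom X X') (hf : bX.IsHom bX' f) (c : SD.Hom N N')
    (hc : bN.IsHom bN' c) {K₁ : Bi R₁ R₁ K} {K₂ : Bi R₂ R₂ K} (hK : Comm K₁ K₂)
    {K₁' : Bi R₁ R₁ K'} {K₂' : Bi R₂ R₂ K'} (hK' : Comm K₁' K₂')
    {ν : SD.Hom (N.tens X) K} (hν : NuD bX bN K₁ K₂ ν)
    {ν' : SD.Hom (N'.tens X') K'} (hν' : NuD bX' bN' K₁' K₂' ν') (φ : SD.Hom K K')
    (h1 : K₁.IsHom K₁' φ) (h2 : K₂.IsHom K₂' φ)
    (h : ∀ n x, φ.f (ν.f (n ⊗ₜ x)) = ν'.f (c.f n ⊗ₜ f.f x)) (v : (GG bX bN).V) :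
    (hc2 hK hK' φ h1 h2).f ((bG bX bN K₁ K₂ hK ν hν).f v) =
      (bG bX' bN' K₁' K₂' hK' ν' hν').f ((gMap f hf c hc).f v) := by
  change Wd.mh R₂.V (hcN K₁ K₁' φ h1).f (Wd.mh R₂.V (evN bX bN K₁ K₂ ν hν).f v) =
    Wd.mh R₂.V (evN bX' bN' K₁' K₂' ν' hν').f (Wd.mh R₂.V (barMap f c hf.r hc.l).f v)
  rw [Wd.mh_comp, Wd.mh_comp]
  exact Wd.mh_congr (fun n => evN_map f hf c hc hν hν' φ h1 h n) v

/-- `gMap` is compatible with further structures -/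
theorem gMap_isHom {bX : Bi R₂ R₁ X} {bX' : Bi R₂ R₁ X'} {bN : Bi R₁ R₂ N}
    {bN' : Bi R₁ R₂ N'} (f : SD.Hom X X') (hf : bX.IsHom bX' f) (c : SD.Hom N N')
    (hc : bN.IsHom bN' c) (d : Bi S T N) (d' : Bi S T N') (h : Comm bN d) (h' : Comm bN' d')
    (hd : d.IsHom d' c) : (dG bX d h).IsHom (dG bX' d' h') (gMap f hf c hc) := by
  refine hcN_isHom _ _ _ ?_
  constructor
  · intro s v
    refine tens_ext (f := (barMap f c hf.r hc.l).f ∘ₗ lcw X d.l s)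
      (g := lcw X' d'.l s ∘ₗ (barMap f c hf.r hc.l).f) (fun w y => ?_) v
    have e1 : ∀ w y, (barMap f c hf.r hc.l).f (w ⊗ₜ y) = Wd.mh R₁.V f.f w ⊗ₜ c.f y :=
      fun w y => rfl
    have e2 : ∀ a n, c.f (d.l.act a n) = d'.l.act a (c.f n) := hd.l
    simp only [LinearMap.comp_apply, lcw_tmul, map_add, e1, e2, EW_mh]
  · intro v s
    refine tens_ext (f := (barMap f c hf.r hc.l).f ∘ₗ (dBar bX.r d h).r.act.flip s)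
      (g := (dBar bX'.r d' h').r.act.flip s ∘ₗ (barMap f c hf.r hc.l).f) (fun w y => ?_) v
    change Wd.map f.f LinearMap.id w ⊗ₜ[k] c.f (d.r.act y s) =
      Wd.map f.f LinearMap.id w ⊗ₜ[k] d'.r.act (c.f y) s
    rw [hd.r]

theorem gMap_qi {bX : Bi R₂ R₁ X} {bX' : Bi R₂ R₁ X'} {bN : Bi R₁ R₂ N}
    {bN' : Bi R₁ R₂ N'} (f : SD.Hom X X') (hf : bX.IsHom bX' f) (c : SD.Hom N N')
    (hc : bN.IsHom bN' c) (qf : f.QI) (qc : c.QI) :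
    (gMap (bX := bX) (bX' := bX') (bN := bN) (bN' := bN') f hf c hc).QI :=
  QI_hc _ _ _ _ (qi_bar hf.r hc.l qf qc)

theorem hc2_qi {b₁ : Bi R₁ R₁ K} {b₂ : Bi R₂ R₂ K} {b₁' : Bi R₁ R₁ K'}
    {b₂' : Bi R₂ R₂ K'} (h : Comm b₁ b₂) (h' : Comm b₁' b₂') (φ : SD.Hom K K')
    (h1 : b₁.IsHom b₁' φ) (h2 : b₂.IsHom b₂' φ) (q : φ.QI) : (hc2 h h' φ h1 h2).QI :=
  QI_hc _ _ _ _ (QI_hc _ _ _ _ q)

end

end NC
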