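import Pool.Agent.H16.NC.HSt

/-!
# The bimodule `Q = A ⊗ A` with its four commuting structures, currying, composition and the
# multiplication map `kap : Z ⊗ Q → Z` (base file, helper16)

`Q ∋ b ⊗ a`.  Inner structures: `iL` multiplies `b` from the left, `iR` multiplies `a` from the
right.  Outer structures: `oL` multiplies `a` from the left, `oR` multiplies `b` from the right
(both with the Koszul sign).  `kap (z ⊗ (b ⊗ a)) = (-1)^(|a|(|z|+|b|)) a z b`.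
-/

open scoped TensorProduct

namespace NC

variable {k : Type} [Field k]

/-! ### currying and composition -/

section gen

variable {X Y Z W : SD k}

/-- currying -/
noncomputable def SD.Hom.curry (φ : SD.Hom (X.tens Y) Z) : SD.Hom X (SD.hom Y Z) where
  f := TensorProduct.curry φ.f
  D := fun x => by
    refine LinearMap.ext (fun y => ?_)
    refine Eq.trans ?_ (SD.hD_apply Y Z _ y).symm
    have h1 := bl_D φ x y
    have h2 := bl_E φ x (Y.E (Y.D y))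
    change bl φ (X.D x) y = Z.D (bl φ x y) - Z.E (bl φ x (Y.E (Y.D y)))
    rw [h1, h2, Y.EE]; abel
  P := fun x => by
    refine LinearMap.ext (fun y => ?_)
    refine Eq.trans ?_ (SD.hP_apply Y Z _ y).symm
    change bl φ (X.P x) y = Z.P (bl φ x (Y.P y)) + (bl φ x (y - Y.P y) - Z.P (bl φ x (y - Y.P y)))
    rw [bl_P, bl_P]
    simp only [map_sub, Y.PP, sub_self, map_zero, LinearMap.sub_apply]
    abel

@[simp] theorem SD.Hom.curry_apply (φ : SD.Hom (X.tens Y) Z) (x : X.V) (y : Y.V) :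
    (φ.curry).f x y = φ.f (x ⊗ₜ y) := rfl

/-- composition of linear maps as a morphism -/
noncomputable def compH (X Y Z : SD k) :
    SD.Hom ((SD.hom Y Z).tens (SD.hom X Y)) (SD.hom X Z) where
  f := TensorProduct.lift (LinearMap.llcomp k X.V Y.V Z.V)
  D := fun v => by
    refine tens_ext (f := TensorProduct.lift (LinearMap.llcomp k X.V Y.V Z.V) ∘ₗ
        SD.tD (SD.hom Y Z) (SD.hom X Y))
      (g := SD.hD X Z ∘ₗ TensorProduct.lift (LinearMap.llcomp k X.V Y.V Z.V)) (fun f g => ?_) v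
    have h1 : SD.tD (SD.hom Y Z) (SD.hom X Y) (f ⊗ₜ g) = (SD.hD Y Z f) ⊗ₜ[k] g +
      (SD.hE Y Z f) ⊗ₜ[k] (SD.hD X Y g) := rfl
    rw [LinearMap.comp_apply, h1, map_add]
    exact (hD_comp f g).symm
  P := fun v => by
    refine tens_ext (f := TensorProduct.lift (LinearMap.llcomp k X.V Y.V Z.V) ∘ₗ
        SD.tP (SD.hom Y Z) (SD.hom X Y))
      (g := SD.hP X Z ∘ₗ TensorProduct.lift (LinearMap.llcomp k X.V Y.V Z.V)) (fun f g => ?_) v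
    have h1 : SD.tP (SD.hom Y Z) (SD.hom X Y) (f ⊗ₜ g) = (SD.hP Y Z f) ⊗ₜ[k] (SD.hP X Y g) +
      (f - SD.hP Y Z f) ⊗ₜ[k] (g - SD.hP X Y g) := rfl
    rw [LinearMap.comp_apply, h1, map_add]
    exact (hP_comp f g).symm

@[simp] theorem compH_tmul (f : Y.V →ₗ[k] Z.V) (g : X.V →ₗ[k] Y.V) :
    (compH X Y Z).f (f ⊗ₜ g) = f ∘ₗ g := rfl

/-- restriction of the target to a sub differential module -/
def SD.Hom.toSub {N : SD k} {U : Submodule k N.V} {hD : ∀ x ∈ U, N.D x ∈ U}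
    {hP : ∀ x ∈ U, N.P x ∈ U} (φ : SD.Hom X N) (h : ∀ x, φ.f x ∈ U) :
    SD.Hom X (N.sub U hD hP) where
  f := φ.f.codRestrict U h
  D := fun x => Subtype.ext (φ.D x)
  P := fun x => Subtype.ext (φ.P x)

@[simp] theorem SD.Hom.toSub_coe {N : SD k} {U : Submodule k N.V} {hD : ∀ x ∈ U, N.D x ∈ U}
    {hP : ∀ x ∈ U, N.P x ∈ U} (φ : SD.Hom X N) (h : ∀ x, φ.f x ∈ U) (x : X.V) :
    ((φ.toSub (hD := hD) (hP := hP) h).f x).1 = φ.f x := rfl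

/-- the curried form of a bimodule map consists of bimodule maps -/
theorem curry_mem {A B : DGA k} {bY : Bi A B Y} {bZ : Bi A B Z} (φ : SD.Hom (X.tens Y) Z)
    (h : (bY.tensR X).IsHom bZ φ) (x : X.V) :
    φ.curry.f x ∈ lLin bY.l bZ.l ⊓ rLin bY.r bZ.r := by
  constructor
  · intro a y
    have hP : SD.hP Y Z (φ.curry.f x) = φ.curry.f (X.P x) := (φ.curry.P x).symm
    rw [hP]
    have h1 := h.l a (X.P x ⊗ₜ y)
    have h2 := h.l (A.E a) ((x - X.P x) ⊗ₜ y)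
    have h3 : (bY.tensR X).l.act a (X.P x ⊗ₜ y) = X.P x ⊗ₜ bY.l.act (A.P a) y +
      X.E (X.P x) ⊗ₜ bY.l.act (a - A.P a) y := rfl
    have h4 : (bY.tensR X).l.act (A.E a) ((x - X.P x) ⊗ₜ y) =
      (x - X.P x) ⊗ₜ bY.l.act (A.P (A.E a)) y +
      X.E (x - X.P x) ⊗ₜ bY.l.act (A.E a - A.P (A.E a)) y := rfl
    rw [h3, X.EP, ← TensorProduct.tmul_add, ← LinearMap.add_apply, ← map_add,
      add_sub_cancel] at h1
    rw [h4, X.E_odd, A.PE, TensorProduct.neg_tmul, ← TensorProduct.tmul_neg,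
      ← LinearMap.neg_apply, ← map_neg, ← TensorProduct.tmul_add, ← LinearMap.add_apply,
      ← map_add] at h2
    have h5 : A.P a + -(A.E a - A.P a) = a := by rw [A.E_apply]; abel
    rw [h5] at h2
    change φ.f (x ⊗ₜ bY.l.act a y) = bZ.l.act a (φ.f (X.P x ⊗ₜ y)) +
      bZ.l.act (A.E a) (φ.f (x ⊗ₜ y) - φ.f (X.P x ⊗ₜ y))
    rw [← h1, ← map_sub, ← TensorProduct.sub_tmul, ← h2, ← map_add, ← TensorProduct.add_tmul,
      add_sub_cancel]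
  · intro y b
    exact h.r (x ⊗ₜ y) b

end gen

/-! ### the bimodule `Q` -/

section Q

variable (A : DGA k)

/-- `Q = A ⊗ A` -/
noncomputable abbrev QQ : SD k := A.toSD.tens A.toSD

/-- inner left structure -/
noncomputable def iL : LA A (QQ A) := A.diag.l.tensL A.toSD
/-- inner right structure -/
noncomputable def iR : RA A (QQ A) := A.diag.r.tensR A.toSD
/-- outer left structure -/
noncomputable def oL : LA A (QQ A) := A.diag.l.tensR A.toSD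
/-- outer right structure -/
noncomputable def oR : RA A (QQ A) := A.diag.r.tensL A.toSD

theorem iL_oL : LL (iL A) (oL A) := LL.tensLR A.diag.l A.diag.l
theorem iR_oR : RR (iR A) (oR A) := RR.tensRL A.diag.r A.diag.r
theorem iL_iR : LR (iL A) (iR A) := LR.tensLR A.diag.l A.diag.r
theorem iL_oR : LR (iL A) (oR A) := LR.tensLL A.diag.lr A.toSD
theorem oL_iR : LR (oL A) (iR A) := LR.tensRR A.diag.lr A.toSD
theorem oL_oR : LR (oL A) (oR A) := LR.tensRL A.diag.l A.diag.r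

/-- the inner bimodule structure -/
noncomputable def bIn : Bi A A (QQ A) := ⟨iL A, iR A, iL_iR A⟩
/-- the outer bimodule structure -/
noncomputable def bOut : Bi A A (QQ A) := ⟨oL A, oR A, oL_oR A⟩
/-- the structure on the first factor -/
noncomputable def bQ1 : Bi A A (QQ A) := ⟨iL A, oR A, iL_oR A⟩
/-- the structure on the second factor -/
noncomputable def bQ2 : Bi A A (QQ A) := ⟨oL A, iR A, oL_iR A⟩

theorem bIn_eq : bIn A = (BMod.free A A).b := rfl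
theorem bQ1_eq : bQ1 A = A.diag.tensL A.toSD := rfl
theorem bQ2_eq : bQ2 A = A.diag.tensR A.toSD := rfl

theorem out_in : Comm (bOut A) (bIn A) :=
  ⟨(iL_oL A).symm, oL_iR A, iL_oR A, (iR_oR A).symm⟩
theorem Q1_Q2 : Comm (bQ1 A) (bQ2 A) :=
  ⟨iL_oL A, iL_iR A, oL_oR A, (iR_oR A).symm⟩

end Q

/-! ### the multiplication `Z ⊗ Q → Z` -/

section kap

variable {A : DGA k} {Z Z' : SD k}

/-- `z ⊗ (b ⊗ a) ↦ (-1)^(|a|(|z|+|b|)) a z b` -/
noncomputable def kap (bZ : Bi A A Z) : SD.Hom (Z.tens (QQ A)) Z :=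
  (homEv A.toSD Z).comp ((((rx bZ.l).comp (actR bZ.r)).tens (SD.Hom.id A.toSD)).comp
    (assocS' Z A.toSD A.toSD))

theorem kap_tmul (bZ : Bi A A Z) (z : Z.V) (b a : A.V) :
    (kap bZ).f (z ⊗ₜ (b ⊗ₜ a)) = bZ.l.act (A.P a) (bZ.r.act z b) +
      bZ.l.act (a - A.P a) (Z.E (bZ.r.act z b)) := rfl

/-- `kap (z r ⊗ q) = kap (z ⊗ r q)` -/
theorem kap_m1 (bZ : Bi A A Z) (z : Z.V) (r : A.V) (q : (QQ A).V) :
    (kap bZ).f (bZ.r.act z r ⊗ₜ q) = (kap bZ).f (z ⊗ₜ (iL A).act r q) := by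
  refine tens_ext (f := (kap bZ).f ∘ₗ TensorProduct.mk k Z.V (A.V ⊗[k] A.V) (bZ.r.act z r))
    (g := (kap bZ).f ∘ₗ TensorProduct.mk k Z.V (A.V ⊗[k] A.V) z ∘ₗ (iL A).act r)
    (fun b a => ?_) q
  change (kap bZ).f (bZ.r.act z r ⊗ₜ (b ⊗ₜ a)) = (kap bZ).f (z ⊗ₜ ((r * b) ⊗ₜ a))
  rw [kap_tmul, kap_tmul, bZ.r.act_mul]

/-- `kap (z ⊗ q t) = ± kap (t z ⊗ q)` -/
theorem kap_m2 (bZ : Bi A A Z) (z : Z.V) (q : (QQ A).V) (t : A.V) :
    (kap bZ).f (z ⊗ₜ (iR A).act q t) = (kap bZ).f (bZ.l.act (A.P t) z ⊗ₜ q) +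
      (kap bZ).f (bZ.l.act (t - A.P t) (Z.E z) ⊗ₜ (QQ A).E q) := by
  refine tens_ext (f := (kap bZ).f ∘ₗ TensorProduct.mk k Z.V (A.V ⊗[k] A.V) z ∘ₗ
      (iR A).act.flip t)
    (g := (kap bZ).f ∘ₗ TensorProduct.mk k Z.V (A.V ⊗[k] A.V) (bZ.l.act (A.P t) z) +
      (kap bZ).f ∘ₗ TensorProduct.mk k Z.V (A.V ⊗[k] A.V) (bZ.l.act (t - A.P t) (Z.E z)) ∘ₗ
        (QQ A).E) (fun b a => ?_) q
  have e : (QQ A).E (b ⊗ₜ a) = A.E b ⊗ₜ A.E a := SD.tens_E A.toSD A.toSD b a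
  change (kap bZ).f (z ⊗ₜ (b ⊗ₜ (a * t))) = (kap bZ).f (bZ.l.act (A.P t) z ⊗ₜ (b ⊗ₜ a)) +
    (kap bZ).f (bZ.l.act (t - A.P t) (Z.E z) ⊗ₜ (QQ A).E (b ⊗ₜ a))
  have hP : A.P (a * t) = A.P a * A.P t + (a - A.P a) * (t - A.P t) := A.P_mul a t
  have hE : A.E a - A.P a = -(a - A.P a) := by rw [A.E_apply]; abel
  rw [e, kap_tmul, kap_tmul, kap_tmul, bZ.lr, bZ.lr, bZ.l.E_act, bZ.l.E_act, A.PE,
    hE, A.EP, A.E_odd, ← bZ.r.E_act, Z.EE, hP]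
  simp only [bZ.l.mul_act, map_sub, map_add, map_neg, LinearMap.sub_apply,
    LinearMap.add_apply, LinearMap.neg_apply, mul_sub, sub_mul]
  abel

/-- `kap` is a bimodule map for the outer structure -/
theorem kap_isHom (bZ : Bi A A Z) : ((bOut A).tensR Z).IsHom bZ (kap bZ) := by
  constructor
  · intro s v
    refine tens_ext (f := (kap bZ).f ∘ₗ ((bOut A).tensR Z).l.act s)
      (g := bZ.l.act s ∘ₗ (kap bZ).f) (fun z q => ?_) v
    refine tens_ext (f := (kap bZ).f ∘ₗ ((bOut A).tensR Z).l.act s ∘ₗ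
        TensorProduct.mk k Z.V (A.V ⊗[k] A.V) z)
      (g := bZ.l.act s ∘ₗ (kap bZ).f ∘ₗ TensorProduct.mk k Z.V (A.V ⊗[k] A.V) z)
      (fun b a => ?_) q
    have e0 : ((bOut A).tensR Z).l.act s (z ⊗ₜ (b ⊗ₜ a)) =
      z ⊗ₜ[k] (b ⊗ₜ[k] (A.P (A.P s) * a) + A.E b ⊗ₜ[k] ((A.P s - A.P (A.P s)) * a)) +
      Z.E z ⊗ₜ[k] (b ⊗ₜ[k] (A.P (s - A.P s) * a) +
        A.E b ⊗ₜ[k] ((s - A.P s - A.P (s - A.P s)) * a)) := rfl
    have e : ((bOut A).tensR Z).l.act s (z ⊗ₜ (b ⊗ₜ a)) =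
      z ⊗ₜ[k] (b ⊗ₜ[k] (A.P s * a)) + Z.E z ⊗ₜ[k] (A.E b ⊗ₜ[k] ((s - A.P s) * a)) := by
      rw [e0]
      simp only [map_sub, A.PP, sub_self, zero_mul, TensorProduct.tmul_zero, add_zero, sub_zero,
        zero_add]
    have hP : ∀ x y : A.V, A.P (x * y) = A.P x * A.P y + (x - A.P x) * (y - A.P y) := A.P_mul
    have h1 : A.P (A.P s * a) = A.P s * A.P a := by
      rw [hP, A.PP, sub_self, zero_mul, add_zero]
    have h2 : A.P ((s - A.P s) * a) = (s - A.P s) * (a - A.P a) := by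
      rw [hP, map_sub, A.PP, sub_self, zero_mul, sub_zero, zero_add]
    change (kap bZ).f (((bOut A).tensR Z).l.act s (z ⊗ₜ (b ⊗ₜ a))) =
      bZ.l.act s ((kap bZ).f (z ⊗ₜ (b ⊗ₜ a)))
    rw [e, map_add, kap_tmul, kap_tmul, kap_tmul, h1, h2, ← bZ.r.E_act, Z.EE, map_add]
    simp only [bZ.l.mul_act, map_sub, LinearMap.sub_apply, mul_sub, sub_mul]
    abel
  · intro v t
    refine tens_ext (f := (kap bZ).f ∘ₗ ((bOut A).tensR Z).r.act.flip t)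
      (g := bZ.r.act.flip t ∘ₗ (kap bZ).f) (fun z q => ?_) v
    refine tens_ext (f := (kap bZ).f ∘ₗ ((bOut A).tensR Z).r.act.flip t ∘ₗ
        TensorProduct.mk k Z.V (A.V ⊗[k] A.V) z)
      (g := bZ.r.act.flip t ∘ₗ (kap bZ).f ∘ₗ TensorProduct.mk k Z.V (A.V ⊗[k] A.V) z)
      (fun b a => ?_) q
    have e : ((bOut A).tensR Z).r.act (z ⊗ₜ (b ⊗ₜ a)) t =
      z ⊗ₜ[k] ((b * A.P t) ⊗ₜ[k] a + (b * (t - A.P t)) ⊗ₜ[k] A.E a) := rfl
    change (kap bZ).f (((bOut A).tensR Z).r.act (z ⊗ₜ (b ⊗ₜ a)) t) =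
      bZ.r.act ((kap bZ).f (z ⊗ₜ (b ⊗ₜ a))) t
    have hE : A.E a - A.P a = -(a - A.P a) := by rw [A.E_apply]; abel
    rw [e, TensorProduct.tmul_add, map_add, kap_tmul, kap_tmul, kap_tmul, A.PE,
      hE, map_add, LinearMap.add_apply, bZ.lr, bZ.lr, ← bZ.r.act_mul,
      ← bZ.r.act_mul, bZ.r.E_act (bZ.r.act z b), bZ.r.E_act (bZ.r.act z b), A.EP, A.E_odd]
    simp only [map_sub, map_add, map_neg, LinearMap.sub_apply, LinearMap.add_apply,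
      LinearMap.neg_apply]
    abel

/-- naturality of `kap` for bimodule maps (of any parity) -/
theorem kap_nat (bZ : Bi A A Z) (bZ' : Bi A A Z') (ξ : (HomBi bZ bZ').V) (z : Z.V)
    (q : (QQ A).V) : ξ.1 ((kap bZ).f (z ⊗ₜ q)) = (kap bZ').f (ξ.1 z ⊗ₜ q) := by
  refine tens_ext (f := ξ.1 ∘ₗ (kap bZ).f ∘ₗ TensorProduct.mk k Z.V (A.V ⊗[k] A.V) z)
    (g := (kap bZ').f ∘ₗ TensorProduct.mk k Z'.V (A.V ⊗[k] A.V) (ξ.1 z)) (fun b a => ?_) q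
  have hl : ∀ a x, ξ.1 (bZ.l.act a x) = bZ'.l.act a (SD.hP Z Z' ξ.1 x) +
    bZ'.l.act (A.E a) (ξ.1 x - SD.hP Z Z' ξ.1 x) := ξ.2.1
  have hr : ∀ x b, ξ.1 (bZ.r.act x b) = bZ'.r.act (ξ.1 x) b := ξ.2.2
  have hE : ∀ x, SD.hP Z Z' ξ.1 x + SD.hP Z Z' ξ.1 x - ξ.1 x = Z'.E (ξ.1 (Z.E x)) :=
    fun x => SD.hE_apply Z Z' ξ.1 x
  have hE' : ∀ x, ξ.1 (Z.E x) = Z'.E (SD.hP Z Z' ξ.1 x) + Z'.E (SD.hP Z Z' ξ.1 x) -
      Z'.E (ξ.1 x) := fun x => by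
    rw [← map_add, ← map_sub, hE, Z'.EE]
  have hPE : ∀ x, SD.hP Z Z' ξ.1 (Z.E x) = Z'.E (SD.hP Z Z' ξ.1 x) := fun x => by
    simp only [SD.hP_apply, SD.E_apply, map_sub, map_add, Z.PP, Z'.PP]
    abel
  change ξ.1 ((kap bZ).f (z ⊗ₜ (b ⊗ₜ a))) = (kap bZ').f (ξ.1 z ⊗ₜ (b ⊗ₜ a))
  rw [kap_tmul, kap_tmul, map_add, hl, hl, hPE, hE', A.EP, A.E_odd, hr]
  simp only [map_sub, map_add, map_neg, LinearMap.sub_apply, LinearMap.add_apply,
    LinearMap.neg_apply]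
  abel

/-- naturality of `kap` for bimodule morphisms -/
theorem kap_hom (bZ : Bi A A Z) (bZ' : Bi A A Z') (φ : SD.Hom Z Z') (h : bZ.IsHom bZ' φ)
    (z : Z.V) (q : (QQ A).V) : φ.f ((kap bZ).f (z ⊗ₜ q)) = (kap bZ').f (φ.f z ⊗ₜ q) := by
  refine tens_ext (f := φ.f ∘ₗ (kap bZ).f ∘ₗ TensorProduct.mk k Z.V (A.V ⊗[k] A.V) z)
    (g := (kap bZ').f ∘ₗ TensorProduct.mk k Z'.V (A.V ⊗[k] A.V) (φ.f z)) (fun b a => ?_) q
  change φ.f ((kap bZ).f (z ⊗ₜ (b ⊗ₜ a))) = (kap bZ').f (φ.f z ⊗ₜ (b ⊗ₜ a))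
  rw [kap_tmul, kap_tmul, map_add, h.l, h.l, φ.E, h.r]

end kap

end NC
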