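import Pool.Agent.H16.NC.Cen

/-!
# The exterior products on Hochschild complexes (base file, helper16)

`mgG b₁ c₂ : HC(b₁) ⊗ HC(c₂) → HC(R₂; HC(R₁; N ⊗ Y))`, `mgG'` with the other order,
`MGG b₁ c₂ c₃ : HC(b₁) ⊗ HC(R₃; HC(R₂; Y)) → HC(R₃; HC(R₂; HC(R₁; N ⊗ Y)))`.
-/

open scoped TensorProduct

namespace NC

variable {k : Type} [Field k]

section mg

variable {R R' R₁ R₂ R₃ S T : DGA k} {X X' N N' Y Y' Z : SD k}

/-- structures on different factors commute -/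
theorem comm_LR (b : Bi R R' N) (c : Bi S T Y) : Comm (b.tensL Y) (c.tensR N) :=
  ⟨LL.tensLR b.l c.l, LR.tensLR b.l c.r, LR.tensRL c.l b.r, (RR.tensRL b.r c.r).symm⟩

theorem comm_tensR {b : Bi R R' Y} {c : Bi S T Y} (h : Comm b c) (N : SD k) :
    Comm (b.tensR N) (c.tensR N) :=
  ⟨h.ll.tensRR N, h.lr.tensRR N, h.rl.tensRR N, h.rr.tensRR N⟩

theorem comm_tensL {b : Bi R R' N} {c : Bi S T N} (h : Comm b c) (Y : SD k) :
    Comm (b.tensL Y) (c.tensL Y) :=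
  ⟨h.ll.tensLL Y, h.lr.tensLL Y, h.rl.tensLL Y, h.rr.tensLL Y⟩

theorem crL_isHom (b : Bi R R N) (c : Bi S T Y) :
    (c.tensR (HC b)).IsHom ((b.tensL Y).hc (c.tensR N) (comm_LR b c)) (crL b Y) := by
  constructor
  · intro s v
    refine tens_ext (f := crL0 R.toSD N Y ∘ₗ (c.l.tensR (HC b)).act s)
      (g := hd R (c.l.tensR N) s ∘ₗ crL0 R.toSD N Y) (fun w y => ?_) v
    have e : (c.l.tensR (HC b)).act s (w ⊗ₜ y) = w ⊗ₜ[k] c.l.act (S.P s) y +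
      EW N R.toSD w ⊗ₜ[k] c.l.act (s - S.P s) y := rfl
    rw [LinearMap.comp_apply, e, map_add, crL0_tmul, crL0_tmul, LinearMap.comp_apply,
      crL0_tmul, xl_hdR]
  · intro v s
    refine tens_ext (f := crL0 R.toSD N Y ∘ₗ (c.r.tensR (HC b)).act.flip s)
      (g := (hr R (c.r.tensR N)).flip s ∘ₗ crL0 R.toSD N Y) (fun w y => ?_) v
    exact (xl_hrR c.r y s w).symm

theorem xh_hdL (l : LA S X) (x : X.V) (s : S.V) (w : Wd k N.V R.V) :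
    hd R (l.tensL N) s (xh R.toSD X N x w) = xh R.toSD X N (l.act s x) w := by
  induction w using Wd.induction with
  | hadd a b ha hb => simp only [map_add, ha, hb]
  | hnil n => rw [xh_nil, hd_nil, xh_nil]; rfl
  | hsnoc w hw r =>
    have h1 : ∀ (v : Wd k (X.V ⊗[k] N.V) R.V) (r : R.V), hd R (l.tensL N) s (Wd.snoc v r) =
      Wd.snoc (hd R (l.tensL N) s v) r := fun v r => hd_snoc _ _ _ _
    rw [xh_snoc, h1, hw, xh_snoc]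

theorem xh_hrL (r : RA S X) (x : X.V) (s : S.V) (w : Wd k N.V R.V) :
    hr R (r.tensL N) (xh R.toSD X N x w) s = xh R.toSD X N (r.act x (S.P s)) w +
      xh R.toSD X N (r.act x (s - S.P s)) (EW N R.toSD w) := by
  induction w using Wd.induction generalizing s with
  | hadd a b ha hb => simp only [map_add, ha, hb, LinearMap.add_apply]; abel
  | hnil n =>
    have h1 : hr R (r.tensL N) (Wd.nil (x ⊗ₜ n)) s = Wd.nil (rcl r N (x ⊗ₜ n) s) := hr_nil _ _ _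
    rw [xh_nil, h1, rcl_tmul, EW_nil, xh_nil, xh_nil, map_add]
  | hsnoc w hw a =>
    have h1 : ∀ (v : Wd k (X.V ⊗[k] N.V) R.V) (x : R.V) (s : S.V),
      hr R (r.tensL N) (Wd.snoc v x) s =
      Wd.snoc (hr R (r.tensL N) v (S.P s)) x - Wd.snoc (hr R (r.tensL N) v (s - S.P s)) (R.E x) :=
      fun v x s => hr_snoc _ _ _ _
    rw [xh_snoc, h1, hw, hw, EW_snoc, xh_snoc]
    simp only [map_sub, map_add, map_neg, S.PP, sub_self, map_zero, sub_zero,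
      LinearMap.zero_apply, LinearMap.sub_apply, LinearMap.add_apply, xh_snoc]
    abel

theorem crR_isHom (c : Bi S T X) (b : Bi R R N) :
    (c.tensL (HC b)).IsHom ((b.tensR X).hc (c.tensL N) (comm_LR c b).symm) (crR X b) := by
  constructor
  · intro s v
    refine tens_ext (f := crR0 R.toSD X N ∘ₗ (c.l.tensL (HC b)).act s)
      (g := hd R (c.l.tensL N) s ∘ₗ crR0 R.toSD X N) (fun x w => ?_) v
    exact (xh_hdL c.l x s w).symm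
  · intro v s
    refine tens_ext (f := crR0 R.toSD X N ∘ₗ (c.r.tensL (HC b)).act.flip s)
      (g := (hr R (c.r.tensL N)).flip s ∘ₗ crR0 R.toSD X N) (fun x w => ?_) v
    have e : (c.r.tensL (HC b)).act (x ⊗ₜ w) s = c.r.act x (T.P s) ⊗ₜ[k] w +
      c.r.act x (s - T.P s) ⊗ₜ[k] EW N R.toSD w := rfl
    change crR0 R.toSD X N ((c.r.tensL (HC b)).act (x ⊗ₜ w) s) =
      hr R (c.r.tensL N) (xh R.toSD X N x w) s
    rw [e, map_add, crR0_tmul, crR0_tmul, xh_hrL]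

/-- crossing on the left respects further structures of `N` -/
theorem crR_isHomR (X : SD k) {b : Bi R R N} {c : Bi S T N} (h : Comm b c) :
    ((b.hc c h).tensR X).IsHom ((b.tensR X).hc (c.tensR X) (comm_tensR h X)) (crR X b) := by
  constructor
  · intro s v
    refine tens_ext (f := crR0 R.toSD X N ∘ₗ ((b.hc c h).l.tensR X).act s)
      (g := hd R (c.l.tensR X) s ∘ₗ crR0 R.toSD X N) (fun x w => ?_) v
    have e : ((b.hc c h).l.tensR X).act s (x ⊗ₜ w) = x ⊗ₜ[k] hd R c.l (S.P s) w +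
      X.E x ⊗ₜ[k] hd R c.l (s - S.P s) w := rfl
    rw [LinearMap.comp_apply, e, map_add, crR0_tmul, crR0_tmul, LinearMap.comp_apply,
      crR0_tmul, xh_hd]
  · intro v s
    refine tens_ext (f := crR0 R.toSD X N ∘ₗ ((b.hc c h).r.tensR X).act.flip s)
      (g := (hr R (c.r.tensR X)).flip s ∘ₗ crR0 R.toSD X N) (fun x w => ?_) v
    exact (xh_hr c.r x s w).symm

/-- exterior product -/
noncomputable def mgG (b₁ : Bi R₁ R₁ N) (c₂ : Bi R₂ R₂ Y) :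
    SD.Hom ((HC b₁).tens (HC c₂)) (HC2 (b₁.tensL Y) (c₂.tensR N) (comm_LR b₁ c₂)) :=
  (hcN (c₂.tensR (HC b₁)) ((b₁.tensL Y).hc (c₂.tensR N) (comm_LR b₁ c₂)) (crL b₁ Y)
    (crL_isHom b₁ c₂)).comp (crR (HC b₁) c₂)

/-- exterior product, other order -/
noncomputable def mgG' (b₁ : Bi R₁ R₁ N) (c₂ : Bi R₂ R₂ Y) :
    SD.Hom ((HC b₁).tens (HC c₂)) (HC2 (c₂.tensR N) (b₁.tensL Y) (comm_LR b₁ c₂).symm) :=
  (hcN (b₁.tensL (HC c₂)) ((c₂.tensR N).hc (b₁.tensL Y) (comm_LR b₁ c₂).symm) (crR N c₂)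
    (crR_isHom b₁ c₂)).comp (crL b₁ (HC c₂))

theorem mgG_nil (b₁ : Bi R₁ R₁ N) (c₂ : Bi R₂ R₂ Y) (x : (HC b₁).V) (y : Y.V) :
    (mgG b₁ c₂).f (x ⊗ₜ Wd.nil y) = Wd.nil (xl R₁.toSD N Y x y) := by
  change Wd.mh R₂.V (crL0 R₁.toSD N Y) (xh R₂.toSD (HC b₁) Y x (Wd.nil y)) = _
  rw [xh_nil, Wd.mh_nil]; rfl

theorem mgG_snoc (b₁ : Bi R₁ R₁ N) (c₂ : Bi R₂ R₂ Y) (x : (HC b₁).V) (y : (HC c₂).V)
    (r : R₂.V) : (mgG b₁ c₂).f (x ⊗ₜ Wd.snoc y r) = Wd.snoc ((mgG b₁ c₂).f (x ⊗ₜ y)) r := by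
  change Wd.mh R₂.V (crL0 R₁.toSD N Y) (xh R₂.toSD (HC b₁) Y x (Wd.snoc y r)) = _
  rw [xh_snoc, Wd.mh_snoc]; rfl

theorem mgG'_nil (b₁ : Bi R₁ R₁ N) (c₂ : Bi R₂ R₂ Y) (n : N.V) (y : (HC c₂).V) :
    (mgG' b₁ c₂).f (Wd.nil n ⊗ₜ y) = Wd.nil (xh R₂.toSD N Y n y) := by
  change Wd.mh R₁.V (crR0 R₂.toSD N Y) (xl R₁.toSD N (HC c₂) (Wd.nil n) y) = _
  rw [xl_nil, Wd.mh_nil]; rfl

theorem mgG'_snoc (b₁ : Bi R₁ R₁ N) (c₂ : Bi R₂ R₂ Y) (x : (HC b₁).V) (r : R₁.V)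
    (y : (HC c₂).V) : (mgG' b₁ c₂).f (Wd.snoc x r ⊗ₜ y) =
      Wd.snoc ((mgG' b₁ c₂).f (x ⊗ₜ PW Y R₂.toSD y)) r -
        Wd.snoc ((mgG' b₁ c₂).f (x ⊗ₜ (y - PW Y R₂.toSD y))) (R₁.E r) := by
  change Wd.mh R₁.V (crR0 R₂.toSD N Y) (xl R₁.toSD N (HC c₂) (Wd.snoc x r) y) = _
  rw [xl_snoc, map_sub, Wd.mh_snoc, Wd.mh_snoc]; rfl

theorem ins_mgG' (b₁ : Bi R₁ R₁ N) (c₂ : Bi R₂ R₂ Y) (x : (HC b₁).V) (y : (HC c₂).V)
    (r : R₂.V) : ins R₁ R₂ (N.tens Y) ((mgG' b₁ c₂).f (x ⊗ₜ y)) r =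
      (mgG' b₁ c₂).f (x ⊗ₜ Wd.snoc y r) := by
  induction x using Wd.induction generalizing y r with
  | hadd a b ha hb =>
    simp only [TensorProduct.add_tmul, map_add, LinearMap.add_apply, ha, hb]
  | hnil n => rw [mgG'_nil, mgG'_nil, ins_nil, xh_snoc]
  | hsnoc x hx a =>
    rw [mgG'_snoc, mgG'_snoc, map_sub, LinearMap.sub_apply, ins_snoc, ins_snoc, hx, hx, hx, hx,
      PW_snoc, R₁.EE]
    simp only [TensorProduct.tmul_sub, map_sub, LinearMap.sub_apply, SD.E_apply, map_add,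
      LinearMap.add_apply, TensorProduct.tmul_add]
    abel

/-- the swap exchanges the two exterior products -/
theorem mg_sw (b₁ : Bi R₁ R₁ N) (c₂ : Bi R₂ R₂ Y) (x : (HC b₁).V) (y : (HC c₂).V) :
    (sw (b₁.tensL Y) (c₂.tensR N) (comm_LR b₁ c₂)).f ((mgG b₁ c₂).f (x ⊗ₜ y)) =
      (mgG' b₁ c₂).f (x ⊗ₜ y) := by
  change sw0 R₁ R₂ (N.tens Y) ((mgG b₁ c₂).f (x ⊗ₜ y)) = (mgG' b₁ c₂).f (x ⊗ₜ y)
  induction y using Wd.induction with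
  | hadd a b ha hb => simp only [TensorProduct.tmul_add, map_add, ha, hb]
  | hsnoc y hy r => rw [mgG_snoc, sw0_snoc, hy, ins_mgG']
  | hnil y =>
    rw [mgG_nil, sw0_nil]
    change Wd.mh R₁.V Wd.nil (xl R₁.toSD N Y x y) = _
    induction x using Wd.induction generalizing y with
    | hadd a b ha hb =>
      simp only [TensorProduct.add_tmul, map_add, LinearMap.add_apply, ha, hb]
    | hnil n => rw [xl_nil, Wd.mh_nil, mgG'_nil, xh_nil]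
    | hsnoc x hx r =>
      rw [xl_snoc, map_sub, Wd.mh_snoc, Wd.mh_snoc, hx, hx, mgG'_snoc, PW_nil, ← map_sub]

theorem mgG_bij (b₁ : Bi R₁ R₁ N) (c₂ : Bi R₂ R₂ Y) : Function.Bijective (mgG b₁ c₂).f := by
  have h1 := crL_bij R₁.toSD N Y
  have h2 : Function.Bijective (Wd.mh R₂.V (crL0 R₁.toSD N Y)) :=
    ⟨Wd.mh_injective h1.1, Wd.mh_surjective h1.2⟩
  exact h2.comp (crR_bij R₂.toSD (HC b₁) Y)

/-- the exterior product respects a further structure of `Y` -/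
theorem mgG_isHom (b₁ : Bi R₁ R₁ N) {c₂ : Bi R₂ R₂ Y} {c₃ : Bi R₃ R₃ Y} (h : Comm c₂ c₃) :
    ((c₂.hc c₃ h).tensR (HC b₁)).IsHom
      (((b₁.tensL Y).hc (c₂.tensR N) (comm_LR b₁ c₂)).hc
        ((b₁.tensL Y).hc (c₃.tensR N) (comm_LR b₁ c₃))
        (Comm.hc (comm_LR b₁ c₂) (comm_LR b₁ c₃) (comm_tensR h N))) (mgG b₁ c₂) :=
  (crR_isHomR (HC b₁) h).comp
    (hcN_isHom (comm_tensR h (HC b₁)) (Comm.hc (comm_LR b₁ c₂) (comm_LR b₁ c₃) (comm_tensR h N))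
      (crL_isHom b₁ c₂) (crL_isHom b₁ c₃))

/-- naturality of the exterior product -/
theorem mgG_nat {b₁ : Bi R₁ R₁ N} {b₁' : Bi R₁ R₁ N'} {c₂ : Bi R₂ R₂ Y} {c₂' : Bi R₂ R₂ Y'}
    (f : SD.Hom N N') (hf : b₁.IsHom b₁' f) (g : SD.Hom Y Y') (hg : c₂.IsHom c₂' g)
    (h1 : (b₁.tensL Y).IsHom (b₁'.tensL Y') (f.tens g))
    (h2 : (c₂.tensR N).IsHom (c₂'.tensR N') (f.tens g)) (x : (HC b₁).V) (y : (HC c₂).V) :
    (hc2 (comm_LR b₁ c₂) (comm_LR b₁' c₂') (f.tens g) h1 h2).f ((mgG b₁ c₂).f (x ⊗ₜ y)) =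
      (mgG b₁' c₂').f ((hcN b₁ b₁' f hf).f x ⊗ₜ (hcN c₂ c₂' g hg).f y) := by
  change Wd.mh R₂.V (hcN (b₁.tensL Y) (b₁'.tensL Y') (f.tens g) h1).f
    ((mgG b₁ c₂).f (x ⊗ₜ y)) = (mgG b₁' c₂').f ((hcN b₁ b₁' f hf).f x ⊗ₜ Wd.mh R₂.V g.f y)
  induction y using Wd.induction with
  | hadd a b ha hb => simp only [TensorProduct.tmul_add, map_add, ha, hb]
  | hnil y =>
    rw [mgG_nil, Wd.mh_nil, Wd.mh_nil, mgG_nil]
    exact congrArg Wd.nil (xl_map f.f g.f g.P x y)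
  | hsnoc y hy r => rw [mgG_snoc, Wd.mh_snoc, Wd.mh_snoc, mgG_snoc, hy]

/-- the triple of structures on `N ⊗ Y` -/
noncomputable def triT (b₁ : Bi R₁ R₁ N) {c₂ : Bi R₂ R₂ Y} {c₃ : Bi R₃ R₃ Y}
    (h : Comm c₂ c₃) : Tri R₁ R₂ R₃ (N.tens Y) where
  b₁ := b₁.tensL Y
  b₂ := c₂.tensR N
  b₃ := c₃.tensR N
  h₁₂ := comm_LR b₁ c₂
  h₁₃ := comm_LR b₁ c₃
  h₂₃ := comm_tensR h N

/-- the triple exterior product -/
noncomputable def MGG (b₁ : Bi R₁ R₁ N) {c₂ : Bi R₂ R₂ Y} {c₃ : Bi R₃ R₃ Y}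
    (h : Comm c₂ c₃) : SD.Hom ((HC b₁).tens (HC2 c₂ c₃ h)) (HC3 (triT b₁ h)) :=
  (hcN ((c₂.hc c₃ h).tensR (HC b₁)) (triT b₁ h).d (mgG b₁ c₂) (mgG_isHom b₁ h)).comp
    (crR (HC b₁) (c₂.hc c₃ h))

theorem MGG_nil (b₁ : Bi R₁ R₁ N) {c₂ : Bi R₂ R₂ Y} {c₃ : Bi R₃ R₃ Y}
    (h : Comm c₂ c₃) (x : (HC b₁).V) (y : (HC c₂).V) :
    (MGG b₁ h).f (x ⊗ₜ Wd.nil y) = Wd.nil ((mgG b₁ c₂).f (x ⊗ₜ y)) := by
  change Wd.mh R₃.V (mgG b₁ c₂).f (xh R₃.toSD (HC b₁) (HC c₂) x (Wd.nil y)) = _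
  rw [xh_nil, Wd.mh_nil]

theorem MGG_snoc (b₁ : Bi R₁ R₁ N) {c₂ : Bi R₂ R₂ Y} {c₃ : Bi R₃ R₃ Y}
    (h : Comm c₂ c₃) (x : (HC b₁).V) (y : (HC2 c₂ c₃ h).V) (r : R₃.V) :
    (MGG b₁ h).f (x ⊗ₜ Wd.snoc y r) = Wd.snoc ((MGG b₁ h).f (x ⊗ₜ y)) r := by
  change Wd.mh R₃.V (mgG b₁ c₂).f (xh R₃.toSD (HC b₁) (HC c₂) x (Wd.snoc y r)) = _
  rw [xh_snoc, Wd.mh_snoc]; rfl

/-- naturality of the triple exterior product -/
theorem MGG_nat {b₁ : Bi R₁ R₁ N} {c₂ : Bi R₂ R₂ Y} {c₃ : Bi R₃ R₃ Y}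
    {c₂' : Bi R₂ R₂ Y'} {c₃' : Bi R₃ R₃ Y'} (h : Comm c₂ c₃) (h' : Comm c₂' c₃')
    (g : SD.Hom Y Y') (hg2 : c₂.IsHom c₂' g) (hg3 : c₃.IsHom c₃' g)
    (ht : (triT b₁ h).IsHom (triT b₁ h') ((SD.Hom.id N).tens g))
    (x : (HC b₁).V) (y : (HC2 c₂ c₃ h).V) :
    (hc3 ht).f ((MGG b₁ h).f (x ⊗ₜ y)) =
      (MGG b₁ h').f (x ⊗ₜ (hc2 h h' g hg2 hg3).f y) := by
  change Wd.mh R₃.V (hc2 (comm_LR b₁ c₂) (comm_LR b₁ c₂') ((SD.Hom.id N).tens g) ht.h1 ht.h2).f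
    ((MGG b₁ h).f (x ⊗ₜ y)) = (MGG b₁ h').f (x ⊗ₜ Wd.mh R₃.V (hcN c₂ c₂' g hg2).f y)
  induction y using Wd.induction with
  | hadd a b ha hb => simp only [TensorProduct.tmul_add, map_add, ha, hb]
  | hnil y =>
    rw [MGG_nil, Wd.mh_nil, Wd.mh_nil, MGG_nil]
    refine congrArg Wd.nil ((mgG_nat (SD.Hom.id N) (Bi.isHom_id b₁) g hg2 ht.h1 ht.h2 x y).trans ?_)
    have e : (hcN b₁ b₁ (SD.Hom.id N) (Bi.isHom_id b₁)).f x = x := Wd.mh_id x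
    rw [e]
  | hsnoc y hy r => rw [MGG_snoc, Wd.mh_snoc, Wd.mh_snoc, MGG_snoc, hy]

/-- the partial trace of an exterior product -/
theorem TR_MGG {b₁ : Bi R₁ R₁ N} {c₂ : Bi R₂ R₂ Y} {c₃ : Bi R₃ R₃ Y} (h : Comm c₂ c₃)
    (t : SD.Hom Y (SD.unit k)) (ht2 : Cyc c₂ t) (ht3 : Cyc c₃ t) (g : SD.Hom (N.tens Y) N)
    (hg : ∀ n y, g.f (n ⊗ₜ y) = (t.f y : k) • n)
    (h1 : (triT b₁ h).b₁.IsHom b₁ g) (h2 : Cyc (triT b₁ h).b₂ g) (h3 : Cyc (triT b₁ h).b₃ g)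
    (x : (HC b₁).V) (y : (HC2 c₂ c₃ h).V) :
    (TR (triT b₁ h) b₁ g h1 h2 h3).f ((MGG b₁ h).f (x ⊗ₜ y)) =
      ((tr2 h t ht2 ht3).f y : k) • x := by
  induction y using Wd.induction with
  | hadd a b ha hb =>
    simp only [TensorProduct.tmul_add, map_add, ha, hb]
    exact (add_smul _ _ _).symm
  | hsnoc y _ r =>
    rw [MGG_snoc, TR_snoc, tr2_snoc]
    exact (zero_smul k x).symm
  | hnil y =>
    rw [MGG_nil]
    induction y using Wd.induction with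
    | hadd a b ha hb =>
      simp only [TensorProduct.tmul_add, map_add, ha, hb]
      exact (add_smul _ _ _).symm
    | hsnoc y _ r =>
      rw [mgG_snoc, TR_nil_snoc, tr2_nil_snoc]
      exact (zero_smul k x).symm
    | hnil y =>
      rw [mgG_nil, TR_nil_nil, tr2_nil_nil]
      induction x using Wd.induction generalizing y with
      | hadd a b ha hb =>
        simp only [map_add, LinearMap.add_apply, ha, hb]
        exact (smul_add _ _ _).symm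
      | hnil n =>
        rw [xl_nil, Wd.mh_nil, hg]
        exact map_smul Wd.nil _ _
      | hsnoc x hx r =>
        have e1 : t.f (Y.P y) = t.f y := t.P y
        have e2 : t.f (y - Y.P y) = 0 := by rw [map_sub, e1, sub_self]
        rw [xl_snoc, map_sub, Wd.mh_snoc, Wd.mh_snoc, hx, hx, e1, e2]
        have e3 : ((0 : (SD.unit k).V) : k) • x = 0 := zero_smul k x
        rw [e3, map_zero, LinearMap.zero_apply, sub_zero, map_smul, LinearMap.smul_apply]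

end mg

end NC
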