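import Pool.Agent.H16.NC.RxL
import Pool.Agent.H16.NC.Cen
import Pool.Agent.H16.NC.Mg
import Pool.Agent.H16.NC.Kap
import Pool.Agent.H16.NC.Du

/-!
# The map `gam : A ⊗ A → hom(A, A)`, `a ⊗ c ↦ (a' ↦ ± a a' c)` (base file, helper16)
-/

open scoped TensorProduct

namespace NC

variable {k : Type} [Field k]

section

variable {S T T' : DGA k} {C Θ : SD k}

theorem actC_isHomR {d : Bi S S Θ} {c : Bi T T' Θ} {c' : Bi T T' C} (h : Comm d c)
    {ι : SD.Hom C Θ} (hι : c'.IsHom c ι) : (c'.tensR S.toSD).IsHom c (actC d ι) := by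
  have hl : ∀ s v, ι.f (c'.l.act s v) = c.l.act s (ι.f v) := hι.l
  have hr : ∀ v s, ι.f (c'.r.act v s) = c.r.act (ι.f v) s := hι.r
  constructor
  · intro s v
    refine tens_ext (f := (actC d ι).f ∘ₗ (c'.tensR S.toSD).l.act s)
      (g := c.l.act s ∘ₗ (actC d ι).f) (fun a x => ?_) v
    have e1 : (c'.tensR S.toSD).l.act s (a ⊗ₜ x) = a ⊗ₜ[k] c'.l.act (T.P s) x +
      S.E a ⊗ₜ[k] c'.l.act (s - T.P s) x := rfl
    rw [LinearMap.comp_apply, e1, map_add, actC_tmul, actC_tmul, hl, hl, h.ll.even, h.ll.odd,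
      ← LinearMap.add_apply, ← map_add, add_sub_cancel]
    rfl
  · intro v s
    refine tens_ext (f := (actC d ι).f ∘ₗ (c'.tensR S.toSD).r.act.flip s)
      (g := c.r.act.flip s ∘ₗ (actC d ι).f) (fun a x => ?_) v
    have e1 : (c'.tensR S.toSD).r.act (a ⊗ₜ x) s = a ⊗ₜ[k] c'.r.act x s := rfl
    change (actC d ι).f ((c'.tensR S.toSD).r.act (a ⊗ₜ x) s) = c.r.act ((actC d ι).f (a ⊗ₜ x)) s
    rw [e1, actC_tmul, actC_tmul, hr]
    exact (h.lr a (ι.f x) s).symm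

end

/-- right multiplications, with the Koszul sign -/
noncomputable abbrev rxA (A : DGA k) : SD.Hom A.toSD (SD.hom A.toSD A.toSD) := rx A.diag.l

theorem rxA_apply (A : DGA k) (c a : A.V) :
    (rxA A).f c a = A.P a * c + (a - A.P a) * A.E c := rfl

theorem rxA_E2 (A : DGA k) : A.diag.IsHom (E2 A.diag) (rxA A) :=
  ⟨rx_preR A.diag.l, rx_postR A.diag.lr⟩

theorem rxA_cen (A : DGA k) : Central (E1 A.diag) (rxA A) := rx_central A.diag.l

/-- `a ⊗ c ↦ (a' ↦ ± a a' c)` -/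
noncomputable def gam (A : DGA k) : SD.Hom (QQ A) (SD.hom A.toSD A.toSD) :=
  actC (E1 A.diag) (rxA A)

theorem gam_tmul (A : DGA k) (a c a' : A.V) :
    (gam A).f (a ⊗ₜ c) a' = a * (A.P a' * c + (a' - A.P a') * A.E c) := rfl

theorem gam_E1 (A : DGA k) : (bQ1 A).IsHom (E1 A.diag) (gam A) := actC_isHom (rxA_cen A)

theorem gam_E2 (A : DGA k) : (bQ2 A).IsHom (E2 A.diag) (gam A) :=
  actC_isHomR (E1_E2 A.diag) (rxA_E2 A)

end NC
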