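import Pool.Agent.H16.NC.HC

/-!
# Hom complexes (base file, helper16)

`SD.hom M Z` all linear maps; `HomR` right linear maps; `HomBi` bimodule maps (left linearity in
the super sense `f (a x) = (-1)^(|f||a|) a f(x)`); composition; endomorphism dg algebras.
-/

open scoped TensorProduct

namespace NC

variable {k : Type} [Field k]

namespace SD

/-- the sub differential module on a subspace stable under `D` and `P` -/
abbrev sub (N : SD k) (S : Submodule k N.V) (hD : ∀ x ∈ S, N.D x ∈ S)
    (hP : ∀ x ∈ S, N.P x ∈ S) : SD k where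
  V := S
  D := N.D.restrict hD
  P := N.P.restrict hP
  DD := fun v => Subtype.ext (N.DD v.1)
  PP := fun v => Subtype.ext (N.PP v.1)
  DP := fun v => Subtype.ext (N.DP v.1)

theorem sub_E (N : SD k) (S : Submodule k N.V) (hD hP) (x : S) :
    ((N.sub S hD hP).E x).1 = N.E x.1 := rfl

/-- even part of a linear map -/
def hP (M Z : SD k) : (M.V →ₗ[k] Z.V) →ₗ[k] (M.V →ₗ[k] Z.V) where
  toFun f := Z.P ∘ₗ f ∘ₗ M.P + (LinearMap.id - Z.P) ∘ₗ f ∘ₗ (LinearMap.id - M.P)
  map_add' f g := by ext x; simp; abel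
  map_smul' c f := by ext x; simp [smul_sub, smul_add]

theorem hP_apply (M Z : SD k) (f : M.V →ₗ[k] Z.V) (x : M.V) :
    hP M Z f x = Z.P (f (M.P x)) + (f (x - M.P x) - Z.P (f (x - M.P x))) := rfl

/-- conjugation with the parity automorphisms -/
def hE (M Z : SD k) : (M.V →ₗ[k] Z.V) →ₗ[k] (M.V →ₗ[k] Z.V) :=
  hP M Z + hP M Z - LinearMap.id

theorem hE_apply (M Z : SD k) (f : M.V →ₗ[k] Z.V) (x : M.V) :
    hE M Z f x = Z.E (f (M.E x)) := by
  simp only [hE, LinearMap.sub_apply, LinearMap.add_apply, LinearMap.id_apply, hP_apply,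
    SD.E_apply, map_sub, map_add]
  abel

/-- differential of a linear map -/
def hD (M Z : SD k) : (M.V →ₗ[k] Z.V) →ₗ[k] (M.V →ₗ[k] Z.V) where
  toFun f := Z.D ∘ₗ f - hE M Z f ∘ₗ M.D
  map_add' f g := by ext x; simp; abel
  map_smul' c f := by ext x; simp [smul_sub]

theorem hD_apply (M Z : SD k) (f : M.V →ₗ[k] Z.V) (x : M.V) :
    hD M Z f x = Z.D (f x) - Z.E (f (M.E (M.D x))) := by
  change Z.D (f x) - hE M Z f (M.D x) = _
  rw [hE_apply]

/-- all linear maps -/
abbrev hom (M Z : SD k) : SD k where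
  V := M.V →ₗ[k] Z.V
  D := hD M Z
  P := hP M Z
  DD := fun f => by
    ext x
    simp only [hD_apply, Z.DD, M.DD, map_sub, zero_sub, map_neg, map_zero, Z.DE,
      LinearMap.zero_apply, M.DE, Z.EE, M.EE]
    abel
  PP := fun f => by
    ext x
    simp only [hP_apply, map_sub, map_add, Z.PP, M.PP, sub_self, add_zero, sub_zero, map_zero]
    abel
  DP := fun f => by
    ext x
    simp only [hD_apply, hP_apply, LinearMap.sub_apply, SD.E_apply, map_sub, map_add, Z.DP, M.DP,
      Z.PP, M.PP]
    abel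

theorem hom_D (M Z : SD k) (f : M.V →ₗ[k] Z.V) (x : M.V) :
    (hom M Z).D f x = Z.D (f x) - Z.E (f (M.E (M.D x))) := hD_apply M Z f x

theorem hom_E (M Z : SD k) (f : M.V →ₗ[k] Z.V) (x : M.V) :
    (hom M Z).E f x = Z.E (f (M.E x)) := hE_apply M Z f x

end SD

section

variable {A B : DGA k} {M Z : SD k}

/-- right linear maps -/
def rLin (rM : RA B M) (rZ : RA B Z) : Submodule k (M.V →ₗ[k] Z.V) where
  carrier := {f | ∀ x b, f (rM.act x b) = rZ.act (f x) b}
  add_mem' := fun {f g} hf hg x b => by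
    simp only [LinearMap.add_apply, map_add]
    rw [hf x b, hg x b]
  zero_mem' := fun x b => by simp
  smul_mem' := fun c f hf x b => by
    simp only [LinearMap.smul_apply, map_smul]
    rw [hf x b]

/-- left linear maps in the super sense -/
def lLin (lM : LA A M) (lZ : LA A Z) : Submodule k (M.V →ₗ[k] Z.V) where
  carrier := {f | ∀ a x, f (lM.act a x) = lZ.act a (SD.hP M Z f x) +
    lZ.act (A.E a) (f x - SD.hP M Z f x)}
  add_mem' := fun {f g} hf hg a x => by
    simp only [LinearMap.add_apply, map_add, map_sub]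
    rw [hf a x, hg a x]
    simp only [map_sub]; abel
  zero_mem' := fun a x => by simp
  smul_mem' := fun c f hf a x => by
    simp only [LinearMap.smul_apply, map_smul, map_sub]
    rw [hf a x]
    simp only [map_sub, smul_add, smul_sub]

theorem rLin_P (rM : RA B M) (rZ : RA B Z) (f : M.V →ₗ[k] Z.V) (hf : f ∈ rLin rM rZ) :
    SD.hP M Z f ∈ rLin rM rZ := by
  intro x b
  have hf' : ∀ x b, f (rM.act x b) = rZ.act (f x) b := hf
  simp only [SD.hP_apply, map_sub, map_add, LinearMap.sub_apply, LinearMap.add_apply, rM.P_act,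
    hf', rZ.P_act, M.PP, B.PP]
  abel

theorem rLin_D (rM : RA B M) (rZ : RA B Z) (f : M.V →ₗ[k] Z.V) (hf : f ∈ rLin rM rZ) :
    SD.hD M Z f ∈ rLin rM rZ := by
  intro x b
  have hf' : ∀ x b, f (rM.act x b) = rZ.act (f x) b := hf
  simp only [SD.hD_apply, map_sub, map_add, LinearMap.sub_apply, rM.D_act,
    hf', rZ.D_act, rM.E_act, rZ.E_act, M.EE, B.EE]
  abel

theorem lLin_P (lM : LA A M) (lZ : LA A Z) (f : M.V →ₗ[k] Z.V) (hf : f ∈ lLin lM lZ) :
    SD.hP M Z f ∈ lLin lM lZ := by
  intro a x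
  have hf' : ∀ a x, f (lM.act a x) = lZ.act a (SD.hP M Z f x) +
    lZ.act (A.E a) (f x - SD.hP M Z f x) := hf
  simp only [SD.hP_apply, map_sub, map_add, LinearMap.sub_apply, LinearMap.add_apply, lM.P_act,
    hf', lZ.P_act, M.PP, A.PP, Z.PP, SD.E_apply, sub_self, map_zero, sub_zero, add_zero,
    LinearMap.zero_apply, smul_zero]
  abel

theorem lLin_D (lM : LA A M) (lZ : LA A Z) (f : M.V →ₗ[k] Z.V) (hf : f ∈ lLin lM lZ) :
    SD.hD M Z f ∈ lLin lM lZ := by
  intro a x
  have hf' : ∀ a x, f (lM.act a x) = lZ.act a (SD.hP M Z f x) +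
    lZ.act (A.E a) (f x - SD.hP M Z f x) := hf
  simp only [SD.hD_apply, SD.hP_apply, map_sub, map_add, LinearMap.sub_apply,
    LinearMap.add_apply, lM.P_act, lM.D_act, lM.E_act, lZ.E_act, lZ.D_act,
    hf', lZ.P_act, M.PP, A.PP, Z.PP, SD.E_apply, sub_self, map_zero, sub_zero, add_zero,
    zero_add, zero_sub, map_neg, LinearMap.neg_apply, M.DP, Z.DP, A.DP]
  abel

/-- the complex of right linear maps -/
abbrev HomR (rM : RA B M) (rZ : RA B Z) : SD k :=
  (SD.hom M Z).sub (rLin rM rZ) (rLin_D rM rZ) (rLin_P rM rZ)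

/-- the complex of bimodule maps -/
abbrev HomBi (bM : Bi A B M) (bZ : Bi A B Z) : SD k :=
  (SD.hom M Z).sub (lLin bM.l bZ.l ⊓ rLin bM.r bZ.r)
    (fun x hx => ⟨lLin_D _ _ x hx.1, rLin_D _ _ x hx.2⟩)
    (fun x hx => ⟨lLin_P _ _ x hx.1, rLin_P _ _ x hx.2⟩)

end

/-! ### actions on spaces of linear maps -/

section

variable {S : DGA k} {M Z : SD k}

/-- an action restricts to a stable subspace -/
def LA.sub {N : SD k} (x : LA S N) (T : Submodule k N.V) (hD) (hP)
    (h : ∀ s, ∀ v ∈ T, x.act s v ∈ T) : LA S (N.sub T hD hP) where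
  act := LinearMap.mk₂ k (fun s v => (⟨x.act s v.1, h s v.1 v.2⟩ : T))
    (fun s s' v => Subtype.ext (by simp)) (fun c s v => Subtype.ext (by simp))
    (fun s v v' => Subtype.ext (by simp)) (fun c s v => Subtype.ext (by simp))
  mul_act := fun a b y => Subtype.ext (x.mul_act a b y.1)
  P_act := fun a y => Subtype.ext (x.P_act a y.1)
  D_act := fun a y => Subtype.ext (x.D_act a y.1)

/-- an action restricts to a stable subspace -/
def RA.sub {N : SD k} (x : RA S N) (T : Submodule k N.V) (hD) (hP)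
    (h : ∀ s, ∀ v ∈ T, x.act v s ∈ T) : RA S (N.sub T hD hP) where
  act := LinearMap.mk₂ k (fun v s => (⟨x.act v.1 s, h s v.1 v.2⟩ : T))
    (fun s s' v => Subtype.ext (by simp)) (fun c s v => Subtype.ext (by simp))
    (fun s v v' => Subtype.ext (by simp)) (fun c s v => Subtype.ext (by simp))
  act_mul := fun y a b => Subtype.ext (x.act_mul y.1 a b)
  P_act := fun y a => Subtype.ext (x.P_act y.1 a)
  D_act := fun y a => Subtype.ext (x.D_act y.1 a)

/-- left action on linear maps through the target -/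
def LA.post (M : SD k) (l : LA S Z) : LA S (SD.hom M Z) where
  act := LinearMap.llcomp k M.V Z.V Z.V ∘ₗ l.act
  mul_act := fun a b f => by ext x; simp [l.mul_act]
  P_act := fun a f => by
    ext x
    simp only [SD.hP_apply, LinearMap.comp_apply, LinearMap.llcomp_apply, l.P_act, map_sub,
      map_add, LinearMap.add_apply, LinearMap.sub_apply, S.PP, Z.PP]
    abel
  D_act := fun a f => by
    ext x
    simp only [SD.hD_apply, LinearMap.comp_apply, LinearMap.llcomp_apply, l.D_act, l.E_act,
      map_sub, map_add, LinearMap.add_apply, LinearMap.sub_apply]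
    abel

/-- right action on linear maps through a left action on the source -/
def LA.pre (Z : SD k) (l : LA S M) : RA S (SD.hom M Z) where
  act := (LinearMap.llcomp k M.V M.V Z.V).compl₂ l.act
  act_mul := fun f a b => by ext x; simp [l.mul_act]
  P_act := fun f a => by
    ext x
    simp only [SD.hP_apply, LinearMap.compl₂_apply, LinearMap.llcomp_apply, map_sub,
      map_add, LinearMap.add_apply, LinearMap.sub_apply, l.P_act, S.PP, M.PP, Z.PP]
    abel
  D_act := fun f a => by
    have hE : (SD.hom M Z).E f = SD.hE M Z f := rfl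
    rw [hE]
    ext x
    simp only [SD.hD_apply, LinearMap.compl₂_apply, LinearMap.llcomp_apply, l.D_act, l.E_act,
      map_add, LinearMap.add_apply, SD.hE_apply, M.EE, S.EE]
    abel

/-- right action on linear maps through the target: `(f s)(x) = (-1)^(|s||x|) f(x) s` -/
def RA.post (M : SD k) (r : RA S Z) : RA S (SD.hom M Z) where
  act := LinearMap.mk₂ k
    (fun f s => r.act.flip (S.P s) ∘ₗ f + r.act.flip (s - S.P s) ∘ₗ f ∘ₗ M.E)
    (fun f f' s => by ext x; simp; abel) (fun c f s => by ext x; simp [smul_add, smul_sub])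
    (fun f s s' => by ext x; simp; abel) (fun c f s => by ext x; simp [smul_add, smul_sub])
  act_mul := fun f a b => by
    have hP : S.P (a * b) = S.P a * S.P b + (a - S.P a) * (b - S.P b) := S.P_mul a b
    ext x
    simp only [LinearMap.mk₂_apply, LinearMap.add_apply, LinearMap.comp_apply,
      LinearMap.flip_apply, map_add, LinearMap.sub_apply, r.act_mul, M.EE, hP, mul_sub, sub_mul,
      map_sub]
    abel
  P_act := fun f a => by
    ext x
    simp only [SD.hP_apply, LinearMap.mk₂_apply, LinearMap.add_apply, LinearMap.comp_apply,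
      LinearMap.flip_apply, map_sub, M.EP, M.PE,
      map_add, LinearMap.sub_apply, r.P_act, S.PP, M.PP, Z.PP, SD.E_apply]
    abel
  D_act := fun f a => by
    have hE : (SD.hom M Z).E f = SD.hE M Z f := rfl
    rw [hE]
    ext x
    simp only [SD.hD_apply, LinearMap.mk₂_apply, LinearMap.add_apply, LinearMap.comp_apply,
      LinearMap.flip_apply, map_sub, SD.hE_apply, r.D_act, r.E_act,
      map_add, LinearMap.sub_apply, S.PP, M.PP, S.DP, M.DP, SD.E_apply]
    abel

end

end NC
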