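import Pool.Agent.H16.NC.EDat
import Pool.Agent.H9.NC.Coh

/-!
# ZB : the contraction is a quasi-isomorphism for the free bimodule

`Z = A ⊗ A` with the bimodule structure `bIn A` (`= (BMod.free A A).b`).
`GG (bIn A) (bMv bM) = HC ((bIn A).bar (bMv bM))`, `Mv bM = HomBi bM (bOut A)`.

1. `augVL A.toSD (bMv bM).l : Bar (A.diag.r.tensR A) _ → A ⊗ Mv`, `(z1 ⊗ z2) ⊗ ξ ↦ z1 ⊗ z2 ξ`
   (H28/NC/BarMap.lean: `qi_augVL`, `augVL_isHom A.diag.l (bMv bM)`); `(bIn A).r` is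
   `A.diag.r.tensR A.toSD` and `(bIn A).l` is `A.diag.l.tensL A.toSD` by definition.
2. `HC (Bi.tensLR A.diag.l (bMv bM).r) → Mv`, `frAug (bMv bM).r` (H15/NC/HCFree.lean),
   `z1 ⊗ ξ ↦ (-1)^(|z1||ξ|) ξ z1`, `frAug_QI`.
3. `swBi : Mv bM → HomBi bM (bIn A)`, composition with the swap
   `swQ : Q → Q, b ⊗ a ↦ (-1)^(|a||b|) a ⊗ b` (a bimodule isomorphism `bOut A → bIn A`), is
   bijective.
The contraction is the composition of these three maps (`free_comp`, check on the pieces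
`Wd.nil (Wd.nil (z1 ⊗ z2) ⊗ ξ)`; both sides vanish on longer words):
`kap (z1 ⊗ z2) (b ⊗ a) = (-1)^(|a|(|z1|+|z2|+|b|)) a z1 ⊗ z2 b`.
-/

open scoped TensorProduct

namespace NC

variable {k : Type} [Field k] {A : DGA k} {M : SD k}

private theorem ZB_D_odd (v : A.V) : A.D (v - A.P v) = A.P (A.D v) := by
  rw [map_sub, A.DP]; abel

private theorem ZB_P_odd (v : A.V) : A.P (v - A.P v) = 0 := by
  rw [map_sub, A.PP, sub_self]

private theorem ZB_EP (v : A.V) : A.E v - A.P v = -(v - A.P v) := by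
  rw [A.E_apply]; abel

/-- the linear map of `swQ` -/
private noncomputable def ZB_sw (A : DGA k) : A.V ⊗[k] A.V →ₗ[k] A.V ⊗[k] A.V :=
  TensorProduct.lift (LinearMap.mk₂ k (fun b a => A.P a ⊗ₜ[k] b + (a - A.P a) ⊗ₜ[k] A.E b)
    (fun b b' a => by
      simp only [map_add, TensorProduct.tmul_add]; abel)
    (fun c b a => by simp only [map_smul, TensorProduct.tmul_smul, smul_add])
    (fun b a a' => by
      simp only [map_add, TensorProduct.add_tmul, TensorProduct.sub_tmul]; abel)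
    (fun c b a => by
      simp only [map_smul, TensorProduct.smul_tmul', smul_add, ← smul_sub]))

private theorem ZB_sw_tmul (b a : A.V) :
    ZB_sw A (b ⊗ₜ a) = A.P a ⊗ₜ[k] b + (a - A.P a) ⊗ₜ[k] A.E b := rfl

private theorem ZB_sw_D (v : A.V ⊗[k] A.V) :
    ZB_sw A (SD.tD A.toSD A.toSD v) = SD.tD A.toSD A.toSD (ZB_sw A v) := by
  refine tens_ext (f := ZB_sw A ∘ₗ SD.tD A.toSD A.toSD) (g := SD.tD A.toSD A.toSD ∘ₗ ZB_sw A)
    (fun b a => ?_) v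
  have h1 : ZB_sw A (SD.tD A.toSD A.toSD (b ⊗ₜ a)) =
      (A.P a ⊗ₜ[k] A.D b + (a - A.P a) ⊗ₜ[k] A.E (A.D b)) +
      (A.P (A.D a) ⊗ₜ[k] A.E b + (A.D a - A.P (A.D a)) ⊗ₜ[k] b) := by
    rw [SD.tD_tmul, map_add, ZB_sw_tmul, ZB_sw_tmul, A.EE]
  have h2 : SD.tD A.toSD A.toSD (ZB_sw A (b ⊗ₜ a)) =
      ((A.D a - A.P (A.D a)) ⊗ₜ[k] b + A.P a ⊗ₜ[k] A.D b) +
      (A.P (A.D a) ⊗ₜ[k] A.E b + (a - A.P a) ⊗ₜ[k] A.E (A.D b)) := by
    rw [ZB_sw_tmul, map_add, SD.tD_tmul, SD.tD_tmul, ZB_D_odd, A.DP, A.EP, A.E_odd, A.DE,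
      TensorProduct.neg_tmul, TensorProduct.tmul_neg, neg_neg]
  rw [LinearMap.comp_apply, LinearMap.comp_apply, h1, h2]
  abel

private theorem ZB_sw_P (v : A.V ⊗[k] A.V) :
    ZB_sw A (SD.tP A.toSD A.toSD v) = SD.tP A.toSD A.toSD (ZB_sw A v) := by
  refine tens_ext (f := ZB_sw A ∘ₗ SD.tP A.toSD A.toSD) (g := SD.tP A.toSD A.toSD ∘ₗ ZB_sw A)
    (fun b a => ?_) v
  have h1 : ZB_sw A (SD.tP A.toSD A.toSD (b ⊗ₜ a)) =
      A.P a ⊗ₜ[k] A.P b - (a - A.P a) ⊗ₜ[k] (b - A.P b) := by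
    rw [SD.tP_tmul, map_add, ZB_sw_tmul, ZB_sw_tmul, A.PP, ZB_P_odd, A.EP, A.E_odd, sub_self,
      TensorProduct.zero_tmul, TensorProduct.zero_tmul, add_zero, zero_add, sub_zero,
      TensorProduct.tmul_neg]
    exact (sub_eq_add_neg _ _).symm
  have h2 : SD.tP A.toSD A.toSD (ZB_sw A (b ⊗ₜ a)) =
      A.P a ⊗ₜ[k] A.P b - (a - A.P a) ⊗ₜ[k] (b - A.P b) := by
    rw [ZB_sw_tmul, map_add, SD.tP_tmul, SD.tP_tmul, A.PP, ZB_P_odd, A.PE, ZB_EP, sub_self,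
      TensorProduct.zero_tmul, TensorProduct.zero_tmul, add_zero, zero_add, sub_zero,
      TensorProduct.tmul_neg]
    exact (sub_eq_add_neg _ _).symm
  rw [LinearMap.comp_apply, LinearMap.comp_apply, h1, h2]

/-- `b ⊗ a ↦ (-1)^(|a||b|) a ⊗ b` -/
noncomputable def swQ (A : DGA k) : SD.Hom (QQ A) (QQ A) where
  f := TensorProduct.lift (LinearMap.mk₂ k (fun b a => A.P a ⊗ₜ[k] b + (a - A.P a) ⊗ₜ[k] A.E b)
    (fun b b' a => by
      simp only [map_add, TensorProduct.tmul_add]; abel)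
    (fun c b a => by simp only [map_smul, TensorProduct.tmul_smul, smul_add])
    (fun b a a' => by
      simp only [map_add, TensorProduct.add_tmul, TensorProduct.sub_tmul]; abel)
    (fun c b a => by
      simp only [map_smul, TensorProduct.smul_tmul', smul_add, ← smul_sub]))
  D := ZB_sw_D
  P := ZB_sw_P

theorem swQ_tmul (b a : A.V) : (swQ A).f (b ⊗ₜ a) = A.P a ⊗ₜ b + (a - A.P a) ⊗ₜ A.E b := rfl

theorem swQ_swQ (q : (QQ A).V) : (swQ A).f ((swQ A).f q) = q := by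
  refine tens_ext (f := (swQ A).f ∘ₗ (swQ A).f) (g := LinearMap.id) (fun b a => ?_) q
  change (swQ A).f ((swQ A).f (b ⊗ₜ a)) = b ⊗ₜ a
  rw [swQ_tmul, map_add, swQ_tmul, swQ_tmul, A.EP, A.E_odd, A.PE, ZB_EP,
    TensorProduct.neg_tmul, TensorProduct.tmul_neg, neg_neg]
  simp only [TensorProduct.sub_tmul, TensorProduct.tmul_sub]
  abel

private theorem ZB_P_even_mul (x y : A.V) : A.P (A.P x * y) = A.P x * A.P y := by
  have h := A.P_mul (A.P x) y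
  have h' : A.P (A.P x * y) = A.P (A.P x) * A.P y + (A.P x - A.P (A.P x)) * (y - A.P y) := h
  rw [h', A.PP, sub_self, zero_mul, add_zero]

private theorem ZB_P_odd_mul (x y : A.V) :
    A.P ((x - A.P x) * y) = (x - A.P x) * (y - A.P y) := by
  have h' : A.P ((x - A.P x) * y) = A.P (x - A.P x) * A.P y +
      ((x - A.P x) - A.P (x - A.P x)) * (y - A.P y) := A.P_mul (x - A.P x) y
  rw [h', ZB_P_odd, zero_mul, zero_add, sub_zero]

private theorem ZB_P_mul_even (x y : A.V) : A.P (x * A.P y) = A.P x * A.P y := by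
  have h' : A.P (x * A.P y) = A.P x * A.P (A.P y) + (x - A.P x) * (A.P y - A.P (A.P y)) :=
    A.P_mul x (A.P y)
  rw [h', A.PP, sub_self, mul_zero, add_zero]

private theorem ZB_P_mul_odd (x y : A.V) :
    A.P (x * (y - A.P y)) = (x - A.P x) * (y - A.P y) := by
  have h' : A.P (x * (y - A.P y)) = A.P x * A.P (y - A.P y) +
      (x - A.P x) * ((y - A.P y) - A.P (y - A.P y)) := A.P_mul x (y - A.P y)
  rw [h', ZB_P_odd, mul_zero, zero_add, sub_zero]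

theorem swQ_isHom : (bOut A).IsHom (bIn A) (swQ A) := by
  constructor
  · intro s q
    refine tens_ext (f := (swQ A).f ∘ₗ (oL A).act s) (g := (iL A).act s ∘ₗ (swQ A).f)
      (fun b a => ?_) q
    have e1 : (oL A).act s (b ⊗ₜ a) = b ⊗ₜ (A.P s * a) + A.E b ⊗ₜ ((s - A.P s) * a) := rfl
    have e2 : ∀ x y : A.V, (iL A).act s (x ⊗ₜ y) = (s * x) ⊗ₜ[k] y := fun x y => rfl
    change (swQ A).f ((oL A).act s (b ⊗ₜ a)) = (iL A).act s ((swQ A).f (b ⊗ₜ a))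
    rw [e1, map_add, swQ_tmul, swQ_tmul, swQ_tmul, map_add, e2, e2, A.EE, ZB_P_even_mul,
      ZB_P_odd_mul]
    simp only [mul_sub, sub_mul, TensorProduct.sub_tmul]
    abel
  · intro q s
    refine tens_ext (f := (swQ A).f ∘ₗ (oR A).act.flip s) (g := (iR A).act.flip s ∘ₗ (swQ A).f)
      (fun b a => ?_) q
    have e1 : (oR A).act (b ⊗ₜ a) s = (b * A.P s) ⊗ₜ a + (b * (s - A.P s)) ⊗ₜ A.E a := rfl
    have e2 : ∀ x y : A.V, (iR A).act (x ⊗ₜ y) s = x ⊗ₜ[k] (y * s) := fun x y => rfl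
    change (swQ A).f ((oR A).act (b ⊗ₜ a) s) = (iR A).act ((swQ A).f (b ⊗ₜ a)) s
    rw [e1, map_add, swQ_tmul, swQ_tmul, swQ_tmul, map_add, LinearMap.add_apply, e2, e2,
      A.E_mul, A.E_mul, A.EP, A.E_odd, A.PE, ZB_EP]
    simp only [mul_sub, sub_mul, TensorProduct.sub_tmul, TensorProduct.tmul_sub,
      TensorProduct.neg_tmul, mul_neg, TensorProduct.tmul_neg]
    abel

private theorem ZB_isHom' : (bIn A).IsHom (bOut A) (swQ A) := by
  have h := swQ_isHom (A := A)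
  constructor
  · intro s q
    have h1 := h.l s ((swQ A).f q)
    rw [swQ_swQ] at h1
    rw [← h1, swQ_swQ]
  · intro q s
    have h1 := h.r ((swQ A).f q) s
    rw [swQ_swQ] at h1
    rw [← h1, swQ_swQ]

private theorem ZB_sw_bij (bM : Bi A A M) : (homBiMap bM (swQ A) swQ_isHom).QI := by
  refine BM.qi_of_bij _ (homBiMap bM (swQ A) ZB_isHom').f (fun x => ?_) (fun x => ?_)
  · refine Subtype.ext (LinearMap.ext (fun m => ?_))
    rw [homBiMap_apply, homBiMap_apply, swQ_swQ]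
  · refine Subtype.ext (LinearMap.ext (fun m => ?_))
    rw [homBiMap_apply, homBiMap_apply, swQ_swQ]

private theorem ZB_unit_l (bM : Bi A A M) (ξ : (Mv bM).V) : (bMv bM).l.act 1 ξ = ξ := by
  refine Subtype.ext (LinearMap.ext (fun m => ?_))
  change (iL A).act 1 (ξ.1 m) = ξ.1 m
  refine tens_ext (f := (iL A).act 1) (g := LinearMap.id) (fun b a => ?_) (ξ.1 m)
  change ((1 : A.V) * b) ⊗ₜ[k] a = b ⊗ₜ a
  rw [one_mul]

private theorem ZB_unit_r (bM : Bi A A M) (ξ : (Mv bM).V) : (bMv bM).r.act ξ 1 = ξ := by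
  refine Subtype.ext (LinearMap.ext (fun m => ?_))
  have hP : A.P 1 = 1 := A.P_one
  change (iR A).act (ξ.1 m) (A.P 1) + (iR A).act (ξ.1 (M.E m)) (1 - A.P 1) = ξ.1 m
  rw [hP, sub_self, map_zero, add_zero]
  refine tens_ext (f := (iR A).act.flip 1) (g := LinearMap.id) (fun b a => ?_) (ξ.1 m)
  change b ⊗ₜ[k] (a * (1 : A.V)) = b ⊗ₜ a
  rw [mul_one]

/-- the key identity -/
private theorem ZB_key (z1 z2 b a : A.V) :
    (kap (bIn A)).f ((z1 ⊗ₜ[k] z2) ⊗ₜ[k] (b ⊗ₜ[k] a)) =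
      (swQ A).f ((iR A).act ((z2 * b) ⊗ₜ a) (A.P z1) +
        (iR A).act ((QQ A).E ((z2 * b) ⊗ₜ a)) (z1 - A.P z1)) := by
  have e0 : (QQ A).E ((z2 * b) ⊗ₜ a) = A.E (z2 * b) ⊗ₜ A.E a := SD.tens_E A.toSD A.toSD _ _
  have e1 : (QQ A).E (z1 ⊗ₜ (z2 * b)) = A.E z1 ⊗ₜ A.E (z2 * b) := SD.tens_E A.toSD A.toSD _ _
  have e2 : ∀ x y t : A.V, (iR A).act (x ⊗ₜ y) t = x ⊗ₜ[k] (y * t) := fun x y t => rfl
  have e3 : ∀ s x y : A.V, (iL A).act s (x ⊗ₜ y) = (s * x) ⊗ₜ[k] y := fun s x y => rfl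
  rw [kap_tmul]
  change (iL A).act (A.P a) ((iR A).act (z1 ⊗ₜ z2) b) +
    (iL A).act (a - A.P a) ((QQ A).E ((iR A).act (z1 ⊗ₜ z2) b)) = _
  rw [e2, e1, e3, e3, e0, e2, e2, map_add, swQ_tmul, swQ_tmul, A.EE, ZB_P_mul_even,
    ZB_P_mul_odd, A.PE, ZB_EP]
  simp only [A.E_apply z1, A.E_apply a, mul_sub, sub_mul, mul_add, add_mul, neg_mul,
    TensorProduct.sub_tmul, TensorProduct.add_tmul, TensorProduct.neg_tmul]
  abel

/-- the first step -/
private noncomputable def ZB_hc (bM : Bi A A M) :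
    SD.Hom (GG (bIn A) (bMv bM)) (HC (frBi (bMv bM).r)) :=
  hcN ((Bi.tensLR A.diag.l A.diag.r).bar (bMv bM)) (Bi.tensLR A.diag.l (bMv bM).r)
    (augVL A.toSD (bMv bM).l) (augVL_isHom A.diag.l (bMv bM))

private theorem ZB_hc_QI (bM : Bi A A M) : (ZB_hc bM).QI :=
  QI_hc ((Bi.tensLR A.diag.l A.diag.r).bar (bMv bM)) (Bi.tensLR A.diag.l (bMv bM).r)
    (augVL A.toSD (bMv bM).l) (augVL_isHom A.diag.l (bMv bM))
    (qi_augVL A.toSD (bMv bM).l (ZB_unit_l bM))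

private theorem ZB_hc_nil (bM : Bi A A M) (v : Wd k (A.V ⊗[k] A.V) A.V ⊗[k] (Mv bM).V) :
    (ZB_hc bM).f (Wd.nil v) = Wd.nil ((augVL A.toSD (bMv bM).l).f v) := Wd.mh_nil _ v

private theorem ZB_hc_snoc (bM : Bi A A M)
    (w : Wd k (Wd k (A.V ⊗[k] A.V) A.V ⊗[k] (Mv bM).V) A.V) (r : A.V) :
    (ZB_hc bM).f (Wd.snoc w r) = Wd.snoc ((ZB_hc bM).f w) r := Wd.mh_snoc _ w r

/-- the contraction is a quasi-isomorphism for the free bimodule -/
theorem ZC_free (bM : Bi A A M) : ZC bM (bIn A) := by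
  have q2 := ZB_hc_QI bM
  have q3 := frAug_QI (bMv bM).r (ZB_unit_r bM)
  have q4 := ZB_sw_bij bM
  refine SD.Hom.QI.congr (q4.comp (q3.comp q2)) (fun v => ?_)
  change (homBiMap bM (swQ A) swQ_isHom).f ((frAug (bMv bM).r).f ((ZB_hc bM).f v)) = _
  induction v using Wd.induction with
  | hadd a b ha hb => simp only [map_add, ha, hb]
  | hsnoc w _ r =>
    rw [ZB_hc_snoc, frAug_snoc, map_zero]
    exact (contrG_snoc (bIn A) (bMv bM) (muE bM (bIn A)) (muD_E bM (bIn A)) w r).symm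
  | hnil v =>
    refine Eq.trans ?_ (contrG_nil (bIn A) (bMv bM) (muE bM (bIn A)) (muD_E bM (bIn A)) v).symm
    rw [ZB_hc_nil]
    refine tens_ext (f := (homBiMap bM (swQ A) swQ_isHom).f ∘ₗ (frAug (bMv bM).r).f ∘ₗ Wd.nil ∘ₗ
        (augVL A.toSD (bMv bM).l).f)
      (g := (contrB (bIn A) (bMv bM) (muE bM (bIn A)) (muD_E bM (bIn A))).f) (fun w ξ => ?_) v
    change (homBiMap bM (swQ A) swQ_isHom).f ((frAug (bMv bM).r).f
      (Wd.nil ((augVL A.toSD (bMv bM).l).f (w ⊗ₜ ξ)))) = augF (muE bM (bIn A)).f (w ⊗ₜ ξ)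
    induction w using Wd.induction with
    | hadd a b ha hb => simp only [TensorProduct.add_tmul, map_add, ha, hb]
    | hsnoc w _ r =>
      have e1 : (augVL A.toSD (bMv bM).l).f (Wd.snoc w r ⊗ₜ ξ) = 0 := augF_snoc _ _ _ _
      rw [e1, augF_snoc, map_zero, map_zero, map_zero]
    | hnil z =>
      rw [augF_nil]
      refine tens_ext (f := (homBiMap bM (swQ A) swQ_isHom).f ∘ₗ (frAug (bMv bM).r).f ∘ₗ
          Wd.nil ∘ₗ (augVL A.toSD (bMv bM).l).f ∘ₗ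
          (TensorProduct.mk k _ (Mv bM).V).flip ξ ∘ₗ Wd.nil)
        (g := (muE bM (bIn A)).f ∘ₗ (TensorProduct.mk k (A.V ⊗[k] A.V) (Mv bM).V).flip ξ)
        (fun z1 z2 => ?_) z
      change (homBiMap bM (swQ A) swQ_isHom).f ((frAug (bMv bM).r).f
        (Wd.nil ((augVL A.toSD (bMv bM).l).f (Wd.nil (z1 ⊗ₜ z2) ⊗ₜ ξ)))) =
        (muE bM (bIn A)).f ((z1 ⊗ₜ z2) ⊗ₜ ξ)
      rw [augVL_nil, frAug_nil]
      refine Subtype.ext (LinearMap.ext (fun m => ?_))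
      rw [homBiMap_apply, muE_apply]
      have hE : ((QQ A).E ((iL A).act z2 (ξ.1 m))) =
          ((Mv bM).E ((bMv bM).l.act z2 ξ)).1 (M.E m) := by
        have h2 : ((Mv bM).E ((bMv bM).l.act z2 ξ)).1 (M.E m) =
          (QQ A).E (((bMv bM).l.act z2 ξ).1 (M.E (M.E m))) := SD.hE_apply M (QQ A) _ _
        rw [h2, M.EE]
        rfl
      have e5 : ((bMv bM).r.act ((bMv bM).l.act z2 ξ) (A.P z1) +
          (bMv bM).r.act ((Mv bM).E ((bMv bM).l.act z2 ξ)) (z1 - A.P z1)).1 m =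
          (iR A).act ((iL A).act z2 (ξ.1 m)) (A.P z1) +
            (iR A).act ((QQ A).E ((iL A).act z2 (ξ.1 m))) (z1 - A.P z1) := by
        rw [hE]
        change ((iR A).act ((iL A).act z2 (ξ.1 m)) (A.P (A.P z1)) +
            (iR A).act ((iL A).act z2 (ξ.1 (M.E m))) (A.P z1 - A.P (A.P z1))) +
          ((iR A).act (((Mv bM).E ((bMv bM).l.act z2 ξ)).1 m) (A.P (z1 - A.P z1)) +
            (iR A).act (((Mv bM).E ((bMv bM).l.act z2 ξ)).1 (M.E m))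
              (z1 - A.P z1 - A.P (z1 - A.P z1))) = _
        rw [A.PP, ZB_P_odd, sub_self, map_zero, map_zero, add_zero, zero_add, sub_zero]
      rw [e5]
      refine tens_ext (f := (swQ A).f ∘ₗ ((iR A).act.flip (A.P z1) ∘ₗ (iL A).act z2 +
          (iR A).act.flip (z1 - A.P z1) ∘ₗ (QQ A).E ∘ₗ (iL A).act z2))
        (g := (kap (bIn A)).f ∘ₗ TensorProduct.mk k (A.V ⊗[k] A.V) (A.V ⊗[k] A.V) (z1 ⊗ₜ z2))
        (fun b a => ?_) (ξ.1 m)
      exact (ZB_key z1 z2 b a).symm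

end NC
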