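import Pool.Agent.H16.NC.FPr
import Pool.Agent.H28.NC.TwoC
import Pool.Agent.H94.NC.TwoBf
import Pool.Agent.H36.NX.FH

/-!
# The trace of the cap product, and the Lefschetz formula (base file, helper16)
-/

open scoped TensorProduct

namespace NC

variable {k : Type} [Field k]

/-! ### the map on cohomology given by a cycle of the second factor -/

section capC

variable {X C Y : SD k}

theorem tens_D_cyc (φ : SD.Hom (X.tens C) Y) {c : C.V} (hc : C.D c = 0) (x : X.V) :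
    Y.D (φ.f (x ⊗ₜ c)) = φ.f (X.D x ⊗ₜ c) := by
  have h : (X.tens C).D (x ⊗ₜ c) = X.D x ⊗ₜ[k] c + X.E x ⊗ₜ[k] C.D c := rfl
  rw [← φ.D, h, hc, TensorProduct.tmul_zero, add_zero]

/-- the map `[x] ↦ [φ (x ⊗ c)]` -/
noncomputable def capC (φ : SD.Hom (X.tens C) Y) (c : C.V) (hc : C.D c = 0) :
    X.Coh →ₗ[k] Y.Coh :=
  SD.Coh.lift (φ.f ∘ₗ (TensorProduct.mk k X.V C.V).flip c)
    (fun x hx => by
      change Y.D (φ.f (x ⊗ₜ c)) = 0
      rw [tens_D_cyc φ hc, hx, TensorProduct.zero_tmul, map_zero])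
    (fun x => ⟨φ.f (x ⊗ₜ c), tens_D_cyc φ hc x⟩)

theorem capC_cyc (φ : SD.Hom (X.tens C) Y) {c : C.V} (hc : C.D c = 0) {x : X.V}
    (hx : X.D x = 0) : Y.D (φ.f (x ⊗ₜ c)) = 0 := by
  rw [tens_D_cyc φ hc, hx, TensorProduct.zero_tmul, map_zero]

theorem capC_mk (φ : SD.Hom (X.tens C) Y) {c : C.V} (hc : C.D c = 0) {x : X.V}
    (hx : X.D x = 0) :
    capC φ c hc (SD.Coh.mk x hx) = SD.Coh.mk (φ.f (x ⊗ₜ c)) (capC_cyc φ hc hx) :=
  SD.Coh.lift_mk _ _ _ hx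

theorem capC_ext (φ : SD.Hom (X.tens C) Y) {c : C.V} (hc : C.D c = 0)
    {T : X.Coh →ₗ[k] Y.Coh} (h : ∀ x (hx : X.D x = 0), SD.Coh.mk (φ.f (x ⊗ₜ c))
      (capC_cyc φ hc hx) = T (SD.Coh.mk x hx)) : capC φ c hc = T := by
  refine LinearMap.ext (fun a => ?_)
  obtain ⟨x, hx, rfl⟩ := SD.Coh.exists_mk a
  rw [capC_mk, h]

theorem capC_add (φ : SD.Hom (X.tens C) Y) {c c' : C.V} (hc : C.D c = 0) (hc' : C.D c' = 0)
    (h : C.D (c + c') = 0) : capC φ (c + c') h = capC φ c hc + capC φ c' hc' := by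
  refine capC_ext φ h (fun x hx => ?_)
  rw [LinearMap.add_apply, capC_mk, capC_mk, SD.Coh.mk_add]
  exact SD.Coh.mk_congr _ _ (by rw [TensorProduct.tmul_add, map_add])

theorem capC_smul (φ : SD.Hom (X.tens C) Y) (a : k) {c : C.V} (hc : C.D c = 0)
    (h : C.D (a • c) = 0) : capC φ (a • c) h = a • capC φ c hc := by
  refine capC_ext φ h (fun x hx => ?_)
  rw [LinearMap.smul_apply, capC_mk, SD.Coh.mk_smul]
  exact SD.Coh.mk_congr _ _ (by rw [TensorProduct.tmul_smul, map_smul])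

theorem tens_hml (φ : SD.Hom (X.tens C) Y) {x : X.V} (hx : X.D x = 0) {c c' : C.V}
    (h : C.Hml c c') : Y.Hml (φ.f (x ⊗ₜ c)) (φ.f (x ⊗ₜ c')) := by
  obtain ⟨u, hu⟩ := h
  refine ⟨φ.f (X.E x ⊗ₜ u), ?_⟩
  have h1 : (X.tens C).D (X.E x ⊗ₜ u) = X.D (X.E x) ⊗ₜ[k] u + X.E (X.E x) ⊗ₜ[k] C.D u := rfl
  rw [← φ.D, h1, X.DE, hx, map_zero, neg_zero, TensorProduct.zero_tmul, zero_add, X.EE, hu,
    TensorProduct.tmul_sub, map_sub]

theorem capC_hml (φ : SD.Hom (X.tens C) Y) {c c' : C.V} (hc : C.D c = 0) (hc' : C.D c' = 0)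
    (h : C.Hml c c') : capC φ c hc = capC φ c' hc' := by
  refine capC_ext φ hc (fun x hx => ?_)
  rw [capC_mk]
  exact (SD.Coh.mk_eq_mk _ _).2 (tens_hml φ hx h)

end capC

variable {A : DGA k}

/-! ### the map `psiT` -/

/-- the inverse of `hc3 cK` followed by the trace -/
noncomputable def psiT (hA : A.toSD.FinH) : (HC3 (tKF A)).Coh →ₗ[k] (HC A.diag).Coh :=
  SD.Coh.map (TRP A) ∘ₗ (LinearEquiv.ofBijective (SD.Coh.map (hc3 (cK_isHom A)))
    ((SD.Coh.map_bijective_iff _).2 (hc3_qi (cK_isHom A) (cK_qi hA)))).symm.toLinearMap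

theorem psiT_mk (hA : A.toSD.FinH) {κ : (HC3 (tKP A)).V} (hκ : (HC3 (tKP A)).D κ = 0)
    {v : (HC3 (tKF A)).V} (hv : (HC3 (tKF A)).D v = 0)
    (h : (HC3 (tKF A)).Hml ((hc3 (cK_isHom A)).f κ) v) :
    psiT hA (SD.Coh.mk v hv) =
      SD.Coh.mk ((TRP A).f κ) (by rw [← (TRP A).D, hκ, map_zero]) := by
  have h1 : SD.Coh.mk v hv = LinearEquiv.ofBijective (SD.Coh.map (hc3 (cK_isHom A)))
      ((SD.Coh.map_bijective_iff _).2 (hc3_qi (cK_isHom A) (cK_qi hA)))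
      (SD.Coh.mk κ hκ) := by
    change _ = SD.Coh.map (hc3 (cK_isHom A)) (SD.Coh.mk κ hκ)
    rw [SD.Coh.map_mk]
    exact (SD.Coh.mk_eq_mk _ _).2 h.symm
  change SD.Coh.map (TRP A) ((LinearEquiv.ofBijective (SD.Coh.map (hc3 (cK_isHom A)))
    ((SD.Coh.map_bijective_iff _).2 (hc3_qi (cK_isHom A) (cK_qi hA)))).symm
    (SD.Coh.mk v hv)) = _
  rw [h1, LinearEquiv.symm_apply_apply, SD.Coh.map_mk]

/-! ### the value on products -/

/-- the identity of `triT` for `dualTens` -/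
theorem idD_isHom (A : DGA k) : (triT A.diag (E1d_E2d A.diag).symm).IsHom
    (triT A.diag (E1_E2 A.diag).symm) ((SD.Hom.id A.toSD).tens (dualTens A.toSD A.toSD)) :=
  ⟨Bi.tensL_map (Bi.isHom_id A.diag) _, Bi.tensR_map (dualTens_E2 A.diag) _,
    Bi.tensR_map (dualTens_E1 A.diag) _⟩

/-- the trace of `PPP` of a product -/
theorem TRP_PPP (x : (HC A.diag).V) (u : (HC2 (E2d A.diag) (E1d A.diag)
    (E1d_E2d A.diag).symm).V) :
    (TRP A).f ((hc3 (PPP_isHom A)).f ((MGG A.diag (E1d_E2d A.diag).symm).f (x ⊗ₜ u))) =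
      ((trE' A.diag).f u : k) • x := by
  have hg : ∀ n y, ((homEv A.toSD A.toSD).comp (PPP A)).f (n ⊗ₜ y) =
    ((trD A.toSD).f y : k) • n := fun n y => ev_PPP A n y
  have h1 : (triT A.diag (E1d_E2d A.diag).symm).b₁.IsHom A.diag
    ((homEv A.toSD A.toSD).comp (PPP A)) := (PPP_isHom A).h1.comp (ev_b1 A)
  have h2 : Cyc (triT A.diag (E1d_E2d A.diag).symm).b₂ ((homEv A.toSD A.toSD).comp (PPP A)) :=
    Cyc.comp (PPP_isHom A).h2 (ev_cyc2 A)
  have h3 : Cyc (triT A.diag (E1d_E2d A.diag).symm).b₃ ((homEv A.toSD A.toSD).comp (PPP A)) :=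
    Cyc.comp (PPP_isHom A).h3 (ev_cyc3 A)
  refine (TR_map (PPP_isHom A) _ (homEv A.toSD A.toSD) h1 h2 h3 (ev_b1 A) (ev_cyc2 A)
    (ev_cyc3 A) (fun n => rfl) _).trans ?_
  exact TR_MGG (E1d_E2d A.diag).symm (trD A.toSD) (trD_cyc2 A.diag) (trD_cyc1 A.diag) _ hg
    h1 h2 h3 x u

theorem MGG_cyc {x : (HC A.diag).V} (hx : (HC A.diag).D x = 0)
    {u : (HC2 (E2 A.diag) (E1 A.diag) (E1_E2 A.diag).symm).V}
    (hu : (HC2 (E2 A.diag) (E1 A.diag) (E1_E2 A.diag).symm).D u = 0) :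
    (HC3 (tKF A)).D ((hc3 (hX_isHom A)).f
      ((MGG A.diag (E1_E2 A.diag).symm).f (x ⊗ₜ u))) = 0 := by
  rw [← (hc3 (hX_isHom A)).D, capC_cyc (MGG A.diag (E1_E2 A.diag).symm) hu hx, map_zero]

/-- `psiT` of a product -/
theorem psiT_MGG (hA : A.toSD.FinH) {x : (HC A.diag).V} (hx : (HC A.diag).D x = 0)
    {u : (HC2 (E2 A.diag) (E1 A.diag) (E1_E2 A.diag).symm).V}
    (hu : (HC2 (E2 A.diag) (E1 A.diag) (E1_E2 A.diag).symm).D u = 0) :
    psiT hA (SD.Coh.mk ((hc3 (hX_isHom A)).f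
      ((MGG A.diag (E1_E2 A.diag).symm).f (x ⊗ₜ u))) (MGG_cyc hx hu)) =
      tau' A.diag hA (SD.Coh.mk u hu) • SD.Coh.mk x hx := by
  obtain ⟨u', z, hu', huu⟩ := (cE'_qi A.diag hA).surj u hu
  have h1 : (HC2 (E2 A.diag) (E1 A.diag) (E1_E2 A.diag).symm).Hml ((cE' A.diag).f u') u :=
    ⟨-z, by rw [map_neg, huu]; abel⟩
  have e1 := hc3_comp (PPP_isHom A) (cK_isHom A) ((idD_isHom A).comp (hX_isHom A))
    (fun n => cK_PPP A n) ((MGG A.diag (E1d_E2d A.diag).symm).f (x ⊗ₜ u'))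
  have e2 := hc3_comp (idD_isHom A) (hX_isHom A) ((idD_isHom A).comp (hX_isHom A))
    (fun n => rfl) ((MGG A.diag (E1d_E2d A.diag).symm).f (x ⊗ₜ u'))
  have e3 := MGG_nat (E1d_E2d A.diag).symm (E1_E2 A.diag).symm (dualTens A.toSD A.toSD)
    (dualTens_E2 A.diag) (dualTens_E1 A.diag) (idD_isHom A) x u'
  have h2 := tens_hml ((hc3 (hX_isHom A)).comp (MGG A.diag (E1_E2 A.diag).symm)) hx h1
  have h3 : (HC3 (tKF A)).Hml ((hc3 (cK_isHom A)).f ((hc3 (PPP_isHom A)).f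
      ((MGG A.diag (E1d_E2d A.diag).symm).f (x ⊗ₜ u'))))
      ((hc3 (hX_isHom A)).f ((MGG A.diag (E1_E2 A.diag).symm).f (x ⊗ₜ u))) := by
    rw [e1, ← e2, e3]
    exact h2
  have hκ : (HC3 (tKP A)).D ((hc3 (PPP_isHom A)).f
      ((MGG A.diag (E1d_E2d A.diag).symm).f (x ⊗ₜ u'))) = 0 := by
    rw [← (hc3 (PPP_isHom A)).D, capC_cyc (MGG A.diag (E1d_E2d A.diag).symm) hu' hx, map_zero]
  rw [psiT_mk hA hκ (MGG_cyc hx hu) h3]
  have h4 : tau' A.diag hA (SD.Coh.mk u hu) = (trE' A.diag).f u' :=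
    tauG_mk _ _ _ hu' hu h1
  rw [h4]
  refine (SD.Coh.mk_congr _ ?_ (TRP_PPP x u')).trans (SD.Coh.mk_smul _ hx).symm
  rw [map_smul, hx, smul_zero]


/-! ### the trace of the cap product -/

/-- the operator on `HH(A)` given by a class of `HH(A ⊗ A)` -/
noncomputable def capz (hA : A.toSD.FinH) (z : (HC2 (bQ1 A) (bQ2 A) (Q1_Q2 A)).V)
    (hz : (HC2 (bQ1 A) (bQ2 A) (Q1_Q2 A)).D z = 0) :
    (HC A.diag).Coh →ₗ[k] (HC A.diag).Coh :=
  psiT hA ∘ₗ capC (CWK A) z hz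

/-- the exterior product on `HC(A)` -/
noncomputable def mgQ (A : DGA k) :
    SD.Hom ((HC A.diag).tens (HC A.diag)) (HC2 (bQ1 A) (bQ2 A) (Q1_Q2 A)) :=
  mgG A.diag A.diag

theorem mgG_cyc {x y : (HC A.diag).V} (hx : (HC A.diag).D x = 0) (hy : (HC A.diag).D y = 0) :
    (HC2 (bQ1 A) (bQ2 A) (Q1_Q2 A)).D ((mgQ A).f (x ⊗ₜ y)) = 0 :=
  capC_cyc (mgQ A) hy hx

/-- the cap product with a product, homogeneous case -/
theorem CWK_hom {x : (HC A.diag).V} (y w : (HC A.diag).V) :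
    ((HC A.diag).P x = x → (CWK A).f (w ⊗ₜ (mgQ A).f (x ⊗ₜ y)) =
      (hc3 (hX_isHom A)).f ((MGG A.diag (E1_E2 A.diag).symm).f (x ⊗ₜ (CWp A).f (w ⊗ₜ y)))) ∧
    ((HC A.diag).P x = 0 → (CWK A).f (w ⊗ₜ (mgQ A).f (x ⊗ₜ y)) =
      (hc3 (hX_isHom A)).f ((MGG A.diag (E1_E2 A.diag).symm).f
        (x ⊗ₜ (CWp A).f ((HC A.diag).E w ⊗ₜ y)))) := by
  have h : (CWK A).f (w ⊗ₜ (mgQ A).f (x ⊗ₜ y)) = _ := CWK_mg w x y
  constructor
  · intro hx
    have hE : (HC A.diag).E x = x := by rw [SD.E_apply, hx]; abel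
    rw [h, hE, ← map_add, ← map_add, ← TensorProduct.tmul_add, ← map_add,
      ← TensorProduct.add_tmul, add_sub_cancel]
  · intro hx
    have hE : (HC A.diag).E x = -x := by rw [SD.E_apply, hx]; abel
    have hw : (HC A.diag).E w = PW A.toSD A.toSD w + -(w - PW A.toSD A.toSD w) := by
      change PW A.toSD A.toSD w + PW A.toSD A.toSD w - w = _
      abel
    rw [h, hE, hw, TensorProduct.add_tmul, map_add, TensorProduct.tmul_add, map_add, map_add,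
      TensorProduct.neg_tmul, map_neg, map_neg, TensorProduct.neg_tmul, map_neg,
      TensorProduct.tmul_neg, map_neg, map_neg]

theorem capz_mg_even (hA : A.toSD.FinH) {x y : (HC A.diag).V} (hx : (HC A.diag).D x = 0)
    (hy : (HC A.diag).D y = 0) (hP : (HC A.diag).P x = x) :
    capz hA ((mgQ A).f (x ⊗ₜ y)) (mgG_cyc hx hy) =
      (tau' A.diag hA ∘ₗ capC (CWp A) y hy).smulRight (SD.Coh.mk x hx) := by
  refine LinearMap.ext (fun c => ?_)
  obtain ⟨w, hw, rfl⟩ := SD.Coh.exists_mk c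
  have hu := capC_cyc (CWp A) hy hw
  rw [capz, LinearMap.comp_apply, capC_mk, LinearMap.smulRight_apply, LinearMap.comp_apply,
    capC_mk, ← psiT_MGG hA hx hu]
  exact congrArg (psiT hA) (SD.Coh.mk_congr _ _ ((CWK_hom y w).1 hP))

theorem capz_mg_odd (hA : A.toSD.FinH) {x y : (HC A.diag).V} (hx : (HC A.diag).D x = 0)
    (hy : (HC A.diag).D y = 0) (hP : (HC A.diag).P x = 0) :
    capz hA ((mgQ A).f (x ⊗ₜ y)) (mgG_cyc hx hy) =
      (tau' A.diag hA ∘ₗ capC (CWp A) y hy ∘ₗ SD.cohE (HC A.diag)).smulRight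
        (SD.Coh.mk x hx) := by
  refine LinearMap.ext (fun c => ?_)
  obtain ⟨w, hw, rfl⟩ := SD.Coh.exists_mk c
  have hEw : (HC A.diag).D ((HC A.diag).E w) = 0 := by rw [SD.DE, hw, map_zero, neg_zero]
  have hu := capC_cyc (CWp A) hy hEw
  rw [capz, LinearMap.comp_apply, capC_mk, LinearMap.smulRight_apply, LinearMap.comp_apply,
    LinearMap.comp_apply, SD.cohE_mk, capC_mk, ← psiT_MGG hA hx hu]
  exact congrArg (psiT hA) (SD.Coh.mk_congr _ _ ((CWK_hom y w).2 hP))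

/-- the right hand side of the trace formula -/
noncomputable def tauZ (hA : A.toSD.FinH) :
    (HC2 (bQ1 A) (bQ2 A) (Q1_Q2 A)).Coh →ₗ[k] k :=
  tau A.diag hA ∘ₗ SD.Coh.map (hc2 (Q1_Q2 A) (E1_E2 A.diag) (gam A) (gam_E1 A) (gam_E2 A))

theorem trace_mg (hA : A.toSD.FinH) [FiniteDimensional k (HC A.diag).Coh]
    {x y : (HC A.diag).V} (hx : (HC A.diag).D x = 0) (hy : (HC A.diag).D y = 0)
    (hP : (HC A.diag).P x = x ∨ (HC A.diag).P x = 0) :
    LinearMap.trace k _ (SD.cohE (HC A.diag) ∘ₗ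
      capz hA ((mgQ A).f (x ⊗ₜ y)) (mgG_cyc hx hy)) =
      tauZ hA (SD.Coh.mk ((mgQ A).f (x ⊗ₜ y)) (mgG_cyc hx hy)) := by
  have hR : tauZ hA (SD.Coh.mk ((mgQ A).f (x ⊗ₜ y)) (mgG_cyc hx hy)) =
      tau' A.diag hA (SD.Coh.mk ((CWp A).f (x ⊗ₜ y)) (capC_cyc (CWp A) hy hx)) := by
    rw [tauZ, LinearMap.comp_apply, SD.Coh.map_mk]
    exact (tau'_CWp hA x y _ _).symm
  have hs : ∀ (f : (HC A.diag).Coh →ₗ[k] k) (c : (HC A.diag).Coh),
      SD.cohE (HC A.diag) ∘ₗ f.smulRight c = f.smulRight (SD.cohE (HC A.diag) c) := fun f c =>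
    LinearMap.ext (fun a => by
      change SD.cohE (HC A.diag) (f a • c) = f a • SD.cohE (HC A.diag) c
      exact map_smul _ _ _)
  rw [hR]
  rcases hP with hP | hP
  · have hE : (HC A.diag).E x = x := by rw [SD.E_apply, hP]; abel
    rw [capz_mg_even hA hx hy hP, hs, LinearMap.trace_smulRight, SD.cohE_mk,
      LinearMap.comp_apply, capC_mk]
    exact congrArg _ (SD.Coh.mk_congr _ _ (by rw [hE]))
  · rw [capz_mg_odd hA hx hy hP, hs, LinearMap.trace_smulRight, LinearMap.comp_apply,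
      LinearMap.comp_apply, SD.cohE_cohE, capC_mk]

theorem cyc_D {X Y : SD k} {z : X.V ⊗[k] Y.V} (hz : z ∈ SD.cyc X Y) :
    (X.tens Y).D z = 0 := by
  induction hz using Submodule.span_induction with
  | mem t ht =>
    obtain ⟨x, y, -, -, hx, hy, rfl⟩ := ht
    have h : (X.tens Y).D (x ⊗ₜ y) = X.D x ⊗ₜ[k] y + X.E x ⊗ₜ[k] Y.D y := rfl
    rw [h, hx, hy, TensorProduct.zero_tmul, TensorProduct.tmul_zero, add_zero]
  | zero => exact map_zero _
  | add a b _ _ ha hb => rw [map_add, ha, hb, add_zero]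
  | smul c a _ ha => rw [map_smul, ha, smul_zero]

theorem mgQ_bij (A : DGA k) : Function.Bijective (mgQ A).f := mgG_bij A.diag A.diag

/-- the trace formula -/
theorem trace_capz (hA : A.toSD.FinH) (hH : (HC A.diag).FinH)
    (z : (HC2 (bQ1 A) (bQ2 A) (Q1_Q2 A)).V)
    (hz : (HC2 (bQ1 A) (bQ2 A) (Q1_Q2 A)).D z = 0) :
    LinearMap.trace k _ (SD.cohE (HC A.diag) ∘ₗ capz hA z hz) =
      tauZ hA (SD.Coh.mk z hz) := by
  have : FiniteDimensional k (HC A.diag).Coh := SD.coh_finite_iff.2 hH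
  obtain ⟨ζ, rfl⟩ := (mgQ_bij A).2 z
  have hζ : ((HC A.diag).tens (HC A.diag)).D ζ = 0 := by
    refine (mgQ_bij A).1 ?_
    rw [(mgQ A).D, map_zero]
    exact hz
  obtain ⟨ζ', hmem, hhml⟩ := SD.kuenneth (HC A.diag) (HC A.diag) ζ hζ
  have hD : ∀ t ∈ SD.cyc (HC A.diag) (HC A.diag),
      (HC2 (bQ1 A) (bQ2 A) (Q1_Q2 A)).D ((mgQ A).f t) = 0 := fun t ht => by
    have h := (mgQ A).D t
    rw [cyc_D ht, map_zero] at h
    exact h.symm
  have key : ∀ ζ' ∈ SD.cyc (HC A.diag) (HC A.diag),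
      ∀ h : (HC2 (bQ1 A) (bQ2 A) (Q1_Q2 A)).D ((mgQ A).f ζ') = 0,
      LinearMap.trace k _ (SD.cohE (HC A.diag) ∘ₗ capz hA ((mgQ A).f ζ') h) =
        tauZ hA (SD.Coh.mk ((mgQ A).f ζ') h) := by
    intro ζ' hmem
    induction hmem using Submodule.span_induction with
    | mem t ht =>
      obtain ⟨x, y, hP, -, hx, hy, rfl⟩ := ht
      intro h
      exact trace_mg hA hx hy hP
    | zero =>
      intro h
      have h0 : (HC2 (bQ1 A) (bQ2 A) (Q1_Q2 A)).D 0 = 0 := map_zero _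
      have e1 : capz hA ((mgQ A).f 0) h = capz hA 0 h0 := by
        unfold capz
        rw [capC_hml (CWK A) h h0 ⟨0, by rw [map_zero, map_zero, sub_zero]⟩]
      have e2 : capz hA (0 : (HC2 (bQ1 A) (bQ2 A) (Q1_Q2 A)).V) h0 = 0 := by
        unfold capz
        have h3 : capC (CWK A) 0 h0 = 0 := capC_ext _ _ (fun x hx => by
          rw [LinearMap.zero_apply]
          exact (SD.Coh.mk_congr _ (map_zero _) (by
            rw [TensorProduct.tmul_zero, map_zero])).trans SD.Coh.mk_zero)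
        rw [h3, LinearMap.comp_zero]
      have e3 : SD.Coh.mk ((mgQ A).f 0) h = 0 :=
        (SD.Coh.mk_congr _ (map_zero _) (map_zero _)).trans SD.Coh.mk_zero
      rw [e1, e2, e3, LinearMap.comp_zero, map_zero, map_zero]
    | add a b ha hb iha ihb =>
      intro h
      have h1 := hD a ha
      have h2 := hD b hb
      have h3 : (HC2 (bQ1 A) (bQ2 A) (Q1_Q2 A)).D ((mgQ A).f a +
        (mgQ A).f b) = 0 := by rw [map_add, h1, h2, add_zero]
      have e1 : capz hA ((mgQ A).f (a + b)) h =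
          capz hA ((mgQ A).f a) h1 + capz hA ((mgQ A).f b) h2 := by
        unfold capz
        rw [← LinearMap.comp_add, ← capC_add _ _ _ h3]
        congr 1
        exact capC_hml _ _ _ ⟨0, by rw [map_add, map_zero, sub_self]⟩
      have e3 : SD.Coh.mk ((mgQ A).f (a + b)) h =
          SD.Coh.mk ((mgQ A).f a) h1 + SD.Coh.mk ((mgQ A).f b) h2 := by
        rw [SD.Coh.mk_add]
        exact SD.Coh.mk_congr _ _ (map_add _ _ _)
      rw [e1, e3, LinearMap.comp_add, map_add, map_add, iha h1, ihb h2]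
    | smul c a ha iha =>
      intro h
      have h1 := hD a ha
      have h3 : (HC2 (bQ1 A) (bQ2 A) (Q1_Q2 A)).D (c • (mgQ A).f a) = 0 := by
        rw [map_smul, h1, smul_zero]
      have e1 : capz hA ((mgQ A).f (c • a)) h =
          c • capz hA ((mgQ A).f a) h1 := by
        unfold capz
        rw [← LinearMap.comp_smul, ← capC_smul _ _ _ h3]
        congr 1
        exact capC_hml _ _ _ ⟨0, by rw [map_smul, map_zero, sub_self]⟩
      have e3 : SD.Coh.mk ((mgQ A).f (c • a)) h =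
          c • SD.Coh.mk ((mgQ A).f a) h1 := by
        rw [SD.Coh.mk_smul]
        exact SD.Coh.mk_congr _ _ (map_smul _ _ _)
      rw [e1, e3, LinearMap.comp_smul, map_smul, map_smul, iha h1]
  have h' := hD ζ' hmem
  obtain ⟨u, hu⟩ := hhml
  have hh : (HC2 (bQ1 A) (bQ2 A) (Q1_Q2 A)).Hml ((mgQ A).f ζ)
      ((mgQ A).f ζ') := ⟨(mgQ A).f u, by
    rw [← map_sub, ← hu]
    exact ((mgQ A).D u).symm⟩
  have e1 : capz hA ((mgQ A).f ζ) hz = capz hA ((mgQ A).f ζ') h' := by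
    unfold capz
    congr 1
    exact capC_hml _ _ _ hh
  rw [e1, key ζ' hmem h']
  exact congrArg _ ((SD.Coh.mk_eq_mk _ _).2 hh).symm

/-! ### the Lefschetz formula -/

/-- the statement which connects the operator of a bimodule with the cap product -/
def OneLift (M : BMod A A) (z0 : (GG M.b (bMv M.b)).V) : Prop :=
  ∀ w w' : (HC A.diag).V, (HC A.diag).D w = 0 → (HC A.diag).D w' = 0 →
    (HC (EndR (AM M).b.r).diag).Hml ((hcA (iE M)).f w') ((hcA (rhoE M)).f w) →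
    ∃ kp : (HC3 (tKP A)).V, (HC3 (tKP A)).D kp = 0 ∧ (HC A.diag).Hml ((TRP A).f kp) w' ∧
      (HC3 (tKF A)).Hml ((hc3 (cK_isHom A)).f kp) ((CWK A).f (w ⊗ₜ (rotE M.b).f z0))

theorem lefschetz_of (hPF : PF A (BMod.diag A)) (hA : A.toSD.FinH) (M : BMod A A)
    (hR : RPf M.b.r) (z0 : (GG M.b (bMv M.b)).V) (hz0 : (GG M.b (bMv M.b)).D z0 = 0)
    (h0 : (HomBi M.b M.b).V)
    (hh : (contrE M.b M.b).f z0 = (EndBi M.b).one + (HomBi M.b M.b).D h0)
    (hone : OneLift M z0) : Lefschetz M := by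
  intro T hT
  have hH : (HC A.diag).FinH := finH_HC_of_PF hA hPF
  have hM : (HC M.b).FinH := finH_HC_of_RPf hA hPF M hR
  have hQ : (HC (bOut A)).FinH := finH_VQ A hA
  have hz : (HC2 (bQ1 A) (bQ2 A) (Q1_Q2 A)).D ((rotE M.b).f z0) = 0 := by
    have h := (rotE M.b).D z0
    rw [hz0, map_zero] at h
    exact h.symm
  have hTz : T = capz hA ((rotE M.b).f z0) hz := by
    refine LinearMap.ext (fun c => ?_)
    obtain ⟨w, hw, rfl⟩ := SD.Coh.exists_mk c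
    obtain ⟨w', hw', hTw⟩ := SD.Coh.exists_mk (T (SD.Coh.mk w hw))
    have h1 := hT (SD.Coh.mk w hw)
    rw [← hTw, SD.Coh.map_mk, SD.Coh.map_mk] at h1
    obtain ⟨kp, hkp, h2, h3⟩ := hone w w' hw hw' ((SD.Coh.mk_eq_mk _ _).1 h1)
    rw [← hTw]
    unfold capz
    rw [LinearMap.comp_apply, capC_mk, psiT_mk hA hkp _ h3]
    exact ((SD.Coh.mk_eq_mk _ _).2 h2).symm
  rw [hTz, trace_capz hA hH]
  rw [twoB M.b hQ hM z0 hz0 h0 hh, twoC A hA hQ]
  rfl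

end NC
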