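import Pool.Agent.H16.NC.Gam
import Pool.Agent.H16.NC.FDat

/-!
# The pairing on `HC(A)` (base file, helper16)

`CWp (x ⊗ y)` in `HC(A; HC(A; hom(A, A)))`, its relation with `gam` and with the cap product
`CWK`.
-/

open scoped TensorProduct

namespace NC

variable {k : Type} [Field k]

/-! ### naturality and traces for the switch map -/

section swt

variable {R₁ R₂ : DGA k} {N N' : SD k}

/-- the switch map is natural -/
theorem hc2_sw {b₁ : Bi R₁ R₁ N} {b₂ : Bi R₂ R₂ N} {b₁' : Bi R₁ R₁ N'} {b₂' : Bi R₂ R₂ N'}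
    (h : Comm b₁ b₂) (h' : Comm b₁' b₂') (φ : SD.Hom N N') (h1 : b₁.IsHom b₁' φ)
    (h2 : b₂.IsHom b₂' φ) (u : (HC2 b₁ b₂ h).V) :
    (hc2 h.symm h'.symm φ h2 h1).f ((sw b₁ b₂ h).f u) =
      (sw b₁' b₂' h').f ((hc2 h h' φ h1 h2).f u) := by
  exact (sw0_map (R₁ := R₁) (R₂ := R₂) φ.f u).symm

/-- a trace vanishes on words in which a letter was inserted -/
private theorem tr2_ins {Z : SD k} {b : Bi R₁ R₁ N} {c : Bi R₂ R₂ N} (h : Comm c b)
    (g : SD.Hom N Z) (hc : Cyc c g) (hb : Cyc b g) (u : Wd k (Wd k N.V R₂.V) R₁.V)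
    (r : R₂.V) : (tr2 h g hc hb).f (ins R₁ R₂ N u r) = 0 := by
  induction u using Wd.induction generalizing r with
  | hadd x y hx hy =>
    rw [map_add, LinearMap.add_apply, map_add, hx, hy, add_zero]
  | hnil v => rw [ins_nil]; exact tr2_nil_snoc h g hc hb v r
  | hsnoc u _ a =>
    rw [ins_snoc, map_sub]
    have e1 := tr2_snoc h g hc hb (ins R₁ R₂ N u (r - R₂.P r)) a
    have e2 := tr2_snoc h g hc hb (ins R₁ R₂ N u (R₂.P r)) (R₁.E a)
    rw [e1, e2, sub_zero]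

/-- the traces on the two double complexes agree under the switch map -/
private theorem tr2_sw {Z : SD k} {b : Bi R₁ R₁ N} {c : Bi R₂ R₂ N} (h : Comm b c)
    (g : SD.Hom N Z) (hb : Cyc b g) (hc : Cyc c g) (u : Wd k (Wd k N.V R₁.V) R₂.V) :
    (tr2 h.symm g hc hb).f (sw0 R₁ R₂ N u) = (tr2 h g hb hc).f u := by
  induction u using Wd.induction with
  | hadd x y hx hy => rw [map_add, map_add, map_add, hx, hy]
  | hnil v =>
    rw [sw0_nil]
    induction v using Wd.induction with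
    | hadd x y hx hy => rw [map_add, map_add, map_add, map_add, hx, hy]
    | hnil n =>
      rw [Wd.map_nil]
      exact (tr2_nil_nil h.symm g hc hb n).trans (tr2_nil_nil h g hb hc n).symm
    | hsnoc w _ r =>
      rw [Wd.map_snoc]
      exact (tr2_snoc h.symm g hc hb _ _).trans (tr2_nil_snoc h g hb hc w r).symm
  | hsnoc z _ r =>
    rw [sw0_snoc, tr2_ins]
    exact (tr2_snoc h g hb hc z r).symm

/-- the two traces agree under the switch map -/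
theorem trE'_sw {A : DGA k} {W : SD k} (bW : Bi A A W)
    (u : (HC2 (E1d bW) (E2d bW) (E1d_E2d bW)).V) :
    (trE' bW).f ((sw (E1d bW) (E2d bW) (E1d_E2d bW)).f u) = (trE bW).f u := by
  exact tr2_sw (E1d_E2d bW) (trD W) (trD_cyc1 bW) (trD_cyc2 bW) u

theorem tau'_sw {A : DGA k} {W : SD k} (bW : Bi A A W) (hW : W.FinH)
    (u : (HC2 (E1 bW) (E2 bW) (E1_E2 bW)).V) (hu : (HC2 (E1 bW) (E2 bW) (E1_E2 bW)).D u = 0)
    (v : (HC2 (E2 bW) (E1 bW) (E1_E2 bW).symm).V)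
    (hv : (HC2 (E2 bW) (E1 bW) (E1_E2 bW).symm).D v = 0)
    (huv : (sw (E1 bW) (E2 bW) (E1_E2 bW)).f u = v) :
    tau' bW hW (SD.Coh.mk v hv) = tau bW hW (SD.Coh.mk u hu) := by
  obtain ⟨x, z, hx, hz⟩ := (cE_qi bW hW).surj u hu
  have h1 : SD.Hml _ ((cE bW).f x) u := ⟨-z, by rw [hz, map_neg]; abel⟩
  have hx' : (HC2 (E2d bW) (E1d bW) (E1d_E2d bW).symm).D
      ((sw (E1d bW) (E2d bW) (E1d_E2d bW)).f x) = 0 := by
    rw [← (sw (E1d bW) (E2d bW) (E1d_E2d bW)).D, hx, map_zero]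
  have h2 : (cE' bW).f ((sw (E1d bW) (E2d bW) (E1d_E2d bW)).f x) =
      (sw (E1 bW) (E2 bW) (E1_E2 bW)).f ((cE bW).f x) :=
    hc2_sw (E1d_E2d bW) (E1_E2 bW) (dualTens W W) (dualTens_E1 bW) (dualTens_E2 bW) x
  have h3 : SD.Hml _ ((cE' bW).f ((sw (E1d bW) (E2d bW) (E1d_E2d bW)).f x)) v := by
    refine ⟨-(sw (E1 bW) (E2 bW) (E1_E2 bW)).f z, ?_⟩
    rw [h2, ← huv, hz, map_neg, map_add, ← (sw (E1 bW) (E2 bW) (E1_E2 bW)).D]
    abel
  have e1 : tau' bW hW (SD.Coh.mk v hv) =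
      (trE' bW).f ((sw (E1d bW) (E2d bW) (E1d_E2d bW)).f x) :=
    tauG_mk (cE' bW) (cE'_qi bW hW) (trE' bW) hx' hv h3
  have e2 : tau bW hW (SD.Coh.mk u hu) = (trE bW).f x :=
    tauG_mk (cE bW) (cE_qi bW hW) (trE bW) hx hu h1
  rw [e1, e2]
  exact trE'_sw bW x

end swt

variable {A : DGA k}

/-! ### the pairing -/

/-- `x ⊗ y ↦` the class in `HC(A; HC(A; hom(A, A)))` -/
noncomputable def CWp (A : DGA k) : SD.Hom ((HC A.diag).tens (HC A.diag))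
    (HC2 (E2 A.diag) (E1 A.diag) (E1_E2 A.diag).symm) :=
  CW ((E2 A.diag).hc (E1 A.diag) (E1_E2 A.diag).symm)
    (hcN A.diag (E2 A.diag) (rxA A) (rxA_E2 A))
    (central_hc (E1_E2 A.diag).symm (rxA_E2 A) (rxA_cen A))

private theorem hd_rxA (s : A.V) (y : Wd k A.V A.V) :
    hd A (E1 A.diag).l s (Wd.mh A.V (rxA A).f y) =
      Wd.mh A.V (gam A).f (xh A.toSD A.toSD A.toSD s y) := by
  induction y using Wd.induction with
  | hadd a b ha hb => simp only [map_add, ha, hb]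
  | hnil c => rw [Wd.mh_nil, hd_nil, xh_nil, Wd.mh_nil]; rfl
  | hsnoc w hw r => rw [Wd.mh_snoc, hd_snoc, hw, xh_snoc, Wd.mh_snoc]

theorem CWp_gam (x y : (HC A.diag).V) :
    (CWp A).f (x ⊗ₜ y) =
      (hc2 (comm_LR A.diag A.diag).symm (E1_E2 A.diag).symm (gam A) (gam_E2 A) (gam_E1 A)).f
        ((mgG' A.diag A.diag).f (x ⊗ₜ y)) := by
  change (CWp A).f (x ⊗ₜ y) = Wd.mh A.V (Wd.mh A.V (gam A).f) ((mgG' A.diag A.diag).f (x ⊗ₜ y))
  induction x using Wd.induction generalizing y with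
  | hadd a b ha hb => simp only [TensorProduct.add_tmul, map_add, ha, hb]
  | hnil s =>
    rw [mgG'_nil, Wd.mh_nil]
    refine (CW_nil _ _ _ s y).trans ?_
    exact congrArg Wd.nil (hd_rxA s y)
  | hsnoc w hw r =>
    rw [mgG'_snoc, map_sub, Wd.mh_snoc, Wd.mh_snoc, ← hw, ← hw]
    exact CW_snoc _ _ _ w r y

/-- the pairing and `gam` -/
theorem tau'_CWp (hA : A.toSD.FinH) (x y : (HC A.diag).V)
    (h : (HC2 (E2 A.diag) (E1 A.diag) (E1_E2 A.diag).symm).D ((CWp A).f (x ⊗ₜ y)) = 0)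
    (h' : (HC2 (E1 A.diag) (E2 A.diag) (E1_E2 A.diag)).D
      ((hc2 (Q1_Q2 A) (E1_E2 A.diag) (gam A) (gam_E1 A) (gam_E2 A)).f
        ((mgG A.diag A.diag).f (x ⊗ₜ y))) = 0) :
    tau' A.diag hA (SD.Coh.mk ((CWp A).f (x ⊗ₜ y)) h) =
      tau A.diag hA (SD.Coh.mk ((hc2 (Q1_Q2 A) (E1_E2 A.diag) (gam A) (gam_E1 A)
        (gam_E2 A)).f ((mgG A.diag A.diag).f (x ⊗ₜ y))) h') := by
  refine tau'_sw A.diag hA _ h' _ h ?_
  have h1 := hc2_sw (Q1_Q2 A) (E1_E2 A.diag) (gam A) (gam_E1 A) (gam_E2 A)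
    ((mgG A.diag A.diag).f (x ⊗ₜ y))
  refine h1.symm.trans ?_
  have h2 : (sw (bQ1 A) (bQ2 A) (Q1_Q2 A)).f ((mgG A.diag A.diag).f (x ⊗ₜ y)) =
      (mgG' A.diag A.diag).f (x ⊗ₜ y) := mg_sw A.diag A.diag x y
  rw [h2]
  exact (CWp_gam x y).symm

end NC
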