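import Pool.Agent.H16.NC.Cross

/-!
# The swap `HC(R2; HC(R1; N)) → HC(R1; HC(R2; N))` (base file, helper16)
-/

open scoped TensorProduct

namespace NC

variable {k : Type} [Field k]

section sw

variable {R₁ R₂ : DGA k} {N : SD k}

/-- append a letter of `R₂` to the inner word; it crosses the outer letters -/
noncomputable def ins (R₁ R₂ : DGA k) (N : SD k) :
    Wd k (Wd k N.V R₂.V) R₁.V →ₗ[k] R₂.V →ₗ[k] Wd k (Wd k N.V R₂.V) R₁.V :=
  Wd.recW (Wd.snoc.compr₂ Wd.nil) 0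
    (LinearMap.mk₂ k (fun (z : R₂.V →ₗ[k] Wd k (Wd k N.V R₂.V) R₁.V) (a : R₁.V) =>
      Wd.snoc.flip a ∘ₗ z ∘ₗ (LinearMap.id - R₂.P) - Wd.snoc.flip (R₁.E a) ∘ₗ z ∘ₗ R₂.P)
      (fun z z' a => by ext; simp; abel)
      (fun c z a => by ext; simp [smul_sub])
      (fun z a a' => by ext; simp; abel)
      (fun c z a => by ext; simp [smul_sub]))

@[simp] theorem ins_nil (v : Wd k N.V R₂.V) (r : R₂.V) :
    ins R₁ R₂ N (Wd.nil v) r = Wd.nil (Wd.snoc v r) := by simp [ins]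
@[simp] theorem ins_snoc (u : Wd k (Wd k N.V R₂.V) R₁.V) (a : R₁.V) (r : R₂.V) :
    ins R₁ R₂ N (Wd.snoc u a) r = Wd.snoc (ins R₁ R₂ N u (r - R₂.P r)) a -
      Wd.snoc (ins R₁ R₂ N u (R₂.P r)) (R₁.E a) := by simp [ins]

/-- the swap -/
noncomputable def sw0 (R₁ R₂ : DGA k) (N : SD k) :
    Wd k (Wd k N.V R₁.V) R₂.V →ₗ[k] Wd k (Wd k N.V R₂.V) R₁.V :=
  Wd.recW (Wd.map Wd.nil LinearMap.id) 0 (ins R₁ R₂ N)

@[simp] theorem sw0_nil (v : Wd k N.V R₁.V) :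
    sw0 R₁ R₂ N (Wd.nil v) = Wd.map Wd.nil LinearMap.id v := by simp [sw0]
@[simp] theorem sw0_snoc (z : Wd k (Wd k N.V R₁.V) R₂.V) (r : R₂.V) :
    sw0 R₁ R₂ N (Wd.snoc z r) = ins R₁ R₂ N (sw0 R₁ R₂ N z) r := by simp [sw0]

/-- words of the inner kind -/
noncomputable abbrev WI (ρ₂ : RA R₂ N) : SD k := words ρ₂

variable (ρ₂ : RA R₂ N)

/-- tail multiplication is a right action on words -/
noncomputable def tlRA (ρ : RA R₂ N) : RA R₂ (words ρ) where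
  act := tl R₂ ρ.act
  act_mul := fun w a b => tl_tl R₂ ρ.act ρ.act_mul w a b
  P_act := PW_tl ρ
  D_act := Db_tl ρ

theorem PW_ins (u : Wd k (Wd k N.V R₂.V) R₁.V) (r : R₂.V) :
    PW (words ρ₂) R₁.toSD (ins R₁ R₂ N u r) =
      ins R₁ R₂ N u (R₂.P r) - ins R₁ R₂ N (PW (words ρ₂) R₁.toSD u) (R₂.E r) := by
  induction u using Wd.induction generalizing r with
  | hadd a b ha hb => simp only [map_add, LinearMap.add_apply, ha, hb]; abel
  | hnil v =>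
    have h1 : ∀ v, PW (words ρ₂) R₁.toSD (Wd.nil v) = Wd.nil (PW N R₂.toSD v) :=
      fun v => PW_nil _ _ _
    rw [ins_nil, h1, h1, ins_nil, ins_nil, PW_snoc, map_sub]
  | hsnoc u hu a =>
    have h1 : ∀ u (a : R₁.V), PW (words ρ₂) R₁.toSD (Wd.snoc u a) = Wd.snoc u (R₁.P a) -
        Wd.snoc (PW (words ρ₂) R₁.toSD u) (R₁.E a) := fun u a => PW_snoc _ _ _ _
    rw [ins_snoc, map_sub, h1, h1, h1, hu, hu]
    simp only [map_sub, LinearMap.sub_apply, ins_snoc, R₂.PP, R₂.PE, R₁.PE, R₁.EP, R₁.EE]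
    simp only [SD.E_apply, map_sub, map_add, LinearMap.sub_apply, LinearMap.add_apply, R₂.PP,
      R₁.PP]
    abel

theorem EW_ins (u : Wd k (Wd k N.V R₂.V) R₁.V) (r : R₂.V) :
    EW (words ρ₂) R₁.toSD (ins R₁ R₂ N u r) =
      - ins R₁ R₂ N (EW (words ρ₂) R₁.toSD u) (R₂.E r) := by
  have h1 : ∀ u, EW (words ρ₂) R₁.toSD u = PW (words ρ₂) R₁.toSD u +
    PW (words ρ₂) R₁.toSD u - u := fun u => rfl
  rw [h1, h1, PW_ins]
  simp only [SD.E_apply, map_sub, map_add, LinearMap.sub_apply, LinearMap.add_apply]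
  abel

/-- left action on the inner head -/
noncomputable abbrev lW {S : DGA k} (l : LA S N) (ρ₂ : RA R₂ N) (h : LR l ρ₂) :
    LA S (words ρ₂) := l.words ρ₂ h

/-- right action on the inner head -/
noncomputable abbrev rW {S : DGA k} (r : RA S N) (ρ₂ : RA R₂ N) (h : RR ρ₂ r) :
    RA S (words ρ₂) := r.words ρ₂ h

theorem hd_ins {S : DGA k} (l : LA S N) (h : LR l ρ₂) (u : Wd k (Wd k N.V R₂.V) R₁.V)
    (r : R₂.V) (s : S.V) :
    hd R₁ (lW l ρ₂ h) s (ins R₁ R₂ N u r) = ins R₁ R₂ N (hd R₁ (lW l ρ₂ h) s u) r := by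
  induction u using Wd.induction generalizing r with
  | hadd a b ha hb => simp only [map_add, LinearMap.add_apply, ha, hb]
  | hnil v =>
    have h1 : ∀ v, hd R₁ (lW l ρ₂ h) s (Wd.nil v) = Wd.nil (hd R₂ l s v) :=
      fun v => hd_nil _ _ _
    rw [ins_nil, h1, h1, ins_nil, hd_snoc]
  | hsnoc u hu a =>
    have h1 : ∀ u (a : R₁.V), hd R₁ (lW l ρ₂ h) s (Wd.snoc u a) =
      Wd.snoc (hd R₁ (lW l ρ₂ h) s u) a := fun u a => hd_snoc _ _ _ _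
    rw [ins_snoc, map_sub, h1, h1, h1, hu, hu, ins_snoc]

theorem tl_ins (r₁ : RA R₁ N) (h : RR ρ₂ r₁) (u : Wd k (Wd k N.V R₂.V) R₁.V) (r : R₂.V)
    (a : R₁.V) :
    tl R₁ (rW r₁ ρ₂ h).act (ins R₁ R₂ N u r) a =
      ins R₁ R₂ N (tl R₁ (rW r₁ ρ₂ h).act u a) (r - R₂.P r) +
        ins R₁ R₂ N (tl R₁ (rW r₁ ρ₂ h).act u (R₁.E a)) (R₂.P r) := by
  induction u using Wd.induction generalizing r with
  | hadd a b ha hb => simp only [map_add, LinearMap.add_apply, ha, hb]; abel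
  | hnil v =>
    have h1 : ∀ v a, tl R₁ (rW r₁ ρ₂ h).act (Wd.nil v) a = Wd.nil (hr R₂ r₁ v a) :=
      fun v a => tl_nil _ _ _ _
    rw [ins_nil, h1, h1, h1, ins_nil, ins_nil, hr_snoc]
    simp only [SD.E_apply, map_sub, map_add, LinearMap.sub_apply, LinearMap.add_apply]
    abel
  | hsnoc u hu b =>
    simp only [ins_snoc, map_sub, LinearMap.sub_apply, tl_snoc, DGA.E_mul, R₂.PP, R₁.EE]
    simp only [SD.E_apply, map_sub, map_add, LinearMap.sub_apply, LinearMap.add_apply, mul_sub,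
      mul_add, sub_mul, add_mul, R₂.PP]
    abel

/-- right multiplication of the last inner letter; it crosses the outer letters -/
noncomputable abbrev TL (R₁ : DGA k) (ρ₂ : RA R₂ N) :
    Wd k (Wd k N.V R₂.V) R₁.V →ₗ[k] R₂.V →ₗ[k] Wd k (Wd k N.V R₂.V) R₁.V :=
  hr R₁ (tlRA ρ₂)

theorem TL_nil (v : Wd k N.V R₂.V) (r : R₂.V) :
    TL R₁ ρ₂ (Wd.nil v) r = Wd.nil (tl R₂ ρ₂.act v r) := hr_nil _ _ _
theorem TL_snoc (u : Wd k (Wd k N.V R₂.V) R₁.V) (a : R₁.V) (r : R₂.V) :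
    TL R₁ ρ₂ (Wd.snoc u a) r = Wd.snoc (TL R₁ ρ₂ u (R₂.P r)) a -
      Wd.snoc (TL R₁ ρ₂ u (r - R₂.P r)) (R₁.E a) := hr_snoc _ _ _ _

theorem TL_ins (u : Wd k (Wd k N.V R₂.V) R₁.V) (s r : R₂.V) :
    TL R₁ ρ₂ (ins R₁ R₂ N u s) r = ins R₁ R₂ N u (s * r) := by
  induction u using Wd.induction generalizing s r with
  | hadd a b ha hb => simp only [map_add, LinearMap.add_apply, ha, hb]
  | hnil v => rw [ins_nil, TL_nil, tl_snoc, ins_nil]
  | hsnoc u hu a =>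
    have hP : R₂.P (s * r) = R₂.P s * R₂.P r + (s - R₂.P s) * (r - R₂.P r) := R₂.P_mul s r
    rw [ins_snoc, map_sub, LinearMap.sub_apply, TL_snoc, TL_snoc, hu, hu, hu, hu, ins_snoc, hP,
      R₁.EE]
    simp only [map_sub, map_add, LinearMap.sub_apply, LinearMap.add_apply, mul_sub, sub_mul]
    abel

theorem Db_ins (r₁ : RA R₁ N) (h : RR ρ₂ r₁) (u : Wd k (Wd k N.V R₂.V) R₁.V) (r : R₂.V) :
    Db (rW r₁ ρ₂ h) (ins R₁ R₂ N u r) = ins R₁ R₂ N (Db (rW r₁ ρ₂ h) u) r -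
      ins R₁ R₂ N (EW (words ρ₂) R₁.toSD u) (R₂.D r) +
      TL R₁ ρ₂ (EW (words ρ₂) R₁.toSD u) r := by
  induction u using Wd.induction generalizing r with
  | hadd a b ha hb => simp only [map_add, LinearMap.add_apply, ha, hb]; abel
  | hnil v =>
    have h1 : ∀ v, Db (rW r₁ ρ₂ h) (Wd.nil v) = Wd.nil (Db ρ₂ v) := fun v => Db_nil _ _
    have h2 : ∀ v, EW (words ρ₂) R₁.toSD (Wd.nil v) = Wd.nil (EW N R₂.toSD v) :=
      fun v => EW_nil _ _ _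
    rw [ins_nil, h1, h1, h2, ins_nil, ins_nil, TL_nil, Db_snoc, map_add, map_sub]
  | hsnoc u hu a =>
    have h1 : ∀ u (a : R₁.V), Db (rW r₁ ρ₂ h) (Wd.snoc u a) = Wd.snoc (Db (rW r₁ ρ₂ h) u) a -
      Wd.snoc (EW (words ρ₂) R₁.toSD u) (R₁.D a) +
      tl R₁ (rW r₁ ρ₂ h).act (EW (words ρ₂) R₁.toSD u) a := fun u a => Db_snoc _ _ _
    have h2 : ∀ u (a : R₁.V), EW (words ρ₂) R₁.toSD (Wd.snoc u a) =
      - Wd.snoc (EW (words ρ₂) R₁.toSD u) (R₁.E a) := fun u a => EW_snoc _ _ _ _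
    rw [ins_snoc, map_sub, h1, h1, h1, hu, hu, EW_ins, EW_ins, h2]
    simp only [map_neg, LinearMap.neg_apply]
    rw [tl_ins, tl_ins]
    simp only [map_sub, map_add, LinearMap.sub_apply, LinearMap.add_apply,
      ins_snoc, TL_snoc, R₁.EE, R₁.DE, R₂.EP, R₂.PE, R₂.PP, map_neg]
    simp only [SD.E_apply, map_sub, map_add, LinearMap.sub_apply, LinearMap.add_apply, R₁.PP,
      R₂.PP, R₁.DP, R₂.DP]
    abel

theorem om_ins (l₁ : LA R₁ N) (h : LR l₁ ρ₂) (u : Wd k (Wd k N.V R₂.V) R₁.V) (r : R₂.V) :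
    om (lW l₁ ρ₂ h) (ins R₁ R₂ N u r) = ins R₁ R₂ N (om (lW l₁ ρ₂ h) u) r := by
  induction u using Wd.induction generalizing r with
  | hadd a b ha hb => simp only [map_add, LinearMap.add_apply, ha, hb]
  | hnil v =>
    have h1 : ∀ v, om (lW l₁ ρ₂ h) (Wd.nil v) = 0 := fun v => om_nil _ _
    rw [ins_nil, h1, h1, map_zero, LinearMap.zero_apply]
  | hsnoc u hu a =>
    have h1 : ∀ u (a : R₁.V), om (lW l₁ ρ₂ h) (Wd.snoc u a) =
      hd R₁ (lW l₁ ρ₂ h) (R₁.P a) (EW (words ρ₂) R₁.toSD u) +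
      hd R₁ (lW l₁ ρ₂ h) (a - R₁.P a) u := fun u a => om_snoc _ _ _
    rw [ins_snoc, map_sub, h1, h1, h1, EW_ins, EW_ins]
    simp only [map_neg]
    rw [hd_ins, hd_ins, hd_ins, hd_ins]
    simp only [map_sub, map_add, LinearMap.sub_apply, LinearMap.add_apply, R₁.PE, R₂.EP,
      map_neg, LinearMap.neg_apply, R₁.PP, R₂.PP]
    simp only [SD.E_apply, map_sub, map_add, LinearMap.sub_apply, LinearMap.add_apply, R₁.PP,
      R₂.PP]
    abel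

/-- the wrap of the inner word -/
theorem mapom_ins (l₂ : LA R₂ N) (h : LR l₂ ρ₂) (u : Wd k (Wd k N.V R₂.V) R₁.V) (r : R₂.V) :
    Wd.map (om l₂) LinearMap.id (ins R₁ R₂ N u r) =
      hd R₁ (lW l₂ ρ₂ h) (R₂.P r) (EW (words ρ₂) R₁.toSD u) +
        hd R₁ (lW l₂ ρ₂ h) (r - R₂.P r) u := by
  induction u using Wd.induction generalizing r with
  | hadd a b ha hb => simp only [map_add, LinearMap.add_apply, ha, hb]; abel
  | hnil v =>
    have h1 : ∀ v s, hd R₁ (lW l₂ ρ₂ h) s (Wd.nil v) = Wd.nil (hd R₂ l₂ s v) :=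
      fun v s => hd_nil _ _ _
    have h2 : ∀ v, EW (words ρ₂) R₁.toSD (Wd.nil v) = Wd.nil (EW N R₂.toSD v) :=
      fun v => EW_nil _ _ _
    rw [ins_nil, h2, h1, h1, Wd.map_nil, om_snoc, map_add]
  | hsnoc u hu a =>
    have h1 : ∀ u (a : R₁.V) s, hd R₁ (lW l₂ ρ₂ h) s (Wd.snoc u a) =
      Wd.snoc (hd R₁ (lW l₂ ρ₂ h) s u) a := fun u a s => hd_snoc _ _ _ _
    have h2 : ∀ u (a : R₁.V), EW (words ρ₂) R₁.toSD (Wd.snoc u a) =
      - Wd.snoc (EW (words ρ₂) R₁.toSD u) (R₁.E a) := fun u a => EW_snoc _ _ _ _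
    rw [ins_snoc, map_sub, Wd.map_snoc, Wd.map_snoc, hu, hu, h2, map_neg, h1, h1]
    simp only [map_sub, map_add, LinearMap.sub_apply, LinearMap.add_apply, R₂.PP,
      LinearMap.id_apply]
    abel

theorem sw0_EW (b₁ : Bi R₁ R₁ N) (z : Wd k (Wd k N.V R₁.V) R₂.V) :
    sw0 R₁ R₂ N (EW (HC b₁) R₂.toSD z) = EW (words ρ₂) R₁.toSD (sw0 R₁ R₂ N z) := by
  induction z using Wd.induction with
  | hadd a b ha hb => simp only [map_add, ha, hb]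
  | hnil v =>
    have h1 : EW (HC b₁) R₂.toSD (Wd.nil v) = Wd.nil (EW N R₁.toSD v) := EW_nil _ _ _
    rw [h1, sw0_nil, sw0_nil]
    clear h1
    induction v using Wd.induction with
    | hadd a b ha hb => simp only [map_add, ha, hb]
    | hnil n =>
      have h2 : EW (words ρ₂) R₁.toSD (Wd.nil (Wd.nil n)) = Wd.nil (EW N R₂.toSD (Wd.nil n)) :=
        EW_nil _ _ _
      rw [Wd.map_nil, h2, EW_nil, EW_nil, Wd.map_nil]
    | hsnoc v hv a =>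
      have h2 : ∀ u (a : R₁.V), EW (words ρ₂) R₁.toSD (Wd.snoc u a) =
        - Wd.snoc (EW (words ρ₂) R₁.toSD u) (R₁.E a) := fun u a => EW_snoc _ _ _ _
      rw [Wd.map_snoc, h2, EW_snoc, map_neg, Wd.map_snoc, hv]
      rfl
  | hsnoc z hz r =>
    have h1 : EW (HC b₁) R₂.toSD (Wd.snoc z r) = - Wd.snoc (EW (HC b₁) R₂.toSD z) (R₂.E r) :=
      EW_snoc _ _ _ _
    rw [h1, map_neg, sw0_snoc, sw0_snoc, hz, EW_ins]

theorem sw0_PW (b₁ : Bi R₁ R₁ N) (z : Wd k (Wd k N.V R₁.V) R₂.V) :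
    sw0 R₁ R₂ N (PW (HC b₁) R₂.toSD z) = PW (words ρ₂) R₁.toSD (sw0 R₁ R₂ N z) := by
  induction z using Wd.induction with
  | hadd a b ha hb => simp only [map_add, ha, hb]
  | hnil v =>
    have h1 : PW (HC b₁) R₂.toSD (Wd.nil v) = Wd.nil (PW N R₁.toSD v) := PW_nil _ _ _
    rw [h1, sw0_nil, sw0_nil]
    clear h1
    induction v using Wd.induction with
    | hadd a b ha hb => simp only [map_add, ha, hb]
    | hnil n =>
      have h2 : PW (words ρ₂) R₁.toSD (Wd.nil (Wd.nil n)) = Wd.nil (PW N R₂.toSD (Wd.nil n)) :=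
        PW_nil _ _ _
      rw [Wd.map_nil, h2, PW_nil, PW_nil, Wd.map_nil]
    | hsnoc v hv a =>
      have h2 : ∀ u (a : R₁.V), PW (words ρ₂) R₁.toSD (Wd.snoc u a) = Wd.snoc u (R₁.P a) -
        Wd.snoc (PW (words ρ₂) R₁.toSD u) (R₁.E a) := fun u a => PW_snoc _ _ _ _
      rw [Wd.map_snoc, h2, PW_snoc, map_sub, Wd.map_snoc, Wd.map_snoc, hv]
      rfl
  | hsnoc z hz r =>
    have h1 : PW (HC b₁) R₂.toSD (Wd.snoc z r) = Wd.snoc z (R₂.P r) -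
      Wd.snoc (PW (HC b₁) R₂.toSD z) (R₂.E r) := PW_snoc _ _ _ _
    rw [h1, map_sub, sw0_snoc, sw0_snoc, sw0_snoc, hz, PW_ins]

theorem sw0_hd (b₁ : Bi R₁ R₁ N) {S : DGA k} (l : LA S N) (h : LR l ρ₂) (h1 : LL b₁.l l)
    (h2 : LR l b₁.r) (s : S.V) (z : Wd k (Wd k N.V R₁.V) R₂.V) :
    sw0 R₁ R₂ N (hd R₂ (hcLA b₁ l h1 h2) s z) = hd R₁ (lW l ρ₂ h) s (sw0 R₁ R₂ N z) := by
  induction z using Wd.induction with
  | hadd a b ha hb => simp only [map_add, ha, hb]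
  | hnil v =>
    have h3 : hd R₂ (hcLA b₁ l h1 h2) s (Wd.nil v) = Wd.nil (hd R₁ l s v) := hd_nil _ _ _
    rw [h3, sw0_nil, sw0_nil]
    clear h3
    induction v using Wd.induction with
    | hadd a b ha hb => simp only [map_add, ha, hb]
    | hnil n =>
      have h2 : hd R₁ (lW l ρ₂ h) s (Wd.nil (Wd.nil n)) = Wd.nil (hd R₂ l s (Wd.nil n)) :=
        hd_nil _ _ _
      rw [Wd.map_nil, h2, hd_nil, hd_nil, Wd.map_nil]
    | hsnoc v hv a =>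
      have h2 : ∀ u (a : R₁.V), hd R₁ (lW l ρ₂ h) s (Wd.snoc u a) =
        Wd.snoc (hd R₁ (lW l ρ₂ h) s u) a := fun u a => hd_snoc _ _ _ _
      rw [Wd.map_snoc, h2, hd_snoc, Wd.map_snoc, hv]
  | hsnoc z hz r =>
    have h3 : hd R₂ (hcLA b₁ l h1 h2) s (Wd.snoc z r) =
      Wd.snoc (hd R₂ (hcLA b₁ l h1 h2) s z) r := hd_snoc _ _ _ _
    rw [h3, sw0_snoc, sw0_snoc, hz, hd_ins]

theorem sw0_tl (b₁ : Bi R₁ R₁ N) (h1 : LR b₁.l ρ₂) (h2 : RR b₁.r ρ₂)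
    (z : Wd k (Wd k N.V R₁.V) R₂.V) (r : R₂.V) :
    sw0 R₁ R₂ N (tl R₂ (hcRA b₁ ρ₂ h1 h2).act z r) = TL R₁ ρ₂ (sw0 R₁ R₂ N z) r := by
  induction z using Wd.induction with
  | hadd a b ha hb => simp only [map_add, LinearMap.add_apply, ha, hb]
  | hnil v =>
    have h3 : tl R₂ (hcRA b₁ ρ₂ h1 h2).act (Wd.nil v) r = Wd.nil (hr R₁ ρ₂ v r) :=
      tl_nil _ _ _ _
    rw [h3, sw0_nil, sw0_nil]
    clear h3
    induction v using Wd.induction generalizing r with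
    | hadd a b ha hb => simp only [map_add, LinearMap.add_apply, ha, hb]
    | hnil n =>
      rw [Wd.map_nil, TL_nil, tl_nil, hr_nil, Wd.map_nil]
    | hsnoc v hv a =>
      rw [Wd.map_snoc, TL_snoc, hr_snoc, map_sub, Wd.map_snoc, Wd.map_snoc, hv, hv]
      rfl
  | hsnoc z hz s => rw [tl_snoc, sw0_snoc, sw0_snoc, TL_ins]

/-- the inner differential of `HC b₂` differs from the one of `words` by the inner wrap -/
theorem Db_hcRA (b₂ : Bi R₂ R₂ N) (r₁ : RA R₁ N) (h1 : LR b₂.l r₁) (h2 : RR b₂.r r₁)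
    (u : Wd k (Wd k N.V R₂.V) R₁.V) :
    Db (hcRA b₂ r₁ h1 h2) u = Db (rW r₁ b₂.r h2) u - Wd.map (om b₂.l) LinearMap.id u := by
  induction u using Wd.induction with
  | hadd a b ha hb => simp only [map_add, ha, hb]; abel
  | hnil v =>
    have h3 : Db (hcRA b₂ r₁ h1 h2) (Wd.nil v) = Wd.nil (hcD b₂ v) := Db_nil _ _
    have h4 : Db (rW r₁ b₂.r h2) (Wd.nil v) = Wd.nil (Db b₂.r v) := Db_nil _ _
    rw [h3, h4, Wd.map_nil, hcD_apply, map_sub]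
  | hsnoc u hu a =>
    have h3 : Db (hcRA b₂ r₁ h1 h2) (Wd.snoc u a) = Wd.snoc (Db (hcRA b₂ r₁ h1 h2) u) a -
      Wd.snoc (EW (HC b₂) R₁.toSD u) (R₁.D a) +
      tl R₁ (hcRA b₂ r₁ h1 h2).act (EW (HC b₂) R₁.toSD u) a := Db_snoc _ _ _
    have h4 : Db (rW r₁ b₂.r h2) (Wd.snoc u a) = Wd.snoc (Db (rW r₁ b₂.r h2) u) a -
      Wd.snoc (EW (words b₂.r) R₁.toSD u) (R₁.D a) +
      tl R₁ (rW r₁ b₂.r h2).act (EW (words b₂.r) R₁.toSD u) a := Db_snoc _ _ _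
    have h5 : EW (HC b₂) R₁.toSD u = EW (words b₂.r) R₁.toSD u := rfl
    have h6 : tl R₁ (hcRA b₂ r₁ h1 h2).act = tl R₁ (rW r₁ b₂.r h2).act := rfl
    rw [h3, h4, hu, h5, h6, Wd.map_snoc, map_sub, LinearMap.sub_apply]
    simp only [LinearMap.id_apply]
    abel

/-- the inclusion of words of length zero -/
noncomputable def nilHom (ρ : RA R₂ N) : SD.Hom N (words ρ) where
  f := Wd.nil
  D := fun v => (Db_nil ρ v).symm
  P := fun v => (PW_nil N R₂.toSD v).symm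

theorem sw0_Db (b₁ : Bi R₁ R₁ N) (b₂ : Bi R₂ R₂ N) (h : Comm b₁ b₂)
    (z : Wd k (Wd k N.V R₁.V) R₂.V) :
    sw0 R₁ R₂ N (Db (b₁.hc b₂ h).r z) =
      Db (rW b₁.r b₂.r h.symm.rr) (sw0 R₁ R₂ N z) - om (lW b₁.l b₂.r h.lr) (sw0 R₁ R₂ N z) := by
  induction z using Wd.induction with
  | hadd a b ha hb => simp only [map_add, ha, hb]; abel
  | hnil v =>
    have h3 : Db (b₁.hc b₂ h).r (Wd.nil v) = Wd.nil (hcD b₁ v) := Db_nil _ _
    rw [h3, sw0_nil, sw0_nil, hcD_apply, map_sub]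
    have h4 := map_Db (nilHom b₂.r) (DGA.NHom.id R₁) b₁.r (rW b₁.r b₂.r h.symm.rr)
      (fun n r => (hr_nil b₁.r n r).symm) v
    have h5 := map_om (nilHom b₂.r) (DGA.NHom.id R₁) b₁.l (lW b₁.l b₂.r h.lr)
      (fun r n => (hd_nil b₁.l r n).symm) v
    exact congrArg₂ (· - ·) h4 h5
  | hsnoc z hz r =>
    have h3 : Db (b₁.hc b₂ h).r (Wd.snoc z r) = Wd.snoc (Db (b₁.hc b₂ h).r z) r -
      Wd.snoc (EW (HC b₁) R₂.toSD z) (R₂.D r) +
      tl R₂ (hcRA b₁ b₂.r h.lr h.rr).act (EW (HC b₁) R₂.toSD z) r := Db_snoc _ _ _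
    rw [h3, map_add, map_sub, sw0_snoc, sw0_snoc, sw0_snoc, sw0_tl, sw0_EW b₂.r, hz,
      Db_ins, om_ins]
    simp only [map_sub, LinearMap.sub_apply]
    abel

theorem sw0_om (b₁ : Bi R₁ R₁ N) (b₂ : Bi R₂ R₂ N) (h : Comm b₁ b₂)
    (z : Wd k (Wd k N.V R₁.V) R₂.V) :
    sw0 R₁ R₂ N (om (b₁.hc b₂ h).l z) = Wd.map (om b₂.l) LinearMap.id (sw0 R₁ R₂ N z) := by
  induction z using Wd.induction with
  | hadd a b ha hb => simp only [map_add, ha, hb]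
  | hnil v =>
    have h3 : om (b₁.hc b₂ h).l (Wd.nil v) = 0 := om_nil _ _
    rw [h3, map_zero, sw0_nil]
    clear h3
    induction v using Wd.induction with
    | hadd a b ha hb => rw [map_add, map_add, ← ha, ← hb, add_zero]
    | hnil n => rw [Wd.map_nil, Wd.map_nil, om_nil, map_zero]
    | hsnoc v hv a =>
      rw [Wd.map_snoc, Wd.map_snoc, ← hv, map_zero, LinearMap.zero_apply]
  | hsnoc z _ r =>
    have h3 : om (b₁.hc b₂ h).l (Wd.snoc z r) =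
      hd R₂ (hcLA b₁ b₂.l h.ll h.rl) (R₂.P r) (EW (HC b₁) R₂.toSD z) +
      hd R₂ (hcLA b₁ b₂.l h.ll h.rl) (r - R₂.P r) z := om_snoc _ _ _
    rw [h3, map_add, sw0_hd b₂.r b₁ b₂.l b₂.lr, sw0_hd b₂.r b₁ b₂.l b₂.lr, sw0_EW b₂.r,
      sw0_snoc, mapom_ins b₂.r b₂.l b₂.lr]

theorem hcD_nest (b₁ : Bi R₁ R₁ N) (b₂ : Bi R₂ R₂ N) (h : Comm b₁ b₂)
    (u : Wd k (Wd k N.V R₂.V) R₁.V) :
    hcD (b₂.hc b₁ h.symm) u = Db (rW b₁.r b₂.r h.symm.rr) u -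
        Wd.map (om b₂.l) LinearMap.id u - om (lW b₁.l b₂.r h.lr) u := by
  have h3 : hcD (b₂.hc b₁ h.symm) u = Db (b₂.hc b₁ h.symm).r u -
    om (b₂.hc b₁ h.symm).l u := rfl
  rw [h3]
  have h4 := Db_hcRA b₂ b₁.r h.symm.lr h.symm.rr u
  have h5 : Db (b₂.hc b₁ h.symm).r u = Db (hcRA b₂ b₁.r h.symm.lr h.symm.rr) u := rfl
  have h6 : om (b₂.hc b₁ h.symm).l u = om (lW b₁.l b₂.r h.lr) u := rfl
  rw [h5, h6, h4]

/-- the swap of nested Hochschild complexes -/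
noncomputable def sw (b₁ : Bi R₁ R₁ N) (b₂ : Bi R₂ R₂ N) (h : Comm b₁ b₂) :
    SD.Hom (HC (b₁.hc b₂ h)) (HC (b₂.hc b₁ h.symm)) where
  f := sw0 R₁ R₂ N
  D := fun z => by
    change sw0 R₁ R₂ N (hcD (b₁.hc b₂ h) z) = hcD (b₂.hc b₁ h.symm) (sw0 R₁ R₂ N z)
    have h1 : hcD (b₁.hc b₂ h) z = Db (b₁.hc b₂ h).r z - om (b₁.hc b₂ h).l z := rfl
    rw [h1, hcD_nest b₁ b₂ h, map_sub, sw0_Db, sw0_om]
    abel
  P := fun z => sw0_PW b₂.r b₁ z

/-- naturality of the swap -/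
theorem sw0_map {N' : SD k} (f : N.V →ₗ[k] N'.V) (z : Wd k (Wd k N.V R₁.V) R₂.V) :
    sw0 R₁ R₂ N' (Wd.map (Wd.map f LinearMap.id) LinearMap.id z) =
      Wd.map (Wd.map f LinearMap.id) LinearMap.id (sw0 R₁ R₂ N z) := by
  have hi : ∀ (u : Wd k (Wd k N.V R₂.V) R₁.V) (r : R₂.V),
      ins R₁ R₂ N' (Wd.map (Wd.map f LinearMap.id) LinearMap.id u) r =
        Wd.map (Wd.map f LinearMap.id) LinearMap.id (ins R₁ R₂ N u r) := by
    intro u
    induction u using Wd.induction with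
    | hadd a b ha hb => intro r; simp only [map_add, LinearMap.add_apply, ha, hb]
    | hnil v => intro r; simp
    | hsnoc u hu a => intro r; simp [hu]
  induction z using Wd.induction with
  | hadd a b ha hb => simp only [map_add, ha, hb]
  | hnil v =>
    rw [Wd.map_nil, sw0_nil, sw0_nil]
    induction v using Wd.induction with
    | hadd a b ha hb => simp only [map_add, ha, hb]
    | hnil n => simp
    | hsnoc v hv a => simp [hv]
  | hsnoc z hz r => rw [Wd.map_snoc, sw0_snoc, sw0_snoc, hz, hi]; rfl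

end sw

end NC
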