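import Pool.Agent.H16.NC.Sw
import Pool.Agent.H28.NC.BarMap
import Pool.Agent.H15.NC.HCQI
import Pool.Agent.H15.NC.HCFree

/-!
# Trace data (base file, helper16)

`X : Bi R₂ R₁`, `N : Bi R₁ R₂`.  `G = HC(R₂; Bar(X, R₁, N))`.
* `contrG μ : G → L` for `μ : X ⊗ N → L`, `MuD`;
* `bG ν : G → HC(R₂; HC(R₁; K))` for `ν : N ⊗ X → K`, `NuD`;
* further commuting structures on `N` give structures on `G`: `dBar`, `dG`;
* functoriality `gMap`.
-/

open scoped TensorProduct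

namespace NC

variable {k : Type} [Field k]

section

variable {R₁ R₂ S : DGA k} {X N K L : SD k}

/-! ### further structures on the bar complex, coming from the right module -/

/-- the operator of the left action through `N`; it crosses the word -/
noncomputable def lcw {R : DGA k} (X : SD k) (a : LA S N) :
    S.V →ₗ[k] (Wd k X.V R.V ⊗[k] N.V) →ₗ[k] (Wd k X.V R.V ⊗[k] N.V) :=
  LinearMap.lTensorHom (Wd k X.V R.V) ∘ₗ a.act ∘ₗ S.P +
    (TensorProduct.mapBilinear (RingHom.id k) (Wd k X.V R.V) N.V (Wd k X.V R.V) N.V)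
      (EW X R.toSD) ∘ₗ a.act ∘ₗ (LinearMap.id - S.P)

@[simp] theorem lcw_tmul {R : DGA k} (X : SD k) (a : LA S N) (s : S.V) (w : Wd k X.V R.V)
    (y : N.V) : lcw X a s (w ⊗ₜ y) = w ⊗ₜ a.act (S.P s) y +
      EW X R.toSD w ⊗ₜ a.act (s - S.P s) y := rfl

theorem SD.P_D (N : SD k) (v : N.V) : N.P (N.D v) = N.D (v - N.P v) := by
  rw [map_sub, N.DP]; abel
theorem SD.D_sub_P_D (N : SD k) (v : N.V) : N.D v - N.P (N.D v) = N.D (N.P v) := (N.DP v).symm
theorem SD.E_sub_P_E (N : SD k) (v : N.V) : N.E v - N.P (N.E v) = -(v - N.P v) := by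
  rw [N.PE, N.E_apply]; abel
theorem SD.E_odd (N : SD k) (v : N.V) : N.E (v - N.P v) = -(v - N.P v) := by
  rw [map_sub, N.EP, N.E_apply]; abel

theorem LA.D_even {R : DGA k} (a : LA R N) (s : R.V) (y : N.V) :
    N.D (a.act (R.P s) y) = a.act (R.D (R.P s)) y + a.act (R.P s) (N.D y) := by
  rw [a.D_act, R.EP]
theorem LA.D_odd {R : DGA k} (a : LA R N) (s : R.V) (y : N.V) :
    N.D (a.act (s - R.P s) y) = a.act (R.D (s - R.P s)) y - a.act (s - R.P s) (N.D y) := by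
  rw [a.D_act, R.E_odd, map_neg, LinearMap.neg_apply]
  exact (sub_eq_add_neg _ _).symm
theorem LL.even {R : DGA k} {l : LA R N} {a : LA S N} (h : LL l a) (r : R.V) (s : S.V) (y : N.V) :
    l.act r (a.act (S.P s) y) = a.act (S.P s) (l.act r y) := by
  rw [h, S.EP, ← map_add, ← LinearMap.add_apply, ← map_add, add_sub_cancel]
theorem LL.odd {R : DGA k} {l : LA R N} {a : LA S N} (h : LL l a) (r : R.V) (s : S.V) (y : N.V) :
    l.act (R.E r) (a.act (s - S.P s) y) = a.act (s - S.P s) (l.act r y) := by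
  rw [h, S.E_odd, R.PE, R.E_apply]
  simp only [map_sub, map_add, map_neg, LinearMap.sub_apply, LinearMap.add_apply,
    LinearMap.neg_apply]
  abel

/-- left action of `S` on `Bar(X, R, N)` through `N`; it crosses the word -/
noncomputable def barLN {R : DGA k} (ρ : RA R X) (l : LA R N) (a : LA S N) (h : LL l a) :
    LA S (Bar ρ l) where
  act := lcw X a
  mul_act := (a.tensR (words ρ)).mul_act
  P_act := (a.tensR (words ρ)).P_act
  D_act := fun s v => by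
    refine tens_ext (f := barD ρ l ∘ₗ lcw X a s)
      (g := lcw X a (S.D s) + lcw X a (S.E s) ∘ₗ barD ρ l) (fun w y => ?_) v
    have e1 : ∀ (w : Wd k X.V R.V) (y : N.V), lcw X a (S.D s) (w ⊗ₜ y) =
        w ⊗ₜ a.act (S.D (s - S.P s)) y + EW X R.toSD w ⊗ₜ a.act (S.D (S.P s)) y := fun w y => by
      rw [lcw_tmul, S.D_sub_P_D, S.P_D]
    have e2 : ∀ (w : Wd k X.V R.V) (y : N.V), lcw X a (S.E s) (w ⊗ₜ y) =
        w ⊗ₜ a.act (S.P s) y - EW X R.toSD w ⊗ₜ a.act (s - S.P s) y := fun w y => by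
      rw [lcw_tmul, S.E_sub_P_E, S.PE, map_neg, LinearMap.neg_apply, TensorProduct.tmul_neg]
      exact (sub_eq_add_neg _ _).symm
    simp only [LinearMap.comp_apply, LinearMap.add_apply]
    induction w using Wd.induction with
    | hadd a b ha hb =>
      rw [TensorProduct.add_tmul, map_add, map_add, map_add, map_add, map_add, ha, hb]; abel
    | hnil n =>
      rw [e1, lcw_tmul, map_add, EW_nil, barD_nil, barD_nil, barD_nil, map_add, e2, e2, a.D_even,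
        a.D_odd, X.EE, X.DE, EW_nil, EW_nil, X.EE]
      simp only [TensorProduct.tmul_add, TensorProduct.tmul_sub, map_neg,
        TensorProduct.neg_tmul]
      abel
    | hsnoc w _ r =>
      rw [e1, lcw_tmul, map_add, EW_snoc, TensorProduct.neg_tmul, map_neg, barD_snoc, barD_snoc,
        barD_snoc, map_sub (lcw X a (S.E s)), map_sub (lcw X a (S.E s)),
        map_add (lcw X a (S.E s)), map_sub (lcw X a (S.E s)), e2, e2, e2, e2, e2, a.D_even,
        a.D_odd, h.even, h.odd]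
      simp only [TensorProduct.tmul_add, TensorProduct.tmul_sub, map_neg, EW_EW, EW_snoc, EW_tl,
        R.EE, R.DE, Db_EW, LinearMap.neg_apply, TensorProduct.neg_tmul]
      abel

@[simp] theorem barLN_act {R : DGA k} (ρ : RA R X) (l : LA R N) (a : LA S N) (h : LL l a)
    (s : S.V) (w : Wd k X.V R.V) (y : N.V) : (barLN ρ l a h).act s (w ⊗ₜ y) =
      w ⊗ₜ a.act (S.P s) y + EW X R.toSD w ⊗ₜ a.act (s - S.P s) y := rfl

/-- a further bimodule structure on the bar complex, from a structure `d` of the right module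
which commutes with `bN` -/
noncomputable def dBar {T T' : DGA k} {R : DGA k} (ρ : RA R X) {bN : Bi R T' N} (d : Bi S T N)
    (h : Comm bN d) : Bi S T (Bar ρ bN.l) where
  l := barLN ρ bN.l d.l h.ll
  r := barRA ρ bN.l d.r h.lr
  lr := fun s v t => by
    refine tens_ext (f := ((barRA ρ bN.l d.r h.lr).act.flip t) ∘ₗ lcw X d.l s)
      (g := lcw X d.l s ∘ₗ ((barRA ρ bN.l d.r h.lr).act.flip t)) (fun w y => ?_) v
    change (barRA ρ bN.l d.r h.lr).act (w ⊗ₜ d.l.act (S.P s) y +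
      EW X R.toSD w ⊗ₜ d.l.act (s - S.P s) y) t = lcw X d.l s (w ⊗ₜ d.r.act y t)
    rw [map_add, LinearMap.add_apply, barRA_act, barRA_act, lcw_tmul, d.lr, d.lr]

theorem dBar_comm {T : DGA k} (bX : Bi R₂ R₁ X) {bN : Bi R₁ R₂ N} (d : Bi S T N)
    (h : Comm bN d) : Comm (bX.bar bN) (dBar bX.r d h) := by
  constructor
  · intro a s v
    refine tens_ext (f := (barLA bX.r bN.l bX.l bX.lr).act a ∘ₗ lcw X d.l s)
      (g := lcw X d.l s ∘ₗ (barLA bX.r bN.l bX.l bX.lr).act (R₂.P a) +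
        lcw X d.l (S.E s) ∘ₗ (barLA bX.r bN.l bX.l bX.lr).act (a - R₂.P a)) (fun w y => ?_) v
    have e1 : ∀ (a : R₂.V) (w : Wd k X.V R₁.V) (y : N.V),
        (barLA bX.r bN.l bX.l bX.lr).act a (w ⊗ₜ y) = hd R₁ bX.l a w ⊗ₜ y := fun a w y => rfl
    simp only [LinearMap.comp_apply, LinearMap.add_apply, lcw_tmul, map_add, e1, hd_EW,
      S.PE, S.E_sub_P_E, R₂.EP, R₂.E_odd, map_neg, LinearMap.neg_apply, TensorProduct.tmul_neg,
      TensorProduct.neg_tmul, neg_neg]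
    simp only [map_sub, map_add, LinearMap.sub_apply, LinearMap.add_apply,
      TensorProduct.sub_tmul, TensorProduct.tmul_sub, TensorProduct.tmul_add, SD.E_apply]
    abel
  · intro a v t
    refine tens_ext (f := (barRA bX.r bN.l d.r h.lr).act.flip t ∘ₗ
      (barLA bX.r bN.l bX.l bX.lr).act a)
      (g := (barLA bX.r bN.l bX.l bX.lr).act a ∘ₗ (barRA bX.r bN.l d.r h.lr).act.flip t)
      (fun w y => rfl) v
  · intro s v t
    refine tens_ext (f := (barRA bX.r bN.l bN.r bN.lr).act.flip t ∘ₗ lcw X d.l s)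
      (g := lcw X d.l s ∘ₗ (barRA bX.r bN.l bN.r bN.lr).act.flip t) (fun w y => ?_) v
    have e1 : ∀ (t : R₂.V) (w : Wd k X.V R₁.V) (y : N.V),
        (barRA bX.r bN.l bN.r bN.lr).act (w ⊗ₜ y) t = w ⊗ₜ bN.r.act y t := fun t w y => rfl
    simp only [LinearMap.comp_apply, LinearMap.flip_apply, lcw_tmul, map_add,
      LinearMap.add_apply, e1]
    rw [h.rl, h.rl]
  · intro v t s
    refine tens_ext (f := (barRA bX.r bN.l bN.r bN.lr).act.flip t ∘ₗ
        (barRA bX.r bN.l d.r h.lr).act.flip s)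
      (g := (barRA bX.r bN.l d.r h.lr).act.flip s ∘ₗ
          (barRA bX.r bN.l bN.r bN.lr).act.flip (R₂.P t) +
        (barRA bX.r bN.l d.r h.lr).act.flip (T.E s) ∘ₗ
          (barRA bX.r bN.l bN.r bN.lr).act.flip (t - R₂.P t)) (fun w y => ?_) v
    have e1 : ∀ (t : R₂.V) (w : Wd k X.V R₁.V) (y : N.V),
        (barRA bX.r bN.l bN.r bN.lr).act (w ⊗ₜ y) t = w ⊗ₜ bN.r.act y t := fun t w y => rfl
    have e2 : ∀ (t : T.V) (w : Wd k X.V R₁.V) (y : N.V),
        (barRA bX.r bN.l d.r h.lr).act (w ⊗ₜ y) t = w ⊗ₜ d.r.act y t := fun t w y => rfl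
    simp only [LinearMap.comp_apply, LinearMap.flip_apply, LinearMap.add_apply, e1, e2]
    rw [h.rr y t s, TensorProduct.tmul_add]

/-! ### the complex `G` -/

/-- `G = HC(R₂; Bar(X, R₁, N))` -/
noncomputable abbrev GG (bX : Bi R₂ R₁ X) (bN : Bi R₁ R₂ N) : SD k := HC (bX.bar bN)

/-- the structure on `G` from a structure on `N` -/
noncomputable def dG {T : DGA k} (bX : Bi R₂ R₁ X) {bN : Bi R₁ R₂ N} (d : Bi S T N)
    (h : Comm bN d) : Bi S T (GG bX bN) :=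
  (bX.bar bN).hc (dBar bX.r d h) (dBar_comm bX d h)

/-- conditions for the contraction -/
structure MuD (bX : Bi R₂ R₁ X) (bN : Bi R₁ R₂ N) (μ : SD.Hom (X.tens N) L) : Prop where
  m1 : ∀ x r n, μ.f (bX.r.act x r ⊗ₜ n) = μ.f (x ⊗ₜ bN.l.act r n)
  m2 : ∀ x n t, μ.f (x ⊗ₜ bN.r.act n t) = μ.f (bX.l.act (R₂.P t) x ⊗ₜ n) +
    μ.f (bX.l.act (t - R₂.P t) (X.E x) ⊗ₜ N.E n)

/-- conditions for the rotation -/
structure NuD (bX : Bi R₂ R₁ X) (bN : Bi R₁ R₂ N) (K₁ : Bi R₁ R₁ K) (K₂ : Bi R₂ R₂ K)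
    (ν : SD.Hom (N.tens X) K) : Prop where
  h1 : ∀ r y x, ν.f (bN.l.act r y ⊗ₜ x) = K₁.l.act r (ν.f (y ⊗ₜ x))
  h2 : ∀ y x r, ν.f (y ⊗ₜ bX.r.act x r) = K₁.r.act (ν.f (y ⊗ₜ x)) r
  h3 : ∀ y x s, ν.f (bN.r.act y s ⊗ₜ x) = K₂.r.act (ν.f (y ⊗ₜ x)) (R₂.P s) +
    K₂.r.act (ν.f (y ⊗ₜ X.E x)) (s - R₂.P s)
  h4 : ∀ y s x, ν.f (y ⊗ₜ bX.l.act s x) = K₂.l.act (R₂.P s) (ν.f (y ⊗ₜ x)) +
    K₂.l.act (s - R₂.P s) (ν.f (N.E y ⊗ₜ x))

/-- the contraction on the bar complex -/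
noncomputable abbrev contrB (bX : Bi R₂ R₁ X) (bN : Bi R₁ R₂ N) (μ : SD.Hom (X.tens N) L)
    (h : MuD bX bN μ) : SD.Hom (Bar bX.r bN.l) L := augB bX.r bN.l μ h.m1

/-- the contraction `G → L` -/
noncomputable def contrG (bX : Bi R₂ R₁ X) (bN : Bi R₁ R₂ N) (μ : SD.Hom (X.tens N) L)
    (h : MuD bX bN μ) : SD.Hom (GG bX bN) L :=
  tr0 (bX.bar bN) (contrB bX bN μ h) (fun v t => by
    refine tens_ext (f := augF μ.f ∘ₗ (bX.bar bN).r.act.flip t)
      (g := augF μ.f ∘ₗ (bX.bar bN).l.act (R₂.P t) +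
        augF μ.f ∘ₗ (bX.bar bN).l.act (t - R₂.P t) ∘ₗ (Bar bX.r bN.l).E) (fun w y => ?_) v
    rw [Bar_E]
    change augF μ.f (w ⊗ₜ bN.r.act y t) = augF μ.f (hd R₁ bX.l (R₂.P t) w ⊗ₜ y) +
      augF μ.f (hd R₁ bX.l (t - R₂.P t) (EW X R₁.toSD w) ⊗ₜ N.E y)
    induction w using Wd.induction with
    | hadd a b ha hb => simp only [map_add, TensorProduct.add_tmul, ha, hb]; abel
    | hnil x => simp only [hd_nil, EW_nil, augF_nil, h.m2]
    | hsnoc w _ r =>
      simp only [hd_snoc, EW_snoc, map_neg, TensorProduct.neg_tmul, augF_snoc, neg_zero,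
        add_zero])

theorem contrG_nil (bX : Bi R₂ R₁ X) (bN : Bi R₁ R₂ N) (μ : SD.Hom (X.tens N) L)
    (h : MuD bX bN μ) (v : Wd k X.V R₁.V ⊗[k] N.V) :
    (contrG bX bN μ h).f (Wd.nil v) = (contrB bX bN μ h).f v := tr0_nil _ _ _ _
theorem contrG_snoc (bX : Bi R₂ R₁ X) (bN : Bi R₁ R₂ N) (μ : SD.Hom (X.tens N) L)
    (h : MuD bX bN μ) (w : Wd k (Wd k X.V R₁.V ⊗[k] N.V) R₂.V) (r : R₂.V) :
    (contrG bX bN μ h).f (Wd.snoc w r) = 0 := tr0_snoc _ _ _ _ _

/-- the rotation on the bar complex -/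
noncomputable abbrev evN (bX : Bi R₂ R₁ X) (bN : Bi R₁ R₂ N) (K₁ : Bi R₁ R₁ K)
    (K₂ : Bi R₂ R₂ K) (ν : SD.Hom (N.tens X) K) (h : NuD bX bN K₁ K₂ ν) :
    SD.Hom (Bar bX.r bN.l) (HC K₁) := evB bX.r bN.l K₁ ν h.h1 h.h2

/-- the rotation `G → HC(R₂; HC(R₁; K))` -/
noncomputable def bG (bX : Bi R₂ R₁ X) (bN : Bi R₁ R₂ N) (K₁ : Bi R₁ R₁ K)
    (K₂ : Bi R₂ R₂ K) (hK : Comm K₁ K₂) (ν : SD.Hom (N.tens X) K) (h : NuD bX bN K₁ K₂ ν) :
    SD.Hom (GG bX bN) (HC (K₁.hc K₂ hK)) :=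
  hcN (bX.bar bN) (K₁.hc K₂ hK) (evN bX bN K₁ K₂ ν h)
    (evB_isHom bX bN K₁ ν h.h1 h.h2 K₂ hK h.h3 h.h4)

theorem contrB_isHom {T : DGA k} (bX : Bi R₂ R₁ X) (bN : Bi R₁ R₂ N) (μ : SD.Hom (X.tens N) L)
    (h : MuD bX bN μ) (d : Bi S T N) (hd : Comm bN d) (dL : Bi S T L)
    (hμ : (d.tensR X).IsHom dL μ) : (dBar bX.r d hd).IsHom dL (contrB bX bN μ h) := by
  constructor
  · intro s v
    refine tens_ext (f := augF μ.f ∘ₗ lcw X d.l s) (g := dL.l.act s ∘ₗ augF μ.f)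
      (fun w y => ?_) v
    simp only [LinearMap.comp_apply, lcw_tmul, map_add]
    induction w using Wd.induction with
    | hadd a b ha hb => simp only [map_add, TensorProduct.add_tmul, ← ha, ← hb]; abel
    | hnil x =>
      have h1 := hμ.l s (x ⊗ₜ y)
      rw [augF_nil, augF_nil, ← h1, EW_nil, augF_nil, ← map_add]
      rfl
    | hsnoc w _ r =>
      simp only [EW_snoc, TensorProduct.neg_tmul, map_neg, augF_snoc, neg_zero, add_zero,
        map_zero]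
  · intro v s
    refine tens_ext (f := augF μ.f ∘ₗ (barRA bX.r bN.l d.r hd.lr).act.flip s)
      (g := dL.r.act.flip s ∘ₗ augF μ.f) (fun w y => ?_) v
    change augF μ.f (w ⊗ₜ d.r.act y s) = dL.r.act (augF μ.f (w ⊗ₜ y)) s
    induction w using Wd.induction with
    | hadd a b ha hb =>
      simp only [map_add, TensorProduct.add_tmul, ha, hb, LinearMap.add_apply]
    | hnil x => rw [augF_nil, augF_nil, ← hμ.r (x ⊗ₜ y) s]; rfl
    | hsnoc w _ r => rw [augF_snoc, augF_snoc, map_zero, LinearMap.zero_apply]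

/-- the contraction is compatible with further structures -/
theorem contrG_isHom {T : DGA k} (bX : Bi R₂ R₁ X) (bN : Bi R₁ R₂ N) (μ : SD.Hom (X.tens N) L)
    (h : MuD bX bN μ) (d : Bi S T N) (hd : Comm bN d) (dL : Bi S T L)
    (hμ : (d.tensR X).IsHom dL μ) : (dG bX d hd).IsHom dL (contrG bX bN μ h) := by
  have hB := contrB_isHom bX bN μ h d hd dL hμ
  constructor
  · intro s w
    change (contrG bX bN μ h).f (NC.hd R₂ (dBar bX.r d hd).l s w) = _
    induction w using Wd.induction with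
    | hadd a b ha hb => simp only [map_add, ha, hb]
    | hnil v =>
      have h1 : NC.hd R₂ (dBar bX.r d hd).l s (Wd.nil v) = Wd.nil ((dBar bX.r d hd).l.act s v) :=
        hd_nil _ _ _
      rw [h1, contrG_nil, contrG_nil]; exact hB.l s v
    | hsnoc w _ r =>
      have h1 : NC.hd R₂ (dBar bX.r d hd).l s (Wd.snoc w r) =
        Wd.snoc (NC.hd R₂ (dBar bX.r d hd).l s w) r := hd_snoc _ _ _ _
      rw [h1, contrG_snoc, contrG_snoc, map_zero]
  · intro w s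
    change (contrG bX bN μ h).f (hr R₂ (dBar bX.r d hd).r w s) = _
    induction w using Wd.induction generalizing s with
    | hadd a b ha hb => simp only [map_add, ha, hb, LinearMap.add_apply]
    | hnil v =>
      have h1 : hr R₂ (dBar bX.r d hd).r (Wd.nil v) s = Wd.nil ((dBar bX.r d hd).r.act v s) :=
        hr_nil _ _ _
      rw [h1, contrG_nil, contrG_nil]; exact hB.r v s
    | hsnoc w _ r =>
      have h1 : hr R₂ (dBar bX.r d hd).r (Wd.snoc w r) s =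
        Wd.snoc (hr R₂ (dBar bX.r d hd).r w (T.P s)) r -
        Wd.snoc (hr R₂ (dBar bX.r d hd).r w (s - T.P s)) (R₂.E r) := hr_snoc _ _ _ _
      rw [h1, map_sub, contrG_snoc, contrG_snoc, contrG_snoc, map_zero, LinearMap.zero_apply,
        sub_zero]

theorem hr_mh {R T : DGA k} {N N' : SD k} (r : RA T N) (r' : RA T N') (f : N.V →ₗ[k] N'.V)
    (h : ∀ n a, f (r.act n a) = r'.act (f n) a) (w : Wd k N.V R.V) (s : T.V) :
    hr R r' (Wd.mh R.V f w) s = Wd.mh R.V f (hr R r w s) := by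
  induction w using Wd.induction generalizing s with
  | hadd a b ha hb => simp only [map_add, LinearMap.add_apply, ha, hb]
  | hnil n => simp [h]
  | hsnoc w hw x => simp [hw]

/-- functoriality of the Hochschild complex respects further structures -/
theorem hcN_isHom {R T : DGA k} {N N' : SD k} {b : Bi R R N} {b' : Bi R R N'} {c : Bi S T N}
    {c' : Bi S T N'} (hc : Comm b c) (hc' : Comm b' c') {φ : SD.Hom N N'} (h : b.IsHom b' φ)
    (h' : c.IsHom c' φ) : (b.hc c hc).IsHom (b'.hc c' hc') (hcN b b' φ h) := by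
  constructor
  · intro s w
    have h1 := hd_mh (R := R) c.l c'.l φ.f id h'.l s w
    exact h1.symm
  · intro w s
    exact (hr_mh c.r c'.r φ.f h'.r w s).symm

theorem hn_hdS {R S : DGA k} {X Y N : SD k} (ν : SD.Hom (Y.tens X) N) (l : LA S Y)
    (l' : LA S N) (h : ∀ r y x, ν.f (l.act r y ⊗ₜ x) = l'.act r (ν.f (y ⊗ₜ x)))
    (r : S.V) (y : Y.V) (w : Wd k X.V R.V) :
    hn R ν (l.act r y) w = hd R l' r (hn R ν y w) := by
  induction w using Wd.induction with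
  | hadd a b ha hb => simp only [map_add, ha, hb]
  | hnil n => simp only [hn_nil, hd_nil, bl_apply, h]
  | hsnoc w hw s => simp [hw]

/-- the usual form of the compatibility with a right action which crosses a factor -/
theorem RA.tensL_isHom_iff {T : DGA k} {X Y N : SD k} (r : RA T Y) (r' : RA T N)
    (ν : SD.Hom (Y.tens X) N) (h : (r.tensL X).IsHom r' ν) (y : Y.V) (x : X.V) (s : T.V) :
    ν.f (r.act y s ⊗ₜ x) = r'.act (ν.f (y ⊗ₜ x)) (T.P s) +
      r'.act (ν.f (y ⊗ₜ X.E x)) (s - T.P s) := by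
  have h1 := h (y ⊗ₜ x) (T.P s)
  have h2 := h (y ⊗ₜ X.E x) (s - T.P s)
  have h3 : (r.tensL X).act (y ⊗ₜ x) (T.P s) = r.act y (T.P (T.P s)) ⊗ₜ x +
    r.act y (T.P s - T.P (T.P s)) ⊗ₜ X.E x := rfl
  have h4 : (r.tensL X).act (y ⊗ₜ X.E x) (s - T.P s) = r.act y (T.P (s - T.P s)) ⊗ₜ X.E x +
    r.act y ((s - T.P s) - T.P (s - T.P s)) ⊗ₜ X.E (X.E x) := rfl
  rw [← h1, ← h2, h3, h4]
  simp only [map_sub, map_add, T.PP, sub_self, TensorProduct.zero_tmul, map_zero, X.EE,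
    add_zero, zero_add, sub_zero, TensorProduct.sub_tmul]
  abel

/-- the rotation on the bar complex is compatible with further structures -/
theorem evN_isHom {T : DGA k} (bX : Bi R₂ R₁ X) (bN : Bi R₁ R₂ N) (K₁ : Bi R₁ R₁ K)
    (K₂ : Bi R₂ R₂ K) (ν : SD.Hom (N.tens X) K) (h : NuD bX bN K₁ K₂ ν)
    (d : Bi S T N) (hd : Comm bN d) (dK : Bi S T K) (h1 : Comm K₁ dK)
    (hν : (d.tensL X).IsHom dK ν) :
    (dBar bX.r d hd).IsHom (K₁.hc dK h1) (evN bX bN K₁ K₂ ν h) := by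
  constructor
  · intro s v
    refine tens_ext (f := evB0 R₁ ν ∘ₗ lcw X d.l s) (g := NC.hd R₁ dK.l s ∘ₗ evB0 R₁ ν)
      (fun w y => ?_) v
    have e1 : ∀ s y w, hn R₁ ν (d.l.act s y) w = NC.hd R₁ dK.l s (hn R₁ ν y w) := fun s y w =>
      hn_hdS ν d.l dK.l (fun r y x => hν.l r (y ⊗ₜ x)) s y w
    simp only [LinearMap.comp_apply, lcw_tmul, map_add, evB0_tmul, d.l.P_act, map_sub,
      LinearMap.sub_apply, LinearMap.add_apply, e1, S.PP, EW_EW, sub_self, map_zero,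
      LinearMap.zero_apply, add_zero]
    abel
  · intro v s
    refine tens_ext (f := evB0 R₁ ν ∘ₗ (barRA bX.r bN.l d.r hd.lr).act.flip s)
      (g := (hr R₁ dK.r).flip s ∘ₗ evB0 R₁ ν) (fun w y => ?_) v
    change evB0 R₁ ν (w ⊗ₜ d.r.act y s) = hr R₁ dK.r (evB0 R₁ ν (w ⊗ₜ y)) s
    have e1 : ∀ y s w, hn R₁ ν (d.r.act y s) w = hr R₁ dK.r (hn R₁ ν y w) (T.P s) +
        hr R₁ dK.r (hn R₁ ν y (EW X R₁.toSD w)) (s - T.P s) := fun y s w =>
      hn_rY ν d.r dK.r (fun y x s => RA.tensL_isHom_iff d.r dK.r ν hν.r y x s) y s w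
    simp only [evB0_tmul, d.r.P_act, map_sub, map_add, LinearMap.sub_apply,
      LinearMap.add_apply, e1, T.PP, EW_EW, sub_self, map_zero, LinearMap.zero_apply]
    abel

/-- the rotation is compatible with further structures -/
theorem bG_isHom {T : DGA k} (bX : Bi R₂ R₁ X) (bN : Bi R₁ R₂ N) (K₁ : Bi R₁ R₁ K)
    (K₂ : Bi R₂ R₂ K) (hK : Comm K₁ K₂) (ν : SD.Hom (N.tens X) K) (h : NuD bX bN K₁ K₂ ν)
    (d : Bi S T N) (hd : Comm bN d) (dK : Bi S T K) (h1 : Comm K₁ dK) (h2 : Comm K₂ dK)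
    (hν : (d.tensL X).IsHom dK ν) :
    (dG bX d hd).IsHom ((K₁.hc K₂ hK).hc (K₁.hc dK h1) (Comm.hc hK h1 h2))
      (bG bX bN K₁ K₂ hK ν h) :=
  hcN_isHom _ _ _ (evN_isHom bX bN K₁ K₂ ν h d hd dK h1 hν)

end

end NC
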