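import Pool.Agent.H16.NC.GMap

/-!
# Triples of commuting structures, iterated Hochschild complexes, cyclic maps
# (base file, helper16)
-/

open scoped TensorProduct

namespace NC

variable {k : Type} [Field k]

section tri

variable {R₁ R₂ R₃ : DGA k} {N N' N'' Z : SD k}

/-- three commuting bimodule structures -/
structure Tri (R₁ R₂ R₃ : DGA k) (N : SD k) where
  b₁ : Bi R₁ R₁ N
  b₂ : Bi R₂ R₂ N
  b₃ : Bi R₃ R₃ N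
  h₁₂ : Comm b₁ b₂
  h₁₃ : Comm b₁ b₃
  h₂₃ : Comm b₂ b₃

/-- the double Hochschild complex -/
noncomputable abbrev HC2 (b₁ : Bi R₁ R₁ N) (b₂ : Bi R₂ R₂ N) (h : Comm b₁ b₂) : SD k :=
  HC (b₁.hc b₂ h)

/-- the third structure on the double Hochschild complex -/
noncomputable abbrev Tri.d (t : Tri R₁ R₂ R₃ N) : Bi R₃ R₃ (HC2 t.b₁ t.b₂ t.h₁₂) :=
  (t.b₁.hc t.b₂ t.h₁₂).hc (t.b₁.hc t.b₃ t.h₁₃) (Comm.hc t.h₁₂ t.h₁₃ t.h₂₃)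

/-- the triple Hochschild complex -/
noncomputable abbrev HC3 (t : Tri R₁ R₂ R₃ N) : SD k := HC t.d

/-- morphisms of triples -/
structure Tri.IsHom (t : Tri R₁ R₂ R₃ N) (t' : Tri R₁ R₂ R₃ N') (φ : SD.Hom N N') : Prop where
  h1 : t.b₁.IsHom t'.b₁ φ
  h2 : t.b₂.IsHom t'.b₂ φ
  h3 : t.b₃.IsHom t'.b₃ φ

theorem Tri.IsHom.comp {t : Tri R₁ R₂ R₃ N} {t' : Tri R₁ R₂ R₃ N'} {t'' : Tri R₁ R₂ R₃ N''}
    {φ : SD.Hom N N'} {ψ : SD.Hom N' N''} (h : t.IsHom t' φ) (h' : t'.IsHom t'' ψ) :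
    t.IsHom t'' (ψ.comp φ) :=
  ⟨h.h1.comp h'.h1, h.h2.comp h'.h2, h.h3.comp h'.h3⟩

theorem hc2_isHom {t : Tri R₁ R₂ R₃ N} {t' : Tri R₁ R₂ R₃ N'} {φ : SD.Hom N N'}
    (h : t.IsHom t' φ) : t.d.IsHom t'.d (hc2 t.h₁₂ t'.h₁₂ φ h.h1 h.h2) :=
  hcN_isHom _ _ _ (hcN_isHom t.h₁₃ t'.h₁₃ h.h1 h.h3)

/-- functoriality of the triple complex -/
noncomputable def hc3 {t : Tri R₁ R₂ R₃ N} {t' : Tri R₁ R₂ R₃ N'} {φ : SD.Hom N N'}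
    (h : t.IsHom t' φ) : SD.Hom (HC3 t) (HC3 t') :=
  hcN t.d t'.d (hc2 t.h₁₂ t'.h₁₂ φ h.h1 h.h2) (hc2_isHom h)

theorem hc3_qi {t : Tri R₁ R₂ R₃ N} {t' : Tri R₁ R₂ R₃ N'} {φ : SD.Hom N N'}
    (h : t.IsHom t' φ) (q : φ.QI) : (hc3 h).QI :=
  QI_hc _ _ _ _ (hc2_qi _ _ _ _ _ q)

theorem hc2_comp {b₁ : Bi R₁ R₁ N} {b₂ : Bi R₂ R₂ N} {b₁' : Bi R₁ R₁ N'} {b₂' : Bi R₂ R₂ N'}
    {b₁'' : Bi R₁ R₁ N''} {b₂'' : Bi R₂ R₂ N''} (h : Comm b₁ b₂) (h' : Comm b₁' b₂')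
    (h'' : Comm b₁'' b₂'') (φ : SD.Hom N N') (ψ : SD.Hom N' N'') (χ : SD.Hom N N'')
    (h1 : b₁.IsHom b₁' φ) (h2 : b₂.IsHom b₂' φ) (h3 : b₁'.IsHom b₁'' ψ)
    (h4 : b₂'.IsHom b₂'' ψ) (h5 : b₁.IsHom b₁'' χ) (h6 : b₂.IsHom b₂'' χ)
    (he : ∀ n, ψ.f (φ.f n) = χ.f n) (v : (HC2 b₁ b₂ h).V) :
    (hc2 h' h'' ψ h3 h4).f ((hc2 h h' φ h1 h2).f v) = (hc2 h h'' χ h5 h6).f v := by
  change Wd.mh R₂.V (Wd.mh R₁.V ψ.f) (Wd.mh R₂.V (Wd.mh R₁.V φ.f) v) =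
    Wd.mh R₂.V (Wd.mh R₁.V χ.f) v
  rw [Wd.mh_comp]
  refine Wd.mh_congr (fun n => ?_) v
  change Wd.mh R₁.V ψ.f (Wd.mh R₁.V φ.f n) = Wd.mh R₁.V χ.f n
  rw [Wd.mh_comp]
  exact Wd.mh_congr (fun m => he m) n

theorem hc3_comp {t : Tri R₁ R₂ R₃ N} {t' : Tri R₁ R₂ R₃ N'} {t'' : Tri R₁ R₂ R₃ N''}
    {φ : SD.Hom N N'} {ψ : SD.Hom N' N''} {χ : SD.Hom N N''} (h : t.IsHom t' φ)
    (h' : t'.IsHom t'' ψ) (h'' : t.IsHom t'' χ) (he : ∀ n, ψ.f (φ.f n) = χ.f n)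
    (v : (HC3 t).V) : (hc3 h').f ((hc3 h).f v) = (hc3 h'').f v := by
  change Wd.mh R₃.V (hc2 t'.h₁₂ t''.h₁₂ ψ h'.h1 h'.h2).f
    (Wd.mh R₃.V (hc2 t.h₁₂ t'.h₁₂ φ h.h1 h.h2).f v) =
    Wd.mh R₃.V (hc2 t.h₁₂ t''.h₁₂ χ h''.h1 h''.h2).f v
  rw [Wd.mh_comp]
  exact Wd.mh_congr (fun n => hc2_comp t.h₁₂ t'.h₁₂ t''.h₁₂ φ ψ χ h.h1 h.h2 h'.h1 h'.h2
    h''.h1 h''.h2 he n) v

end tri

/-! ### cyclic maps -/

section cyc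

variable {R S T : DGA k} {N N' Z Z' : SD k}

/-- maps which vanish on supercommutators -/
def Cyc (b : Bi R R N) (g : SD.Hom N Z) : Prop :=
  ∀ n r, g.f (b.r.act n r) = g.f (b.l.act (R.P r) n) + g.f (b.l.act (r - R.P r) (N.E n))

/-- the extension of a cyclic map by zero -/
noncomputable def trc (b : Bi R R N) (g : SD.Hom N Z) (h : Cyc b g) : SD.Hom (HC b) Z :=
  tr0 b g h

@[simp] theorem trc_nil (b : Bi R R N) (g : SD.Hom N Z) (h : Cyc b g) (n : N.V) :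
    (trc b g h).f (Wd.nil n) = g.f n := tr0_nil b g h n
@[simp] theorem trc_snoc (b : Bi R R N) (g : SD.Hom N Z) (h : Cyc b g) (w : Wd k N.V R.V)
    (r : R.V) : (trc b g h).f (Wd.snoc w r) = 0 := tr0_snoc b g h w r

theorem cyc_tr0 {b : Bi R R N} {c : Bi S S N} (h : Comm b c) {g : SD.Hom N Z} (hb : Cyc b g)
    (hc : Cyc c g) : Cyc (b.hc c h) (trc b g hb) := by
  intro w s
  change (trc b g hb).f (hr R c.r w s) = (trc b g hb).f (hd R c.l (S.P s) w) +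
    (trc b g hb).f (hd R c.l (s - S.P s) (EW N R.toSD w))
  induction w using Wd.induction generalizing s with
  | hadd u v hu hv => simp only [map_add, LinearMap.add_apply, hu, hv]; abel
  | hnil n => rw [hr_nil, hd_nil, EW_nil, hd_nil, trc_nil, trc_nil, trc_nil]; exact hc n s
  | hsnoc w _ r =>
    rw [hr_snoc, hd_snoc, EW_snoc, map_neg, hd_snoc, map_sub, map_neg, trc_snoc, trc_snoc,
      trc_snoc, trc_snoc]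
    simp

theorem cyc_hcN {b : Bi R R N} {bZ : Bi R R Z} {c : Bi S S N} (h : Comm b c)
    {g : SD.Hom N Z} (hg : b.IsHom bZ g) (hc : Cyc c g) : Cyc (b.hc c h) (hcN b bZ g hg) := by
  intro w s
  change Wd.mh R.V g.f (hr R c.r w s) = Wd.mh R.V g.f (hd R c.l (S.P s) w) +
    Wd.mh R.V g.f (hd R c.l (s - S.P s) (EW N R.toSD w))
  induction w using Wd.induction generalizing s with
  | hadd u v hu hv => simp only [map_add, LinearMap.add_apply, hu, hv]; abel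
  | hnil n =>
    rw [hr_nil, hd_nil, EW_nil, hd_nil, Wd.mh_nil, Wd.mh_nil, Wd.mh_nil, ← map_add]
    exact congrArg Wd.nil (hc n s)
  | hsnoc w hw r =>
    rw [hr_snoc, hd_snoc, EW_snoc, map_neg, hd_snoc, map_sub, map_neg, Wd.mh_snoc, Wd.mh_snoc,
      Wd.mh_snoc, Wd.mh_snoc, hw, hw]
    simp only [map_add, map_sub, S.PP, LinearMap.add_apply, LinearMap.sub_apply, sub_self,
      map_zero, LinearMap.zero_apply, sub_zero, SD.E_apply]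
    abel

/-- the trace on the double complex -/
noncomputable def tr2 {b : Bi R R N} {c : Bi S S N} (h : Comm b c) (g : SD.Hom N Z)
    (hb : Cyc b g) (hc : Cyc c g) : SD.Hom (HC2 b c h) Z :=
  trc (b.hc c h) (trc b g hb) (cyc_tr0 h hb hc)

theorem tr2_nil_nil {b : Bi R R N} {c : Bi S S N} (h : Comm b c) (g : SD.Hom N Z)
    (hb : Cyc b g) (hc : Cyc c g) (n : N.V) :
    (tr2 h g hb hc).f (Wd.nil (Wd.nil n)) = g.f n := by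
  unfold tr2
  rw [trc_nil, trc_nil]
theorem tr2_nil_snoc {b : Bi R R N} {c : Bi S S N} (h : Comm b c) (g : SD.Hom N Z)
    (hb : Cyc b g) (hc : Cyc c g) (w : Wd k N.V R.V) (r : R.V) :
    (tr2 h g hb hc).f (Wd.nil (Wd.snoc w r)) = 0 := by
  unfold tr2
  rw [trc_nil, trc_snoc]
theorem tr2_snoc {b : Bi R R N} {c : Bi S S N} (h : Comm b c) (g : SD.Hom N Z)
    (hb : Cyc b g) (hc : Cyc c g) (w : (HC2 b c h).V) (s : S.V) :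
    (tr2 h g hb hc).f (Wd.snoc w s) = 0 := by
  unfold tr2
  rw [trc_snoc]

theorem trc_map {b : Bi R R N} {b' : Bi R R N'} {φ : SD.Hom N N'} (h : b.IsHom b' φ)
    {g : SD.Hom N Z} {g' : SD.Hom N' Z'} (γ : SD.Hom Z Z') (hg : Cyc b g) (hg' : Cyc b' g')
    (he : ∀ n, g'.f (φ.f n) = γ.f (g.f n)) (v : (HC b).V) :
    (trc b' g' hg').f ((hcN b b' φ h).f v) = γ.f ((trc b g hg).f v) := by
  change (trc b' g' hg').f (Wd.mh R.V φ.f v) = γ.f ((trc b g hg).f v)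
  induction v using Wd.induction with
  | hadd a b ha hb => simp only [map_add, ha, hb]
  | hnil n => rw [Wd.mh_nil, trc_nil, trc_nil, he]
  | hsnoc w _ r => rw [Wd.mh_snoc, trc_snoc, trc_snoc, map_zero]

theorem tr2_map {b : Bi R R N} {c : Bi S S N} {b' : Bi R R N'} {c' : Bi S S N'}
    (h : Comm b c) (h' : Comm b' c') {φ : SD.Hom N N'} (hφ : b.IsHom b' φ)
    (hφ' : c.IsHom c' φ) {g : SD.Hom N Z} {g' : SD.Hom N' Z'} (γ : SD.Hom Z Z')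
    (hb : Cyc b g) (hc : Cyc c g) (hb' : Cyc b' g') (hc' : Cyc c' g')
    (he : ∀ n, g'.f (φ.f n) = γ.f (g.f n)) (v : (HC2 b c h).V) :
    (tr2 h' g' hb' hc').f ((hc2 h h' φ hφ hφ').f v) = γ.f ((tr2 h g hb hc).f v) :=
  trc_map _ γ _ _ (fun n => trc_map hφ γ hb hb' he n) v

variable {R₁ R₂ R₃ : DGA k}

/-- the partial trace on the triple complex -/
noncomputable def TR (t : Tri R₁ R₂ R₃ N) (bZ : Bi R₁ R₁ Z) (g : SD.Hom N Z)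
    (h1 : t.b₁.IsHom bZ g) (h2 : Cyc t.b₂ g) (h3 : Cyc t.b₃ g) : SD.Hom (HC3 t) (HC bZ) :=
  trc t.d (trc (t.b₁.hc t.b₂ t.h₁₂) (hcN t.b₁ bZ g h1) (cyc_hcN t.h₁₂ h1 h2))
    (cyc_tr0 _ _ (cyc_hcN t.h₁₃ h1 h3))

theorem TR_nil_nil (t : Tri R₁ R₂ R₃ N) (bZ : Bi R₁ R₁ Z) (g : SD.Hom N Z)
    (h1 : t.b₁.IsHom bZ g) (h2 : Cyc t.b₂ g) (h3 : Cyc t.b₃ g) (w : (HC t.b₁).V) :
    (TR t bZ g h1 h2 h3).f (Wd.nil (Wd.nil w)) = Wd.mh R₁.V g.f w := by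
  unfold TR
  rw [trc_nil, trc_nil]; rfl
theorem TR_nil_snoc (t : Tri R₁ R₂ R₃ N) (bZ : Bi R₁ R₁ Z) (g : SD.Hom N Z)
    (h1 : t.b₁.IsHom bZ g) (h2 : Cyc t.b₂ g) (h3 : Cyc t.b₃ g)
    (w : Wd k (Wd k N.V R₁.V) R₂.V) (r : R₂.V) :
    (TR t bZ g h1 h2 h3).f (Wd.nil (Wd.snoc w r)) = 0 := by
  unfold TR
  rw [trc_nil, trc_snoc]
theorem TR_snoc (t : Tri R₁ R₂ R₃ N) (bZ : Bi R₁ R₁ Z) (g : SD.Hom N Z)
    (h1 : t.b₁.IsHom bZ g) (h2 : Cyc t.b₂ g) (h3 : Cyc t.b₃ g)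
    (w : (HC3 t).V) (r : R₃.V) :
    (TR t bZ g h1 h2 h3).f (Wd.snoc w r) = 0 := by
  unfold TR
  rw [trc_snoc]

theorem TR_map {t : Tri R₁ R₂ R₃ N} {t' : Tri R₁ R₂ R₃ N'} {φ : SD.Hom N N'}
    (h : t.IsHom t' φ) {bZ : Bi R₁ R₁ Z} (g : SD.Hom N Z) (g' : SD.Hom N' Z)
    (h1 : t.b₁.IsHom bZ g) (h2 : Cyc t.b₂ g) (h3 : Cyc t.b₃ g)
    (h1' : t'.b₁.IsHom bZ g') (h2' : Cyc t'.b₂ g') (h3' : Cyc t'.b₃ g')
    (he : ∀ n, g'.f (φ.f n) = g.f n) (v : (HC3 t).V) :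
    (TR t' bZ g' h1' h2' h3').f ((hc3 h).f v) = (TR t bZ g h1 h2 h3).f v := by
  exact trc_map (hc2_isHom h) (SD.Hom.id (HC bZ))
    (cyc_tr0 (Comm.hc t.h₁₂ t.h₁₃ t.h₂₃) (cyc_hcN t.h₁₂ h1 h2) (cyc_hcN t.h₁₃ h1 h3))
    (cyc_tr0 (Comm.hc t'.h₁₂ t'.h₁₃ t'.h₂₃) (cyc_hcN t'.h₁₂ h1' h2') (cyc_hcN t'.h₁₃ h1' h3'))
    (fun n => trc_map (hcN_isHom t.h₁₂ t'.h₁₂ h.h1 h.h2) (SD.Hom.id (HC bZ))
      (cyc_hcN t.h₁₂ h1 h2) (cyc_hcN t'.h₁₂ h1' h2') (fun m =>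
        (Wd.mh_comp g'.f φ.f m).trans (Wd.mh_congr (fun m => he m) m)) n) v

end cyc

end NC
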