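import Pool.Agent.H16.NC.Act
import Pool.Agent.H16.NC.Wd

/-!
# Operators on words: parity, tail multiplication, bar differential, head actions
-/

open scoped TensorProduct

namespace NC

variable {k : Type} [Field k]

/-- projection on the even part of words; letters are suspended -/
noncomputable def PW (N R : SD k) : Wd k N.V R.V →ₗ[k] Wd k N.V R.V :=
  Wd.recW (Wd.nil ∘ₗ N.P) (Wd.snoc.compl₂ R.P) (-(Wd.snoc.compl₂ R.E))

@[simp] theorem PW_nil (N R : SD k) (n : N.V) : PW N R (Wd.nil n) = Wd.nil (N.P n) := by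
  simp [PW]
@[simp] theorem PW_snoc (N R : SD k) (w : Wd k N.V R.V) (r : R.V) :
    PW N R (Wd.snoc w r) = Wd.snoc w (R.P r) - Wd.snoc (PW N R w) (R.E r) := by
  simp [PW, sub_eq_add_neg]

theorem PW_PW (N R : SD k) (w : Wd k N.V R.V) : PW N R (PW N R w) = PW N R w := by
  induction w using Wd.induction with
  | hadd a b ha hb => simp [ha, hb]
  | hnil n => simp [N.PP]
  | hsnoc w hw r =>
    simp only [PW_snoc, map_sub, hw, R.PP, R.EE, R.EP, R.PE]
    have : Wd.snoc (PW N R w) r = Wd.snoc (PW N R w) (R.P r) + Wd.snoc (PW N R w) (R.P r)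
        - Wd.snoc (PW N R w) (R.E r) := by
      rw [← map_add, ← map_sub]; congr 1; rw [SD.E_apply]; abel
    rw [this]; abel

/-- the parity automorphism of words -/
noncomputable def EW (N R : SD k) : Wd k N.V R.V →ₗ[k] Wd k N.V R.V :=
  PW N R + PW N R - LinearMap.id

theorem EW_apply (N R : SD k) (w : Wd k N.V R.V) :
    EW N R w = PW N R w + PW N R w - w := rfl

@[simp] theorem EW_nil (N R : SD k) (n : N.V) : EW N R (Wd.nil n) = Wd.nil (N.E n) := by
  simp [EW_apply, SD.E_apply]

@[simp] theorem EW_snoc (N R : SD k) (w : Wd k N.V R.V) (r : R.V) :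
    EW N R (Wd.snoc w r) = - Wd.snoc (EW N R w) (R.E r) := by
  simp only [EW_apply, PW_snoc, map_sub, map_add, LinearMap.sub_apply, LinearMap.add_apply]
  have : Wd.snoc w (R.E r) = Wd.snoc w (R.P r) + Wd.snoc w (R.P r) - Wd.snoc w r := by
    rw [← map_add, ← map_sub]; rfl
  rw [this]; abel

theorem EW_EW (N R : SD k) (w : Wd k N.V R.V) : EW N R (EW N R w) = w := by
  simp only [EW_apply, map_sub, map_add, PW_PW]; abel

theorem PW_eq_zero_or (N R : SD k) (w : Wd k N.V R.V) :
    PW N R w + (w - PW N R w) = w := by abel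

/-! ### tail multiplication -/

section tail

variable {N : Type} [AddCommGroup N] [Module k N]

/-- auxiliary: `w, s, r ↦ snoc w (s * r)` -/
noncomputable def snocMul (N : Type) [AddCommGroup N] [Module k N] (R : DGA k) :
    Wd k N R.V →ₗ[k] R.V →ₗ[k] R.V →ₗ[k] Wd k N R.V where
  toFun w := R.mul.compr₂ (Wd.snoc w)
  map_add' a b := by ext; simp
  map_smul' c a := by ext; simp

@[simp] theorem snocMul_apply (R : DGA k) (w : Wd k N R.V) (s r : R.V) :
    snocMul N R w s r = Wd.snoc w (s * r) := rfl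

/-- multiplication of the last letter (or of the head, if there is no letter) on the right -/
noncomputable def tl (R : DGA k) (ρ : N →ₗ[k] R.V →ₗ[k] N) :
    Wd k N R.V →ₗ[k] R.V →ₗ[k] Wd k N R.V :=
  Wd.recW (ρ.compr₂ Wd.nil) (snocMul N R) 0

@[simp] theorem tl_nil (R : DGA k) (ρ : N →ₗ[k] R.V →ₗ[k] N) (n : N) (r : R.V) :
    tl R ρ (Wd.nil n) r = Wd.nil (ρ n r) := by simp [tl]
@[simp] theorem tl_snoc (R : DGA k) (ρ : N →ₗ[k] R.V →ₗ[k] N) (w : Wd k N R.V) (s r : R.V) :
    tl R ρ (Wd.snoc w s) r = Wd.snoc w (s * r) := by simp [tl]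

theorem tl_tl (R : DGA k) (ρ : N →ₗ[k] R.V →ₗ[k] N) (hρ : ∀ n a b, ρ (ρ n a) b = ρ n (a * b))
    (w : Wd k N R.V) (r s : R.V) : tl R ρ (tl R ρ w r) s = tl R ρ w (r * s) := by
  induction w using Wd.induction with
  | hadd a b ha hb => simp [ha, hb]
  | hnil n => simp [hρ]
  | hsnoc w _ a => simp [mul_assoc]

end tail

/-! ### tail multiplication for right modules -/

section bar

variable {R : DGA k} {N : SD k} (ρ : RA R N)

theorem PW_tl (w : Wd k N.V R.V) (r : R.V) :
    PW N R.toSD (tl R ρ.act w r) =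
      tl R ρ.act (PW N R.toSD w) (R.P r) +
        tl R ρ.act (w - PW N R.toSD w) (r - R.P r) := by
  induction w using Wd.induction with
  | hadd a b ha hb => simp only [map_add, LinearMap.add_apply, ha, hb, map_sub,
      LinearMap.sub_apply]; abel
  | hnil n => simp only [tl_nil, PW_nil, ρ.P_act, ← map_sub]; simp
  | hsnoc w hw s =>
    simp only [tl_snoc, PW_snoc, map_sub, LinearMap.sub_apply, DGA.E_mul]
    have hP : R.P (s * r) = R.P s * R.P r + (s - R.P s) * (r - R.P r) := R.P_mul s r
    rw [hP]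
    simp only [SD.E_apply, map_sub, map_add, sub_mul, mul_sub, add_mul, mul_add]
    abel

theorem EW_tl (w : Wd k N.V R.V) (r : R.V) :
    EW N R.toSD (tl R ρ.act w r) = tl R ρ.act (EW N R.toSD w) (R.E r) := by
  simp only [EW_apply, PW_tl, SD.E_apply, map_sub, map_add, LinearMap.sub_apply,
    LinearMap.add_apply]
  abel

/-- the bar differential on words (without wrap) -/
noncomputable def Db : Wd k N.V R.V →ₗ[k] Wd k N.V R.V :=
  Wd.recW (Wd.nil ∘ₗ N.D)
    ((tl R ρ.act - Wd.snoc.compl₂ R.D) ∘ₗ EW N R.toSD) Wd.snoc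

@[simp] theorem Db_nil (x : N.V) : Db ρ (Wd.nil x) = Wd.nil (N.D x) := by simp [Db]
@[simp] theorem Db_snoc (w : Wd k N.V R.V) (r : R.V) :
    Db ρ (Wd.snoc w r) = Wd.snoc (Db ρ w) r - Wd.snoc (EW N R.toSD w) (R.D r)
      + tl R ρ.act (EW N R.toSD w) r := by
  simp only [Db, Wd.recW_snoc, LinearMap.comp_apply, LinearMap.sub_apply,
    LinearMap.compl₂_apply]
  abel

theorem Db_PW (w : Wd k N.V R.V) :
    Db ρ (PW N R.toSD w) = Db ρ w - PW N R.toSD (Db ρ w) := by
  induction w using Wd.induction with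
  | hadd a b ha hb => simp only [map_add, ha, hb]; abel
  | hnil n => simp [N.DP]
  | hsnoc w hw r =>
    simp only [PW_snoc, map_sub, map_add, Db_snoc, hw, PW_tl, R.DP, EW_apply, PW_PW,
      LinearMap.sub_apply, LinearMap.add_apply, SD.E_apply]
    abel

theorem Db_EW (w : Wd k N.V R.V) :
    Db ρ (EW N R.toSD w) = - EW N R.toSD (Db ρ w) := by
  simp only [EW_apply, map_sub, map_add, Db_PW]; abel

theorem Db_tl (w : Wd k N.V R.V) (r : R.V) :
    Db ρ (tl R ρ.act w r) = tl R ρ.act (Db ρ w) r + tl R ρ.act (EW N R.toSD w) (R.D r) := by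
  induction w using Wd.induction with
  | hadd a b ha hb => simp only [map_add, LinearMap.add_apply, ha, hb]; abel
  | hnil n => simp [ρ.D_act]
  | hsnoc w hw s =>
    simp only [tl_snoc, Db_snoc, map_sub, map_add, LinearMap.sub_apply, LinearMap.add_apply,
      DGA.D_mul', EW_snoc, LinearMap.neg_apply, map_neg]
    rw [tl_tl R ρ.act ρ.act_mul]
    abel

theorem Db_Db (w : Wd k N.V R.V) : Db ρ (Db ρ w) = 0 := by
  induction w using Wd.induction with
  | hadd a b ha hb => simp only [map_add, ha, hb, add_zero]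
  | hnil n => simp [N.DD]
  | hsnoc w hw r =>
    simp only [Db_snoc, map_sub, map_add, hw, Db_tl, Db_EW, EW_EW, R.DD, map_neg, map_zero,
      LinearMap.neg_apply, LinearMap.zero_apply]
    abel

/-- bar words as a differential module (no wrap term) -/
noncomputable abbrev words : SD k where
  V := Wd k N.V R.V
  D := Db ρ
  P := PW N R.toSD
  DD := Db_Db ρ
  PP := PW_PW N R.toSD
  DP := Db_PW ρ

theorem words_E : (words ρ).E = EW N R.toSD := rfl

end bar

/-! ### left action on the head -/

section head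

variable {R S : DGA k} {N : SD k}

/-- left action of `S` on the head -/
noncomputable def hd (R : DGA k) {S : DGA k} {N : SD k} (l : LA S N) :
    S.V →ₗ[k] Wd k N.V R.V →ₗ[k] Wd k N.V R.V where
  toFun a := Wd.map (l.act a) LinearMap.id
  map_add' a b := by
    refine LinearMap.ext (Wd.ext_apply (fun n => ?_) (fun w hw r => ?_))
    · simp
    · simp only [LinearMap.add_apply, Wd.map_snoc] at hw ⊢
      rw [hw]; simp
  map_smul' c a := by
    refine LinearMap.ext (Wd.ext_apply (fun n => ?_) (fun w hw r => ?_))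
    · simp
    · simp only [LinearMap.smul_apply, RingHom.id_apply, Wd.map_snoc] at hw ⊢
      rw [hw]; simp

@[simp] theorem hd_nil (l : LA S N) (a : S.V) (n : N.V) :
    hd R l a (Wd.nil n) = Wd.nil (l.act a n) := by simp [hd]
@[simp] theorem hd_snoc (l : LA S N) (a : S.V) (w : Wd k N.V R.V) (r : R.V) :
    hd R l a (Wd.snoc w r) = Wd.snoc (hd R l a w) r := by simp [hd]

theorem hd_mul (l : LA S N) (a b : S.V) (w : Wd k N.V R.V) :
    hd R l (a * b) w = hd R l a (hd R l b w) := by
  induction w using Wd.induction with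
  | hadd a b ha hb => simp only [map_add, ha, hb]
  | hnil n => simp [l.mul_act]
  | hsnoc w hw r => simp [hw]

theorem hd_PW (l : LA S N) (a : S.V) (w : Wd k N.V R.V) :
    PW N R.toSD (hd R l a w) = hd R l (S.P a) (PW N R.toSD w) +
      hd R l (a - S.P a) (w - PW N R.toSD w) := by
  induction w using Wd.induction with
  | hadd a b ha hb =>
    simp only [map_add, ha, hb, map_sub, LinearMap.sub_apply]; abel
  | hnil n => simp [l.P_act, ← map_sub]
  | hsnoc w hw r =>
    simp only [hd_snoc, PW_snoc, hw, map_sub, map_add, LinearMap.sub_apply,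
      LinearMap.add_apply, SD.E_apply]
    abel

theorem hd_EW (l : LA S N) (a : S.V) (w : Wd k N.V R.V) :
    EW N R.toSD (hd R l a w) = hd R l (S.E a) (EW N R.toSD w) := by
  simp only [EW_apply, hd_PW, SD.E_apply, map_sub, map_add, LinearMap.sub_apply,
    LinearMap.add_apply]
  abel

theorem hd_tl (l : LA S N) (ρ : RA R N) (h : LR l ρ) (a : S.V) (w : Wd k N.V R.V) (r : R.V) :
    hd R l a (tl R ρ.act w r) = tl R ρ.act (hd R l a w) r := by
  induction w using Wd.induction with
  | hadd a b ha hb => simp only [map_add, LinearMap.add_apply, ha, hb]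
  | hnil n => simp [h a n r]
  | hsnoc w hw r => simp

theorem Db_hd (l : LA S N) (ρ : RA R N) (h : LR l ρ) (a : S.V) (w : Wd k N.V R.V) :
    Db ρ (hd R l a w) = hd R l (S.D a) w + hd R l (S.E a) (Db ρ w) := by
  induction w using Wd.induction with
  | hadd a b ha hb => simp only [map_add, ha, hb]; abel
  | hnil n => simp [l.D_act]
  | hsnoc w hw r =>
    simp only [hd_snoc, Db_snoc, hw, hd_EW, map_add, map_sub, LinearMap.add_apply,
      hd_tl l ρ h]
    abel

/-- the left action on words through the head -/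
noncomputable def LA.words (l : LA S N) (ρ : RA R N) (h : LR l ρ) : LA S (words ρ) where
  act := hd R l
  mul_act := hd_mul l
  P_act := hd_PW l
  D_act := Db_hd l ρ h

/-- right action of `S` on the head; it crosses the (suspended) letters -/
noncomputable def hr (R : DGA k) {S : DGA k} {N : SD k} (r : RA S N) :
    Wd k N.V R.V →ₗ[k] S.V →ₗ[k] Wd k N.V R.V :=
  Wd.recW (r.act.compr₂ Wd.nil) 0
    (LinearMap.mk₂ k (fun (z : S.V →ₗ[k] Wd k N.V R.V) (a : R.V) =>
      Wd.snoc.flip a ∘ₗ z ∘ₗ S.P - Wd.snoc.flip (R.E a) ∘ₗ z ∘ₗ (LinearMap.id - S.P))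
      (fun z z' a => by ext; simp; abel)
      (fun c z a => by ext; simp [smul_sub])
      (fun z a a' => by ext; simp; abel)
      (fun c z a => by ext; simp [smul_sub]))

@[simp] theorem hr_nil (r : RA S N) (n : N.V) (a : S.V) :
    hr R r (Wd.nil n) a = Wd.nil (r.act n a) := by simp [hr]
@[simp] theorem hr_snoc (r : RA S N) (w : Wd k N.V R.V) (x : R.V) (a : S.V) :
    hr R r (Wd.snoc w x) a = Wd.snoc (hr R r w (S.P a)) x -
      Wd.snoc (hr R r w (a - S.P a)) (R.E x) := by simp [hr]

end head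

end NC
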