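import Pool.Agent.H16.NC.EDat
import Pool.Agent.H9.NC.Coh

/-!
# ZA : bimodule maps out of a semi-free bimodule are exact in the target

`M` semi-free with basis `x i` (`SemiFree`, H16/NC/PF.lean): every element of `M` is a unique
combination of `a x_i c`, and `D (x i)` lies in the span of the `a x_j c` with `rk j < rk i`.

* A bimodule map `ξ : M → Z` (element of `HomBi bM bZ`) is determined by the `ξ (x i)`; for every
  family `z i` in `Z` there is exactly one linear map `ξ` with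
  `ξ (a x_i c) = a z_i^even c + (E a) z_i^odd c`, where `z_i^even`, `z_i^odd` are the parts of
  `z_i` for which the map has even and odd value at `x i` (use `par i`: if `x i` is even then
  `z_i^even = P z_i`, if `x i` is odd then `z_i^even = z_i - P z_i`), and it lies in `HomBi`.
  (`homBiMk`, `homBi_ext`.)
* `homBi_ses`: lift the values on the basis.
* `homBi_acyclic`: let `D ξ = 0`.  Choose by recursion on `rk i` elements `y i` of `Z` with
  `Z.D (y i) = ξ (x i) + Z.E (η (M.E (M.D (x i))))` (`hD_apply`), where `η` is the bimodule map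
  with values `y j` on the `x j` (only `rk j < rk i` matter for `η (D (x i))`, by `D_mem`); the
  right hand side is a cycle because `(D η) = ξ` on the span of the `a x_j c`, `rk j < rk i`.
  Then `D η - ξ` is a bimodule map which vanishes on the basis, hence zero.
  A convenient form: by strong induction on `n` there is `η_n` with `D η_n = ξ` on all `x j`
  with `rk j < n` and `η_{n+1} (x j) = η_n (x j)` for `rk j < n`.
-/

open scoped TensorProduct

namespace NC

variable {k : Type} [Field k] {A : DGA k} {M Z Z' Z'' : SD k}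

open Classical in
/-- the part of the value at `x` which belongs to the even part of the map -/
private noncomputable def ZA_q (M Z : SD k) (x : M.V) : Z.V →ₗ[k] Z.V :=
  if M.P x = x then Z.P else LinearMap.id - Z.P

private theorem ZA_hP {f : M.V →ₗ[k] Z.V} {x : M.V} (h : M.P x = x ∨ M.P x = 0) :
    SD.hP M Z f x = ZA_q M Z x (f x) := by
  unfold ZA_q
  rw [SD.hP_apply]
  by_cases hx : M.P x = x
  · rw [if_pos hx, hx, sub_self, map_zero, map_zero, sub_zero, add_zero]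
  · rw [if_neg hx]
    rcases h with h | h
    · exact absurd h hx
    · rw [h, map_zero, map_zero, zero_add, sub_zero]
      rfl

private theorem ZA_val {bM : Bi A A M} {bZ : Bi A A Z} (ξ : (HomBi bM bZ).V) {x : M.V}
    (hx : M.P x = x ∨ M.P x = 0) (a c : A.V) :
    ξ.1 (bM.l.act a (bM.r.act x c)) = bZ.r.act (bZ.l.act a (ZA_q M Z x (ξ.1 x)) +
      bZ.l.act (A.E a) (ξ.1 x - ZA_q M Z x (ξ.1 x))) c := by
  have hl : ∀ a x, ξ.1 (bM.l.act a x) = bZ.l.act a (SD.hP M Z ξ.1 x) +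
    bZ.l.act (A.E a) (ξ.1 x - SD.hP M Z ξ.1 x) := ξ.2.1
  have hr : ∀ x b, ξ.1 (bM.r.act x b) = bZ.r.act (ξ.1 x) b := ξ.2.2
  rw [← bM.lr, hr, hl, ZA_hP hx]

private theorem ZA_ext {I : Type} {bM : Bi A A M} (hM : SemiFree bM I) {W : Type}
    [AddCommGroup W] [Module k W] {f g : M.V →ₗ[k] W}
    (h : ∀ i a c, f (bM.l.act a (bM.r.act (hM.x i) c)) = g (bM.l.act a (bM.r.act (hM.x i) c))) :
    f = g := by
  ext m
  obtain ⟨v, rfl⟩ := hM.comb_bij.2 m
  induction v using Finsupp.induction_linear with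
  | zero => simp only [map_zero]
  | add v w hv hw => simp only [map_add, hv, hw]
  | single i t =>
    rw [Finsupp.lsum_single]
    induction t using TensorProduct.induction_on with
    | zero => simp only [map_zero]
    | add v w hv hw => simp only [map_add, hv, hw]
    | tmul a c => exact h i a c

/-- the linear map with given values on the `a x_i c` -/
private noncomputable def ZA_lift {I : Type} {bM : Bi A A M} (hM : SemiFree bM I) {W : Type}
    [AddCommGroup W] [Module k W] (φ : I → A.V →ₗ[k] A.V →ₗ[k] W) : M.V →ₗ[k] W :=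
  Finsupp.lsum k (fun i => TensorProduct.lift (φ i)) ∘ₗ
    (LinearEquiv.ofBijective _ hM.comb_bij).symm.toLinearMap

private theorem ZA_lift_apply {I : Type} {bM : Bi A A M} (hM : SemiFree bM I) {W : Type}
    [AddCommGroup W] [Module k W] (φ : I → A.V →ₗ[k] A.V →ₗ[k] W) (i : I) (a c : A.V) :
    ZA_lift hM φ (bM.l.act a (bM.r.act (hM.x i) c)) = φ i a c := by
  have h1 : bM.l.act a (bM.r.act (hM.x i) c) =
      (LinearEquiv.ofBijective _ hM.comb_bij) (Finsupp.single i (a ⊗ₜ[k] c)) := by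
    rw [LinearEquiv.ofBijective_apply, Finsupp.lsum_single]
    rfl
  unfold ZA_lift
  rw [LinearMap.comp_apply, h1]
  erw [LinearEquiv.symm_apply_apply]
  rw [Finsupp.lsum_single]
  rfl

private theorem ZA_one_l {I : Type} {bM : Bi A A M} (hM : SemiFree bM I) (m : M.V) :
    bM.l.act 1 m = m := by
  have h : bM.l.act 1 = LinearMap.id := ZA_ext hM (fun i a c => by
    rw [← bM.l.mul_act, one_mul]
    rfl)
  rw [h]
  rfl

private theorem ZA_one_r {I : Type} {bM : Bi A A M} (hM : SemiFree bM I) (m : M.V) :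
    bM.r.act m 1 = m := by
  have h : bM.r.act.flip 1 = LinearMap.id := ZA_ext hM (fun i a c => by
    rw [LinearMap.flip_apply, bM.lr, bM.r.act_mul, mul_one]
    rfl)
  have h2 : bM.r.act.flip 1 m = m := by
    rw [h]
    rfl
  exact h2

private theorem ZA_lift_x {I : Type} {bM : Bi A A M} (hM : SemiFree bM I) {W : Type}
    [AddCommGroup W] [Module k W] (φ : I → A.V →ₗ[k] A.V →ₗ[k] W) (i : I) :
    ZA_lift hM φ (hM.x i) = φ i 1 1 := by
  have h := ZA_lift_apply hM φ i 1 1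
  rw [ZA_one_r hM, ZA_one_l hM] at h
  exact h

private theorem ZA_P_gen {bM : Bi A A M} (x : M.V) (a c : A.V) :
    M.P (bM.l.act a (bM.r.act x c)) =
      bM.l.act (A.P a) (bM.r.act (M.P x) (A.P c) + bM.r.act (x - M.P x) (c - A.P c)) +
      bM.l.act (a - A.P a) (bM.r.act x c - (bM.r.act (M.P x) (A.P c) +
        bM.r.act (x - M.P x) (c - A.P c))) := by
  rw [bM.l.P_act, bM.r.P_act]

/-- the even bimodule map with values `u i` at `x i` -/
private theorem ZA_even {I : Type} {bM : Bi A A M} (hM : SemiFree bM I) (bZ : Bi A A Z)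
    (u : I → Z.V)
    (hu : ∀ i, (M.P (hM.x i) = hM.x i ∧ Z.P (u i) = u i) ∨ (M.P (hM.x i) = 0 ∧ Z.P (u i) = 0)) :
    ZA_lift hM (fun i => bZ.l.act.compl₂ (bZ.r.act (u i))) ∈ lLin bM.l bZ.l ⊓ rLin bM.r bZ.r := by
  set ξ : M.V →ₗ[k] Z.V := ZA_lift hM (fun i => bZ.l.act.compl₂ (bZ.r.act (u i))) with hξ
  have hval : ∀ i a c, ξ (bM.l.act a (bM.r.act (hM.x i) c)) = bZ.l.act a (bZ.r.act (u i) c) :=
    fun i a c => ZA_lift_apply hM _ i a c
  have hev : ∀ m, ξ (M.P m) = Z.P (ξ m) := by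
    have h : ξ ∘ₗ M.P = Z.P ∘ₗ ξ := ZA_ext hM (fun i a c => by
      rw [LinearMap.comp_apply, LinearMap.comp_apply, hval, ZA_P_gen (bM := bM),
        ZA_P_gen (bM := bZ)]
      rcases hu i with ⟨h1, h2⟩ | ⟨h1, h2⟩
      · rw [h1, h2]
        simp only [sub_self, map_zero, LinearMap.zero_apply, add_zero, map_add, map_sub,
          LinearMap.sub_apply, hval]
      · rw [h1, h2]
        simp only [sub_zero, map_zero, LinearMap.zero_apply, zero_add, map_add, map_sub,
          LinearMap.sub_apply, hval])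
    intro m
    exact LinearMap.congr_fun h m
  have hhP : ∀ m, SD.hP M Z ξ m = ξ m := by
    intro m
    rw [SD.hP_apply, hev, map_sub, hev, map_sub, Z.PP]
    abel
  refine ⟨?_, ?_⟩
  · change ∀ a x, ξ (bM.l.act a x) = bZ.l.act a (SD.hP M Z ξ x) +
      bZ.l.act (A.E a) (ξ x - SD.hP M Z ξ x)
    intro a x
    rw [hhP, sub_self, map_zero, add_zero]
    have h : ξ ∘ₗ bM.l.act a = bZ.l.act a ∘ₗ ξ := ZA_ext hM (fun i a' c => by
      rw [LinearMap.comp_apply, LinearMap.comp_apply, hval, ← bM.l.mul_act, hval,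
        bZ.l.mul_act])
    exact LinearMap.congr_fun h x
  · change ∀ x b, ξ (bM.r.act x b) = bZ.r.act (ξ x) b
    intro x b
    have h : ξ ∘ₗ bM.r.act.flip b = bZ.r.act.flip b ∘ₗ ξ := ZA_ext hM (fun i a' c => by
      rw [LinearMap.comp_apply, LinearMap.comp_apply, hval, LinearMap.flip_apply,
        LinearMap.flip_apply, bM.lr, bM.r.act_mul, hval, bZ.lr, bZ.r.act_mul])
    exact LinearMap.congr_fun h x

/-- the odd bimodule map with values `w i` at `x i` -/
private theorem ZA_odd {I : Type} {bM : Bi A A M} (hM : SemiFree bM I) (bZ : Bi A A Z)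
    (w : I → Z.V)
    (hw : ∀ i, (M.P (hM.x i) = hM.x i ∧ Z.P (w i) = 0) ∨ (M.P (hM.x i) = 0 ∧ Z.P (w i) = w i)) :
    ZA_lift hM (fun i => (bZ.l.act ∘ₗ A.E).compl₂ (bZ.r.act (w i))) ∈
      lLin bM.l bZ.l ⊓ rLin bM.r bZ.r := by
  set ξ : M.V →ₗ[k] Z.V := ZA_lift hM (fun i => (bZ.l.act ∘ₗ A.E).compl₂ (bZ.r.act (w i))) with hξ
  have hval : ∀ i a c, ξ (bM.l.act a (bM.r.act (hM.x i) c)) =
      bZ.l.act (A.E a) (bZ.r.act (w i) c) :=
    fun i a c => ZA_lift_apply hM _ i a c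
  have hodd : ∀ m, ξ (M.P m) = ξ m - Z.P (ξ m) := by
    have h : ξ ∘ₗ M.P = ξ - Z.P ∘ₗ ξ := ZA_ext hM (fun i a c => by
      rw [LinearMap.sub_apply, LinearMap.comp_apply, LinearMap.comp_apply, hval,
        ZA_P_gen (bM := bM), ZA_P_gen (bM := bZ), A.PE]
      rcases hw i with ⟨h1, h2⟩ | ⟨h1, h2⟩
      · rw [h1, h2]
        simp only [sub_self, sub_zero, map_zero, LinearMap.zero_apply, zero_add, add_zero, map_add,
          map_sub, hval, SD.E_apply, A.PP, LinearMap.sub_apply, LinearMap.add_apply]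
        abel
      · rw [h1, h2]
        simp only [sub_self, sub_zero, map_zero, LinearMap.zero_apply, zero_add, add_zero, map_add,
          map_sub, hval, SD.E_apply, A.PP, LinearMap.sub_apply, LinearMap.add_apply]
        abel)
    intro m
    exact LinearMap.congr_fun h m
  have hhP : ∀ m, SD.hP M Z ξ m = 0 := by
    intro m
    rw [SD.hP_apply, map_sub, hodd, map_sub, map_sub, map_sub, Z.PP]
    abel
  refine ⟨?_, ?_⟩
  · change ∀ a x, ξ (bM.l.act a x) = bZ.l.act a (SD.hP M Z ξ x) +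
      bZ.l.act (A.E a) (ξ x - SD.hP M Z ξ x)
    intro a x
    rw [hhP, sub_zero, map_zero, zero_add]
    have h : ξ ∘ₗ bM.l.act a = bZ.l.act (A.E a) ∘ₗ ξ := ZA_ext hM (fun i a' c => by
      rw [LinearMap.comp_apply, LinearMap.comp_apply, hval, ← bM.l.mul_act, hval, A.E_mul,
        bZ.l.mul_act])
    exact LinearMap.congr_fun h x
  · change ∀ x b, ξ (bM.r.act x b) = bZ.r.act (ξ x) b
    intro x b
    have h : ξ ∘ₗ bM.r.act.flip b = bZ.r.act.flip b ∘ₗ ξ := ZA_ext hM (fun i a' c => by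
      rw [LinearMap.comp_apply, LinearMap.comp_apply, hval, LinearMap.flip_apply,
        LinearMap.flip_apply, bM.lr, bM.r.act_mul, hval, bZ.lr, bZ.r.act_mul])
    exact LinearMap.congr_fun h x

theorem homBi_ext {I : Type} {bM : Bi A A M} (hM : SemiFree bM I) {bZ : Bi A A Z}
    {ξ η : (HomBi bM bZ).V} (h : ∀ i, ξ.1 (hM.x i) = η.1 (hM.x i)) : ξ = η := by
  apply Subtype.ext
  refine ZA_ext hM (fun i a c => ?_)
  rw [ZA_val ξ (hM.par i), ZA_val η (hM.par i), h]

theorem homBiMk {I : Type} {bM : Bi A A M} (hM : SemiFree bM I) (bZ : Bi A A Z) (z : I → Z.V)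
    (hz : ∀ i, bZ.l.act 1 (z i) = z i ∧ bZ.r.act (z i) 1 = z i) :
    ∃ ξ : (HomBi bM bZ).V, ∀ i, ξ.1 (hM.x i) = z i := by
  classical
  have hq : ∀ i, (M.P (hM.x i) = hM.x i ∧ ZA_q M Z (hM.x i) = Z.P) ∨
      (M.P (hM.x i) = 0 ∧ ZA_q M Z (hM.x i) = LinearMap.id - Z.P) := by
    intro i
    unfold ZA_q
    by_cases h : M.P (hM.x i) = hM.x i
    · left
      exact ⟨h, if_pos h⟩
    · right
      exact ⟨(hM.par i).resolve_left h, if_neg h⟩
  have h0 := ZA_even hM bZ (fun i => ZA_q M Z (hM.x i) (z i)) (fun i => by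
    rcases hq i with ⟨h1, h2⟩ | ⟨h1, h2⟩
    · left
      refine ⟨h1, ?_⟩
      rw [h2, Z.PP]
    · right
      refine ⟨h1, ?_⟩
      rw [h2, LinearMap.sub_apply, LinearMap.id_apply, map_sub, Z.PP, sub_self])
  have h1 := ZA_odd hM bZ (fun i => z i - ZA_q M Z (hM.x i) (z i)) (fun i => by
    rcases hq i with ⟨h1, h2⟩ | ⟨h1, h2⟩
    · left
      refine ⟨h1, ?_⟩
      rw [h2, map_sub, Z.PP, sub_self]
    · right
      refine ⟨h1, ?_⟩
      rw [h2, LinearMap.sub_apply, LinearMap.id_apply, sub_sub_cancel, Z.PP])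
  refine ⟨⟨_, Submodule.add_mem _ h0 h1⟩, fun i => ?_⟩
  change ZA_lift hM _ (hM.x i) + ZA_lift hM _ (hM.x i) = z i
  rw [ZA_lift_x, ZA_lift_x]
  change bZ.l.act 1 (bZ.r.act (ZA_q M Z (hM.x i) (z i)) 1) +
    bZ.l.act (A.E 1) (bZ.r.act (z i - ZA_q M Z (hM.x i) (z i)) 1) = z i
  rw [A.E_one, ← map_add, ← LinearMap.add_apply, ← map_add, add_sub_cancel, (hz i).2, (hz i).1]

theorem homBi_ses {I : Type} {bM : Bi A A M} (hM : SemiFree bM I) {bZ' : Bi A A Z'}
    {bZ : Bi A A Z} {bZ'' : Bi A A Z''} {f : SD.Hom Z' Z} {g : SD.Hom Z Z''}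
    (hf : bZ'.IsHom bZ f) (hg : bZ.IsHom bZ'' g) (h : SD.SES f g)
    (h1 : ∀ z, bZ.l.act 1 z = z) (h2 : ∀ z, bZ.r.act z 1 = z) :
    SD.SES (homBiMap bM f hf) (homBiMap bM g hg) where
  inj := by
    intro ξ hξ
    apply Subtype.ext
    refine LinearMap.ext (fun m => ?_)
    have h3 : f.f (ξ.1 m) = 0 := by
      rw [← homBiMap_apply bM f hf ξ m, hξ]
      rfl
    exact h.inj _ h3
  surj := by
    intro ζ
    choose z hz using fun i => h.surj (ζ.1 (hM.x i))
    obtain ⟨ξ, hξ⟩ := homBiMk hM bZ z (fun i => ⟨h1 _, h2 _⟩)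
    refine ⟨ξ, homBi_ext hM (fun i => ?_)⟩
    rw [homBiMap_apply, hξ, hz]
  zero := by
    intro ξ
    apply Subtype.ext
    refine LinearMap.ext (fun m => ?_)
    rw [homBiMap_apply, homBiMap_apply, h.zero]
    rfl
  exact := by
    intro η hη
    have h3 : ∀ i, g.f (η.1 (hM.x i)) = 0 := by
      intro i
      rw [← homBiMap_apply bM g hg η, hη]
      rfl
    choose z hz using fun i => h.exact _ (h3 i)
    have hinj : ∀ x y, f.f x = f.f y → x = y := by
      intro x y hxy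
      have h4 : f.f (x - y) = 0 := by rw [map_sub, hxy, sub_self]
      exact sub_eq_zero.1 (h.inj _ h4)
    obtain ⟨ξ, hξ⟩ := homBiMk hM bZ' z (fun i => ⟨hinj _ _ (by rw [hf.l, h1]),
      hinj _ _ (by rw [hf.r, h2])⟩)
    refine ⟨ξ, homBi_ext hM (fun i => ?_)⟩
    rw [homBiMap_apply, hξ, hz]

private theorem ZA_agree {I : Type} {bM : Bi A A M} (hM : SemiFree bM I) {bZ : Bi A A Z} (n : ℕ)
    {ξ η : (HomBi bM bZ).V} (h : ∀ j, hM.rk j < n → ξ.1 (hM.x j) = η.1 (hM.x j)) {m : M.V}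
    (hm : m ∈ Submodule.span k
      {m | ∃ j a c, hM.rk j < n ∧ m = bM.l.act a (bM.r.act (hM.x j) c)}) :
    ξ.1 m = η.1 m := by
  induction hm using Submodule.span_induction with
  | mem x hx =>
    obtain ⟨j, a, c, hj, rfl⟩ := hx
    rw [ZA_val ξ (hM.par j), ZA_val η (hM.par j), h j hj]
  | zero => rw [map_zero, map_zero]
  | add x y _ _ hx hy => rw [map_add, map_add, hx, hy]
  | smul c x _ hx => rw [map_smul, map_smul, hx]

private theorem ZA_ED_mem {I : Type} {bM : Bi A A M} (hM : SemiFree bM I) (i : I) :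
    M.E (M.D (hM.x i)) ∈ Submodule.span k
      {m | ∃ j a c, hM.rk j < hM.rk i ∧ m = bM.l.act a (bM.r.act (hM.x j) c)} := by
  have h := hM.D_mem i
  rw [M.ED]
  rcases hM.par i with h1 | h1
  · rw [SD.IsEven.E h1]
    exact Submodule.neg_mem _ h
  · rw [SD.IsOdd.E h1, map_neg, neg_neg]
    exact h

theorem homBi_acyclic {I : Type} {bM : Bi A A M} (hM : SemiFree bM I) {bZ : Bi A A Z}
    (h1 : ∀ z, bZ.l.act 1 z = z) (h2 : ∀ z, bZ.r.act z 1 = z) (hZ : Z.Acyclic) :
    (HomBi bM bZ).Acyclic := by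
  classical
  intro ξ hξ
  have hDv : ∀ (η : (HomBi bM bZ).V) (m : M.V),
      ((HomBi bM bZ).D η).1 m = Z.D (η.1 m) - Z.E (η.1 (M.E (M.D m))) :=
    fun η m => SD.hD_apply M Z η.1 m
  have hξ' : ∀ m, Z.D (ξ.1 m) = Z.E (ξ.1 (M.E (M.D m))) := by
    intro m
    have h3 := hDv ξ m
    rw [hξ] at h3
    exact (sub_eq_zero.1 h3.symm)
  let S : ℕ → (HomBi bM bZ).V → Prop := fun n η =>
    ∀ j, hM.rk j < n → ((HomBi bM bZ).D η).1 (hM.x j) = ξ.1 (hM.x j)
  have step : ∀ n, ∀ η, S n η → ∃ η', S (n + 1) η' ∧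
      ∀ j, hM.rk j < n → η'.1 (hM.x j) = η.1 (hM.x j) := by
    intro n η hη
    have hy : ∀ i, hM.rk i = n → ∃ y, Z.D y = ξ.1 (hM.x i) + Z.E (η.1 (M.E (M.D (hM.x i)))) := by
      intro i hi
      apply hZ
      have h3 : ((HomBi bM bZ).D η).1 (M.E (M.D (hM.x i))) = ξ.1 (M.E (M.D (hM.x i))) :=
        ZA_agree hM n hη (by
          have := ZA_ED_mem hM i
          rwa [hi] at this)
      rw [hDv] at h3
      have h4 : M.D (M.E (M.D (hM.x i))) = 0 := by rw [M.DE, M.DD, map_zero, neg_zero]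
      rw [h4, map_zero, map_zero, map_zero, sub_zero] at h3
      rw [map_add, hξ', Z.DE, h3, add_neg_cancel]
    choose! y hy using hy
    obtain ⟨η', hη'⟩ := homBiMk hM bZ
      (fun j => if hM.rk j = n then y j else η.1 (hM.x j)) (fun i => ⟨h1 _, h2 _⟩)
    have hag : ∀ j, hM.rk j < n → η'.1 (hM.x j) = η.1 (hM.x j) := by
      intro j hj
      rw [hη', if_neg hj.ne]
    refine ⟨η', ?_, hag⟩
    intro i hi
    have h3 : η'.1 (M.E (M.D (hM.x i))) = η.1 (M.E (M.D (hM.x i))) := by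
      refine ZA_agree hM (hM.rk i) (fun j hj => hag j (by omega)) (ZA_ED_mem hM i)
    rw [hDv, h3]
    rcases Nat.lt_succ_iff_lt_or_eq.1 hi with hi | hi
    · rw [hag i hi, ← hDv]
      exact hη i hi
    · rw [hη', if_pos hi, hy i hi, add_sub_cancel_right]
  choose! G hG1 hG2 using step
  let F : ℕ → (HomBi bM bZ).V := fun n => Nat.rec 0 (fun n η => G n η) n
  have hF0 : F 0 = 0 := rfl
  have hFs : ∀ n, F (n + 1) = G n (F n) := fun n => rfl
  have hS : ∀ n, S n (F n) := by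
    intro n
    induction n with
    | zero => intro j hj; omega
    | succ n ih => rw [hFs]; exact hG1 n _ ih
  have hco : ∀ n m, n ≤ m → ∀ j, hM.rk j < n → (F m).1 (hM.x j) = (F n).1 (hM.x j) := by
    intro n m hnm
    induction m, hnm using Nat.le_induction with
    | base => intro j _; rfl
    | succ m hm ih =>
      intro j hj
      rw [hFs, hG2 m _ (hS m) j (by omega), ih j hj]
  obtain ⟨η, hη⟩ := homBiMk hM bZ (fun j => (F (hM.rk j + 1)).1 (hM.x j))
    (fun i => ⟨h1 _, h2 _⟩)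
  refine ⟨η, homBi_ext hM (fun i => ?_)⟩
  have h3 : ∀ j, hM.rk j < hM.rk i + 1 → η.1 (hM.x j) = (F (hM.rk i + 1)).1 (hM.x j) := by
    intro j hj
    rw [hη, hco (hM.rk j + 1) (hM.rk i + 1) (by omega) j (by omega)]
  have h4 : η.1 (M.E (M.D (hM.x i))) = (F (hM.rk i + 1)).1 (M.E (M.D (hM.x i))) :=
    ZA_agree hM (hM.rk i) (fun j hj => h3 j (by omega)) (ZA_ED_mem hM i)
  rw [hDv, h4, h3 i (by omega), ← hDv]
  exact hS (hM.rk i + 1) i (by omega)

end NC
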