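import Pool.Agent.H16.NC.ZA
import Pool.Agent.H16.NC.ZB
import Pool.Agent.H36.NX.RPB

/-!
# ZClo : the contraction is a quasi-isomorphism for perfect bimodules, the lift of the identity

`ZC bM bZ` : the contraction `contrE bM bZ : GG bZ (bMv bM) → HomBi bM bZ` is a
quasi-isomorphism.  For `M` semi-free the class of all `Z` with `ZC` contains the free bimodule
(`ZC_free`), all acyclic bimodules, and is closed under quasi-isomorphisms, two out of three in
short exact sequences, shifts and homotopy retracts; hence it contains all perfect bimodules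
(induction `PF.rec`).

* `homBi_qi`: `(u, v) ↦ (m ↦ (u m, v m))` is a bijective chain map
  `cone (homBiMap bM f h) → HomBi bM (coneBi h)` (`cone`, `coneBi`, `qi_iff_cone`,
  `BM.acyclic_of_iso` in H28/NC/BarBase.lean), the target is acyclic by `homBi_acyclic`.
* `ZC_acyclic`: `acyclic_bar_left`, `hc_acyclic`, `homBi_acyclic`, `SD.Hom.QI.of_acyclic`.
* `ZC_qi_iff`: the square `contrE_nat`, `gMap_qi`, `homBi_qi`, `QI.comp`, `QI.of_comp_left/right`.
* `ZC_ses*`: `ses_bar_left`, `SES_hc`, `homBi_ses`, `SD.SES.qi_left/mid/right`.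
* `ZC_sh`: the sequence `Z → cone (id) → Z.sh` (as bimodules), `cone (id)` is acyclic.
* `ZC_retr`: if `s : X → F`, `r : F → X` are bimodule maps, `r ∘ s` is a quasi-isomorphism and
  `ZC F` then `ZC X` (retract argument with the three squares `contrE_nat`; `gMapL (r ∘ s)` and
  `homBiMap (r ∘ s)` are quasi-isomorphisms by `gMap_qi`, `homBi_qi`; elementwise).
-/

open scoped TensorProduct

namespace NC

variable {k : Type} [Field k] {A : DGA k} {M : SD k}

private theorem ZClo_mem_prod (bM : Bi A A M) {X Y : BMod A A} (f : BMod.Hom X Y)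
    (u : (HomBi bM Y.b).V) (v : (HomBi bM X.b).V) :
    (LinearMap.prod u.1 v.1 : M.V →ₗ[k] (Y.N.V × X.N.V)) ∈
      lLin bM.l (coneBi f.isHom).l ⊓ rLin bM.r (coneBi f.isHom).r := by
  have hul : ∀ a x, u.1 (bM.l.act a x) = Y.b.l.act a (SD.hP M Y.N u.1 x) +
    Y.b.l.act (A.E a) (u.1 x - SD.hP M Y.N u.1 x) := u.2.1
  have hvl : ∀ a x, v.1 (bM.l.act a x) = X.b.l.act a (SD.hP M X.N v.1 x) +
    X.b.l.act (A.E a) (v.1 x - SD.hP M X.N v.1 x) := v.2.1
  have hur : ∀ x b, u.1 (bM.r.act x b) = Y.b.r.act (u.1 x) b := u.2.2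
  have hvr : ∀ x b, v.1 (bM.r.act x b) = X.b.r.act (v.1 x) b := v.2.2
  constructor
  · intro a x
    refine Prod.ext ?_ ?_
    · change u.1 (bM.l.act a x) = Y.b.l.act a
        (Y.N.P (u.1 (M.P x)) + (u.1 (x - M.P x) - Y.N.P (u.1 (x - M.P x)))) +
        Y.b.l.act (A.E a) (u.1 x -
          (Y.N.P (u.1 (M.P x)) + (u.1 (x - M.P x) - Y.N.P (u.1 (x - M.P x)))))
      exact hul a x
    · change v.1 (bM.l.act a x) = X.b.l.act (A.E a)
        ((v.1 (M.P x) - X.N.P (v.1 (M.P x))) +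
          (v.1 (x - M.P x) - (v.1 (x - M.P x) - X.N.P (v.1 (x - M.P x))))) +
        X.b.l.act (A.E (A.E a)) (v.1 x -
          ((v.1 (M.P x) - X.N.P (v.1 (M.P x))) +
          (v.1 (x - M.P x) - (v.1 (x - M.P x) - X.N.P (v.1 (x - M.P x))))))
      rw [hvl, A.EE, SD.hP_apply]
      simp only [map_sub, map_add]
      abel
  · intro x b
    exact Prod.ext (hur x b) (hvr x b)

private theorem ZClo_mem_fst (bM : Bi A A M) {X Y : BMod A A} (f : BMod.Hom X Y)
    (η : (HomBi bM (coneBi f.isHom)).V) :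
    (LinearMap.fst k Y.N.V X.N.V ∘ₗ η.1 : M.V →ₗ[k] Y.N.V) ∈
      lLin bM.l Y.b.l ⊓ rLin bM.r Y.b.r := by
  have hl : ∀ a x, η.1 (bM.l.act a x) = (coneBi f.isHom).l.act a (SD.hP M (cone f.toHom) η.1 x) +
    (coneBi f.isHom).l.act (A.E a) (η.1 x - SD.hP M (cone f.toHom) η.1 x) := η.2.1
  have hr : ∀ x b, η.1 (bM.r.act x b) = (coneBi f.isHom).r.act (η.1 x) b := η.2.2
  constructor
  · intro a x
    exact congrArg Prod.fst (hl a x)
  · intro x b
    exact congrArg Prod.fst (hr x b)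

private theorem ZClo_mem_snd (bM : Bi A A M) {X Y : BMod A A} (f : BMod.Hom X Y)
    (η : (HomBi bM (coneBi f.isHom)).V) :
    (LinearMap.snd k Y.N.V X.N.V ∘ₗ η.1 : M.V →ₗ[k] X.N.V) ∈
      lLin bM.l X.b.l ⊓ rLin bM.r X.b.r := by
  have hl : ∀ a x, η.1 (bM.l.act a x) = (coneBi f.isHom).l.act a (SD.hP M (cone f.toHom) η.1 x) +
    (coneBi f.isHom).l.act (A.E a) (η.1 x - SD.hP M (cone f.toHom) η.1 x) := η.2.1
  have hr : ∀ x b, η.1 (bM.r.act x b) = (coneBi f.isHom).r.act (η.1 x) b := η.2.2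
  constructor
  · intro a x
    have h1 : (η.1 (bM.l.act a x)).2 = X.b.l.act (A.E a)
        (((η.1 (M.P x)).2 - X.N.P ((η.1 (M.P x)).2)) +
          ((η.1 (x - M.P x)).2 - ((η.1 (x - M.P x)).2 - X.N.P ((η.1 (x - M.P x)).2)))) +
        X.b.l.act (A.E (A.E a)) ((η.1 x).2 -
          (((η.1 (M.P x)).2 - X.N.P ((η.1 (M.P x)).2)) +
          ((η.1 (x - M.P x)).2 - ((η.1 (x - M.P x)).2 - X.N.P ((η.1 (x - M.P x)).2))))) :=
      congrArg Prod.snd (hl a x)
    change (η.1 (bM.l.act a x)).2 = X.b.l.act a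
        (X.N.P ((η.1 (M.P x)).2) + ((η.1 (x - M.P x)).2 - X.N.P ((η.1 (x - M.P x)).2))) +
        X.b.l.act (A.E a) ((η.1 x).2 -
          (X.N.P ((η.1 (M.P x)).2) + ((η.1 (x - M.P x)).2 - X.N.P ((η.1 (x - M.P x)).2))))
    rw [h1, A.EE]
    simp only [map_sub, map_add, Prod.snd_sub]
    abel
  · intro x b
    exact congrArg Prod.snd (hr x b)

theorem homBi_qi {I : Type} {bM : Bi A A M} (hM : SemiFree bM I) {X Y : BMod A A}
    (f : BMod.Hom X Y) (hf : f.toHom.QI) : (homBiMap bM f.toHom f.isHom).QI := by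
  have hZ : (cone f.toHom).Acyclic := (qi_iff_cone _).1 hf
  have h1 : (HomBi bM (coneBi f.isHom)).Acyclic := by
    refine homBi_acyclic hM (fun z => ?_) (fun z => ?_) hZ
    · change (Y.b.l.act 1 z.1, X.b.l.act (A.E 1) z.2) = z
      rw [A.E_one, Y.one_l, X.one_l]
    · change (Y.b.r.act z.1 1, X.b.r.act z.2 1) = z
      rw [Y.r_one, X.r_one]
  rw [qi_iff_cone]
  rintro ⟨u, v⟩ huv
  have e1 : (HomBi bM Y.b).D u + (homBiMap bM f.toHom f.isHom).f v = 0 := congrArg Prod.fst huv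
  have e2 : -((HomBi bM X.b).D v) = 0 := congrArg Prod.snd huv
  obtain ⟨η, hη⟩ := h1 ⟨LinearMap.prod u.1 v.1, ZClo_mem_prod bM f u v⟩ (by
    refine Subtype.ext (LinearMap.ext fun m => ?_)
    change SD.hD M (cone f.toHom) (LinearMap.prod u.1 v.1) m = 0
    rw [SD.hD_apply, cone_E]
    have e1' : SD.hD M Y.N u.1 m + f.f (v.1 m) = 0 :=
      LinearMap.congr_fun (congrArg Subtype.val e1) m
    have e2' : -(SD.hD M X.N v.1 m) = 0 := LinearMap.congr_fun (congrArg Subtype.val e2) m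
    rw [SD.hD_apply] at e1' e2'
    refine Prod.ext ?_ ?_
    · change Y.N.D (u.1 m) + f.f (v.1 m) - Y.N.E (u.1 (M.E (M.D m))) = 0
      rw [← e1']; abel
    · change -(X.N.D (v.1 m)) - -(X.N.E (v.1 (M.E (M.D m)))) = 0
      rw [← e2']; abel)
  refine ⟨(⟨_, ZClo_mem_fst bM f η⟩, ⟨_, ZClo_mem_snd bM f η⟩), ?_⟩
  have hη' : ∀ m, SD.hD M (cone f.toHom) η.1 m = (u.1 m, v.1 m) := fun m =>
    LinearMap.congr_fun (congrArg Subtype.val hη) m
  refine Prod.ext (Subtype.ext (LinearMap.ext fun m => ?_))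
    (Subtype.ext (LinearMap.ext fun m => ?_))
  · have h2 := hη' m
    rw [SD.hD_apply, cone_E] at h2
    have h3 : Y.N.D (η.1 m).1 + f.f (η.1 m).2 - Y.N.E (η.1 (M.E (M.D m))).1 = u.1 m :=
      congrArg Prod.fst h2
    change SD.hD M Y.N (LinearMap.fst k Y.N.V X.N.V ∘ₗ η.1) m + f.f (η.1 m).2 = u.1 m
    rw [SD.hD_apply, ← h3]
    change Y.N.D (η.1 m).1 - Y.N.E (η.1 (M.E (M.D m))).1 + f.f (η.1 m).2 = _
    abel
  · have h2 := hη' m
    rw [SD.hD_apply, cone_E] at h2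
    have h3 : -(X.N.D (η.1 m).2) - -(X.N.E (η.1 (M.E (M.D m))).2) = v.1 m :=
      congrArg Prod.snd h2
    change -(SD.hD M X.N (LinearMap.snd k Y.N.V X.N.V ∘ₗ η.1) m) = v.1 m
    rw [SD.hD_apply, ← h3]
    change -(X.N.D (η.1 m).2 - X.N.E (η.1 (M.E (M.D m))).2) = _
    abel

theorem ZC_acyclic {I : Type} {bM : Bi A A M} (hM : SemiFree bM I) (X : BMod A A)
    (hX : X.N.Acyclic) : ZC bM X.b :=
  SD.Hom.QI.of_acyclic _ (hc_acyclic _ (acyclic_bar_left _ _ hX))
    (homBi_acyclic hM X.one_l X.r_one hX)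

theorem ZC_qi_iff {I : Type} {bM : Bi A A M} (hM : SemiFree bM I) {X Y : BMod A A}
    (f : BMod.Hom X Y) (hf : f.toHom.QI) : ZC bM X.b ↔ ZC bM Y.b := by
  have hg : (gMapL bM f.toHom f.isHom).QI := gMap_qi _ _ _ _ hf (SD.Hom.QI.id _)
  have hH := homBi_qi hM f hf
  have he : (homBiMap bM f.toHom f.isHom).comp (contrE bM X.b) =
      (contrE bM Y.b).comp (gMapL bM f.toHom f.isHom) :=
    BM.hom_ext (fun v => contrE_nat bM f.toHom f.isHom v)
  constructor
  · intro h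
    refine SD.Hom.QI.of_comp_right hg ?_
    rw [← he]
    exact SD.Hom.QI.comp hH h
  · intro h
    refine SD.Hom.QI.of_comp_left hH ?_
    rw [he]
    exact SD.Hom.QI.comp h hg

private theorem ZClo_sesG (bM : Bi A A M) {X' X X'' : BMod A A}
    (f : BMod.Hom X' X) (g : BMod.Hom X X'') (h : SD.SES f.toHom g.toHom) :
    SD.SES (gMapL bM f.toHom f.isHom) (gMapL bM g.toHom g.isHom) :=
  SES_hc _ _ _ _ _ _ _ (ses_bar_left h f.isHom.r g.isHom.r (bMv bM).l)

theorem ZC_ses1 {I : Type} {bM : Bi A A M} (hM : SemiFree bM I) {X' X X'' : BMod A A}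
    (f : BMod.Hom X' X) (g : BMod.Hom X X'') (h : SD.SES f.toHom g.toHom)
    (h1 : ZC bM X'.b) (h2 : ZC bM X.b) : ZC bM X''.b :=
  SD.SES.qi_right (ZClo_sesG bM f g h) (homBi_ses hM f.isHom g.isHom h X.one_l X.r_one)
    (fun v => (contrE_nat bM f.toHom f.isHom v).symm)
    (fun v => (contrE_nat bM g.toHom g.isHom v).symm) h1 h2

theorem ZC_ses2 {I : Type} {bM : Bi A A M} (hM : SemiFree bM I) {X' X X'' : BMod A A}
    (f : BMod.Hom X' X) (g : BMod.Hom X X'') (h : SD.SES f.toHom g.toHom)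
    (h1 : ZC bM X'.b) (h2 : ZC bM X''.b) : ZC bM X.b :=
  SD.SES.qi_mid (ZClo_sesG bM f g h) (homBi_ses hM f.isHom g.isHom h X.one_l X.r_one)
    (fun v => (contrE_nat bM f.toHom f.isHom v).symm)
    (fun v => (contrE_nat bM g.toHom g.isHom v).symm) h1 h2

theorem ZC_ses3 {I : Type} {bM : Bi A A M} (hM : SemiFree bM I) {X' X X'' : BMod A A}
    (f : BMod.Hom X' X) (g : BMod.Hom X X'') (h : SD.SES f.toHom g.toHom)
    (h1 : ZC bM X.b) (h2 : ZC bM X''.b) : ZC bM X'.b :=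
  SD.SES.qi_left (ZClo_sesG bM f g h) (homBi_ses hM f.isHom g.isHom h X.one_l X.r_one)
    (fun v => (contrE_nat bM f.toHom f.isHom v).symm)
    (fun v => (contrE_nat bM g.toHom g.isHom v).symm) h1 h2

/-- the cone of the identity as a unital bimodule -/
private noncomputable def ZCloCone (X : BMod A A) : BMod A A where
  N := cone (SD.Hom.id X.N)
  b := coneBi (Bi.isHom_id X.b)
  one_l := fun y => by
    change (X.b.l.act 1 y.1, X.b.l.act (A.E 1) y.2) = y
    rw [A.E_one, X.one_l, X.one_l]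
  r_one := fun y => by
    change (X.b.r.act y.1 1, X.b.r.act y.2 1) = y
    rw [X.r_one, X.r_one]

private noncomputable def ZCloIn (X : BMod A A) : BMod.Hom X (ZCloCone X) where
  f := LinearMap.inl k X.N.V X.N.V
  D := fun v => by
    change ((X.N.D v, 0) : X.N.V × X.N.V) = (X.N.D v + (0 : X.N.V), -(X.N.D 0))
    rw [map_zero, neg_zero, add_zero]
  P := fun v => by
    change ((X.N.P v, 0) : X.N.V × X.N.V) = (X.N.P v, (0 : X.N.V) - X.N.P 0)
    rw [map_zero, sub_zero]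
  isHom := by
    constructor
    · intro a v
      change ((X.b.l.act a v, 0) : X.N.V × X.N.V) = (X.b.l.act a v, X.b.l.act (A.E a) 0)
      rw [map_zero]
    · intro v a
      change ((X.b.r.act v a, 0) : X.N.V × X.N.V) = (X.b.r.act v a, X.b.r.act 0 a)
      rw [map_zero, LinearMap.zero_apply]

private noncomputable def ZCloPr (X : BMod A A) : BMod.Hom (ZCloCone X) X.sh where
  f := LinearMap.snd k X.N.V X.N.V
  D := fun v => rfl
  P := fun v => rfl
  isHom := by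
    constructor
    · intro a v
      rfl
    · intro v a
      rfl

theorem ZC_sh {I : Type} {bM : Bi A A M} (hM : SemiFree bM I) (X : BMod A A)
    (h : ZC bM X.b) : ZC bM X.sh.b := by
  refine ZC_ses1 hM (ZCloIn X) (ZCloPr X) ⟨fun x hx => ?_, fun z => ⟨(0, z), rfl⟩,
    fun x => rfl, fun y hy => ⟨y.1, ?_⟩⟩ h
    (ZC_acyclic hM (ZCloCone X) ((qi_iff_cone _).1 (SD.Hom.QI.id X.N)))
  · exact congrArg Prod.fst hx
  · have hy' : y.2 = 0 := hy
    exact Prod.ext rfl hy'.symm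

private theorem ZClo_qi_htpy {N : SD k} (φ : SD.Hom N N) (h : N.V →ₗ[k] N.V)
    (e : ∀ x, φ.f x = x + N.D (h x) + h (N.D x)) : φ.QI := by
  constructor
  · intro x y hx hxy
    refine ⟨y - h x, ?_⟩
    have h1 := e x
    rw [hx, map_zero, add_zero, hxy] at h1
    rw [map_sub, h1]
    abel
  · intro y hy
    refine ⟨y, -(h y), hy, ?_⟩
    rw [e y, hy, map_zero, add_zero, map_neg]
    abel

private theorem ZClo_gcomp (bM : Bi A A M) {X F Y : BMod A A} (s : BMod.Hom X F)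
    (r : BMod.Hom F Y) (v : (GG X.b (bMv bM)).V) :
    (gMapL bM r.toHom r.isHom).f ((gMapL bM s.toHom s.isHom).f v) =
      (gMapL bM (r.toHom.comp s.toHom) (s.isHom.comp r.isHom)).f v := by
  change Wd.mh A.V (barMap r.toHom (SD.Hom.id (Mv bM)) r.isHom.r _).f
    (Wd.mh A.V (barMap s.toHom (SD.Hom.id (Mv bM)) s.isHom.r _).f v) =
    Wd.mh A.V (barMap (r.toHom.comp s.toHom) (SD.Hom.id (Mv bM)) _ _).f v
  rw [Wd.mh_comp]
  refine Wd.mh_congr (fun n => ?_) v
  exact BM.HT_HT s.f r.f n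

theorem ZC_retr {I : Type} {bM : Bi A A M} (hM : SemiFree bM I) {X F : BMod A A}
    (H : HRet X F) (h : ZC bM F.b) : ZC bM X.b := by
  have hφ : (H.r.toHom.comp H.s.toHom).QI := ZClo_qi_htpy _ H.h H.eq
  have hG : (gMapL bM (H.r.toHom.comp H.s.toHom) (H.s.isHom.comp H.r.isHom)).QI :=
    gMap_qi _ _ _ _ hφ (SD.Hom.QI.id _)
  have hB := homBi_qi hM (X := X) (Y := X)
    { toHom := H.r.toHom.comp H.s.toHom, isHom := H.s.isHom.comp H.r.isHom } hφ
  constructor
  · intro x y hx hxy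
    obtain ⟨z, hz⟩ := h.inj ((gMapL bM H.s.toHom H.s.isHom).f x)
      ((homBiMap bM H.s.toHom H.s.isHom).f y) (by
        rw [← (gMapL bM H.s.toHom H.s.isHom).D, hx, map_zero]) (by
        rw [← contrE_nat, hxy, (homBiMap bM H.s.toHom H.s.isHom).D])
    refine hG.inj x ((gMapL bM H.r.toHom H.r.isHom).f z) hx ?_
    rw [← ZClo_gcomp, ← hz, (gMapL bM H.r.toHom H.r.isHom).D]
  · intro y hy
    obtain ⟨y', w, hy', e⟩ := hB.surj y hy
    obtain ⟨z, u, hz, e'⟩ := h.surj ((homBiMap bM H.s.toHom H.s.isHom).f y') (by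
      rw [← (homBiMap bM H.s.toHom H.s.isHom).D, hy', map_zero])
    refine ⟨(gMapL bM H.r.toHom H.r.isHom).f z, (homBiMap bM H.r.toHom H.r.isHom).f u + w, ?_, ?_⟩
    · rw [← (gMapL bM H.r.toHom H.r.isHom).D, hz, map_zero]
    · have e2 : (homBiMap bM (H.r.toHom.comp H.s.toHom) (H.s.isHom.comp H.r.isHom)).f y' =
          (homBiMap bM H.r.toHom H.r.isHom).f ((homBiMap bM H.s.toHom H.s.isHom).f y') := rfl
      have e3 : y = (homBiMap bM (H.r.toHom.comp H.s.toHom) (H.s.isHom.comp H.r.isHom)).f y' +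
        (HomBi bM X.b).D w := e
      rw [e3, e2, e', map_add, contrE_nat, (homBiMap bM H.r.toHom H.r.isHom).D, map_add]
      abel

theorem ZC_of_PF {I : Type} {bM : Bi A A M} (hM : SemiFree bM I) {X : BMod A A}
    (hX : PF A X) : ZC bM X.b := by
  induction hX with
  | free => exact ZC_free bM
  | @sh X _ ih => exact ZC_sh hM X ih
  | qi f hf _ ih => exact (ZC_qi_iff hM f hf).1 ih
  | qi' f hf _ ih => exact (ZC_qi_iff hM f hf).2 ih
  | ses1 f g h _ _ ih' ih => exact ZC_ses1 hM f g h ih' ih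
  | ses2 f g h _ _ ih' ih'' => exact ZC_ses2 hM f g h ih' ih''
  | ses3 f g h _ _ ih ih'' => exact ZC_ses3 hM f g h ih ih''
  | retr h _ ih => exact ZC_retr hM h ih

/-- the identity of `M` lifts to a cycle of `G` -/
theorem exists_lift_id (hPF : PF A (BMod.diag A)) (M : BMod A A) {I : Type}
    (hS : SemiFree M.b I) (hR : RPf M.b.r) :
    ∃ (z : (GG M.b (bMv M.b)).V) (h : (HomBi M.b M.b).V),
      (GG M.b (bMv M.b)).D z = 0 ∧
        (contrE M.b M.b).f z = (EndBi M.b).one + (HomBi M.b M.b).D h := by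
  have hQ : (contrE M.b M.b).QI := ZC_of_PF hS (PF_of_RPf hPF M hR)
  obtain ⟨z, w, hz, e⟩ := hQ.surj (EndBi M.b).one (EndBi M.b).D_one
  refine ⟨z, -w, hz, ?_⟩
  have e' : (EndBi M.b).one = (contrE M.b M.b).f z + (HomBi M.b M.b).D w := e
  rw [e', map_neg]
  abel

end NC
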